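import Pool.Agent.Helper32.LV.Final

/-! The Leavitt path algebra as a type with its operations, and the main theorem for it. The
definitions here only use the relations `Rel` of `Defs.lean`. -/

set_option autoImplicit false

universe k a b a' b'

namespace Pool.Agent.Helper32.LV

variable {V : Type a} {E : Type b} {V' : Type a'} {E' : Type b'}

/-- The generators in the unital algebra presented by the relations. -/
noncomputable def qgen (K : Type k) [Field K] (G : Gr V E) (x : Gen V E) : RingQuot (Rel K G) :=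
  RingQuot.mkAlgHom K (Rel K G) (FreeAlgebra.ι K x)

/-- The subalgebra generated by the vertices, edges and ghost edges. -/
noncomputable def LQ (K : Type k) [Field K] (G : Gr V E) :
    NonUnitalSubalgebra K (RingQuot (Rel K G)) :=
  NonUnitalAlgebra.adjoin K (Set.range (qgen K G))

/-- The Leavitt path algebra of `G` over `K`. -/
def LPA (K : Type k) [Field K] (G : Gr V E) : Type (max k a b) := ↥(LQ K G)

noncomputable instance instRingLPA (K : Type k) [Field K] (G : Gr V E) :
    NonUnitalRing (LPA K G) := NonUnitalSubalgebra.toNonUnitalRing (LQ K G)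

noncomputable instance instModuleLPA (K : Type k) [Field K] (G : Gr V E) :
    Module K (LPA K G) := NonUnitalSubalgebra.instModule (S := LQ K G)

theorem qgen_mem (K : Type k) [Field K] (G : Gr V E) (x : Gen V E) : qgen K G x ∈ LQ K G :=
  NonUnitalAlgebra.subset_adjoin K ⟨_, rfl⟩

/-- The generators of the Leavitt path algebra. -/
noncomputable def LPA.gen (K : Type k) [Field K] (G : Gr V E) (x : Gen V E) : LPA K G :=
  ⟨qgen K G x, qgen_mem K G x⟩

/-- `σ` is the involution `v ↦ v`, `e ↦ e*`, `e* ↦ e`. -/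
structure IsStar (K : Type k) [Field K] [StarRing K] (G : Gr V E) (σ : LPA K G → LPA K G) :
    Prop where
  add : ∀ x y, σ (x + y) = σ x + σ y
  mul : ∀ x y, σ (x * y) = σ y * σ x
  smul : ∀ (c : K) x, σ (c • x) = star c • σ x
  gen : ∀ x, σ (LPA.gen K G x) = LPA.gen K G x.sw

/-- the involution of `L K G` -/
noncomputable def sg (K : Type k) [Field K] [StarRing K] (G : Gr V E) (x : LPA K G) : LPA K G :=
  (star (show ↥(L K G) from x) : ↥(L K G))

theorem isStar_sg (K : Type k) [Field K] [StarRing K] (G : Gr V E) : IsStar K G (sg K G) where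
  add x y := Subtype.ext (star_add' x.1 y.1)
  mul x y := Subtype.ext (star_mul' x.1 y.1)
  smul c x := Subtype.ext (star_smul c (show U K G from x.1))
  gen x := by
    cases x with
    | vert v => exact Subtype.ext (star_vx v)
    | edge v => exact Subtype.ext (star_ed v)
    | ghost v => exact Subtype.ext (star_gh v)

theorem exists_star (K : Type k) [Field K] [StarRing K] (G : Gr V E) : ∃ σ, IsStar K G σ :=
  ⟨sg K G, isStar_sg K G⟩

noncomputable instance instStarLPA (K : Type k) [Field K] [StarRing K] (G : Gr V E) :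
    Star (LPA K G) := ⟨Classical.choose (exists_star K G)⟩

theorem IsStar.zero {K : Type k} [Field K] [StarRing K] {G : Gr V E} {σ : LPA K G → LPA K G}
    (h : IsStar K G σ) : σ 0 = 0 := by
  have := h.smul 0 0
  rwa [smul_zero, star_zero, zero_smul] at this

theorem IsStar.ext {K : Type k} [Field K] [StarRing K] {G : Gr V E} {σ τ : LPA K G → LPA K G}
    (h : IsStar K G σ) (h' : IsStar K G τ) : σ = τ := by
  funext x
  obtain ⟨x, hx⟩ := x
  refine L_ind (K := K) (G := G) (p := fun x => ∀ hx : x ∈ LQ K G, σ ⟨x, hx⟩ = τ ⟨x, hx⟩)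
    ?_ ?_ ?_ ?_ ?_ ?_ ?_ (show (show U K G from x) ∈ L K G from hx) hx
  · intro v hx
    exact (h.gen (.vert v)).trans (h'.gen (.vert v)).symm
  · intro v hx
    exact (h.gen (.edge v)).trans (h'.gen (.edge v)).symm
  · intro v hx
    exact (h.gen (.ghost v)).trans (h'.gen (.ghost v)).symm
  · intro hx
    exact h.zero.trans h'.zero.symm
  · intro x hx y hy h1 h2 hxy
    refine (h.add (⟨x, hx⟩ : LPA K G) ⟨y, hy⟩).trans (Eq.trans ?_ (h'.add ⟨x, hx⟩ ⟨y, hy⟩).symm)
    rw [h1 hx, h2 hy]
  · intro x hx y hy h1 h2 hxy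
    refine (h.mul (⟨x, hx⟩ : LPA K G) ⟨y, hy⟩).trans (Eq.trans ?_ (h'.mul ⟨x, hx⟩ ⟨y, hy⟩).symm)
    rw [h1 hx, h2 hy]
  · intro c x hx h1 hcx
    refine (h.smul c (⟨x, hx⟩ : LPA K G)).trans (Eq.trans ?_ (h'.smul c ⟨x, hx⟩).symm)
    rw [h1 hx]

theorem star_LPA {K : Type k} [Field K] [StarRing K] {G : Gr V E} (x : LPA K G) :
    star x = sg K G x :=
  congrFun ((Classical.choose_spec (exists_star K G)).ext (isStar_sg K G)) x

theorem main_LPA {K : Type k} [Field K] [StarRing K] {G : Gr V E} {G' : Gr V' E'}
    (hG : G.NoExit) (hC : G.CE)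
    (h : Nonempty (LPA K G ≃+* LPA K G')) : Nonempty (LPA K G ≃⋆ₐ[K] LPA K G') := by
  obtain ⟨g⟩ := h
  have g' : L K G ≃+* L K G' := g
  obtain ⟨f⟩ := main (K := K) hG hC ⟨g'⟩
  refine ⟨{ toFun := f
            invFun := f.symm
            left_inv := f.left_inv
            right_inv := f.right_inv
            map_mul' := f.map_mul'
            map_add' := f.map_add'
            map_star' := ?_
            map_smul' := f.map_smul' }⟩
  intro x
  refine Eq.trans ?_ ((f.map_star' x).trans (star_LPA (K := K) (G := G') (f x)).symm)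
  exact congrArg (fun y : ↥(L K G) => f y) (star_LPA (K := K) (G := G) x)

end Pool.Agent.Helper32.LV
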