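import Pool.Agent.Helper32.LV.Stmt

/-! Transport of isomorphisms to `LPA`. -/

set_option autoImplicit false

universe k a b a' b'

namespace Pool.Agent.Helper32.LV

variable {V : Type a} {E : Type b} {V' : Type a'} {E' : Type b'} {K : Type k} [Field K]
  [StarRing K] {G : Gr V E} {G' : Gr V' E'}

theorem lpa_star (h : Nonempty (L K G ≃⋆ₐ[K] L K G')) : Nonempty (LPA K G ≃⋆ₐ[K] LPA K G') := by
  obtain ⟨f⟩ := h
  refine ⟨{ toFun := f
            invFun := f.symm
            left_inv := f.left_inv
            right_inv := f.right_inv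
            map_mul' := f.map_mul'
            map_add' := f.map_add'
            map_star' := ?_
            map_smul' := f.map_smul' }⟩
  intro x
  refine Eq.trans ?_ ((f.map_star' x).trans (star_LPA (K := K) (G := G') (f x)).symm)
  exact congrArg (fun y : ↥(L K G) => f y) (star_LPA (K := K) (G := G) x)

theorem lpa_ring (h : Nonempty (LPA K G ≃+* LPA K G')) : Nonempty (L K G ≃+* L K G') := by
  obtain ⟨g⟩ := h
  have g' : L K G ≃+* L K G' := g
  exact ⟨g'⟩

end Pool.Agent.Helper32.LV
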