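import Pool.Agent.Helper32.LV.Sym

/-! Leavitt path algebras: non-vanishing, powers of a loop, Laurent polynomials.

PIECE 1.
Plan for `vx_ne_zero` and `zp_li`: represent `U K G` on `(V × Y × ℤ) →₀ K` with `Y := List E × ℕ`.
For every vertex `v` that emits an edge there is a bijection `b_v : {e // G.s e = v} × Y ≃ Y`
(cardinalities: `Y` is infinite and `#E ≤ #Y`). `q v` = projection to the basis vectors over `v`,
`u e (r e, y, n) = (s e, b (e, y), n + 1)` (and `0` over the other vertices), `u' e` = the inverse
map. Check `IsRep`, then apply `lift` to basis vectors. -/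

set_option autoImplicit false

universe k a b

namespace Pool.Agent.Helper32.LV

variable {V : Type a} {E : Type b} {K : Type k} [Field K] {G : Gr V E}

/-- the index type of the representation -/
abbrev RY (E : Type b) : Type b := Option E × ℕ

theorem exists_shift (G : Gr V E) : ∃ B : E → RY E → RY E,
    (∀ e f y z, G.s e = G.s f → B e y = B f z → e = f ∧ y = z) ∧
    ∀ e y, ∃ f z, G.s f = G.s e ∧ B f z = y := by
  have key : ∀ v : V, (∃ e, G.s e = v) → Nonempty ({e // G.s e = v} × RY E ≃ RY E) := by
    rintro v ⟨e, he⟩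
    rw [← Cardinal.eq, ← Cardinal.mul_def]
    refine Cardinal.mul_eq_right (Cardinal.aleph0_le_mk _) ?_ ?_
    · refine Cardinal.mk_le_of_injective (f := fun e => ((some e.1, 0) : RY E)) ?_
      intro x y h
      simp only [Prod.mk.injEq, Option.some.injEq, and_true] at h
      exact Subtype.ext h
    · rw [Cardinal.mk_ne_zero_iff]
      exact ⟨⟨e, he⟩⟩
  let bb : ∀ v : V, (∃ e, G.s e = v) → ({e // G.s e = v} × RY E ≃ RY E) :=
    fun v hv => Classical.choice (key v hv)
  let B : E → RY E → RY E := fun e y => bb (G.s e) ⟨e, rfl⟩ (⟨e, rfl⟩, y)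
  have claim : ∀ (v : V) (hv : ∃ e, G.s e = v) (e : E) (he : G.s e = v) (y : RY E),
      B e y = bb v hv (⟨e, he⟩, y) := by
    rintro v hv e rfl y
    rfl
  refine ⟨B, ?_, ?_⟩
  · intro e f y z hef h
    rw [claim (G.s f) ⟨f, rfl⟩ e hef y, claim (G.s f) ⟨f, rfl⟩ f rfl z] at h
    have h2 := (bb (G.s f) ⟨f, rfl⟩).injective h
    simp only [Prod.mk.injEq, Subtype.mk.injEq] at h2
    exact h2
  · intro e y
    let w := (bb (G.s e) ⟨e, rfl⟩).symm y
    refine ⟨w.1.1, w.2, w.1.2, ?_⟩
    rw [claim (G.s e) ⟨e, rfl⟩ w.1.1 w.1.2 w.2]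
    exact (bb (G.s e) ⟨e, rfl⟩).apply_symm_apply y

/-- the space of the representation -/
abbrev RF (V : Type a) (E : Type b) (K : Type k) : Type (max a b k) := V × RY E × ℤ → K

open Classical in
/-- the operator of a vertex -/
noncomputable def opq (K : Type k) [Field K] (E : Type b) (v : V) :
    Module.End K (RF V E K) where
  toFun f x := if x.1 = v then f x else 0
  map_add' f g := by ext x; simp only [Pi.add_apply]; split_ifs <;> simp
  map_smul' c f := by ext x; simp only [Pi.smul_apply, RingHom.id_apply]; split_ifs <;> simp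

open Classical in
/-- the operator of an edge -/
noncomputable def opu (K : Type k) [Field K] (G : Gr V E) (B : E → RY E → RY E) (e : E) :
    Module.End K (RF V E K) where
  toFun f x := if x.1 = G.s e ∧ x.2.1 ∈ Set.range (B e) then
    f (G.r e, Function.invFun (B e) x.2.1, x.2.2 - 1) else 0
  map_add' f g := by ext x; simp only [Pi.add_apply]; split_ifs <;> simp
  map_smul' c f := by ext x; simp only [Pi.smul_apply, RingHom.id_apply]; split_ifs <;> simp

open Classical in
/-- the operator of a ghost edge -/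
noncomputable def opg (K : Type k) [Field K] (G : Gr V E) (B : E → RY E → RY E) (e : E) :
    Module.End K (RF V E K) where
  toFun f x := if x.1 = G.r e then f (G.s e, B e x.2.1, x.2.2 + 1) else 0
  map_add' f g := by ext x; simp only [Pi.add_apply]; split_ifs <;> simp
  map_smul' c f := by ext x; simp only [Pi.smul_apply, RingHom.id_apply]; split_ifs <;> simp

open Classical in
theorem opq_apply (v : V) (f : RF V E K) (x : V × RY E × ℤ) :
    opq K E v f x = if x.1 = v then f x else 0 := rfl

open Classical in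
theorem opu_apply (B : E → RY E → RY E) (e : E) (f : RF V E K) (x : V × RY E × ℤ) :
    opu K G B e f x = if x.1 = G.s e ∧ x.2.1 ∈ Set.range (B e) then
      f (G.r e, Function.invFun (B e) x.2.1, x.2.2 - 1) else 0 := rfl

open Classical in
theorem opg_apply (B : E → RY E → RY E) (e : E) (f : RF V E K) (x : V × RY E × ℤ) :
    opg K G B e f x = if x.1 = G.r e then f (G.s e, B e x.2.1, x.2.2 + 1) else 0 := rfl

theorem isRep_ops {B : E → RY E → RY E}
    (hB : ∀ e f y z, G.s e = G.s f → B e y = B f z → e = f ∧ y = z)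
    (hB' : ∀ e y, ∃ f z, G.s f = G.s e ∧ B f z = y) :
    IsRep K G (opq K E) (opu K G B) (opg K G B) := by
  have hinj : ∀ e, Function.Injective (B e) := fun e y z h => (hB e e y z rfl h).2
  have hinv : ∀ e y, Function.invFun (B e) (B e y) = y := fun e y =>
    Function.leftInverse_invFun (hinj e) y
  have hinv' : ∀ e y, y ∈ Set.range (B e) → B e (Function.invFun (B e) y) = y := by
    rintro e _ ⟨z, rfl⟩
    rw [hinv]
  constructor
  · intro v
    ext f x
    simp only [Module.End.mul_apply, opq_apply]
    split_ifs <;> rfl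
  · intro v w h
    ext f x
    simp only [Module.End.mul_apply, opq_apply, LinearMap.zero_apply, Pi.zero_apply]
    split_ifs with h1 h2
    · exact absurd (h1.symm.trans h2) h
    · rfl
    · rfl
  · intro e
    ext f x
    simp only [Module.End.mul_apply, opq_apply, opu_apply]
    split_ifs with h1 h2 h3
    · rfl
    · rfl
    · exact absurd h3.1 h1
    · rfl
  · intro e
    ext f x
    simp only [Module.End.mul_apply, opq_apply, opu_apply, if_true]
  · intro e
    ext f x
    simp only [Module.End.mul_apply, opq_apply, opg_apply]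
    split_ifs <;> rfl
  · intro e
    ext f x
    simp only [Module.End.mul_apply, opq_apply, opg_apply, if_true]
  · intro e
    ext f x
    simp only [Module.End.mul_apply, opq_apply, opg_apply, opu_apply, Set.mem_range_self, and_true,
      if_true, hinv, add_sub_cancel_right]
    split_ifs with h1
    · rw [← h1]
    · rfl
  · intro e f hef
    ext g x
    simp only [Module.End.mul_apply, opg_apply, opu_apply, LinearMap.zero_apply, Pi.zero_apply]
    split_ifs with h1 h2
    · obtain ⟨h3, z, h4⟩ := h2
      exact absurd (hB e f _ _ h3 h4.symm).1 hef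
    · rfl
    · rfl
  · intro v h h0
    ext f x
    have hsum : (∑ e ∈ h.toFinset, opu K G B e * opg K G B e) f x =
        ∑ e ∈ h.toFinset, (opu K G B e * opg K G B e) f x := by
      simp only [LinearMap.sum_apply, Finset.sum_apply]
    rw [hsum]
    simp only [Module.End.mul_apply, opq_apply, opg_apply, opu_apply, if_true, sub_add_cancel]
    by_cases hx : x.1 = v
    · rw [if_pos hx]
      obtain ⟨e0, he0⟩ := h0
      obtain ⟨f0, z, hf0, hz⟩ := hB' e0 x.2.1
      have hf0' : G.s f0 = v := hf0.trans he0
      rw [Finset.sum_eq_single f0]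
      · rw [if_pos ⟨hx.trans hf0'.symm, ⟨z, hz⟩⟩, hinv' f0 _ ⟨z, hz⟩]
        congr 1
        refine Prod.ext (hx.trans hf0'.symm) rfl
      · intro e he hne
        rw [if_neg]
        rintro ⟨h3, y, hy⟩
        exact hne (hB e f0 y z (h3.symm.trans (hx.trans hf0'.symm)) (hy.trans hz.symm)).1
      · intro hn
        exact absurd ((Set.Finite.mem_toFinset h).2 hf0') hn
    · rw [if_neg hx]
      symm
      refine Finset.sum_eq_zero fun e he => ?_
      rw [if_neg]
      rintro ⟨h3, -⟩
      exact hx (h3.trans ((Set.Finite.mem_toFinset h).1 he))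

theorem vx_ne_zero (v : V) : vx K G v ≠ 0 := by
  obtain ⟨B, hB, hB'⟩ := exists_shift G
  intro h
  have h1 := lift_vx (isRep_ops (K := K) hB hB') v
  rw [h, map_zero] at h1
  have h2 := congrArg (fun T : Module.End K (RF V E K) => T (fun _ => 1) (v, (none, 0), 0)) h1
  simp [opq_apply] at h2

variable (K G)

/-- powers of a loop -/
noncomputable def zp (e : E) : ℤ → U K G
  | .ofNat n => vx K G (G.s e) * ed K G e ^ n
  | .negSucc n => vx K G (G.s e) * gh K G e ^ (n + 1)

/-- the Laurent polynomials in a loop -/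
noncomputable def theta (e : E) (p : LaurentPolynomial K) : U K G :=
  Finsupp.linearCombination K (zp K G e) p.coeff

variable {K G}

theorem zp_nat (e : E) (n : ℕ) : zp K G e (n : ℤ) = vx K G (G.s e) * ed K G e ^ n := rfl

theorem zp_negSucc (e : E) (n : ℕ) :
    zp K G e (Int.negSucc n) = vx K G (G.s e) * gh K G e ^ (n + 1) := rfl

theorem zp_neg_nat (e : E) (n : ℕ) : zp K G e (-(n : ℤ)) = vx K G (G.s e) * gh K G e ^ n := by
  cases n with
  | zero =>
    have := zp_nat (K := K) (G := G) e 0
    simpa using this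
  | succ n => exact zp_negSucc e n

theorem zp_zero (e : E) : zp K G e 0 = vx K G (G.s e) := by
  have := zp_nat (K := K) (G := G) e 0
  simpa using this

theorem zp_one {e : E} : zp K G e 1 = ed K G e := by
  have := zp_nat (K := K) (G := G) e 1
  rw [pow_one, vx_ed] at this
  exact this

theorem zp_neg_one {e : E} (h : G.s e = G.r e) : zp K G e (-1) = gh K G e := by
  have := zp_neg_nat (K := K) (G := G) e 1
  rw [pow_one, h, vx_gh] at this
  exact this

/-- `e e* = s e` if `e` is the only edge starting there -/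
theorem ed_gh_loop (hG : G.LA) {e : E} (h : G.s e = G.r e) :
    ed K G e * gh K G e = vx K G (G.s e) := by
  have h1 : {f | G.s f = G.s e} = {e} := by
    ext f
    constructor
    · intro hf
      exact hG.loop e f h hf
    · rintro rfl
      rfl
  have h2 : {f | G.s f = G.s e}.Finite := by
    rw [h1]
    exact Set.finite_singleton e
  have h3 : h2.toFinset = {e} := by
    ext f
    rw [Set.Finite.mem_toFinset, h1]
    simp
  rw [vx_eq_sum (G.s e) h2 ⟨e, rfl⟩, h3, Finset.sum_singleton]

theorem vx_mul_zp (e : E) (j : ℤ) : vx K G (G.s e) * zp K G e j = zp K G e j := by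
  rcases j with n | n
  · change _ * (_ * _) = (_ * _ : U K G)
    rw [← mul_assoc, vx_vx]
  · change _ * (_ * _) = (_ * _ : U K G)
    rw [← mul_assoc, vx_vx]

theorem gh_pow_vx {e : E} (h : G.s e = G.r e) (n : ℕ) :
    vx K G (G.s e) * gh K G e ^ n = gh K G e ^ n * vx K G (G.s e) := by
  have h1 : Commute (vx K G (G.s e)) (gh K G e) := by
    change _ * _ = _ * _
    rw [gh_vx, h, vx_gh]
  exact h1.pow_right n

theorem ed_pow_vx {e : E} (h : G.s e = G.r e) (n : ℕ) :
    vx K G (G.s e) * ed K G e ^ n = ed K G e ^ n * vx K G (G.s e) := by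
  have h1 : Commute (vx K G (G.s e)) (ed K G e) := by
    change _ * _ = _ * _
    rw [vx_ed, h, ed_vx]
  exact h1.pow_right n

theorem zp_mul_vx {e : E} (h : G.s e = G.r e) (j : ℤ) :
    zp K G e j * vx K G (G.s e) = zp K G e j := by
  rcases j with n | n
  · change (_ * _) * _ = (_ * _ : U K G)
    rw [ed_pow_vx h, mul_assoc, vx_vx]
  · change (_ * _) * _ = (_ * _ : U K G)
    rw [gh_pow_vx h, mul_assoc, vx_vx]

theorem zp_succ {e : E} (h : G.s e = G.r e) (j : ℤ) :
    zp K G e (j + 1) = zp K G e j * ed K G e := by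
  rcases j with n | n
  · have h1 : (Int.ofNat n + 1 : ℤ) = ((n + 1 : ℕ) : ℤ) := by push_cast; rfl
    rw [h1, zp_nat, pow_succ, ← mul_assoc]
    rfl
  · have h1 : (Int.negSucc n + 1 : ℤ) = -(n : ℤ) := by
      rw [Int.negSucc_eq]
      ring
    rw [h1, zp_neg_nat, zp_negSucc, pow_succ, ← mul_assoc, mul_assoc _ (gh K G e), gh_ed, ← h,
      mul_assoc, ← gh_pow_vx h, ← mul_assoc, vx_vx]

theorem zp_pred (hG : G.LA) {e : E} (h : G.s e = G.r e) (j : ℤ) :
    zp K G e (j - 1) = zp K G e j * gh K G e := by
  rcases j with n | n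
  · cases n with
    | zero =>
      have h1 : (Int.ofNat 0 - 1 : ℤ) = -1 := rfl
      rw [h1, zp_neg_one h]
      have h2 : zp K G e (Int.ofNat 0) = vx K G (G.s e) := zp_zero e
      rw [h2, h, vx_gh]
    | succ n =>
      have h1 : (Int.ofNat (n + 1) - 1 : ℤ) = (n : ℤ) := by
        have : Int.ofNat (n + 1) = ((n + 1 : ℕ) : ℤ) := rfl
        rw [this]
        push_cast
        ring
      have h2 : zp K G e (Int.ofNat (n + 1)) = vx K G (G.s e) * ed K G e ^ (n + 1) := rfl
      rw [h1, zp_nat, h2, pow_succ, ← mul_assoc, mul_assoc _ (ed K G e), ed_gh_loop hG h,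
        mul_assoc, ← ed_pow_vx h, ← mul_assoc, vx_vx]
  · have h1 : (Int.negSucc n - 1 : ℤ) = Int.negSucc (n + 1) := by
      rw [Int.negSucc_eq, Int.negSucc_eq]
      push_cast
      ring
    rw [h1, zp_negSucc, zp_negSucc, pow_succ _ (n + 1), ← mul_assoc]

theorem zp_mul (hG : G.LA) {e : E} (h : G.s e = G.r e) (i j : ℤ) :
    zp K G e i * zp K G e j = zp K G e (i + j) := by
  induction j using Int.induction_on with
  | zero => rw [zp_zero, zp_mul_vx h, add_zero]
  | succ j ih => rw [zp_succ h, ← mul_assoc, ih, ← zp_succ h, add_assoc]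
  | pred j ih => rw [zp_pred hG h, ← mul_assoc, ih, ← zp_pred hG h, add_sub_assoc]

theorem zp_star [StarRing K] (hG : G.LA) {e : E} (h : G.s e = G.r e) (j : ℤ) :
    star (zp K G e j) = zp K G e (-j) := by
  rcases j with n | n
  · have h1 : (-(Int.ofNat n) : ℤ) = -(n : ℤ) := rfl
    rw [h1, zp_neg_nat]
    change star (vx K G (G.s e) * ed K G e ^ n) = _
    rw [star_mul, star_pow, star_vx, star_ed, gh_pow_vx h]
  · have h1 : (-(Int.negSucc n) : ℤ) = ((n + 1 : ℕ) : ℤ) := rfl
    rw [h1, zp_nat, zp_negSucc, star_mul, star_pow, star_vx, star_gh, ed_pow_vx h]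

/-- operators of a given degree -/
def OpDeg (T : Module.End K (RF V E K)) (j : ℤ) : Prop :=
  ∀ (m : ℤ) (f : RF V E K), (∀ x, x.2.2 ≠ m → f x = 0) → ∀ x, x.2.2 ≠ m + j → T f x = 0

theorem OpDeg.mul {T S : Module.End K (RF V E K)} {i j : ℤ} (hT : OpDeg T i) (hS : OpDeg S j) :
    OpDeg (T * S) (j + i) := by
  intro m f hf x hx
  rw [Module.End.mul_apply]
  refine hT (m + j) (S f) (fun y hy => hS m f hf y hy) x ?_
  rw [add_assoc]
  exact hx

theorem OpDeg.pow {T : Module.End K (RF V E K)} {i : ℤ} (hT : OpDeg T i) (n : ℕ) :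
    OpDeg (T ^ n) (n * i) := by
  induction n with
  | zero =>
    intro m f hf x hx
    rw [pow_zero, Module.End.one_apply]
    exact hf x (by simpa using hx)
  | succ n ih =>
    rw [pow_succ]
    have := ih.mul hT
    have e1 : i + (n : ℤ) * i = ((n + 1 : ℕ) : ℤ) * i := by push_cast; ring
    rwa [e1] at this

theorem opDeg_q (v : V) : OpDeg (opq K E v) 0 := by
  intro m f hf x hx
  rw [opq_apply]
  split_ifs with h
  · exact hf x (by simpa using hx)
  · rfl

theorem opDeg_u (B : E → RY E → RY E) (e : E) : OpDeg (opu K G B e) 1 := by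
  intro m f hf x hx
  rw [opu_apply]
  split_ifs with h
  · refine hf _ ?_
    intro h1
    apply hx
    have h2 : x.2.2 - 1 = m := h1
    omega
  · rfl

theorem opDeg_g (B : E → RY E → RY E) (e : E) : OpDeg (opg K G B e) (-1) := by
  intro m f hf x hx
  rw [opg_apply]
  split_ifs with h
  · refine hf _ ?_
    intro h1
    apply hx
    have h2 : x.2.2 + 1 = m := h1
    omega
  · rfl

theorem opu_pow {B : E → RY E → RY E}
    (hB : ∀ e f y z, G.s e = G.s f → B e y = B f z → e = f ∧ y = z) {e : E}
    (h : G.s e = G.r e) (n : ℕ) (f : RF V E K) (y : RY E) (m : ℤ) :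
    ((opu K G B e) ^ n) f (G.s e, (B e)^[n] y, m + n) = f (G.s e, y, m) := by
  have hinj : Function.Injective (B e) := fun y z h => (hB e e y z rfl h).2
  induction n with
  | zero => simp
  | succ n ih =>
    rw [pow_succ', Module.End.mul_apply, opu_apply, Function.iterate_succ_apply',
      if_pos ⟨rfl, Set.mem_range_self _⟩]
    change ((opu K G B e) ^ n) f (G.r e, Function.invFun (B e) (B e ((B e)^[n] y)),
      m + ((n + 1 : ℕ) : ℤ) - 1) = _
    rw [Function.leftInverse_invFun hinj, ← h]
    have e1 : m + ((n + 1 : ℕ) : ℤ) - 1 = m + n := by push_cast; ring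
    rw [e1, ih]

theorem opg_pow {B : E → RY E → RY E} {e : E}
    (h : G.s e = G.r e) (n : ℕ) (f : RF V E K) (y : RY E) (m : ℤ) :
    ((opg K G B e) ^ n) f (G.s e, y, m) = f (G.s e, (B e)^[n] y, m + n) := by
  induction n generalizing y m with
  | zero => simp
  | succ n ih =>
    rw [pow_succ', Module.End.mul_apply, opg_apply, if_pos h]
    change ((opg K G B e) ^ n) f (G.s e, B e y, m + 1) = _
    rw [ih, Function.iterate_succ_apply]
    congr 3
    push_cast
    ring

theorem zp_li {e : E} (h : G.s e = G.r e) : LinearIndependent K (zp K G e) := by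
  obtain ⟨B, hB, hB'⟩ := exists_shift G
  set Φ := lift (isRep_ops (K := K) hB hB') with hΦ
  have hv : ∀ v, Φ (vx K G v) = opq K E v := lift_vx (isRep_ops (K := K) hB hB')
  have hu : ∀ e, Φ (ed K G e) = opu K G B e := lift_ed (isRep_ops (K := K) hB hB')
  have hg : ∀ e, Φ (gh K G e) = opg K G B e := lift_gh (isRep_ops (K := K) hB hB')
  let f0 : RF V E K := fun x => if x.2.2 = 0 then 1 else 0
  have hf0 : ∀ x, x.2.2 ≠ 0 → f0 x = 0 := fun x hx => if_neg hx
  have hdeg : ∀ j, OpDeg (Φ (zp K G e j)) j := by
    intro j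
    rcases j with n | n
    · change OpDeg (Φ (vx K G (G.s e) * ed K G e ^ n)) (n : ℤ)
      rw [map_mul, map_pow, hv, hu]
      have := (opDeg_q (K := K) (E := E) (G.s e)).mul ((opDeg_u (K := K) (G := G) B e).pow n)
      simpa using this
    · rw [zp_negSucc, map_mul, map_pow, hv, hg]
      have := (opDeg_q (K := K) (E := E) (G.s e)).mul
        ((opDeg_g (K := K) (G := G) B e).pow (n + 1))
      have e1 : ((n + 1 : ℕ) : ℤ) * (-1) + 0 = Int.negSucc n := by
        rw [Int.negSucc_eq]
        push_cast
        ring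
      rwa [e1] at this
  have hpt : ∀ j, ∃ y, Φ (zp K G e j) f0 (G.s e, y, j) = 1 := by
    intro j
    rcases j with n | n
    · refine ⟨(B e)^[n] (none, 0), ?_⟩
      change Φ (vx K G (G.s e) * ed K G e ^ n) f0 (G.s e, (B e)^[n] (none, 0), (n : ℤ)) = 1
      rw [map_mul, map_pow, hv, hu, Module.End.mul_apply, opq_apply, if_pos rfl]
      have h1 := opu_pow (K := K) hB h n f0 (none, 0) 0
      rw [zero_add] at h1
      rw [h1]
      exact if_pos rfl
    · refine ⟨(none, 0), ?_⟩
      rw [zp_negSucc, map_mul, map_pow, hv, hg, Module.End.mul_apply, opq_apply, if_pos rfl]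
      rw [opg_pow (K := K) h (n + 1) f0 (none, 0) (Int.negSucc n)]
      refine if_pos ?_
      change Int.negSucc n + ((n + 1 : ℕ) : ℤ) = 0
      rw [Int.negSucc_eq]
      push_cast
      ring
  rw [linearIndependent_iff]
  intro l hl
  ext i
  obtain ⟨y, hy⟩ := hpt i
  have h1 := congrArg (fun T => Φ T f0 (G.s e, y, i)) hl
  simp only [map_zero, LinearMap.zero_apply, Pi.zero_apply] at h1
  rw [Finsupp.linearCombination_apply, Finsupp.sum, map_sum] at h1
  simp only [LinearMap.sum_apply, Finset.sum_apply, map_smul, LinearMap.smul_apply, Pi.smul_apply,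
    smul_eq_mul] at h1
  rw [Finset.sum_eq_single i] at h1
  · rw [hy, mul_one] at h1
    rw [h1]
    rfl
  · intro j _ hji
    have h2 := hdeg j 0 f0 hf0 (G.s e, y, i) (by
      rw [zero_add]
      exact hji.symm)
    rw [h2, mul_zero]
  · intro hi
    rw [Finsupp.notMem_support_iff] at hi
    rw [hi, zero_mul]

theorem theta_add (e : E) (p q : LaurentPolynomial K) :
    theta K G e (p + q) = theta K G e p + theta K G e q := by
  unfold theta
  rw [AddMonoidAlgebra.coeff_add, map_add]

theorem theta_smul (e : E) (c : K) (p : LaurentPolynomial K) :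
    theta K G e (c • p) = c • theta K G e p := by
  unfold theta
  rw [AddMonoidAlgebra.coeff_smul, map_smul]

theorem theta_single (e : E) (j : ℤ) (c : K) :
    theta K G e (AddMonoidAlgebra.single j c) = c • zp K G e j := by
  unfold theta
  rw [AddMonoidAlgebra.coeff_single, Finsupp.linearCombination_single]

theorem theta_T (e : E) (j : ℤ) : theta K G e (LaurentPolynomial.T j) = zp K G e j := by
  have := theta_single (K := K) (G := G) e j 1
  rw [one_smul] at this
  exact this

theorem theta_one (e : E) : theta K G e 1 = vx K G (G.s e) := by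
  rw [← LaurentPolynomial.T_zero, theta_T, zp_zero]

theorem theta_zero (e : E) : theta K G e 0 = 0 := by
  unfold theta
  rw [AddMonoidAlgebra.coeff_zero, map_zero]

theorem theta_mul (hG : G.LA) {e : E} (h : G.s e = G.r e) (p q : LaurentPolynomial K) :
    theta K G e (p * q) = theta K G e p * theta K G e q := by
  induction p using AddMonoidAlgebra.induction_linear with
  | zero => rw [zero_mul, theta_zero, zero_mul]
  | add p p' hp hp' => rw [add_mul, theta_add, hp, hp', theta_add, add_mul]
  | single i c =>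
    induction q using AddMonoidAlgebra.induction_linear with
    | zero => rw [mul_zero, theta_zero, mul_zero]
    | add q q' hq hq' => rw [mul_add, theta_add, hq, hq', theta_add, mul_add]
    | single j d =>
      rw [AddMonoidAlgebra.single_mul_single, theta_single, theta_single, theta_single,
        smul_mul_smul_comm, zp_mul hG h]

theorem theta_inj {e : E} (h : G.s e = G.r e) : Function.Injective (theta K G e) := by
  intro p q hpq
  have h1 : Function.Injective (Finsupp.linearCombination K (zp K G e)) := zp_li h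
  exact AddMonoidAlgebra.coeff_injective (h1 hpq)

end Pool.Agent.Helper32.LV
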