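import Pool.Agent.Helper32.LV.RRf

/-! `algz H` is a corner. PIECE 14. -/

set_option autoImplicit false
set_option linter.unusedSectionVars false

universe k a b a' b'

namespace Pool.Agent.Helper32.LV

variable {V : Type a} {E : Type b} {K : Type k} [Field K] [StarRing K] {G : Gr V E}
  {V' : Type a'} {E' : Type b'} {G' : Gr V' E'} {φ : RI K G G'} {H : Set V} {H' : Set V'}

theorem corner_ed_mem {H : Set V} {e : E} (he : G.s e ∈ H) : ed K G e ∈ algz K G H :=
  NonUnitalAlgebra.subset_adjoin K (Or.inr ⟨e, he, Or.inl rfl⟩)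

theorem corner_gh_mem {H : Set V} {e : E} (he : G.s e ∈ H) : gh K G e ∈ algz K G H :=
  NonUnitalAlgebra.subset_adjoin K (Or.inr ⟨e, he, Or.inr rfl⟩)

theorem algz_mono {H1 H2 : Set V} (h : H1 ⊆ H2) : algz K G H1 ≤ algz K G H2 := by
  refine NonUnitalAlgebra.adjoin_mono ?_
  rintro x (⟨v, hv, rfl⟩ | ⟨e, he, hx⟩)
  · exact Or.inl ⟨v, h hv, rfl⟩
  · exact Or.inr ⟨e, h he, hx⟩

theorem alg0_mono {H1 H2 : Set V} (h : H1 ⊆ H2) : alg0 K G H1 ≤ alg0 K G H2 := by
  refine NonUnitalAlgebra.adjoin_mono ?_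
  rintro x (⟨v, hv, rfl⟩ | ⟨e, he, hl, hx⟩)
  · exact Or.inl ⟨v, h hv, rfl⟩
  · exact Or.inr ⟨e, h he, hl, hx⟩

theorem alg0_le_algz (H : Set V) : alg0 K G H ≤ algz K G H := by
  refine NonUnitalAlgebra.adjoin_mono ?_
  rintro x (⟨v, hv, rfl⟩ | ⟨e, he, -, hx⟩)
  · exact Or.inl ⟨v, hv, rfl⟩
  · exact Or.inr ⟨e, he, hx⟩

theorem algz_le_L (H : Set V) : algz K G H ≤ L K G := by
  refine NonUnitalAlgebra.adjoin_le ?_
  rintro x (⟨v, hv, rfl⟩ | ⟨e, he, rfl | rfl⟩)
  · exact vx_mem v
  · exact ed_mem e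
  · exact gh_mem e

theorem algz_univ {x : U K G} (hx : x ∈ L K G) : x ∈ algz K G Set.univ := by
  refine L_ind (p := fun x => x ∈ algz K G Set.univ) ?_ ?_ ?_ ?_ ?_ ?_ ?_ hx
  · exact fun v => vx_mem_algz (Set.mem_univ v)
  · exact fun e => corner_ed_mem (Set.mem_univ _)
  · exact fun e => corner_gh_mem (Set.mem_univ _)
  · exact (algz K G Set.univ).zero_mem
  · exact fun x _ y _ h1 h2 => (algz K G Set.univ).add_mem h1 h2
  · exact fun x _ y _ h1 h2 => (algz K G Set.univ).mul_mem h1 h2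
  · exact fun c x _ h1 => (algz K G Set.univ).smul_mem _ h1

/-- the local units can be chosen for all larger finite sets of vertices -/
theorem algz_unit_all (her : ∀ e, G.s e ∈ H → G.r e ∈ H) {x : U K G} (hx : x ∈ algz K G H) :
    ∃ s : Finset V, (∀ v ∈ s, v ∈ H) ∧ ∀ t : Finset V, s ⊆ t →
      (∑ v ∈ t, vx K G v) * x = x ∧ x * (∑ v ∈ t, vx K G v) = x := by
  classical
  have hl : ∀ (v : V) (t : Finset V), v ∈ t → (∑ w ∈ t, vx K G w) * vx K G v = vx K G v := by
    intro v t hv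
    rw [Finset.sum_mul, Finset.sum_eq_single v, vx_vx]
    · intro w _ hne; exact vx_vx_of_ne hne
    · intro h; exact absurd hv h
  have hr : ∀ (v : V) (t : Finset V), v ∈ t → vx K G v * (∑ w ∈ t, vx K G w) = vx K G v := by
    intro v t hv
    rw [Finset.mul_sum, Finset.sum_eq_single v, vx_vx]
    · intro w _ hne; exact vx_vx_of_ne hne.symm
    · intro h; exact absurd hv h
  unfold algz at hx
  induction hx using NonUnitalAlgebra.adjoin_induction with
  | mem x hx =>
    rcases hx with ⟨v, hv, rfl⟩ | ⟨e, he, rfl | rfl⟩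
    · exact ⟨{v}, by simpa using hv, fun t ht => ⟨hl v t (ht (by simp)), hr v t (ht (by simp))⟩⟩
    · refine ⟨{G.s e, G.r e}, by simpa using ⟨he, her e he⟩, fun t ht => ⟨?_, ?_⟩⟩
      · have h := hl (G.s e) t (ht (by simp))
        have h2 := congrArg (fun z => z * ed K G e) h
        simp only [mul_assoc, vx_ed] at h2
        exact h2
      · have h := hr (G.r e) t (ht (by simp))
        have h2 := congrArg (fun z => ed K G e * z) h
        simp only [← mul_assoc, ed_vx] at h2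
        exact h2
    · refine ⟨{G.s e, G.r e}, by simpa using ⟨he, her e he⟩, fun t ht => ⟨?_, ?_⟩⟩
      · have h := hl (G.r e) t (ht (by simp))
        have h2 := congrArg (fun z => z * gh K G e) h
        simp only [mul_assoc, vx_gh] at h2
        exact h2
      · have h := hr (G.s e) t (ht (by simp))
        have h2 := congrArg (fun z => gh K G e * z) h
        simp only [← mul_assoc, gh_vx] at h2
        exact h2
  | zero => exact ⟨∅, by simp, fun t _ => ⟨mul_zero _, zero_mul _⟩⟩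
  | add x y _ _ ihx ihy =>
    obtain ⟨s1, k1, h1⟩ := ihx
    obtain ⟨s2, k2, h2⟩ := ihy
    refine ⟨s1 ∪ s2, fun v hv => (Finset.mem_union.mp hv).elim (k1 v) (k2 v), fun t ht => ?_⟩
    obtain ⟨a1, a2⟩ := h1 t (Finset.union_subset_left ht)
    obtain ⟨b1, b2⟩ := h2 t (Finset.union_subset_right ht)
    exact ⟨by rw [mul_add, a1, b1], by rw [add_mul, a2, b2]⟩
  | mul x y _ _ ihx ihy =>
    obtain ⟨s1, k1, h1⟩ := ihx
    obtain ⟨s2, k2, h2⟩ := ihy
    refine ⟨s1 ∪ s2, fun v hv => (Finset.mem_union.mp hv).elim (k1 v) (k2 v), fun t ht => ?_⟩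
    obtain ⟨a1, a2⟩ := h1 t (Finset.union_subset_left ht)
    obtain ⟨b1, b2⟩ := h2 t (Finset.union_subset_right ht)
    exact ⟨by rw [← mul_assoc, a1], by rw [mul_assoc, b2]⟩
  | smul c x _ ihx =>
    obtain ⟨s1, k1, h1⟩ := ihx
    refine ⟨s1, k1, fun t ht => ?_⟩
    obtain ⟨a1, a2⟩ := h1 t ht
    exact ⟨by rw [mul_smul_comm, a1], by rw [smul_mul_assoc, a2]⟩

/-- finite sums of vertices in `H` are local units of `algz H` -/
theorem algz_unit (her : ∀ e, G.s e ∈ H → G.r e ∈ H) {x : U K G} (hx : x ∈ algz K G H) :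
    ∃ t : Finset V, (∀ v ∈ t, v ∈ H) ∧ (∑ v ∈ t, vx K G v) * x = x ∧
      x * (∑ v ∈ t, vx K G v) = x := by
  obtain ⟨t, h1, h2⟩ := algz_unit_all her hx
  exact ⟨t, h1, h2 t (Finset.Subset.refl t)⟩

theorem corner_tgt_mem (her : ∀ e, G.s e ∈ H → G.r e ∈ H) (l : List E) (v : V) (hv : v ∈ H)
    (hl : G.IsPath v l) : G.tgt v l ∈ H ∧ vx K G v * (l.map (ed K G)).prod ∈ algz K G H := by
  induction l generalizing v with
  | nil => exact ⟨hv, by simpa using vx_mem_algz hv⟩
  | cons e l ih =>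
    obtain ⟨h1, h2⟩ := hl
    subst h1
    obtain ⟨h3, h4⟩ := ih (G.r e) (her e hv) h2
    refine ⟨h3, ?_⟩
    rw [List.map_cons, List.prod_cons, ← mul_assoc, vx_ed, ← ed_vx, mul_assoc]
    exact (algz K G H).mul_mem (corner_ed_mem hv) h4

theorem corner_gapU_mem (T : Stage G) {w : V} (hw : w ∈ H) : gapU K T w ∈ algz K G H := by
  classical
  unfold gapU gapB
  refine (algz K G H).sub_mem (vx_mem_algz hw) ((algz K G H).sum_mem fun e he => ?_)
  have he' : G.s e ∈ H := by
    have h1 := (Finset.mem_filter.mp he).2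
    rw [h1]
    exact hw
  exact (algz K G H).mul_mem (corner_ed_mem he') (algz_star (corner_ed_mem he'))

theorem corner_aU_mem (her : ∀ e, G.s e ∈ H → G.r e ∈ H) {T : Stage G} {α : V × List E}
    (hα : α ∈ Psi T) (h : α.1 ∈ H) : aU K T α ∈ algz K G H := by
  obtain ⟨h1, h2⟩ := corner_tgt_mem (K := K) her α.2 α.1 h hα.2.1
  exact (algz K G H).mul_mem h2 (corner_gapU_mem T h1)

/-- a vertex different from the source of an index kills its element -/
theorem corner_vx_mul_aU {T : Stage G} {α : V × List E} {v : V} (h : v ≠ α.1) :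
    vx K G v * aU K T α = 0 := by
  unfold aU aB pB
  rw [← mul_assoc, ← mul_assoc, vx_vx_of_ne h, zero_mul, zero_mul]

/-- `algz H` is the corner of the local units. Choose a stage `T` containing `t` with
`x ∈ Zspan K G T` and expand `x` with `dec_sum`: the terms with `α.1 ∉ t` or `β.1 ∉ t` vanish, and
for the others `aU α`, the coefficient (`dec_loop`, `dec_noloop`, `dec_ne`) and `aU β` are in
`algz H`. -/
theorem algz_corner (hG : G.LA) (her : ∀ e, G.s e ∈ H → G.r e ∈ H) {x : U K G} (hx : x ∈ L K G)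
    (t : Finset V) (ht : ∀ v ∈ t, v ∈ H) (h1 : (∑ v ∈ t, vx K G v) * x = x)
    (h2 : x * (∑ v ∈ t, vx K G v) = x) : x ∈ algz K G H := by
  obtain ⟨T, hT⟩ := exists_Zspan hx
  rw [dec_sum hG hT]
  refine (algz K G H).sum_mem fun α hα => (algz K G H).sum_mem fun β hβ => ?_
  have hα' := (mem_PsiF hG).mp hα
  have hβ' := (mem_PsiF hG).mp hβ
  by_cases ha : α.1 ∈ t
  · by_cases hb : β.1 ∈ t
    · have ma := corner_aU_mem (K := K) her hα' (ht _ ha)
      have mb := corner_aU_mem (K := K) her hβ' (ht _ hb)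
      have mw := (corner_tgt_mem (K := K) her α.2 α.1 (ht _ ha) hα'.2.1).1
      refine (algz K G H).mul_mem ((algz K G H).mul_mem ma ?_) (algz_star mb)
      by_cases hc : tg G α = tg G β
      · exact dec_mem hG (algz K G H) (corner_gapU_mem T mw)
          (fun e he _ => ⟨corner_ed_mem (by rw [he]; exact mw), corner_gh_mem (by rw [he]; exact mw)⟩)
          hT hα' hβ' rfl hc.symm
      · rw [dec_ne hG hT hα' hβ' hc]
        exact (algz K G H).zero_mem
    · have h3 : x * aU K T β = 0 := by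
        rw [← h2, mul_assoc, Finset.sum_mul, Finset.sum_eq_zero, mul_zero]
        intro v hv
        exact corner_vx_mul_aU (fun h => hb (h ▸ hv))
      rw [mul_assoc (star (aU K T α)), h3, mul_zero, mul_zero, zero_mul]
      exact (algz K G H).zero_mem
  · have h3 : star (aU K T α) * x = 0 := by
      rw [← h1, ← mul_assoc, Finset.mul_sum, Finset.sum_eq_zero, zero_mul]
      intro v hv
      have h4 : vx K G v * aU K T α = 0 := corner_vx_mul_aU (fun h => ha (h ▸ hv))
      have h5 := congrArg star h4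
      rwa [star_mul, star_vx, star_zero] at h5
    rw [h3, zero_mul, mul_zero, zero_mul]
    exact (algz K G H).zero_mem

/-- a ring isomorphism which maps the vertices of `H` to `algz H'` maps `algz H` to `algz H'` (it is
not assumed to be linear) -/
theorem phi_of_vx (hG : G.LA) (hG' : G'.LA) (φ : RI K G G') (her : ∀ e, G.s e ∈ H → G.r e ∈ H)
    (her' : ∀ e, G'.s e ∈ H' → G'.r e ∈ H') (h : ∀ v ∈ H, φ.f (vx K G v) ∈ algz K G' H')
    {x : U K G} (hx : x ∈ algz K G H) : φ.f x ∈ algz K G' H' := by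
  classical
  have hxL := algz_le_L H hx
  obtain ⟨t, ht, h1, h2⟩ := algz_unit her hx
  have hsum : ∀ s : Finset V, (∀ v ∈ s, v ∈ H) →
      φ.f (∑ v ∈ s, vx K G v) ∈ algz K G' H' := by
    intro s
    induction s using Finset.induction_on with
    | empty =>
      intro _
      rw [Finset.sum_empty, φ.f_zero]
      exact (algz K G' H').zero_mem
    | insert v s hv ih =>
      intro hs
      rw [Finset.sum_insert hv, φ.f_add _ (vx_mem v) _ ((L K G).sum_mem fun w _ => vx_mem w)]
      exact (algz K G' H').add_mem (h v (hs v (Finset.mem_insert_self v s)))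
        (ih fun w hw => hs w (Finset.mem_insert_of_mem hw))
  have hp := hsum t ht
  have hpL : (∑ v ∈ t, vx K G v) ∈ L K G := (L K G).sum_mem fun w _ => vx_mem w
  obtain ⟨t', ht', h3, h4⟩ := algz_unit her' hp
  have e1 : φ.f (∑ v ∈ t, vx K G v) * φ.f x = φ.f x := by
    rw [← φ.f_mul _ hpL _ hxL, h1]
  have e2 : φ.f x * φ.f (∑ v ∈ t, vx K G v) = φ.f x := by
    rw [← φ.f_mul _ hxL _ hpL, h2]
  refine algz_corner hG' her' (φ.f_mem x hxL) t' ht' ?_ ?_
  · rw [← e1, ← mul_assoc, h3]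
  · rw [← e2, mul_assoc, h4]

/-- a stage inside `H` -/
theorem Zspan_le_algz {T : Stage G} (hT : ∀ v ∈ T.Vt, v ∈ H) : Zspan K G T ≤ algz K G H := by
  refine NonUnitalAlgebra.adjoin_le ?_
  rintro x (⟨v, hv, rfl⟩ | ⟨e, he, hx⟩)
  · exact vx_mem_algz (hT v hv)
  · have h1 := hT _ (mem_Vt_of he).1
    rcases hx with rfl | rfl
    · exact corner_ed_mem h1
    · exact corner_gh_mem h1

end Pool.Agent.Helper32.LV
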