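import Pool.Agent.Helper32.LV.MkEq

/-! Graphs without exits: every cycle can be replaced by a loop. PIECE 22. -/

set_option autoImplicit false
set_option linter.unusedSectionVars false

universe k a b

namespace Pool.Agent.Helper32.LV

variable {V : Type a} {E : Type b} {K : Type k} [Field K] [StarRing K]

/-! ### combinatorics -/

theorem Gr.isPath_append' {G : Gr V E} {v : V} {l m : List E} :
    G.IsPath v (l ++ m) ↔ G.IsPath v l ∧ G.IsPath (G.tgt v l) m := by
  induction l generalizing v with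
  | nil => simp [Gr.IsPath, Gr.tgt]
  | cons e l ih => simp [Gr.IsPath, Gr.tgt, ih, and_assoc]

theorem Gr.tgt_append' {G : Gr V E} {v : V} {l m : List E} :
    G.tgt v (l ++ m) = G.tgt (G.tgt v l) m := by
  induction l generalizing v with
  | nil => simp [Gr.tgt]
  | cons e l ih => simp [Gr.tgt, ih]

/-- a closed path with distinct sources -/
def Gr.Cyc (G : Gr V E) (v : V) (l : List E) : Prop :=
  l ≠ [] ∧ G.IsPath v l ∧ G.tgt v l = v ∧ (l.map G.s).Nodup

theorem Gr.Cyc.isCycle {G : Gr V E} {v : V} {l : List E} (h : G.Cyc v l) : G.IsCycle l :=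
  ⟨v, h⟩

/-- a path has distinct sources or contains a cycle -/
theorem nodup_or_cyc (G : Gr V E) (l : List E) : ∀ v, G.IsPath v l →
    (l.map G.s).Nodup ∨ ∃ w m, G.Cyc w m ∧ ∀ e ∈ m, e ∈ l := by
  induction l with
  | nil => intro v _; left; simp
  | cons e l ih =>
    intro v hp
    obtain ⟨-, hp'⟩ := hp
    rcases ih _ hp' with h | ⟨w, m, hm, hml⟩
    · by_cases he : G.s e ∈ l.map G.s
      · right
        obtain ⟨f, hf, hfe⟩ := List.mem_map.mp he
        obtain ⟨b, c, rfl⟩ := List.append_of_mem hf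
        rw [Gr.isPath_append'] at hp'
        obtain ⟨hb, hc⟩ := hp'
        rw [List.map_append, List.map_cons] at h
        have h1 := List.nodup_append.mp h
        refine ⟨G.s e, e :: b, ⟨by simp, ⟨rfl, hb⟩, ?_, ?_⟩, ?_⟩
        · change G.tgt (G.r e) b = G.s e
          rw [← hfe]
          exact hc.1.symm
        · rw [List.map_cons, List.nodup_cons]
          refine ⟨fun hmem => ?_, h1.1⟩
          exact h1.2.2 _ hmem (G.s f) (by simp) hfe.symm
        · intro x hx
          rcases List.mem_cons.mp hx with rfl | hx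
          · simp
          · simp [hx]
      · left
        rw [List.map_cons, List.nodup_cons]
        exact ⟨he, h⟩
    · exact Or.inr ⟨w, m, hm, fun x hx => List.mem_cons_of_mem _ (hml x hx)⟩

theorem exists_cyc {G : Gr V E} {v : V} {l : List E} (hl : l ≠ []) (hp : G.IsPath v l)
    (ht : G.tgt v l = v) : ∃ w m, G.Cyc w m ∧ ∀ e ∈ m, e ∈ l := by
  rcases nodup_or_cyc G l v hp with h | h
  · exact ⟨v, l, ⟨hl, hp, ht, h⟩, fun _ h => h⟩
  · exact h

/-- rotation of a cycle -/
theorem Gr.Cyc.rotate {G : Gr V E} {v : V} {l : List E} (h : G.Cyc v l) {e : E} (he : e ∈ l) :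
    ∃ m, G.Cyc (G.s e) (e :: m) ∧ ∀ f, f ∈ e :: m ↔ f ∈ l := by
  obtain ⟨x, y, rfl⟩ := List.append_of_mem he
  obtain ⟨-, hp, ht, hn⟩ := h
  rw [Gr.isPath_append'] at hp
  rw [Gr.tgt_append'] at ht
  obtain ⟨hx, h1, hy⟩ := hp
  refine ⟨y ++ x, ⟨by simp, ⟨rfl, ?_⟩, ?_, ?_⟩, ?_⟩
  · rw [Gr.isPath_append']
    refine ⟨hy, ?_⟩
    have h2 : G.tgt (G.r e) y = v := ht
    rw [h2]
    exact hx
  · change G.tgt (G.r e) (y ++ x) = G.s e
    rw [Gr.tgt_append']
    have h2 : G.tgt (G.r e) y = v := ht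
    rw [h2]
    exact h1.symm
  · have h3 : (e :: (y ++ x)).Perm (x ++ e :: y) := by
      have h4 : (e :: y ++ x).Perm (x ++ e :: y) := List.perm_append_comm
      exact h4
    exact (h3.map G.s).nodup_iff.mpr hn
  · intro f
    simp only [List.mem_cons, List.mem_append]
    tauto

/-- the range of an edge of a cycle is a source of the cycle -/
theorem Gr.Cyc.range {G : Gr V E} {v : V} {l : List E} (h : G.Cyc v l) {e : E} (he : e ∈ l) :
    ∃ f ∈ l, G.s f = G.r e := by
  obtain ⟨m, hm, hml⟩ := h.rotate he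
  obtain ⟨-, ⟨-, hp⟩, ht, -⟩ := hm
  cases m with
  | nil => exact ⟨e, he, ht.symm⟩
  | cons g m => exact ⟨g, (hml g).mp (by simp), hp.1⟩

/-- paths starting on a cycle stay on the cycle -/
theorem Gr.Cyc.stay {G : Gr V E} (hG : G.NoExit) {v : V} {l : List E} (h : G.Cyc v l)
    (k : List E) : ∀ w, (∃ f ∈ l, G.s f = w) → G.IsPath w k → ∃ f ∈ l, G.s f = G.tgt w k := by
  induction k with
  | nil => intro w hw _; exact hw
  | cons g k ih =>
    rintro w ⟨f, hf, hfw⟩ ⟨hg, hk⟩
    have h1 : g = f := hG l h.isCycle f hf g (hg.trans hfw.symm)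
    subst h1
    exact ih _ (h.range hf) hk

/-- the combinatorial part -/
theorem exists_choice (G : Gr V E) (hG : G.NoExit) : ∃ (C : Set V) (pe : E → List E),
    (∀ e, G.s e ∈ C → G.IsPath (G.r e) (pe e) ∧ G.tgt (G.r e) (pe e) = G.s e ∧
      ∀ f ∈ pe e, G.s f ∉ C ∧ ∀ g, G.s g = G.s f → g = f) ∧
    (∀ e f, G.s e ∈ C → G.s f = G.s e → f = e) ∧
    (∀ v l, l ≠ [] → G.IsPath v l → G.tgt v l = v → ∃ e ∈ l, G.s e ∈ C) := by
  classical
  obtain ⟨_, _⟩ := exists_wellFoundedLT V
  let C : Set V := {v | ∃ l, G.Cyc v l ∧ ∀ f ∈ l, v ≤ G.s f}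
  have hC : ∀ e, G.s e ∈ C → ∃ l, G.Cyc (G.s e) (e :: l) ∧ ∀ f ∈ l, G.s e ≤ G.s f := by
    rintro e ⟨l, hl, hmin⟩
    cases l with
    | nil => exact absurd rfl hl.1
    | cons e' l =>
      have h1 : e = e' := hG _ hl.isCycle e' (by simp) e hl.2.1.1.symm
      subst h1
      exact ⟨l, hl, fun f hf => hmin f (List.mem_cons_of_mem _ hf)⟩
  choose! pe hpe hmin using hC
  refine ⟨C, pe, ?_, ?_, ?_⟩
  · intro e he
    have h1 := hpe e he
    refine ⟨h1.2.1.2, h1.2.2.1, fun f hf => ⟨fun hfC => ?_, ?_⟩⟩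
    · obtain ⟨m, hm, hm'⟩ := hfC
      obtain ⟨x, y, hxy⟩ := List.append_of_mem hf
      have hn := h1.2.2.2
      have hne : G.s e ≠ G.s f := by
        intro h2
        rw [List.map_cons, List.nodup_cons] at hn
        exact hn.1 (h2 ▸ List.mem_map_of_mem hf)
      -- the path from `f` to `s e`
      have hp := h1.2.1.2
      have ht : G.tgt (G.r e) (pe e) = G.s e := h1.2.2.1
      rw [hxy, Gr.isPath_append'] at hp
      rw [hxy, Gr.tgt_append'] at ht
      have hsf : G.s f = G.tgt (G.r e) x := hp.2.1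
      have hms : ∃ g ∈ m, G.s g = G.s f := by
        cases m with
        | nil => exact absurd rfl hm.1
        | cons g m => exact ⟨g, by simp, hm.2.1.1⟩
      obtain ⟨g, hg, hge⟩ := hm.stay hG (f :: y) (G.tgt (G.r e) x) (hsf ▸ hms) hp.2
      rw [ht] at hge
      have h3 := hm' g hg
      rw [hge] at h3
      exact hne (le_antisymm (hmin e he f hf) h3)
    · intro g hg
      exact hG _ h1.isCycle f (List.mem_cons_of_mem _ hf) g hg
  · intro e f he hf
    exact hG _ (hpe e he).isCycle e (by simp) f hf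
  · intro v l hl hp ht
    obtain ⟨w, m, hm, hml⟩ := exists_cyc hl hp ht
    obtain ⟨e0, he0⟩ := List.exists_mem_of_ne_nil m hm.1
    obtain ⟨x, ⟨e, he, rfl⟩, hx⟩ : ∃ x ∈ {x | ∃ e ∈ m, G.s e = x}, ∀ y ∈ {x | ∃ e ∈ m, G.s e = x},
        ¬ y < x := by
      have hne : ({x | ∃ e ∈ m, G.s e = x} : Set V).Nonempty := ⟨_, e0, he0, rfl⟩
      exact ⟨wellFounded_lt.min _ hne, wellFounded_lt.min_mem _ hne,
        fun y hy => wellFounded_lt.not_lt_min _ hy⟩
    obtain ⟨m', hm', hmm⟩ := hm.rotate he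
    refine ⟨e, hml e he, e :: m', hm', fun f hf => ?_⟩
    exact not_lt.mp (hx _ ⟨f, (hmm f).mp hf, rfl⟩)

/-! ### algebra -/

/-- the element of a path -/
noncomputable def PE (K : Type k) [Field K] (G : Gr V E) (v : V) (l : List E) : U K G :=
  vx K G v * (l.map (ed K G)).prod

theorem PE_cons {G : Gr V E} {v : V} {e : E} {l : List E} (h : G.s e = v) :
    PE K G v (e :: l) = ed K G e * PE K G (G.r e) l := by
  subst h
  rw [PE, PE, List.map_cons, List.prod_cons, ← mul_assoc, vx_ed, ← mul_assoc, ed_vx]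

theorem vx_PE (G : Gr V E) (v : V) (l : List E) : vx K G v * PE K G v l = PE K G v l := by
  rw [PE, ← mul_assoc, vx_vx]

theorem vx_eq_of_unique {G : Gr V E} {e : E} (h : ∀ g, G.s g = G.s e → g = e) :
    ed K G e * gh K G e = vx K G (G.s e) := by
  have h1 : {f | G.s f = G.s e} = {e} := by
    ext f
    constructor
    · exact fun hf => h f hf
    · rintro rfl; rfl
  have h2 : {f | G.s f = G.s e}.Finite := by rw [h1]; exact Set.finite_singleton e
  rw [vx_eq_sum (K := K) (G.s e) h2 ⟨e, rfl⟩]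
  have h3 : h2.toFinset = {e} := by
    ext f
    rw [Set.Finite.mem_toFinset, h1]
    simp
  rw [h3, Finset.sum_singleton]

theorem PE_unit {G : Gr V E} (l : List E) : ∀ v, G.IsPath v l →
    (∀ f ∈ l, ∀ g, G.s g = G.s f → g = f) →
    PE K G v l * star (PE K G v l) = vx K G v ∧
    star (PE K G v l) * PE K G v l = vx K G (G.tgt v l) ∧
    PE K G v l * vx K G (G.tgt v l) = PE K G v l := by
  induction l with
  | nil =>
    intro v _ _
    have h1 : PE K G v [] = vx K G v := by simp [PE]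
    rw [h1, star_vx]
    exact ⟨vx_vx v, vx_vx v, vx_vx v⟩
  | cons e l ih =>
    intro v hp hu
    obtain ⟨h1, h2, h3⟩ := ih (G.r e) hp.2 fun f hf => hu f (List.mem_cons_of_mem _ hf)
    rw [PE_cons hp.1, star_mul, star_ed]
    refine ⟨?_, ?_, ?_⟩
    · calc ed K G e * PE K G (G.r e) l * (star (PE K G (G.r e) l) * gh K G e)
          = ed K G e * (PE K G (G.r e) l * star (PE K G (G.r e) l)) * gh K G e := by
            noncomm_ring
        _ = vx K G v := by rw [h1, ed_vx, vx_eq_of_unique (hu e (by simp)), hp.1]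
    · calc star (PE K G (G.r e) l) * gh K G e * (ed K G e * PE K G (G.r e) l)
          = star (PE K G (G.r e) l) * (gh K G e * ed K G e * PE K G (G.r e) l) := by
            noncomm_ring
        _ = vx K G (G.tgt v (e :: l)) := by rw [gh_ed, vx_PE, h2]; rfl
    · change ed K G e * PE K G (G.r e) l * vx K G (G.tgt (G.r e) l) = _
      rw [mul_assoc, h3]

theorem PE_mem (G : Gr V E) (l : List E) (v : V) : PE K G v l ∈ L K G := by
  unfold PE
  rcases eq_or_ne l [] with h | h
  · rw [h]; simpa using vx_mem _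
  · exact (L K G).mul_mem (vx_mem _) (list_prod_mem h)

theorem map_PE {G G' : Gr V E} (φ : U K G →ₐ[K] U K G') (hv : ∀ v, φ (vx K G v) = vx K G' v)
    (v : V) (l : List E) (h : ∀ e ∈ l, φ (ed K G e) = ed K G' e) :
    φ (PE K G v l) = PE K G' v l := by
  rw [PE, PE, map_mul, hv, map_list_prod, List.map_map]
  congr 2
  exact List.map_congr_left h

/-- twisting the edges by unitaries between the ranges -/
theorem isRep_twist {s r r' : E → V} {x : E → U K (⟨s, r'⟩ : Gr V E)}
    (h1 : ∀ e, vx K (⟨s, r'⟩ : Gr V E) (r' e) * x e = x e)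
    (h2 : ∀ e, x e * vx K (⟨s, r'⟩ : Gr V E) (r e) = x e)
    (h3 : ∀ e, star (x e) * x e = vx K (⟨s, r'⟩ : Gr V E) (r e))
    (h4 : ∀ e, x e * star (x e) = vx K (⟨s, r'⟩ : Gr V E) (r' e)) :
    IsRep K (⟨s, r⟩ : Gr V E) (vx K (⟨s, r'⟩ : Gr V E))
      (fun e => ed K (⟨s, r'⟩ : Gr V E) e * x e)
      (fun e => star (ed K (⟨s, r'⟩ : Gr V E) e * x e)) := by
  have hse : ∀ e, vx K (⟨s, r'⟩ : Gr V E) (s e) * (ed K (⟨s, r'⟩ : Gr V E) e * x e) =
      ed K (⟨s, r'⟩ : Gr V E) e * x e := by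
    intro e
    rw [← mul_assoc]
    exact congrArg (· * x e) (vx_ed (K := K) (G := (⟨s, r'⟩ : Gr V E)) e)
  have her : ∀ e, ed K (⟨s, r'⟩ : Gr V E) e * x e * vx K (⟨s, r'⟩ : Gr V E) (r e) =
      ed K (⟨s, r'⟩ : Gr V E) e * x e := by
    intro e
    rw [mul_assoc, h2]
  refine ⟨fun v => vx_vx v, fun v w h => vx_vx_of_ne h, hse, her, ?_, ?_, ?_, ?_, ?_⟩
  · intro e
    have := congrArg star (her e)
    rw [star_mul, star_vx] at this
    exact this
  · intro e
    have := congrArg star (hse e)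
    rw [star_mul, star_vx] at this
    exact this
  · intro e
    change star (ed K (⟨s, r'⟩ : Gr V E) e * x e) * (ed K (⟨s, r'⟩ : Gr V E) e * x e) = _
    rw [star_mul, star_ed]
    have h5 := gh_ed (K := K) (G := (⟨s, r'⟩ : Gr V E)) e
    calc star (x e) * gh K (⟨s, r'⟩ : Gr V E) e * (ed K (⟨s, r'⟩ : Gr V E) e * x e)
        = star (x e) * (gh K (⟨s, r'⟩ : Gr V E) e * ed K (⟨s, r'⟩ : Gr V E) e * x e) := by
          noncomm_ring
      _ = vx K (⟨s, r'⟩ : Gr V E) (r e) := by rw [h5]; exact (congrArg _ (h1 e)).trans (h3 e)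
  · intro e f hef
    change star (ed K (⟨s, r'⟩ : Gr V E) e * x e) * (ed K (⟨s, r'⟩ : Gr V E) f * x f) = _
    rw [star_mul, star_ed]
    calc star (x e) * gh K (⟨s, r'⟩ : Gr V E) e * (ed K (⟨s, r'⟩ : Gr V E) f * x f)
        = star (x e) * (gh K (⟨s, r'⟩ : Gr V E) e * ed K (⟨s, r'⟩ : Gr V E) f) * x f := by
          noncomm_ring
      _ = 0 := by rw [gh_ed_of_ne hef]; simp
  · intro v h h0
    rw [vx_eq_sum (K := K) (G := (⟨s, r'⟩ : Gr V E)) v h h0]
    refine Finset.sum_congr rfl fun e _ => ?_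
    rw [star_mul, star_ed]
    have h6 := ed_vx (K := K) (G := (⟨s, r'⟩ : Gr V E)) e
    symm
    calc ed K (⟨s, r'⟩ : Gr V E) e * x e * (star (x e) * gh K (⟨s, r'⟩ : Gr V E) e)
        = ed K (⟨s, r'⟩ : Gr V E) e * (x e * star (x e)) * gh K (⟨s, r'⟩ : Gr V E) e := by
          noncomm_ring
      _ = ed K (⟨s, r'⟩ : Gr V E) e * gh K (⟨s, r'⟩ : Gr V E) e := by
          rw [h4]; exact congrArg (· * gh K (⟨s, r'⟩ : Gr V E) e) h6

theorem lift_star' {G G' : Gr V E} {q : V → U K G'} {u : E → U K G'}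
    (h : IsRep K G q u (fun e => star (u e))) (hq : ∀ v, star (q v) = q v) (x : U K G) :
    lift h (star x) = star (lift h x) := by
  induction x using U_ind with
  | hk c => rw [star_algebraMap', AlgHom.commutes, AlgHom.commutes, star_algebraMap']
  | hv v => rw [star_vx, lift_vx, hq]
  | he e => rw [star_ed, lift_gh, lift_ed]
  | hg e => rw [star_gh, lift_gh, lift_ed, star_star]
  | ha x y hx hy => rw [star_add, map_add, map_add, star_add, hx, hy]
  | hm x y hx hy => rw [star_mul, map_mul, map_mul, star_mul, hx, hy]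

theorem path_congr {s r r' : E → V} (l : List E) : ∀ v, (∀ f ∈ l, r' f = r f) →
    (Gr.IsPath ⟨s, r⟩ v l → Gr.IsPath ⟨s, r'⟩ v l) ∧
      Gr.tgt (⟨s, r'⟩ : Gr V E) v l = Gr.tgt (⟨s, r⟩ : Gr V E) v l := by
  induction l with
  | nil => intro v _; exact ⟨fun _ => trivial, rfl⟩
  | cons e l ih =>
    intro v h
    have he : r' e = r e := h e (by simp)
    obtain ⟨h1, h2⟩ := ih (r e) fun f hf => h f (List.mem_cons_of_mem _ hf)
    refine ⟨fun hp => ⟨hp.1, ?_⟩, ?_⟩
    · change Gr.IsPath ⟨s, r'⟩ (r' e) l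
      rw [he]
      exact h1 hp.2
    · change Gr.tgt ⟨s, r'⟩ (r' e) l = Gr.tgt ⟨s, r⟩ (r e) l
      rw [he]
      exact h2

/-- Choose a vertex on every cycle (a cycle is the forward orbit of any of its vertices since no
other edge starts there) and let the edge starting there end there as well. -/
theorem cut (G : Gr V E) (hG : G.NoExit) :
    ∃ G1 : Gr V E, G1.LA ∧ G1.s = G.s ∧ Nonempty (L K G ≃⋆ₐ[K] L K G1) := by
  classical
  obtain ⟨C, pe, ha, hb, hc⟩ := exists_choice G hG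
  obtain ⟨s, r⟩ := G
  simp only at ha hb hc
  set r' : E → V := fun e => if s e ∈ C then s e else r e with hr'
  have hin : ∀ e, s e ∈ C → r' e = s e := fun e he => if_pos he
  have hout : ∀ e, s e ∉ C → r' e = r e := fun e he => if_neg he
  set p : E → List E := fun e => if s e ∈ C then pe e else [] with hp
  have hpin : ∀ e, s e ∈ C → p e = pe e := fun e he => if_pos he
  have hpout : ∀ e, s e ∉ C → p e = [] := fun e he => if_neg he
  have pA : ∀ e, Gr.IsPath (⟨s, r⟩ : Gr V E) (r e) (p e) := by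
    intro e
    by_cases he : s e ∈ C
    · rw [hpin e he]; exact (ha e he).1
    · rw [hpout e he]; trivial
  have tA : ∀ e, Gr.tgt (⟨s, r⟩ : Gr V E) (r e) (p e) = r' e := by
    intro e
    by_cases he : s e ∈ C
    · rw [hpin e he, hin e he]; exact (ha e he).2.1
    · rw [hpout e he, hout e he]; rfl
  have pm : ∀ e, ∀ f ∈ p e, s f ∉ C ∧ ∀ g, s g = s f → g = f := by
    intro e f hf
    by_cases he : s e ∈ C
    · rw [hpin e he] at hf; exact (ha e he).2.2 f hf
    · rw [hpout e he] at hf; simp at hf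
  have pB' : ∀ e, Gr.IsPath (⟨s, r'⟩ : Gr V E) (r e) (p e) := fun e =>
    (path_congr (p e) (r e) fun f hf => hout f (pm e f hf).1).1 (pA e)
  have tB : ∀ e, Gr.tgt (⟨s, r'⟩ : Gr V E) (r e) (p e) = r' e := fun e =>
    (path_congr (p e) (r e) fun f hf => hout f (pm e f hf).1).2.trans (tA e)
  have uA : ∀ e, _ := fun e => PE_unit (K := K) (G := (⟨s, r⟩ : Gr V E)) (p e) (r e) (pA e)
    fun f hf => (pm e f hf).2
  have uB : ∀ e, _ := fun e => PE_unit (K := K) (G := (⟨s, r'⟩ : Gr V E)) (p e) (r e) (pB' e)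
    fun f hf => (pm e f hf).2
  simp only [tA] at uA
  simp only [tB] at uB
  refine ⟨⟨s, r'⟩, ⟨?_, ?_⟩, rfl, ?_⟩
  · -- no cycles except loops
    intro v l hl hne hp' ht
    have hnC : ∀ e ∈ l, s e ∉ C := fun e he hC => hne e he (hin e hC).symm
    have h1 : ∀ f ∈ l, r f = r' f := fun f hf => (hout f (hnC f hf)).symm
    obtain ⟨h2, h3⟩ := path_congr (s := s) (r := r') (r' := r) l v h1
    obtain ⟨e, he, heC⟩ := hc v l hl (h2 hp') (h3.trans ht)
    exact hnC e he heC
  · intro e f he hf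
    change s e = r' e at he
    change s f = s e at hf
    by_cases hC : s e ∈ C
    · exact hb e f hC hf
    · exfalso
      rw [hout e hC] at he
      obtain ⟨g, hg, hgC⟩ := hc (s e) [e] (by simp) ⟨rfl, trivial⟩ he.symm
      rw [List.mem_singleton] at hg
      subst hg
      exact hC hgC
  · -- the two homomorphisms
    have hA : IsRep K (⟨s, r⟩ : Gr V E) (vx K (⟨s, r'⟩ : Gr V E))
        (fun e => ed K (⟨s, r'⟩ : Gr V E) e * star (PE K (⟨s, r'⟩ : Gr V E) (r e) (p e)))
        (fun e => star (ed K (⟨s, r'⟩ : Gr V E) e *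
          star (PE K (⟨s, r'⟩ : Gr V E) (r e) (p e)))) := by
      refine isRep_twist ?_ ?_ ?_ ?_
      · intro e
        rw [← star_vx (r' e), ← star_mul, (uB e).2.2]
      · intro e
        rw [← star_vx (r e), ← star_mul, vx_PE]
      · intro e
        rw [star_star, (uB e).1]
      · intro e
        rw [star_star, (uB e).2.1]
    have hB : IsRep K (⟨s, r'⟩ : Gr V E) (vx K (⟨s, r⟩ : Gr V E))
        (fun e => ed K (⟨s, r⟩ : Gr V E) e * PE K (⟨s, r⟩ : Gr V E) (r e) (p e))
        (fun e => star (ed K (⟨s, r⟩ : Gr V E) e * PE K (⟨s, r⟩ : Gr V E) (r e) (p e))) := by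
      refine isRep_twist ?_ ?_ ?_ ?_
      · intro e
        exact vx_PE _ _ _
      · intro e
        exact (uA e).2.2
      · intro e
        exact (uA e).2.1
      · intro e
        exact (uA e).1
    have edA : ∀ f, s f ∉ C → lift hB (ed K (⟨s, r'⟩ : Gr V E) f) = ed K (⟨s, r⟩ : Gr V E) f := by
      intro f hf
      rw [lift_ed, hpout f hf, PE, List.map_nil, List.prod_nil, mul_one]
      exact ed_vx (K := K) (G := (⟨s, r⟩ : Gr V E)) f
    have edB : ∀ f, s f ∉ C → lift hA (ed K (⟨s, r⟩ : Gr V E) f) = ed K (⟨s, r'⟩ : Gr V E) f := by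
      intro f hf
      rw [lift_ed, hpout f hf, PE, List.map_nil, List.prod_nil, mul_one, star_vx, ← hout f hf]
      exact ed_vx (K := K) (G := (⟨s, r'⟩ : Gr V E)) f
    have wA : ∀ e, lift hB (PE K (⟨s, r'⟩ : Gr V E) (r e) (p e)) =
        PE K (⟨s, r⟩ : Gr V E) (r e) (p e) := fun e =>
      map_PE _ (fun v => lift_vx hB v) _ _ fun f hf => edA f (pm e f hf).1
    have wB : ∀ e, lift hA (PE K (⟨s, r⟩ : Gr V E) (r e) (p e)) =
        PE K (⟨s, r'⟩ : Gr V E) (r e) (p e) := fun e =>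
      map_PE _ (fun v => lift_vx hA v) _ _ fun f hf => edB f (pm e f hf).1
    refine mkEquiv hA hB (fun v => vx_mem v) (fun e => ?_) (fun v => vx_mem v) (fun e => ?_)
      (fun v => lift_vx hB v) (fun e => ?_) (fun v => lift_vx hA v) (fun e => ?_)
      (fun v => star_vx v) (fun v => star_vx v)
    · exact (L K _).mul_mem (ed_mem e) (star_mem_L (PE_mem _ _ _))
    · exact (L K _).mul_mem (ed_mem e) (PE_mem _ _ _)
    · rw [map_mul, lift_star' hB (fun v => star_vx v), wA, lift_ed, mul_assoc, (uA e).1]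
      exact ed_vx (K := K) (G := (⟨s, r⟩ : Gr V E)) e
    · rw [map_mul, wB, lift_ed, mul_assoc, (uB e).2.1]
      exact ed_vx (K := K) (G := (⟨s, r'⟩ : Gr V E)) e

end Pool.Agent.Helper32.LV
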