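import Mathlib

/-! Idempotent matrices over principal ideal domains. PIECE 2. -/

set_option autoImplicit false

namespace Pool.Agent.Helper32.LV

/-- Laurent polynomials over a field form a principal ideal domain (a localisation of `K[X]`). -/
theorem laurent_pir (K : Type*) [Field K] : IsPrincipalIdealRing (LaurentPolynomial K) := by
  refine ⟨fun J => ?_⟩
  have h1 := IsLocalization.map_under (Submonoid.powers (Polynomial.X : Polynomial K))
    (LaurentPolynomial K) J
  obtain ⟨a, ha⟩ := (IsPrincipalIdealRing.principal (Ideal.under (Polynomial K) J)).principal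
  refine ⟨algebraMap (Polynomial K) (LaurentPolynomial K) a, ?_⟩
  rw [← h1, ha]
  change Ideal.map _ (Ideal.span {a}) = Ideal.span {_}
  rw [Ideal.map_span, Set.image_singleton]

/-- one half: factorisation through a coordinate submodule of the right rank -/
theorem idem_half {R : Type*} [CommRing R] [IsDomain R] [IsPrincipalIdealRing R]
    {ι : Type*} [Fintype ι] [DecidableEq ι] (M : Matrix ι ι R) (h : M * M = M)
    (S : Finset ι) (hS : Module.finrank R (LinearMap.range M.mulVecLin) = S.card) :
    ∃ X Y : Matrix ι ι R, X * Y = M ∧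
      Y * X = Matrix.diagonal (fun i => if i ∈ S then 1 else 0) := by
  have hcard : Fintype.card (Fin (Module.finrank R (LinearMap.range M.mulVecLin))) =
      Fintype.card S := by
    rw [Fintype.card_fin, hS, Fintype.card_coe]
  let e : Fin (Module.finrank R (LinearMap.range M.mulVecLin)) ≃ S :=
    Fintype.equivOfCardEq hcard
  let b : Module.Basis S R (LinearMap.range M.mulVecLin) :=
    (Module.finBasis R (LinearMap.range M.mulVecLin)).reindex e
  -- projection to the range
  let p : (ι → R) →ₗ[R] LinearMap.range M.mulVecLin := M.mulVecLin.rangeRestrict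
  have hp : ∀ v : LinearMap.range M.mulVecLin, p (v : ι → R) = v := by
    rintro ⟨v, w, rfl⟩
    apply Subtype.ext
    change M.mulVecLin (M.mulVecLin w) = M.mulVecLin w
    simp only [Matrix.mulVecLin_apply, Matrix.mulVec_mulVec, h]
  let X : Matrix ι ι R := fun i j => if hj : j ∈ S then (b ⟨j, hj⟩ : ι → R) i else 0
  let Y : Matrix ι ι R := fun i j => if hi : i ∈ S then b.repr (p (Pi.single j 1)) ⟨i, hi⟩ else 0
  refine ⟨X, Y, ?_, ?_⟩
  · ext i j
    have h1 := congrArg (fun v : LinearMap.range M.mulVecLin => (v : ι → R) i)
      (b.sum_repr (p (Pi.single j 1)))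
    simp only [Submodule.coe_sum, Submodule.coe_smul, Finset.sum_apply, Pi.smul_apply,
      smul_eq_mul] at h1
    have h2 : (p (Pi.single j 1) : ι → R) i = M i j := by
      change (M.mulVecLin (Pi.single j 1)) i = M i j
      simp
    rw [Matrix.mul_apply, ← h2, ← h1, ← Finset.sum_subset (Finset.subset_univ S),
      ← Finset.sum_coe_sort S]
    · refine Finset.sum_congr rfl fun k _ => ?_
      simp only [X, Y, k.2, dif_pos]
      ring
    · intro k _ hk
      simp only [X, Y, hk, dif_neg, not_false_eq_true, mul_zero]
  · ext i j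
    rw [Matrix.mul_apply, Matrix.diagonal_apply]
    by_cases hj : j ∈ S
    · by_cases hi : i ∈ S
      · have h3 : ∑ k, Y i k * X k j = b.repr (p ((b ⟨j, hj⟩ : LinearMap.range M.mulVecLin) : ι → R))
            ⟨i, hi⟩ := by
          have h4 : ((b ⟨j, hj⟩ : LinearMap.range M.mulVecLin) : ι → R) =
              ∑ k, ((b ⟨j, hj⟩ : LinearMap.range M.mulVecLin) : ι → R) k •
                (Pi.single k (1 : R) : ι → R) := by
            ext t
            simp [Finset.sum_apply, Pi.single_apply]
          conv_rhs => rw [h4]
          rw [map_sum, map_sum, Finsupp.finsetSum_apply]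
          refine Finset.sum_congr rfl fun k _ => ?_
          simp only [X, Y, hi, hj, dif_pos, map_smul, Finsupp.smul_apply, smul_eq_mul]
          ring
        rw [h3, hp, Module.Basis.repr_self, Finsupp.single_apply]
        by_cases hij : i = j
        · subst hij; simp [hi]
        · have : ¬ ((⟨j, hj⟩ : S) = ⟨i, hi⟩) := fun hh => hij (congrArg Subtype.val hh).symm
          simp [hij, this]
      · rw [Finset.sum_eq_zero]
        · by_cases hij : i = j
          · subst hij; exact absurd hj hi
          · simp [hij]
        · intro k _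
          simp only [Y, hi, dif_neg, not_false_eq_true, zero_mul]
    · rw [Finset.sum_eq_zero]
      · by_cases hij : i = j
        · subst hij; simp [hj]
        · simp [hij]
      · intro k _
        simp only [X, hj, dif_neg, not_false_eq_true, mul_zero]

/-- An idempotent matrix over a PID is equivalent to a diagonal one, and so is its complement
(the image and the kernel are free modules, of ranks `r` and `n - r`). -/
theorem idem_diag {R : Type*} [CommRing R] [IsDomain R] [IsPrincipalIdealRing R]
    {ι : Type*} [Fintype ι] [DecidableEq ι] (M : Matrix ι ι R) (h : M * M = M) :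
    ∃ S : Finset ι, (∃ X Y : Matrix ι ι R, X * Y = M ∧
      Y * X = Matrix.diagonal (fun i => if i ∈ S then 1 else 0)) ∧
      ∃ X Y : Matrix ι ι R, X * Y = 1 - M ∧
      Y * X = 1 - Matrix.diagonal (fun i => if i ∈ S then 1 else 0) := by
  have h' : (1 - M) * (1 - M) = 1 - M := by
    rw [sub_mul, mul_sub, mul_sub, h]; simp
  have hk : LinearMap.ker M.mulVecLin = LinearMap.range (1 - M).mulVecLin := by
    ext v
    rw [LinearMap.mem_ker, LinearMap.mem_range]
    constructor
    · intro hv
      refine ⟨v, ?_⟩
      rw [Matrix.mulVecLin_apply] at hv ⊢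
      rw [Matrix.sub_mulVec, hv, Matrix.one_mulVec, sub_zero]
    · rintro ⟨w, rfl⟩
      simp only [Matrix.mulVecLin_apply, Matrix.mulVec_mulVec]
      rw [mul_sub, h, mul_one, sub_self, Matrix.zero_mulVec]
  have hsum : Module.finrank R (LinearMap.range M.mulVecLin) +
      Module.finrank R (LinearMap.range (1 - M).mulVecLin) = Fintype.card ι := by
    rw [← hk]
    have e := LinearMap.quotKerEquivRange M.mulVecLin
    rw [← e.finrank_eq]
    have := Submodule.finrank_quotient_add_finrank (R := R) (LinearMap.ker M.mulVecLin)
    rw [this, Module.finrank_fintype_fun_eq_card]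
  obtain ⟨S, -, hS⟩ := Finset.exists_subset_card_eq (s := (Finset.univ : Finset ι))
    (n := Module.finrank R (LinearMap.range M.mulVecLin))
    (by rw [Finset.card_univ, ← hsum]; exact Nat.le_add_right _ _)
  refine ⟨S, idem_half M h S hS.symm, ?_⟩
  obtain ⟨X, Y, hXY, hYX⟩ := idem_half (1 - M) h' Sᶜ (by
    rw [Finset.card_compl, hS, ← hsum]; omega)
  refine ⟨X, Y, hXY, ?_⟩
  rw [hYX]
  ext i j
  rw [Matrix.sub_apply, Matrix.one_apply, Matrix.diagonal_apply, Matrix.diagonal_apply]
  by_cases hij : i = j <;> by_cases hi : i ∈ S <;> simp [hij]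
  · subst hij; simp [hi]
  · subst hij; simp [hi]

/-- equivalent diagonal idempotents have the same rank -/
theorem diag_card {R : Type*} [CommRing R] [Nontrivial R]
    {ι : Type*} [Fintype ι] [DecidableEq ι] (S S' : Finset ι) (X Y : Matrix ι ι R)
    (h : X * Y = Matrix.diagonal (fun i => if i ∈ S then 1 else 0))
    (h' : Y * X = Matrix.diagonal (fun i => if i ∈ S' then 1 else 0)) : S.card = S'.card := by
  classical
  obtain ⟨m, hm⟩ := Ideal.exists_maximal R
  let k := R ⧸ m
  let _ : Field k := Ideal.Quotient.field m
  let f : R →+* k := Ideal.Quotient.mk m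
  have key : ∀ (A B : Finset ι) (U V : Matrix ι ι k),
      U * V = Matrix.diagonal (fun i => if i ∈ A then 1 else 0) →
      V * U = Matrix.diagonal (fun i => if i ∈ B then 1 else 0) → A.card ≤ B.card := by
    intro A B U V hUV hVU
    have rk : ∀ C : Finset ι, (Matrix.diagonal (fun i => if i ∈ C then (1 : k) else 0)).rank =
        C.card := by
      intro C
      rw [Matrix.rank_diagonal]
      rw [Fintype.card_subtype]
      congr 1
      ext i; simp
    have hD : Matrix.diagonal (fun i => if i ∈ A then (1 : k) else 0) =
        U * (Matrix.diagonal (fun i => if i ∈ B then (1 : k) else 0) * V) := by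
      rw [← hVU]
      have : U * (V * U * V) = (U * V) * (U * V) := by simp only [Matrix.mul_assoc]
      rw [this, hUV, Matrix.diagonal_mul_diagonal]
      congr 1; ext i; by_cases hi : i ∈ A <;> simp [hi]
    rw [← rk A, hD]
    refine (Matrix.rank_mul_le_right _ _).trans ((Matrix.rank_mul_le_left _ _).trans ?_)
    rw [rk B]
  have hmap : ∀ C : Finset ι, (Matrix.diagonal (fun i => if i ∈ C then (1 : R) else 0)).map f =
      Matrix.diagonal (fun i => if i ∈ C then (1 : k) else 0) := by
    intro C
    rw [Matrix.diagonal_map (map_zero f)]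
    congr 1; ext i; by_cases hi : i ∈ C <;> simp [hi]
  have e1 : X.map f * Y.map f = Matrix.diagonal (fun i => if i ∈ S then 1 else 0) := by
    rw [← Matrix.map_mul, h, hmap]
  have e2 : Y.map f * X.map f = Matrix.diagonal (fun i => if i ∈ S' then 1 else 0) := by
    rw [← Matrix.map_mul, h', hmap]
  exact le_antisymm (key S S' _ _ e1 e2) (key S' S _ _ e2 e1)

end Pool.Agent.Helper32.LV
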