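import Pool.Agent.Helper32.LV.Std
import Pool.Agent.Helper32.LV.Mat

/-! Elements of a stage with loops are matrices over `K` or over the Laurent polynomials. PIECE 6.

For an index `α` ending at a vertex with a loop `e` the gap is the vertex itself (`e` is the only
edge there and is not in `T.Ft`). -/

set_option autoImplicit false

universe k a b

namespace Pool.Agent.Helper32.LV

variable {V : Type a} {E : Type b} {K : Type k} [Field K] [StarRing K] {G : Gr V E}

theorem zgens_mono {T T' : Stage G} (h : T ≤ T') : zgens K G T ⊆ zgens K G T' := by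
  rintro x (⟨v, hv, rfl⟩ | ⟨e, he, hx⟩)
  · exact Or.inl ⟨v, h.1 hv, rfl⟩
  · refine Or.inr ⟨e, ?_, hx⟩
    rcases he with he | he
    · exact Or.inl (h.2 he)
    · exact Or.inr ⟨h.1 he.1, he.2⟩

theorem Zspan_mono {T T' : Stage G} (h : T ≤ T') : Zspan K G T ≤ Zspan K G T' :=
  NonUnitalAlgebra.adjoin_mono (zgens_mono h)

theorem Zspan_le_L (T : Stage G) : Zspan K G T ≤ L K G := by
  refine NonUnitalAlgebra.adjoin_le ?_
  rintro x (⟨v, -, rfl⟩ | ⟨e, -, rfl | rfl⟩)
  · exact vx_mem v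
  · exact ed_mem e
  · exact gh_mem e

theorem vx_mem_Zspan {T : Stage G} {v : V} (hv : v ∈ T.Vt) : vx K G v ∈ Zspan K G T :=
  NonUnitalAlgebra.subset_adjoin K (Or.inl ⟨v, hv, rfl⟩)

theorem ed_mem_Zspan {T : Stage G} {e : E} (he : e ∈ T.Ft ∨ (G.s e ∈ T.Vt ∧ G.s e = G.r e)) :
    ed K G e ∈ Zspan K G T :=
  NonUnitalAlgebra.subset_adjoin K (Or.inr ⟨e, he, Or.inl rfl⟩)

theorem gh_mem_Zspan {T : Stage G} {e : E} (he : e ∈ T.Ft ∨ (G.s e ∈ T.Vt ∧ G.s e = G.r e)) :
    gh K G e ∈ Zspan K G T :=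
  NonUnitalAlgebra.subset_adjoin K (Or.inr ⟨e, he, Or.inr rfl⟩)

theorem Zspan_star {T : Stage G} {x : U K G} (h : x ∈ Zspan K G T) : star x ∈ Zspan K G T := by
  unfold Zspan at h
  induction h using NonUnitalAlgebra.adjoin_induction with
  | mem x hx =>
    obtain ⟨v, hv, rfl⟩ | ⟨e, he, rfl | rfl⟩ := hx
    · rw [star_vx]; exact vx_mem_Zspan hv
    · rw [star_ed]; exact gh_mem_Zspan he
    · rw [star_gh]; exact ed_mem_Zspan he
  | zero => rw [star_zero]; exact (Zspan K G T).zero_mem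
  | add x y _ _ h1 h2 => rw [star_add]; exact (Zspan K G T).add_mem h1 h2
  | mul x y _ _ h1 h2 => rw [star_mul]; exact (Zspan K G T).mul_mem h2 h1
  | smul c x _ h1 => rw [star_smul]; exact SMulMemClass.smul_mem _ h1

theorem list_mem_Zspan {T : Stage G} (l : List E) (hl : l ≠ []) (h : ∀ e ∈ l, e ∈ T.Ft) :
    (l.map (ed K G)).prod ∈ Zspan K G T := by
  induction l with
  | nil => exact absurd rfl hl
  | cons e l ih =>
    rw [List.map_cons, List.prod_cons]
    rcases eq_or_ne l [] with rfl | h'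
    · simpa using ed_mem_Zspan (K := K) (Or.inl (h e (by simp)))
    · exact (Zspan K G T).mul_mem (ed_mem_Zspan (Or.inl (h e (by simp))))
        (ih h' fun f hf => h f (by simp [hf]))

theorem gapU_mem_Zspan {T : Stage G} {w : V} (hw : w ∈ T.Vt) : gapU K T w ∈ Zspan K G T := by
  classical
  unfold gapU gapB
  refine (Zspan K G T).sub_mem (vx_mem_Zspan hw) ((Zspan K G T).sum_mem fun e he => ?_)
  have he' := (Finset.mem_filter.mp he).1
  rw [star_ed]
  exact (Zspan K G T).mul_mem (ed_mem_Zspan (Or.inl he')) (gh_mem_Zspan (Or.inl he'))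

theorem aU_mem_Zspan {T : Stage G} {α : V × List E} (hα : α ∈ Psi T) :
    aU K T α ∈ Zspan K G T := by
  unfold aU aB
  refine (Zspan K G T).mul_mem ?_ (gapU_mem_Zspan (tgt_mem hα))
  unfold pB
  rcases eq_or_ne α.2 [] with h | h
  · rw [h]; simpa using vx_mem_Zspan hα.1
  · exact (Zspan K G T).mul_mem (vx_mem_Zspan hα.1) (list_mem_Zspan _ h hα.2.2.1)

theorem mU_mem_Zspan {T : Stage G} {α β : V × List E} (hα : α ∈ Psi T) (hβ : β ∈ Psi T) :
    mU K T α β ∈ Zspan K G T :=
  (Zspan K G T).mul_mem (aU_mem_Zspan hα) (Zspan_star (aU_mem_Zspan hβ))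

theorem Mspan_le_Zspan {T : Stage G} {x : U K G} (h : x ∈ Mspan K T) : x ∈ Zspan K G T := by
  unfold Mspan at h
  induction h using Submodule.span_induction with
  | mem x hx =>
    obtain ⟨α, hα, β, hβ, -, rfl⟩ := hx
    exact mU_mem_Zspan hα hβ
  | zero => exact (Zspan K G T).zero_mem
  | add x y _ _ hx hy => exact (Zspan K G T).add_mem hx hy
  | smul c x _ hx => exact SMulMemClass.smul_mem c hx

/-- the stage of a vertex -/
def stV (G : Gr V E) (v : V) : Stage G := ⟨{v}, ∅, by simp, by simp, by simp⟩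

open Classical in
/-- the stage of an edge -/
noncomputable def stE (G : Gr V E) (e : E) (h : G.s e ≠ G.r e) : Stage G :=
  ⟨{G.s e, G.r e}, {e}, by simp, by simp, by simpa using h⟩

theorem exists_stE (e : E) : ∃ T : Stage G, e ∈ T.Ft ∨ (G.s e ∈ T.Vt ∧ G.s e = G.r e) := by
  classical
  by_cases h : G.s e = G.r e
  · exact ⟨stV G (G.s e), Or.inr ⟨by simp [stV], h⟩⟩
  · exact ⟨stE G e h, Or.inl (by simp [stE])⟩

theorem exists_Zspan {x : U K G} (hx : x ∈ L K G) : ∃ T : Stage G, x ∈ Zspan K G T := by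
  refine L_ind (p := fun x => ∃ T : Stage G, x ∈ Zspan K G T) ?_ ?_ ?_ ?_ ?_ ?_ ?_ hx
  · intro v
    exact ⟨stV G v, vx_mem_Zspan (by simp [stV])⟩
  · intro e
    obtain ⟨T, hT⟩ := exists_stE (G := G) e
    exact ⟨T, ed_mem_Zspan hT⟩
  · intro e
    obtain ⟨T, hT⟩ := exists_stE (G := G) e
    exact ⟨T, gh_mem_Zspan hT⟩
  · exact ⟨⟨∅, ∅, by simp, by simp, by simp⟩, zero_mem _⟩
  · rintro x - y - ⟨T, hT⟩ ⟨T', hT'⟩
    exact ⟨T.sup T', add_mem (Zspan_mono (T.le_sup_left T') hT)
      (Zspan_mono (T.le_sup_right T') hT')⟩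
  · rintro x - y - ⟨T, hT⟩ ⟨T', hT'⟩
    exact ⟨T.sup T', mul_mem (Zspan_mono (T.le_sup_left T') hT)
      (Zspan_mono (T.le_sup_right T') hT')⟩
  · rintro c x - ⟨T, hT⟩
    exact ⟨T, SMulMemClass.smul_mem c hT⟩

theorem exists_Zspan_finset {ι : Type*} (s : Finset ι) (f : ι → U K G)
    (hf : ∀ i ∈ s, f i ∈ L K G) (T0 : Stage G) :
    ∃ T : Stage G, T0 ≤ T ∧ ∀ i ∈ s, f i ∈ Zspan K G T := by
  classical
  induction s using Finset.induction_on with
  | empty => exact ⟨T0, T0.le_rfl', by simp⟩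
  | insert i s _ ih =>
    obtain ⟨T, hT0, hT⟩ := ih fun j hj => hf j (Finset.mem_insert_of_mem hj)
    obtain ⟨T', hT'⟩ := exists_Zspan (hf i (Finset.mem_insert_self i s))
    refine ⟨T.sup T', Stage.le_trans' hT0 (T.le_sup_left T'), fun j hj => ?_⟩
    rcases Finset.mem_insert.mp hj with rfl | hj
    · exact Zspan_mono (T.le_sup_right T') hT'
    · exact Zspan_mono (T.le_sup_left T') (hT j hj)

theorem gapU_loop (hG : G.LA) (T : Stage G) {e : E} (hl : G.s e = G.r e) :
    gapU K T (G.s e) = vx K G (G.s e) := by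
  classical
  unfold gapU gapB
  have h1 : T.Ft.filter (fun f => G.s f = G.s e) = ∅ := by
    rw [Finset.filter_eq_empty_iff]
    intro f hf hfe
    have h2 := hG.loop e f hl hfe
    subst h2
    exact T.nl _ hf hl
  have h2 : ∀ s : Finset E, s = ∅ → vx K G (G.s e) - ∑ f ∈ s, ed K G f * star (ed K G f) =
      vx K G (G.s e) := by
    rintro s rfl
    rw [Finset.sum_empty, sub_zero]
  exact h2 _ (by convert h1)

/-- the sum of the diagonal matrix units fixes the vertices of the stage -/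
theorem unit_vx (hG : G.LA) {T : Stage G} {v : V} (hv : v ∈ T.Vt) :
    (∑ α ∈ PsiF T, mU K T α α) * vx K G v = vx K G v ∧
      vx K G v * (∑ α ∈ PsiF T, mU K T α α) = vx K G v := by
  classical
  have h0 : vx K G v = ∑ β ∈ (PsiF T).filter (fun β => β.1 = v), mU K T β β :=
    q_eq_sum hG (fam_U K) (fun _ _ => Set.mem_univ _) hv
  constructor
  · rw [h0, Finset.mul_sum]
    refine Finset.sum_congr rfl fun β hβ => ?_
    have hβ' := (Finset.mem_filter.mp hβ).1
    rw [Finset.sum_mul, Finset.sum_eq_single β]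
    · exact mU_mul_same ((mem_PsiF hG).mp hβ') ((mem_PsiF hG).mp hβ') rfl β
    · intro α hα hne
      exact mU_mul_ne ((mem_PsiF hG).mp hα) ((mem_PsiF hG).mp hβ') hne
    · exact fun h => absurd hβ' h
  · rw [h0, Finset.sum_mul]
    refine Finset.sum_congr rfl fun β hβ => ?_
    have hβ' := (Finset.mem_filter.mp hβ).1
    rw [Finset.mul_sum, Finset.sum_eq_single β]
    · exact mU_mul_same ((mem_PsiF hG).mp hβ') ((mem_PsiF hG).mp hβ') rfl β
    · intro α hα hne
      exact mU_mul_ne ((mem_PsiF hG).mp hβ') ((mem_PsiF hG).mp hα) hne.symm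
    · exact fun h => absurd hβ' h

theorem mem_Vt_of {T : Stage G} {e : E} (he : e ∈ T.Ft ∨ (G.s e ∈ T.Vt ∧ G.s e = G.r e)) :
    G.s e ∈ T.Vt ∧ G.r e ∈ T.Vt := by
  rcases he with he | ⟨h1, h2⟩
  · exact ⟨T.hs e he, T.hr e he⟩
  · exact ⟨h1, h2 ▸ h1⟩

/-- the unit of the subalgebra of the stage is the sum of the diagonal matrix units -/
theorem Zspan_unit (hG : G.LA) {T : Stage G} {x : U K G} (hx : x ∈ Zspan K G T) :
    (∑ α ∈ PsiF T, mU K T α α) * x = x ∧ x * (∑ α ∈ PsiF T, mU K T α α) = x := by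
  unfold Zspan at hx
  induction hx using NonUnitalAlgebra.adjoin_induction with
  | mem x hx =>
    obtain ⟨v, hv, rfl⟩ | ⟨e, he, rfl | rfl⟩ := hx
    · exact unit_vx hG hv
    · obtain ⟨h1, h2⟩ := mem_Vt_of he
      constructor
      · conv_lhs => rw [← vx_ed, ← mul_assoc, (unit_vx hG h1).1, vx_ed]
      · conv_lhs => rw [← ed_vx, mul_assoc, (unit_vx hG h2).2, ed_vx]
    · obtain ⟨h1, h2⟩ := mem_Vt_of he
      constructor
      · conv_lhs => rw [← vx_gh, ← mul_assoc, (unit_vx hG h2).1, vx_gh]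
      · conv_lhs => rw [← gh_vx, mul_assoc, (unit_vx hG h1).2, gh_vx]
  | zero => exact ⟨mul_zero _, zero_mul _⟩
  | add x y _ _ h1 h2 => rw [mul_add, add_mul, h1.1, h1.2, h2.1, h2.2]; exact ⟨rfl, rfl⟩
  | mul x y _ _ h1 h2 => rw [← mul_assoc, h1.1, mul_assoc, h2.2]; exact ⟨rfl, rfl⟩
  | smul c x _ h1 => rw [mul_smul_comm, smul_mul_assoc, h1.1, h1.2]; exact ⟨rfl, rfl⟩

theorem dec_sum (hG : G.LA) {T : Stage G} {x : U K G} (hx : x ∈ Zspan K G T) :
    x = ∑ α ∈ PsiF T, ∑ β ∈ PsiF T,
      aU K T α * (star (aU K T α) * x * aU K T β) * star (aU K T β) := by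
  have h1 : (∑ α ∈ PsiF T, mU K T α α) * x * (∑ α ∈ PsiF T, mU K T α α) = x := by
    rw [(Zspan_unit hG hx).1, (Zspan_unit hG hx).2]
  conv_lhs => rw [← h1]
  rw [Finset.sum_mul, Finset.sum_mul]
  refine Finset.sum_congr rfl fun α _ => ?_
  rw [Finset.mul_sum]
  refine Finset.sum_congr rfl fun β _ => ?_
  simp only [mU, mul_assoc]

/-- products in coordinates -/
theorem dec_mul (hG : G.LA) {T : Stage G} {x : U K G} (hx : x ∈ Zspan K G T) (y : U K G)
    (α β : V × List E) : star (aU K T α) * (x * y) * aU K T β =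
      ∑ γ ∈ PsiF T, (star (aU K T α) * x * aU K T γ) * (star (aU K T γ) * y * aU K T β) := by
  conv_lhs => rw [← (Zspan_unit hG hx).2]
  rw [Finset.mul_sum, Finset.sum_mul, Finset.mul_sum, Finset.sum_mul]
  refine Finset.sum_congr rfl fun γ _ => ?_
  simp only [mU, mul_assoc]

/-- the coordinates of a vertex -/
theorem coord_vx {T : Stage G} {α β : V × List E} (hα : α ∈ Psi T) (hβ : β ∈ Psi T)
    (v : V) : star (aU K T α) * vx K G v * aU K T β = 0 ∨
      (α = β ∧ star (aU K T α) * vx K G v * aU K T β = gapU K T (tg G β)) := by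
  have h1 : vx K G β.1 * aU K T β = aU K T β := q_aB (fam_U K) T (Set.mem_univ _)
  by_cases h : v = β.1
  · subst h
    rw [mul_assoc, h1]
    by_cases hab : α = β
    · subst hab
      exact Or.inr ⟨rfl, aU_star_aU_self hβ⟩
    · exact Or.inl (aU_star_aU_ne hα hβ hab)
  · left
    rw [mul_assoc, ← h1, ← mul_assoc (vx K G v), vx_vx_of_ne h, zero_mul, mul_zero]

/-- an index starting at a vertex with a loop is that vertex -/
theorem eq_of_loop (hG : G.LA) {T : Stage G} {β : V × List E} (hβ : β ∈ Psi T) {e : E}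
    (hl : G.s e = G.r e) (h : β.1 = G.s e) : β = (G.s e, []) := by
  obtain ⟨v, l⟩ := β
  change v = G.s e at h
  subst h
  cases l with
  | nil => rfl
  | cons f l =>
    obtain ⟨-, hp, hf, -⟩ := hβ
    have h1 : G.s f = G.s e := hp.1
    have h2 := hG.loop e f hl h1
    subst h2
    exact absurd hl (T.nl f (hf f (by simp)))

/-- the coordinates of an edge of the stage -/
theorem coord_ed (hG : G.LA) {T : Stage G} {α β : V × List E} (hα : α ∈ Psi T) (hβ : β ∈ Psi T)
    {e : E} (he : e ∈ T.Ft) : star (aU K T α) * ed K G e * aU K T β = 0 ∨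
      (tg G α = tg G β ∧ star (aU K T α) * ed K G e * aU K T β = gapU K T (tg G β)) := by
  classical
  have h0 : ed K G e = ∑ γ ∈ (PsiF T).filter (fun β => β.1 = G.r e),
      aU K T (G.s e, e :: γ.2) * star (aU K T γ) :=
    u_eq_sum hG (fam_U K) (fun _ _ => Set.mem_univ _) he
  have hcons : ∀ γ ∈ Psi T, γ.1 = G.r e → (G.s e, e :: γ.2) ∈ Psi T ∧
      tg G (G.s e, e :: γ.2) = tg G γ := by
    rintro ⟨v, l⟩ ⟨h1, h2, h3, h4⟩ h5
    change v = G.r e at h5
    subst h5
    refine ⟨⟨T.hs e he, ⟨rfl, h2⟩, fun f hf => ?_, h4⟩, rfl⟩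
    rcases List.mem_cons.mp hf with rfl | hf
    · exact he
    · exact h3 f hf
  have h1 : star (aU K T α) * ed K G e * aU K T β =
      ∑ γ ∈ (PsiF T).filter (fun β => β.1 = G.r e),
        star (aU K T α) * aU K T (G.s e, e :: γ.2) * (star (aU K T γ) * aU K T β) := by
    rw [h0, Finset.mul_sum, Finset.sum_mul]
    refine Finset.sum_congr rfl fun γ _ => ?_
    simp only [mul_assoc]
  by_cases hb : β.1 = G.r e
  · have h2 : star (aU K T α) * ed K G e * aU K T β =
        star (aU K T α) * aU K T (G.s e, e :: β.2) * (star (aU K T β) * aU K T β) := by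
      rw [h1, Finset.sum_eq_single β]
      · intro γ hγ hne
        rw [aU_star_aU_ne ((mem_PsiF hG).mp (Finset.mem_filter.mp hγ).1) hβ hne, mul_zero]
      · intro h
        exact absurd (Finset.mem_filter.mpr ⟨(mem_PsiF hG).mpr hβ, hb⟩) h
    obtain ⟨h3, h4⟩ := hcons β hβ hb
    by_cases hab : α = (G.s e, e :: β.2)
    · right
      subst hab
      refine ⟨h4, ?_⟩
      rw [h2, aU_star_aU_self h3, aU_star_aU_self hβ, h4, gapU_idem]
    · left
      rw [h2, aU_star_aU_ne hα h3 hab, zero_mul]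
  · left
    rw [h1]
    refine Finset.sum_eq_zero fun γ hγ => ?_
    obtain ⟨hγ, hγ'⟩ := Finset.mem_filter.mp hγ
    rw [aU_star_aU_ne ((mem_PsiF hG).mp hγ) hβ (by rintro rfl; exact hb hγ'), mul_zero]

/-- the coordinates of a ghost edge of the stage -/
theorem coord_gh (hG : G.LA) {T : Stage G} {α β : V × List E} (hα : α ∈ Psi T) (hβ : β ∈ Psi T)
    {e : E} (he : e ∈ T.Ft) : star (aU K T α) * gh K G e * aU K T β = 0 ∨
      (tg G α = tg G β ∧ star (aU K T α) * gh K G e * aU K T β = gapU K T (tg G β)) := by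
  have h1 : star (aU K T α) * gh K G e * aU K T β =
      star (star (aU K T β) * ed K G e * aU K T α) := by
    rw [star_mul, star_mul, star_star, star_ed, mul_assoc]
  rcases coord_ed (K := K) hG hβ hα he with h | ⟨h, h'⟩
  · left
    rw [h1, h, star_zero]
  · right
    refine ⟨h.symm, ?_⟩
    rw [h1, h', gapU_star, h]

/-- the coordinates of a loop -/
theorem coord_loop (hG : G.LA) {T : Stage G} {α β : V × List E} (hα : α ∈ Psi T)
    (hβ : β ∈ Psi T) {e : E} (hl : G.s e = G.r e) {x : U K G}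
    (hx : vx K G (G.s e) * x = x) (hx' : x * vx K G (G.s e) = x) :
    star (aU K T α) * x * aU K T β = 0 ∨
      (α = β ∧ tg G β = G.s e ∧ star (aU K T α) * x * aU K T β = x) := by
  have h1 : vx K G β.1 * aU K T β = aU K T β := q_aB (fam_U K) T (Set.mem_univ _)
  have h2 : star (aU K T α) * vx K G α.1 = star (aU K T α) := by
    have h3 : vx K G α.1 * aU K T α = aU K T α := q_aB (fam_U K) T (Set.mem_univ _)
    have h4 := congrArg star h3
    rwa [star_mul, star_vx] at h4
  by_cases hb : G.s e = β.1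
  · by_cases ha : α.1 = G.s e
    · right
      have hβ' := eq_of_loop hG hβ hl hb.symm
      have hα' := eq_of_loop hG hα hl ha
      subst hβ'
      subst hα'
      refine ⟨rfl, rfl, ?_⟩
      rw [aU_nil, gapU_star, gapU_loop hG T hl, hx, hx']
    · left
      rw [← h2, ← hx, mul_assoc (star (aU K T α)), ← mul_assoc (vx K G α.1), vx_vx_of_ne ha,
        zero_mul, mul_zero, zero_mul]
  · left
    rw [mul_assoc, ← h1, ← hx', mul_assoc x, ← mul_assoc (vx K G (G.s e)), vx_vx_of_ne hb,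
      zero_mul, mul_zero, mul_zero]

omit [StarRing K] in
theorem loop_ed {e : E} (hl : G.s e = G.r e) : vx K G (G.s e) * ed K G e = ed K G e ∧
    ed K G e * vx K G (G.s e) = ed K G e := by
  refine ⟨vx_ed e, ?_⟩
  conv_lhs => rw [hl]
  exact ed_vx e

omit [StarRing K] in
theorem loop_gh {e : E} (hl : G.s e = G.r e) : vx K G (G.s e) * gh K G e = gh K G e ∧
    gh K G e * vx K G (G.s e) = gh K G e := by
  refine ⟨?_, gh_vx e⟩
  conv_lhs => rw [hl]
  exact vx_gh e

theorem dec_ne (hG : G.LA) {T : Stage G} {x : U K G} (hx : x ∈ Zspan K G T)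
    {α β : V × List E} (hα : α ∈ Psi T) (hβ : β ∈ Psi T) (h : tg G α ≠ tg G β) :
    star (aU K T α) * x * aU K T β = 0 := by
  have hx0 := hx
  unfold Zspan at hx
  induction hx using NonUnitalAlgebra.adjoin_induction generalizing α β with
  | mem x hx =>
    obtain ⟨v, hv, rfl⟩ | ⟨e, he, hxe⟩ := hx
    · rcases coord_vx (K := K) hα hβ v with h1 | ⟨rfl, -⟩
      · exact h1
      · exact absurd rfl h
    · rcases he with he | ⟨-, hl⟩
      · rcases hxe with rfl | rfl
        · rcases coord_ed (K := K) hG hα hβ he with h1 | ⟨h1, -⟩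
          · exact h1
          · exact absurd h1 h
        · rcases coord_gh (K := K) hG hα hβ he with h1 | ⟨h1, -⟩
          · exact h1
          · exact absurd h1 h
      · rcases hxe with rfl | rfl
        · rcases coord_loop hG hα hβ hl (loop_ed (K := K) hl).1 (loop_ed hl).2 with h1 | ⟨rfl, -⟩
          · exact h1
          · exact absurd rfl h
        · rcases coord_loop hG hα hβ hl (loop_gh (K := K) hl).1 (loop_gh hl).2 with h1 | ⟨rfl, -⟩
          · exact h1
          · exact absurd rfl h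
  | zero => rw [mul_zero, zero_mul]
  | add x y hx hy h1 h2 => rw [mul_add, add_mul, h1 hα hβ h hx, h2 hα hβ h hy, add_zero]
  | mul x y hx hy h1 h2 =>
    rw [dec_mul hG hx]
    refine Finset.sum_eq_zero fun γ hγ => ?_
    have hγ' := (mem_PsiF hG).mp hγ
    by_cases hc : tg G α = tg G γ
    · rw [h2 hγ' hβ (hc ▸ h) hy, mul_zero]
    · rw [h1 hα hγ' hc hx, zero_mul]
  | smul c x hx h1 => rw [mul_smul_comm, smul_mul_assoc, h1 hα hβ h hx, smul_zero]

/-- the coordinates over a vertex are in every subalgebra which contains those of the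
generators -/
theorem dec_mem (hG : G.LA) {T : Stage G} {w : V} (A : NonUnitalSubalgebra K (U K G))
    (hA : gapU K T w ∈ A)
    (hA' : ∀ e, G.s e = w → G.s e = G.r e → ed K G e ∈ A ∧ gh K G e ∈ A) {x : U K G}
    (hx : x ∈ Zspan K G T) {α β : V × List E} (hα : α ∈ Psi T) (hβ : β ∈ Psi T)
    (h : tg G α = w) (h' : tg G β = w) : star (aU K T α) * x * aU K T β ∈ A := by
  have hx0 := hx
  unfold Zspan at hx
  induction hx using NonUnitalAlgebra.adjoin_induction generalizing α β with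
  | mem x hx =>
    obtain ⟨v, hv, rfl⟩ | ⟨e, he, hxe⟩ := hx
    · rcases coord_vx (K := K) hα hβ v with h1 | ⟨-, h1⟩
      · rw [h1]; exact A.zero_mem
      · rw [h1, h']; exact hA
    · rcases he with he | ⟨-, hl⟩
      · rcases hxe with rfl | rfl
        · rcases coord_ed (K := K) hG hα hβ he with h1 | ⟨-, h1⟩
          · rw [h1]; exact A.zero_mem
          · rw [h1, h']; exact hA
        · rcases coord_gh (K := K) hG hα hβ he with h1 | ⟨-, h1⟩
          · rw [h1]; exact A.zero_mem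
          · rw [h1, h']; exact hA
      · rcases hxe with rfl | rfl
        · rcases coord_loop hG hα hβ hl (loop_ed (K := K) hl).1 (loop_ed hl).2 with
            h1 | ⟨-, h2, h1⟩
          · rw [h1]; exact A.zero_mem
          · rw [h1]; exact (hA' e (h2.symm.trans h') hl).1
        · rcases coord_loop hG hα hβ hl (loop_gh (K := K) hl).1 (loop_gh hl).2 with
            h1 | ⟨-, h2, h1⟩
          · rw [h1]; exact A.zero_mem
          · rw [h1]; exact (hA' e (h2.symm.trans h') hl).2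
  | zero => rw [mul_zero, zero_mul]; exact A.zero_mem
  | add x y hx hy h1 h2 =>
    rw [mul_add, add_mul]
    exact A.add_mem (h1 hα hβ h h' hx) (h2 hα hβ h h' hy)
  | mul x y hx hy h1 h2 =>
    rw [dec_mul hG hx]
    refine A.sum_mem fun γ hγ => ?_
    have hγ' := (mem_PsiF hG).mp hγ
    by_cases hc : tg G γ = w
    · exact A.mul_mem (h1 hα hγ' h hc hx) (h2 hγ' hβ hc h' hy)
    · rw [dec_ne hG hx hα hγ' (fun h3 => hc (h3.symm.trans h)), zero_mul]
      exact A.zero_mem
  | smul c x hx h1 =>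
    rw [mul_smul_comm, smul_mul_assoc]
    exact SMulMemClass.smul_mem c (h1 hα hβ h h' hx)

variable (K) in
/-- the Laurent polynomials in a loop -/
noncomputable def thetaAlg (hG : G.LA) {e : E} (hl : G.s e = G.r e) :
    NonUnitalSubalgebra K (U K G) where
  carrier := Set.range (theta K G e)
  add_mem' := by
    rintro _ _ ⟨p, rfl⟩ ⟨q, rfl⟩
    exact ⟨p + q, theta_add e p q⟩
  zero_mem' := ⟨0, by simp [theta]⟩
  mul_mem' := by
    rintro _ _ ⟨p, rfl⟩ ⟨q, rfl⟩
    exact ⟨p * q, theta_mul hG hl p q⟩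
  smul_mem' := by
    rintro c _ ⟨p, rfl⟩
    exact ⟨c • p, theta_smul e c p⟩

theorem dec_loop (hG : G.LA) {T : Stage G} {x : U K G} (hx : x ∈ Zspan K G T)
    {α β : V × List E} (hα : α ∈ Psi T) (hβ : β ∈ Psi T) {e : E} (hl : G.s e = G.r e)
    (h : tg G α = G.s e) (h' : tg G β = G.s e) :
    ∃ p : LaurentPolynomial K, star (aU K T α) * x * aU K T β = theta K G e p := by
  have h0 : gapU K T (G.s e) ∈ thetaAlg K hG hl :=
    ⟨1, by rw [theta_one, gapU_loop hG T hl]⟩
  have h1 : ∀ f, G.s f = G.s e → G.s f = G.r f →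
      ed K G f ∈ thetaAlg K hG hl ∧ gh K G f ∈ thetaAlg K hG hl := by
    intro f hf _
    have h1 := hG.loop e f hl hf
    subst h1
    exact ⟨⟨LaurentPolynomial.T 1, by rw [theta_T, zp_one]⟩,
      ⟨LaurentPolynomial.T (-1), by rw [theta_T, zp_neg_one hl]⟩⟩
  obtain ⟨p, hp⟩ := dec_mem hG (thetaAlg K hG hl) h0 h1 hx hα hβ h h'
  exact ⟨p, hp.symm⟩

variable (K) in
/-- the multiples of a gap projection -/
noncomputable def gapAlg (T : Stage G) (w : V) : NonUnitalSubalgebra K (U K G) where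
  carrier := Set.range fun c : K => c • gapU K T w
  add_mem' := by
    rintro _ _ ⟨p, rfl⟩ ⟨q, rfl⟩
    exact ⟨p + q, add_smul _ _ _⟩
  zero_mem' := ⟨0, zero_smul _ _⟩
  mul_mem' := by
    rintro _ _ ⟨p, rfl⟩ ⟨q, rfl⟩
    refine ⟨p * q, ?_⟩
    change (p * q) • gapU K T w = (p • gapU K T w) * (q • gapU K T w)
    rw [smul_mul_smul_comm, gapU_idem]
  smul_mem' := by
    rintro c _ ⟨p, rfl⟩
    exact ⟨c * p, mul_smul _ _ _⟩

theorem dec_noloop (hG : G.LA) {T : Stage G} {x : U K G} (hx : x ∈ Zspan K G T)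
    {α β : V × List E} (hα : α ∈ Psi T) (hβ : β ∈ Psi T)
    (hn : ∀ e, G.s e = tg G α → G.s e ≠ G.r e) (h' : tg G β = tg G α) :
    ∃ c : K, star (aU K T α) * x * aU K T β = c • gapU K T (tg G α) := by
  have h0 : gapU K T (tg G α) ∈ gapAlg K T (tg G α) := ⟨1, one_smul _ _⟩
  obtain ⟨c, hc⟩ := dec_mem hG (gapAlg K T (tg G α)) h0 (fun f hf hl => absurd hl (hn f hf))
    hx hα hβ rfl h'
  exact ⟨c, hc.symm⟩

variable (K) in
/-- coordinates in the corner of a vertex -/
structure Coord (T : Stage G) (w : V) where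
  R : Type k
  cr : CommRing R
  dom : IsDomain R
  pid : IsPrincipalIdealRing R
  θ : R → U K G
  add : ∀ x y, θ (x + y) = θ x + θ y
  mul : ∀ x y, θ (x * y) = θ x * θ y
  one : θ 1 = gapU K T w
  inj : Function.Injective θ
  mem : ∀ x, θ x ∈ L K G
  coord : ∀ x ∈ Zspan K G T, ∀ α ∈ Psi T, ∀ β ∈ Psi T, tg G α = w → tg G β = w →
    ∃ r, star (aU K T α) * x * aU K T β = θ r

omit [StarRing K] in
theorem zp_mem (e : E) (n : ℤ) : zp K G e n ∈ L K G := by
  have h1 : ∀ (x : U K G), x ∈ L K G → ∀ n : ℕ, vx K G (G.s e) * x ^ n ∈ L K G := by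
    intro x hx n
    induction n with
    | zero => rw [pow_zero, mul_one]; exact vx_mem _
    | succ n ih => rw [pow_succ, ← mul_assoc]; exact (L K G).mul_mem ih hx
  cases n with
  | ofNat n => exact h1 _ (ed_mem e) n
  | negSucc n => exact h1 _ (gh_mem e) (n + 1)

theorem theta_mem (e : E) (p : LaurentPolynomial K) : theta K G e p ∈ L K G := by
  unfold theta
  rw [Finsupp.linearCombination_apply]
  exact (L K G).sum_mem fun n _ => SMulMemClass.smul_mem _ (zp_mem e n)

/-- from `dec_loop`, `dec_noloop`, `theta_mul`, `theta_inj`, `laurent_pir` -/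
theorem exists_coord (hG : G.LA) (T : Stage G) {w : V} (hw : ¬ Full T w) :
    Nonempty (Coord K T w) := by
  by_cases hl : ∃ e, G.s e = w ∧ G.s e = G.r e
  · obtain ⟨e, rfl, hl⟩ := hl
    refine ⟨{
      R := LaurentPolynomial K
      cr := inferInstance
      dom := inferInstance
      pid := laurent_pir K
      θ := theta K G e
      add := theta_add e
      mul := theta_mul hG hl
      one := ?_
      inj := theta_inj hl
      mem := theta_mem e
      coord := fun x hx α hα β hβ h h' => dec_loop hG hx hα hβ hl h h' }⟩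
    rw [theta_one, gapU_loop hG T hl]
  · push Not at hl
    refine ⟨{
      R := K
      cr := inferInstance
      dom := inferInstance
      pid := inferInstance
      θ := fun c => c • gapU K T w
      add := fun x y => add_smul _ _ _
      mul := fun x y => ?_
      one := one_smul _ _
      inj := fun x y hxy => ?_
      mem := fun c => SMulMemClass.smul_mem c (gapU_mem T w)
      coord := fun x hx α hα β hβ h h' => ?_ }⟩
    · change (x * y) • gapU K T w = (x • gapU K T w) * (y • gapU K T w)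
      rw [smul_mul_smul_comm, gapU_idem]
    · have h1 : (x - y) • gapU K T w = 0 := by
        rw [sub_smul, sub_eq_zero]
        exact hxy
      rcases smul_eq_zero.mp h1 with h2 | h2
      · exact sub_eq_zero.mp h2
      · exact absurd h2 (gapU_ne_zero T hw)
    · subst h
      exact dec_noloop hG hx hα hβ (fun e he => hl e he) h'

end Pool.Agent.Helper32.LV
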