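import Mathlib

/-! Leavitt path algebras: definitions. A directed graph has a type `V` of vertices, a type `E` of
edges, a source map and a range map. -/

set_option autoImplicit false

universe k a b

namespace Pool.Agent.Helper32.LV

/-- a directed graph with vertices `V` and edges `E` -/
structure Gr (V : Type a) (E : Type b) where
  /-- source -/
  s : E → V
  /-- range -/
  r : E → V

/-- generators: the vertices `v`, the edges `e` and the ghost edges `e*` -/
inductive Gen (V : Type a) (E : Type b)
  | vert : V → Gen V E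
  | edge : E → Gen V E
  | ghost : E → Gen V E

variable {V : Type a} {E : Type b}

/-- the swap of `e` and `e*` -/
def Gen.sw : Gen V E → Gen V E
  | .vert v => .vert v
  | .edge e => .ghost e
  | .ghost e => .edge e

variable (K : Type k) [Field K] (G : Gr V E)

/-- the defining relations of the Leavitt path algebra -/
inductive Rel : FreeAlgebra K (Gen V E) → FreeAlgebra K (Gen V E) → Prop
  | vv (v : V) : Rel (FreeAlgebra.ι K (.vert v) * FreeAlgebra.ι K (.vert v))
      (FreeAlgebra.ι K (.vert v))
  | vw (v w : V) (h : v ≠ w) : Rel (FreeAlgebra.ι K (.vert v) * FreeAlgebra.ι K (.vert w)) 0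
  | se (e : E) : Rel (FreeAlgebra.ι K (.vert (G.s e)) * FreeAlgebra.ι K (.edge e))
      (FreeAlgebra.ι K (.edge e))
  | er (e : E) : Rel (FreeAlgebra.ι K (.edge e) * FreeAlgebra.ι K (.vert (G.r e)))
      (FreeAlgebra.ι K (.edge e))
  | rg (e : E) : Rel (FreeAlgebra.ι K (.vert (G.r e)) * FreeAlgebra.ι K (.ghost e))
      (FreeAlgebra.ι K (.ghost e))
  | gs (e : E) : Rel (FreeAlgebra.ι K (.ghost e) * FreeAlgebra.ι K (.vert (G.s e)))
      (FreeAlgebra.ι K (.ghost e))
  | ge (e : E) : Rel (FreeAlgebra.ι K (.ghost e) * FreeAlgebra.ι K (.edge e))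
      (FreeAlgebra.ι K (.vert (G.r e)))
  | gf (e f : E) (h : e ≠ f) : Rel (FreeAlgebra.ι K (.ghost e) * FreeAlgebra.ι K (.edge f)) 0
  | ck (v : V) (h : {e | G.s e = v}.Finite) (h0 : ∃ e, G.s e = v) :
      Rel (FreeAlgebra.ι K (.vert v))
        (∑ e ∈ h.toFinset, FreeAlgebra.ι K (.edge e) * FreeAlgebra.ι K (.ghost e))

/-- The unital `K`-algebra presented by the relations. -/
def U : Type (max k a b) := RingQuot (Rel K G)

noncomputable instance : Ring (U K G) := inferInstanceAs (Ring (RingQuot (Rel K G)))
noncomputable instance : Algebra K (U K G) := inferInstanceAs (Algebra K (RingQuot (Rel K G)))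

/-- the quotient map -/
noncomputable def mk : FreeAlgebra K (Gen V E) →ₐ[K] U K G := RingQuot.mkAlgHom K (Rel K G)

theorem mk_rel {x y : FreeAlgebra K (Gen V E)} (h : Rel K G x y) : mk K G x = mk K G y :=
  RingQuot.mkAlgHom_rel K h

theorem mk_surjective : Function.Surjective (mk K G) := RingQuot.mkAlgHom_surjective K (Rel K G)

/-- the generators of the algebra -/
noncomputable def gen (x : Gen V E) : U K G := mk K G (FreeAlgebra.ι K x)

/-- the vertex `v` in the algebra -/
noncomputable def vx (v : V) : U K G := gen K G (.vert v)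
/-- the edge `e` in the algebra -/
noncomputable def ed (e : E) : U K G := gen K G (.edge e)
/-- the ghost edge `e*` in the algebra -/
noncomputable def gh (e : E) : U K G := gen K G (.ghost e)

section rel
variable {K G}

theorem vx_vx (v : V) : vx K G v * vx K G v = vx K G v := by
  have := mk_rel K G (Rel.vv (K := K) (G := G) v)
  simpa [vx, gen] using this

theorem vx_vx_of_ne {v w : V} (h : v ≠ w) : vx K G v * vx K G w = 0 := by
  have := mk_rel K G (Rel.vw (K := K) (G := G) v w h)
  simpa [vx, gen] using this

theorem vx_ed (e : E) : vx K G (G.s e) * ed K G e = ed K G e := by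
  have := mk_rel K G (Rel.se (K := K) (G := G) e)
  simpa [vx, ed, gen] using this

theorem ed_vx (e : E) : ed K G e * vx K G (G.r e) = ed K G e := by
  have := mk_rel K G (Rel.er (K := K) (G := G) e)
  simpa [vx, ed, gen] using this

theorem vx_gh (e : E) : vx K G (G.r e) * gh K G e = gh K G e := by
  have := mk_rel K G (Rel.rg (K := K) (G := G) e)
  simpa [vx, gh, gen] using this

theorem gh_vx (e : E) : gh K G e * vx K G (G.s e) = gh K G e := by
  have := mk_rel K G (Rel.gs (K := K) (G := G) e)
  simpa [vx, gh, gen] using this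

theorem gh_ed (e : E) : gh K G e * ed K G e = vx K G (G.r e) := by
  have := mk_rel K G (Rel.ge (K := K) (G := G) e)
  simpa [vx, gh, ed, gen] using this

theorem gh_ed_of_ne {e f : E} (h : e ≠ f) : gh K G e * ed K G f = 0 := by
  have := mk_rel K G (Rel.gf (K := K) (G := G) e f h)
  simpa [gh, ed, gen] using this

theorem vx_eq_sum (v : V) (h : {e | G.s e = v}.Finite) (h0 : ∃ e, G.s e = v) :
    vx K G v = ∑ e ∈ h.toFinset, ed K G e * gh K G e := by
  have := mk_rel K G (Rel.ck (K := K) (G := G) v h h0)
  simpa [vx, gh, ed, gen] using this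

end rel

/-- a family in a unital algebra satisfying the defining relations -/
structure IsRep {B : Type*} [Ring B] [Algebra K B] (q : V → B) (u u' : E → B) : Prop where
  vv : ∀ v, q v * q v = q v
  vw : ∀ v w, v ≠ w → q v * q w = 0
  se : ∀ e, q (G.s e) * u e = u e
  er : ∀ e, u e * q (G.r e) = u e
  rg : ∀ e, q (G.r e) * u' e = u' e
  gs : ∀ e, u' e * q (G.s e) = u' e
  ge : ∀ e, u' e * u e = q (G.r e)
  gf : ∀ e f, e ≠ f → u' e * u f = 0
  ck : ∀ (v : V) (h : {e | G.s e = v}.Finite), (∃ e, G.s e = v) →
    q v = ∑ e ∈ h.toFinset, u e * u' e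

variable {K G}

/-- universal property -/
noncomputable def lift {B : Type*} [Ring B] [Algebra K B] {q : V → B} {u u' : E → B}
    (h : IsRep K G q u u') : U K G →ₐ[K] B :=
  RingQuot.liftAlgHom K ⟨FreeAlgebra.lift K fun x => match x with
    | .vert v => q v
    | .edge e => u e
    | .ghost e => u' e, by
      intro x y hxy
      induction hxy with
      | vv v => simpa using h.vv v
      | vw v w hne => simpa using h.vw v w hne
      | se e => simpa using h.se e
      | er e => simpa using h.er e
      | rg e => simpa using h.rg e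
      | gs e => simpa using h.gs e
      | ge e => simpa using h.ge e
      | gf e f hne => simpa using h.gf e f hne
      | ck v hf h0 => simpa using h.ck v hf h0⟩

theorem lift_vx {B : Type*} [Ring B] [Algebra K B] {q : V → B} {u u' : E → B}
    (h : IsRep K G q u u') (v : V) : lift h (vx K G v) = q v :=
  (RingQuot.liftAlgHom_mkAlgHom_apply _ _ _ _).trans (FreeAlgebra.lift_ι_apply _ _)

theorem lift_ed {B : Type*} [Ring B] [Algebra K B] {q : V → B} {u u' : E → B}
    (h : IsRep K G q u u') (e : E) : lift h (ed K G e) = u e :=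
  (RingQuot.liftAlgHom_mkAlgHom_apply _ _ _ _).trans (FreeAlgebra.lift_ι_apply _ _)

theorem lift_gh {B : Type*} [Ring B] [Algebra K B] {q : V → B} {u u' : E → B}
    (h : IsRep K G q u u') (e : E) : lift h (gh K G e) = u' e :=
  (RingQuot.liftAlgHom_mkAlgHom_apply _ _ _ _).trans (FreeAlgebra.lift_ι_apply _ _)

theorem U_ind {p : U K G → Prop} (hk : ∀ c : K, p (algebraMap K _ c)) (hv : ∀ v, p (vx K G v))
    (he : ∀ e, p (ed K G e)) (hg : ∀ e, p (gh K G e)) (ha : ∀ x y, p x → p y → p (x + y))
    (hm : ∀ x y, p x → p y → p (x * y)) (x : U K G) : p x := by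
  obtain ⟨y, rfl⟩ := mk_surjective K G x
  induction y using FreeAlgebra.induction with
  | grade0 c =>
    rw [AlgHom.commutes]
    exact hk c
  | grade1 x =>
    cases x with
    | vert v => exact hv v
    | edge e => exact he e
    | ghost e => exact hg e
  | mul x y hx hy => rw [map_mul]; exact hm _ _ hx hy
  | add x y hx hy => rw [map_add]; exact ha _ _ hx hy

end Pool.Agent.Helper32.LV
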