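import Pool.Agent.Helper32.LV.Basic

/-! Families of projections and isometries in a ring with involution. PIECE 3. -/

set_option autoImplicit false

universe k a b w

namespace Pool.Agent.Helper32.LV

variable {V : Type a} {E : Type b} {G : Gr V E} {B : Type w} [Ring B] [StarRing B]
  {S : Set V} {q : V → B} {u : E → B}

theorem isPath_append {v : V} {l m : List E} :
    G.IsPath v (l ++ m) ↔ G.IsPath v l ∧ G.IsPath (G.tgt v l) m := by
  induction l generalizing v with
  | nil => simp [Gr.IsPath, Gr.tgt]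
  | cons e l ih => simp [Gr.IsPath, Gr.tgt, ih, and_assoc]

theorem tgt_append {v : V} {l m : List E} : G.tgt v (l ++ m) = G.tgt (G.tgt v l) m := by
  induction l generalizing v with
  | nil => simp [Gr.tgt]
  | cons e l ih => simp [Gr.tgt, ih]

theorem tgt_mem_Vt {T : Stage G} {v : V} {l : List E} (hv : v ∈ T.Vt)
    (hl : ∀ e ∈ l, e ∈ T.Ft) : G.tgt v l ∈ T.Vt := by
  induction l generalizing v with
  | nil => simpa [Gr.tgt] using hv
  | cons e l ih =>
    exact ih (T.hr e (hl e (List.mem_cons_self))) (fun f hf => hl f (List.mem_cons_of_mem _ hf))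

theorem path_nodup (hG : G.LA) (T : Stage G) {v : V} {l : List E} (hp : G.IsPath v l)
    (hl : ∀ e ∈ l, e ∈ T.Ft) : l.Nodup := by
  induction l generalizing v with
  | nil => exact List.nodup_nil
  | cons e l ih =>
    rw [List.nodup_cons]
    refine ⟨fun hmem => ?_, ih hp.2 fun f hf => hl f (List.mem_cons_of_mem _ hf)⟩
    obtain ⟨l1, l2, rfl⟩ := List.append_of_mem hmem
    have h1 := (isPath_append.1 hp.2)
    have h2 : G.s e = G.tgt (G.r e) l1 := h1.2.1
    refine hG.acyc (G.s e) (e :: l1) (by simp) (fun f hf => T.nl f (hl f ?_)) ⟨rfl, h1.1⟩ ?_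
    · rcases List.mem_cons.1 hf with rfl | hf
      · exact List.mem_cons_self
      · exact List.mem_cons_of_mem _ (List.mem_append_left _ hf)
    · exact h2.symm

theorem path_length (hG : G.LA) (T : Stage G) {v : V} {l : List E} (hp : G.IsPath v l)
    (hl : ∀ e ∈ l, e ∈ T.Ft) : l.length ≤ T.Ft.card := by
  classical
  have h1 := path_nodup hG T hp hl
  rw [← List.toFinset_card_of_nodup h1]
  exact Finset.card_le_card fun e he => hl e (List.mem_toFinset.1 he)

/-- the paths of a stage are finite in number -/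
theorem Psi_finite (hG : G.LA) (T : Stage G) : (Psi T).Finite := by
  classical
  have h1 : (Set.image (fun l : List {e // e ∈ T.Ft} => l.map Subtype.val)
      {l | l.length ≤ T.Ft.card}).Finite := (List.finite_length_le _ _).image _
  refine ((T.Vt.finite_toSet).prod h1).subset ?_
  rintro ⟨v, l⟩ ⟨hv, hp, hl, -⟩
  refine ⟨hv, ⟨l.attach.map fun e => ⟨e.1, hl e.1 e.2⟩, ?_, ?_⟩⟩
  · simpa using path_length hG T hp hl
  · simp [List.map_map, Function.comp_def]

theorem mem_PsiF (hG : G.LA) {T : Stage G} {α : V × List E} : α ∈ PsiF T ↔ α ∈ Psi T := by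
  rw [PsiF, dif_pos (Psi_finite hG T), Set.Finite.mem_toFinset]

theorem vx_mem_Psi {T : Stage G} {w : V} (h : w ∈ T.Vt) (hw : ¬ Full T w) :
    (w, []) ∈ Psi T := ⟨h, trivial, by simp, hw⟩

theorem tgt_mem {T : Stage G} {α : V × List E} (h : α ∈ Psi T) : tg G α ∈ T.Vt :=
  tgt_mem_Vt h.1 h.2.2.1

theorem tgt_not_full {T : Stage G} {α : V × List E} (h : α ∈ Psi T) : ¬ Full T (tg G α) := h.2.2.2

/-- the vertex of an index: `(tg α, [])` is an index -/
theorem tg_mem_Psi {T : Stage G} {α : V × List E} (h : α ∈ Psi T) : (tg G α, []) ∈ Psi T :=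
  vx_mem_Psi (tgt_mem h) (tgt_not_full h)

/-- the vertices are a family on the whole graph -/
theorem fam_U (K : Type k) [Field K] [StarRing K] :
    Fam G Set.univ (vx K G) (ed K G) where
  her _ _ := Set.mem_univ _
  qs v _ := star_vx v
  qq v _ := vx_vx v
  qw v _ w _ h := vx_vx_of_ne h
  su e _ _ := vx_ed e
  ur e _ _ := ed_vx e
  uu e _ _ := by rw [star_ed, gh_ed]
  uf e f _ _ _ _ h := by rw [star_ed, gh_ed_of_ne h]
  ck v _ h h0 _ := by
    rw [vx_eq_sum v h h0]
    exact Finset.sum_congr rfl fun e _ => by rw [star_ed]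

theorem Fam.mono {S' : Set V} (h : Fam G S q u) (hS : S' ⊆ S)
    (her : ∀ e, G.s e ∈ S' → G.r e ∈ S') : Fam G S' q u where
  her := her
  qs v hv := h.qs v (hS hv)
  qq v hv := h.qq v (hS hv)
  qw v hv w hw := h.qw v (hS hv) w (hS hw)
  su e he := h.su e (hS he)
  ur e he := h.ur e (hS he)
  uu e he := h.uu e (hS he)
  uf e f he hf := h.uf e f (hS he) (hS hf)
  ck v hv := h.ck v (hS hv)

theorem gapB_eq (T : Stage G) (w : V) [DecidableEq V] :
    gapB q u T w = q w - ∑ e ∈ T.Ft.filter (fun e => G.s e = w), u e * star (u e) := by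
  unfold gapB
  congr!

theorem sig_u (h : Fam G S q u) (T : Stage G) {e : E} (hs : G.s e ∈ S)
    (he : e ∈ T.Ft) [DecidableEq V] :
    (∑ f ∈ T.Ft.filter (fun f => G.s f = G.s e), u f * star (u f)) * u e = u e := by
  rw [Finset.sum_mul, Finset.sum_eq_single e]
  · rw [mul_assoc, h.uu e hs (T.nl e he), h.ur e hs (T.nl e he)]
  · intro f hf hne
    rw [Finset.mem_filter] at hf
    rw [mul_assoc, h.uf f e (hf.2 ▸ hs) hs (T.nl f hf.1) (T.nl e he) hne, mul_zero]
  · intro hn
    exact absurd (show e ∈ T.Ft.filter (fun f => G.s f = G.s e) from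
      Finset.mem_filter.2 ⟨he, rfl⟩) hn

theorem sig_u_of_notMem (h : Fam G S q u) (T : Stage G) {e : E} (hs : G.s e ∈ S)
    (he : e ∉ T.Ft) (hl : G.s e ≠ G.r e) [DecidableEq V] :
    (∑ f ∈ T.Ft.filter (fun f => G.s f = G.s e), u f * star (u f)) * u e = 0 := by
  rw [Finset.sum_mul]
  refine Finset.sum_eq_zero fun f hf => ?_
  rw [Finset.mem_filter] at hf
  have hne : f ≠ e := fun h => he (h ▸ hf.1)
  rw [mul_assoc, h.uf f e (hf.2 ▸ hs) hs (T.nl f hf.1) hl hne, mul_zero]

theorem gapB_star (h : Fam G S q u) (T : Stage G) {w : V} (hw : w ∈ S) :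
    star (gapB q u T w) = gapB q u T w := by
  classical
  rw [gapB, star_sub, h.qs w hw, star_sum]
  congr 1
  exact Finset.sum_congr rfl fun e _ => by rw [star_mul, star_star]

theorem gapB_u (h : Fam G S q u) (T : Stage G) {e : E} (hs : G.s e ∈ S) (he : e ∈ T.Ft) :
    gapB q u T (G.s e) * u e = 0 := by
  classical
  rw [gapB, sub_mul, sig_u h T hs he, h.su e hs (T.nl e he), sub_self]

theorem q_gapB (h : Fam G S q u) (T : Stage G) {w : V} (hw : w ∈ S) :
    q w * gapB q u T w = gapB q u T w := by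
  classical
  rw [gapB, mul_sub, h.qq w hw, Finset.mul_sum]
  congr 1
  refine Finset.sum_congr rfl fun e he => ?_
  rw [Finset.mem_filter] at he
  obtain ⟨he, rfl⟩ := he
  rw [← mul_assoc, h.su e hw (T.nl e he)]

theorem gapB_q (h : Fam G S q u) (T : Stage G) {w : V} (hw : w ∈ S) :
    gapB q u T w * q w = gapB q u T w := by
  have h1 := congrArg star (q_gapB h T hw)
  rwa [star_mul, gapB_star h T hw, h.qs w hw] at h1

theorem star_u_gapB (h : Fam G S q u) (T : Stage G) {e : E} (hs : G.s e ∈ S) (he : e ∈ T.Ft) :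
    star (u e) * gapB q u T (G.s e) = 0 := by
  have h1 := congrArg star (gapB_u h T hs he)
  rwa [star_mul, gapB_star h T hs, star_zero] at h1

theorem gapB_idem (h : Fam G S q u) (T : Stage G) {w : V} (hw : w ∈ S) :
    gapB q u T w * gapB q u T w = gapB q u T w := by
  classical
  conv_lhs => enter [1]; rw [gapB]
  rw [sub_mul, q_gapB h T hw, Finset.sum_mul, Finset.sum_eq_zero, sub_zero]
  intro e he
  rw [Finset.mem_filter] at he
  obtain ⟨he, rfl⟩ := he
  rw [mul_assoc, star_u_gapB h T hw he, mul_zero]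

/-- an edge that is not in the stage is not affected by the gap -/
theorem gapB_u_of_notMem (h : Fam G S q u) (T : Stage G) {e : E} (hs : G.s e ∈ S)
    (he : e ∉ T.Ft) (hl : G.s e ≠ G.r e) : gapB q u T (G.s e) * u e = u e := by
  classical
  rw [gapB, sub_mul, sig_u_of_notMem h T hs he hl, h.su e hs hl, sub_zero]

theorem gapB_full (h : Fam G S q u) (T : Stage G) {w : V} (hw : w ∈ S) (hf : Full T w) :
    gapB q u T w = 0 := by
  classical
  have hfin : {e | G.s e = w}.Finite := T.Ft.finite_toSet.subset fun e he => hf.2 e he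
  rw [gapB, h.ck w hw hfin hf.1 (fun e he => T.nl e (hf.2 e he)), sub_eq_zero]
  refine Finset.sum_congr ?_ fun _ _ => rfl
  ext e
  simp only [Set.Finite.mem_toFinset, Set.mem_ofPred_eq, Finset.mem_filter]
  exact ⟨fun he => ⟨hf.2 e he, he⟩, fun he => he.2⟩

/-- the gap decreases with the stage -/
theorem gapB_le (h : Fam G S q u) {T T' : Stage G} (hT : T ≤ T') {w : V} (hw : w ∈ S) :
    gapB q u T w * gapB q u T' w = gapB q u T' w := by
  classical
  conv_lhs => enter [1]; rw [gapB]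
  rw [sub_mul, q_gapB h T' hw, Finset.sum_mul, Finset.sum_eq_zero, sub_zero]
  intro e he
  rw [Finset.mem_filter] at he
  obtain ⟨he, rfl⟩ := he
  rw [mul_assoc, star_u_gapB h T' hw (hT.2 he), mul_zero]

theorem pB_cons (h : Fam G S q u) {e : E} {l : List E} (hs : G.s e ∈ S)
    (hl : G.s e ≠ G.r e) : pB q u (G.s e, e :: l) = u e * pB q u (G.r e, l) := by
  simp only [pB, List.map_cons, List.prod_cons]
  rw [← mul_assoc, h.su e hs hl, ← mul_assoc, h.ur e hs hl]

theorem aB_cons (h : Fam G S q u) (T : Stage G) {e : E} {l : List E} (hs : G.s e ∈ S)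
    (hl : G.s e ≠ G.r e) : aB q u T (G.s e, e :: l) = u e * aB q u T (G.r e, l) := by
  simp only [aB]
  rw [pB_cons h hs hl, mul_assoc]
  rfl

theorem pB_q (h : Fam G S q u) {v : V} {l : List E} (hv : v ∈ S) (hp : G.IsPath v l)
    (hl : ∀ e ∈ l, G.s e ≠ G.r e) : pB q u (v, l) * q (G.tgt v l) = pB q u (v, l) := by
  induction l generalizing v with
  | nil => simpa [pB, Gr.tgt] using h.qq v hv
  | cons e l ih =>
    obtain ⟨rfl, hp2⟩ := hp
    rw [pB_cons h hv (hl e List.mem_cons_self), mul_assoc]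
    congr 1
    exact ih (h.her e hv) hp2 fun f hf => hl f (List.mem_cons_of_mem _ hf)

theorem q_pB (h : Fam G S q u) {v : V} {l : List E} (hv : v ∈ S) :
    q v * pB q u (v, l) = pB q u (v, l) := by
  simp only [pB]
  rw [← mul_assoc, h.qq v hv]

theorem star_pB_pB (h : Fam G S q u) {v : V} {l : List E} (hv : v ∈ S) (hp : G.IsPath v l)
    (hl : ∀ e ∈ l, G.s e ≠ G.r e) :
    star (pB q u (v, l)) * pB q u (v, l) = q (G.tgt v l) := by
  induction l generalizing v with
  | nil => simp [pB, Gr.tgt, h.qs v hv, h.qq v hv]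
  | cons e l ih =>
    obtain ⟨rfl, hp2⟩ := hp
    have hne := hl e List.mem_cons_self
    rw [pB_cons h hv hne, star_mul, mul_assoc, ← mul_assoc (star (u e)), h.uu e hv hne,
      q_pB h (h.her e hv)]
    exact ih (h.her e hv) hp2 fun f hf => hl f (List.mem_cons_of_mem _ hf)

theorem Psi_cons {T : Stage G} {v : V} {e : E} {l : List E} :
    (v, e :: l) ∈ Psi T ↔ G.s e = v ∧ e ∈ T.Ft ∧ (G.r e, l) ∈ Psi T := by
  constructor
  · rintro ⟨-, ⟨h2, h3⟩, h4, h5⟩
    have he := h4 e List.mem_cons_self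
    exact ⟨h2, he, T.hr e he, h3, fun f hf => h4 f (List.mem_cons_of_mem _ hf), h5⟩
  · rintro ⟨rfl, he, -, h3, h4, h5⟩
    refine ⟨T.hs e he, ⟨rfl, h3⟩, fun f hf => ?_, h5⟩
    rcases List.mem_cons.1 hf with rfl | hf
    · exact he
    · exact h4 f hf

theorem Psi_nil {T : Stage G} {v : V} :
    (v, []) ∈ Psi T ↔ v ∈ T.Vt ∧ ¬ Full T v :=
  ⟨fun h => ⟨h.1, h.2.2.2⟩, fun h => vx_mem_Psi h.1 h.2⟩

theorem Psi_nl {T : Stage G} {α : V × List E} (hα : α ∈ Psi T) :
    ∀ e ∈ α.2, G.s e ≠ G.r e := fun e he => T.nl e (hα.2.2.1 e he)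

theorem aB_nil (h : Fam G S q u) (T : Stage G) {w : V} (hw : w ∈ S) :
    aB q u T (w, []) = gapB q u T w := by
  simp only [aB, pB, tg, Gr.tgt, List.map_nil, List.prod_nil, mul_one]
  exact q_gapB h T hw

theorem q_aB (h : Fam G S q u) (T : Stage G) {α : V × List E} (hα : α.1 ∈ S) :
    q α.1 * aB q u T α = aB q u T α := by
  obtain ⟨v, l⟩ := α
  rw [aB, ← mul_assoc, q_pB h hα]

theorem aB_gapB (h : Fam G S q u) {T : Stage G} (hT : ∀ v ∈ T.Vt, v ∈ S) {α : V × List E}
    (hα : α ∈ Psi T) : aB q u T α * gapB q u T (tg G α) = aB q u T α := by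
  rw [aB, mul_assoc, gapB_idem h T (hT _ (tgt_mem hα))]

theorem aB_star_aB_self (h : Fam G S q u) {T : Stage G} (hT : ∀ v ∈ T.Vt, v ∈ S)
    {α : V × List E} (hα : α ∈ Psi T) :
    star (aB q u T α) * aB q u T α = gapB q u T (tg G α) := by
  obtain ⟨v, l⟩ := α
  have h1 := hT _ (tgt_mem hα)
  have h2 := star_pB_pB h (hT v hα.1) hα.2.1 (Psi_nl hα)
  rw [aB, star_mul, gapB_star h T h1, mul_assoc, ← mul_assoc (star (pB q u (v, l))), h2]
  change gapB q u T (tg G (v, l)) * (q (tg G (v, l)) * _) = _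
  rw [q_gapB h T h1, gapB_idem h T h1]

theorem aB_star_aB_ne (h : Fam G S q u) {T : Stage G} (hT : ∀ v ∈ T.Vt, v ∈ S)
    {α β : V × List E} (hα : α ∈ Psi T) (hβ : β ∈ Psi T) (hne : α ≠ β) :
    star (aB q u T α) * aB q u T β = 0 := by
  obtain ⟨v, l⟩ := α
  obtain ⟨w, m⟩ := β
  induction l generalizing v w m with
  | nil =>
    have hv := hT v hα.1
    rw [aB_nil h T hv, gapB_star h T hv]
    rcases eq_or_ne v w with rfl | hvw
    · cases m with
      | nil => exact absurd rfl hne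
      | cons e m =>
        obtain ⟨rfl, he, hm⟩ := Psi_cons.1 hβ
        rw [aB_cons h T hv (T.nl e he), ← mul_assoc, gapB_u h T hv he, zero_mul]
    · rw [← gapB_q h T hv, ← q_aB h T (α := (w, m)) (hT w hβ.1), mul_assoc,
        ← mul_assoc (q v), h.qw v hv w (hT w hβ.1) hvw, zero_mul, mul_zero]
  | cons e l ih =>
    obtain ⟨rfl, he, hl⟩ := Psi_cons.1 hα
    have hv := hT _ hα.1
    have hw := hT _ hβ.1
    rcases eq_or_ne (G.s e) w with rfl | hvw
    · cases m with
      | nil =>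
        rw [aB_nil h T hw, aB_cons h T hv (T.nl e he), star_mul, mul_assoc,
          star_u_gapB h T hv he, mul_zero]
      | cons f m =>
        obtain ⟨hf1, hf, hm⟩ := Psi_cons.1 hβ
        have h7 : aB q u T (G.s e, f :: m) = u f * aB q u T (G.r f, m) := by
          rw [← hf1]
          exact aB_cons h T (by rw [hf1]; exact hv) (T.nl f hf)
        rw [h7, aB_cons h T hv (T.nl e he), star_mul, mul_assoc, ← mul_assoc (star (u e))]
        rcases eq_or_ne e f with rfl | hef
        · rw [h.uu e hv (T.nl e he), q_aB h T (α := (G.r e, m)) (h.her e hv)]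
          refine ih _ hl _ _ hm fun hh => hne ?_
          rw [Prod.mk.injEq] at hh
          rw [hh.2]
        · rw [h.uf e f hv (by rw [hf1]; exact hv) (T.nl e he) (T.nl f hf) hef, zero_mul,
            mul_zero]
    · have h1 := congrArg star (q_aB h T (α := (G.s e, e :: l)) hv)
      rw [star_mul, h.qs _ hv] at h1
      rw [← h1, ← q_aB h T (α := (w, m)) hw, mul_assoc, ← mul_assoc (q (G.s e)),
        h.qw _ hv w hw hvw, zero_mul, mul_zero]

omit [StarRing B] in
theorem sum_Psi (hG : G.LA) {T : Stage G} {v : V} (hv : v ∈ T.Vt) (f : V × List E → B)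
    (p : E → Prop) [DecidablePred (fun β : V × List E => β.1 = v ∧ ∀ e ∈ β.2.head?, p e)]
    [DecidablePred p] [DecidableEq V] [Decidable (Full T v)] :
    ∑ β ∈ (PsiF T).filter (fun β => β.1 = v ∧ ∀ e ∈ β.2.head?, p e), f β =
      (if Full T v then 0 else f (v, [])) + ∑ e ∈ T.Ft.filter (fun e => G.s e = v ∧ p e),
        ∑ γ ∈ (PsiF T).filter (fun γ => γ.1 = G.r e), f (v, e :: γ.2) := by
  classical
  rw [← Finset.sum_filter_add_sum_filter_not _ (fun β : V × List E => β.2 = [])]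
  congr 1
  · by_cases hf : Full T v
    · rw [if_pos hf]
      refine Finset.sum_eq_zero fun β hβ => ?_
      obtain ⟨w, l⟩ := β
      simp only [Finset.mem_filter, mem_PsiF hG] at hβ
      obtain ⟨⟨h1, rfl, -⟩, rfl⟩ := hβ
      exact absurd hf (Psi_nil.1 h1).2
    · rw [if_neg hf]
      refine Finset.sum_eq_single_of_mem (v, []) ?_ ?_
      · simp [mem_PsiF hG, vx_mem_Psi hv hf]
      · rintro ⟨w, l⟩ hβ hne
        simp only [Finset.mem_filter, mem_PsiF hG] at hβ
        obtain ⟨⟨h1, rfl, -⟩, rfl⟩ := hβ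
        exact absurd rfl hne
  · rw [Finset.sum_sigma']
    symm
    refine Finset.sum_bij (fun x _ => (v, x.1 :: x.2.2)) ?_ ?_ ?_ ?_
    · rintro ⟨e, γ⟩ hx
      simp only [Finset.mem_sigma, Finset.mem_filter, mem_PsiF hG] at hx ⊢
      obtain ⟨⟨he, hs, hpe⟩, hγ, hγ1⟩ := hx
      refine ⟨⟨Psi_cons.2 ⟨hs, he, ?_⟩, trivial, by simpa using hpe⟩, by simp⟩
      rw [← hγ1]
      exact hγ
    · rintro ⟨e, γ⟩ hx ⟨e', γ'⟩ hx' heq
      simp only [Finset.mem_sigma, Finset.mem_filter, mem_PsiF hG] at hx hx'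
      simp only [Prod.mk.injEq, List.cons.injEq, true_and] at heq
      obtain ⟨rfl, h2⟩ := heq
      have h3 : γ = γ' := Prod.ext (hx.2.2.trans hx'.2.2.symm) h2
      rw [h3]
    · rintro ⟨w, l⟩ hβ
      simp only [Finset.mem_filter, mem_PsiF hG] at hβ
      obtain ⟨⟨h1, rfl, h2⟩, h3⟩ := hβ
      cases l with
      | nil => exact absurd rfl h3
      | cons e l =>
        obtain ⟨hs, he, hl⟩ := Psi_cons.1 h1
        refine ⟨⟨e, (G.r e, l)⟩, ?_, rfl⟩
        simp only [Finset.mem_sigma, Finset.mem_filter, mem_PsiF hG]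
        exact ⟨⟨he, hs, by simpa using h2⟩, hl, trivial⟩
    · rintro ⟨e, γ⟩ _
      rfl

omit [StarRing B] in
theorem sum_Psi' (hG : G.LA) {T : Stage G} {v : V} (hv : v ∈ T.Vt) (f : V × List E → B)
    [DecidableEq V] [Decidable (Full T v)] :
    ∑ β ∈ (PsiF T).filter (fun β => β.1 = v), f β =
      (if Full T v then 0 else f (v, [])) + ∑ e ∈ T.Ft.filter (fun e => G.s e = v),
        ∑ γ ∈ (PsiF T).filter (fun γ => γ.1 = G.r e), f (v, e :: γ.2) := by
  classical
  have h1 := sum_Psi hG hv f (fun _ => True)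
  simpa using h1

theorem q_eq_sum_aux (hG : G.LA) (h : Fam G S q u) {T : Stage G} (hT : ∀ v ∈ T.Vt, v ∈ S)
    [DecidableEq V] (n : ℕ) : ∀ v ∈ T.Vt,
      (∀ l, G.IsPath v l → (∀ e ∈ l, e ∈ T.Ft) → l.length ≤ n) →
    q v = ∑ β ∈ (PsiF T).filter (fun β => β.1 = v), aB q u T β * star (aB q u T β) := by
  classical
  induction n with
  | zero =>
    intro v hv hn
    rw [sum_Psi' hG hv]
    have h1 : T.Ft.filter (fun e => G.s e = v) = ∅ := by
      rw [Finset.filter_eq_empty_iff]
      intro e he hs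
      have := hn [e] ⟨hs, trivial⟩ (by simpa using he)
      simp at this
    have h2 : ¬ Full T v := by
      rintro ⟨⟨e, he⟩, h2⟩
      have h3 : e ∈ T.Ft.filter (fun e => G.s e = v) := Finset.mem_filter.2 ⟨h2 e he, he⟩
      rw [h1] at h3
      simp at h3
    rw [h1, Finset.sum_empty, if_neg h2, add_zero, aB_nil h T (hT v hv),
      gapB_star h T (hT v hv), gapB_idem h T (hT v hv), gapB_eq, h1, Finset.sum_empty,
      sub_zero]
  | succ n ih =>
    intro v hv hn
    have hvS := hT v hv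
    rw [sum_Psi' hG hv]
    have h1 : (if Full T v then (0 : B) else aB q u T (v, []) * star (aB q u T (v, []))) =
        gapB q u T v := by
      split_ifs with hf
      · rw [gapB_full h T hvS hf]
      · rw [aB_nil h T hvS, gapB_star h T hvS, gapB_idem h T hvS]
    rw [h1]
    have h2 : ∀ e ∈ T.Ft.filter (fun e => G.s e = v),
        ∑ γ ∈ (PsiF T).filter (fun γ => γ.1 = G.r e),
          aB q u T (v, e :: γ.2) * star (aB q u T (v, e :: γ.2)) = u e * star (u e) := by
      intro e he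
      rw [Finset.mem_filter] at he
      obtain ⟨he, rfl⟩ := he
      have hne := T.nl e he
      have h3 := ih (G.r e) (T.hr e he) (fun l hl hl2 => by
        have := hn (e :: l) ⟨rfl, hl⟩ (fun f hf => by
          rcases List.mem_cons.1 hf with rfl | hf
          · exact he
          · exact hl2 f hf)
        simpa using this)
      have h4 : u e * star (u e) = u e * q (G.r e) * star (u e) := by rw [h.ur e hvS hne]
      rw [h4, h3, Finset.mul_sum, Finset.sum_mul]
      refine Finset.sum_congr rfl fun γ hγ => ?_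
      rw [Finset.mem_filter] at hγ
      have h5 : aB q u T (G.s e, e :: γ.2) = u e * aB q u T γ := by
        rw [aB_cons h T hvS hne, ← hγ.2]
      rw [h5, star_mul]
      simp only [mul_assoc]
    rw [Finset.sum_congr rfl h2, gapB_eq, sub_add_cancel]

theorem uu_eq_sum (hG : G.LA) (h : Fam G S q u) {T : Stage G} (hT : ∀ v ∈ T.Vt, v ∈ S)
    {e : E} (he : e ∈ T.Ft) [DecidableEq V] :
    ∑ γ ∈ (PsiF T).filter (fun γ => γ.1 = G.r e),
      aB q u T (G.s e, e :: γ.2) * star (aB q u T (G.s e, e :: γ.2)) = u e * star (u e) := by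
  have hne := T.nl e he
  have hs := hT _ (T.hs e he)
  have h4 : u e * star (u e) = u e * q (G.r e) * star (u e) := by rw [h.ur e hs hne]
  rw [h4, q_eq_sum_aux hG h hT T.Ft.card (G.r e) (T.hr e he)
    fun _ hl hl2 => path_length hG T hl hl2, Finset.mul_sum, Finset.sum_mul]
  refine Finset.sum_congr rfl fun γ hγ => ?_
  rw [Finset.mem_filter] at hγ
  have h5 : aB q u T (G.s e, e :: γ.2) = u e * aB q u T γ := by
    rw [aB_cons h T hs hne, ← hγ.2]
  rw [h5, star_mul]
  simp only [mul_assoc]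

/-- the vertices of the stage are sums of diagonal matrix units -/
theorem q_eq_sum (hG : G.LA) (h : Fam G S q u) {T : Stage G} (hT : ∀ v ∈ T.Vt, v ∈ S)
    {v : V} (hv : v ∈ T.Vt) [DecidableEq V] :
    q v = ∑ β ∈ (PsiF T).filter (fun β => β.1 = v), aB q u T β * star (aB q u T β) :=
  q_eq_sum_aux hG h hT T.Ft.card v hv fun _ hl hl2 => path_length hG T hl hl2

/-- the edges of the stage are sums of matrix units -/
theorem u_eq_sum (hG : G.LA) (h : Fam G S q u) {T : Stage G} (hT : ∀ v ∈ T.Vt, v ∈ S)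
    {e : E} (he : e ∈ T.Ft) [DecidableEq V] :
    u e = ∑ γ ∈ (PsiF T).filter (fun β => β.1 = G.r e),
      aB q u T (G.s e, e :: γ.2) * star (aB q u T γ) := by
  have hne := T.nl e he
  have hs := hT _ (T.hs e he)
  conv_lhs => rw [← h.ur e hs hne, q_eq_sum hG h hT (T.hr e he), Finset.mul_sum]
  refine Finset.sum_congr rfl fun γ hγ => ?_
  rw [Finset.mem_filter] at hγ
  rw [aB_cons h T hs hne, ← hγ.2, mul_assoc]

/-- for a larger stage the gap is a sum of diagonal matrix units: those starting at `w` whose path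
does not start with an edge of the smaller stage -/
theorem gap_eq_sum (hG : G.LA) (h : Fam G S q u) {T T' : Stage G} (hTT : T ≤ T')
    (hT : ∀ v ∈ T'.Vt, v ∈ S) {w : V} (hw : w ∈ T.Vt) [DecidableEq V] [DecidableEq E] :
    gapB q u T w = ∑ β ∈ (PsiF T').filter (fun β => β.1 = w ∧ ∀ e ∈ β.2.head?, e ∉ T.Ft),
      aB q u T' β * star (aB q u T' β) := by
  classical
  have hw' := hTT.1 hw
  have hwS := hT w hw'
  rw [sum_Psi hG hw' _ (fun e => e ∉ T.Ft)]
  have h1 : (if Full T' w then (0 : B) else aB q u T' (w, []) * star (aB q u T' (w, []))) =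
      gapB q u T' w := by
    split_ifs with hf
    · rw [gapB_full h T' hwS hf]
    · rw [aB_nil h T' hwS, gapB_star h T' hwS, gapB_idem h T' hwS]
  rw [h1]
  have h2 : ∀ e ∈ T'.Ft.filter (fun e => G.s e = w ∧ e ∉ T.Ft),
      ∑ γ ∈ (PsiF T').filter (fun γ => γ.1 = G.r e),
        aB q u T' (w, e :: γ.2) * star (aB q u T' (w, e :: γ.2)) = u e * star (u e) := by
    intro e he
    rw [Finset.mem_filter] at he
    obtain ⟨he, rfl, -⟩ := he
    exact uu_eq_sum hG h hT he
  rw [Finset.sum_congr rfl h2, gapB_eq, gapB_eq]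
  have h3 : ∑ e ∈ T'.Ft.filter (fun e => G.s e = w), u e * star (u e) =
      ∑ e ∈ T.Ft.filter (fun e => G.s e = w), u e * star (u e) +
      ∑ e ∈ T'.Ft.filter (fun e => G.s e = w ∧ e ∉ T.Ft), u e * star (u e) := by
    rw [← Finset.sum_filter_add_sum_filter_not (T'.Ft.filter (fun e => G.s e = w))
      (fun e => e ∈ T.Ft)]
    congr 1
    · refine Finset.sum_congr ?_ fun _ _ => rfl
      ext e
      simp only [Finset.mem_filter]
      exact ⟨fun hx => ⟨hx.2, hx.1.2⟩, fun hx => ⟨⟨hTT.2 hx.1, hx.2⟩, hx.1⟩⟩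
    · refine Finset.sum_congr ?_ fun _ _ => rfl
      ext e
      simp only [Finset.mem_filter, and_assoc]
  rw [h3]
  abel

/-- the path of an index composed with an index of a larger stage starting at its end -/
theorem aB_append (h : Fam G S q u) {T T' : Stage G} (hTT : T ≤ T')
    (hT : ∀ v ∈ T'.Vt, v ∈ S) {α β : V × List E} (hα : α ∈ Psi T) (hβ : β ∈ Psi T')
    (h1 : β.1 = tg G α) (h2 : ∀ e ∈ β.2.head?, e ∉ T.Ft) :
    (α.1, α.2 ++ β.2) ∈ Psi T' ∧ tg G (α.1, α.2 ++ β.2) = tg G β ∧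
      aB q u T α * aB q u T' β = aB q u T' (α.1, α.2 ++ β.2) := by
  obtain ⟨v, l⟩ := α
  obtain ⟨w, m⟩ := β
  simp only at h1 h2 ⊢
  obtain rfl : w = G.tgt v l := h1
  have hvS := hT v (hTT.1 hα.1)
  have htg : G.tgt v (l ++ m) = G.tgt (G.tgt v l) m := tgt_append
  have hwS := hT _ hβ.1
  refine ⟨⟨hTT.1 hα.1, isPath_append.2 ⟨hα.2.1, hβ.2.1⟩, fun e he => ?_, ?_⟩, htg, ?_⟩
  · rcases List.mem_append.1 he with he | he
    · exact hTT.2 (hα.2.2.1 e he)
    · exact hβ.2.2.1 e he
  · change ¬ Full T' (G.tgt v (l ++ m))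
    rw [htg]
    exact hβ.2.2.2
  · have h3 : gapB q u T (G.tgt v l) * aB q u T' (G.tgt v l, m) = aB q u T' (G.tgt v l, m) := by
      cases m with
      | nil => rw [aB_nil h T' hwS, gapB_le h hTT hwS]
      | cons e m =>
        obtain ⟨hs, he, -⟩ := Psi_cons.1 hβ
        have hne := T'.nl e he
        have hS : G.s e ∈ S := by rw [hs]; exact hwS
        rw [← hs, aB_cons h T' hS hne, ← mul_assoc,
          gapB_u_of_notMem h T hS (h2 e (by simp)) hne]
    have h4 : pB q u (v, l) * pB q u (G.tgt v l, m) = pB q u (v, l ++ m) := by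
      have h5 := pB_q h hvS hα.2.1 (Psi_nl hα)
      simp only [pB] at h5 ⊢
      simp only [List.map_append, List.prod_append]
      rw [← mul_assoc, h5, mul_assoc]
    change pB q u (v, l) * gapB q u T (G.tgt v l) * aB q u T' (G.tgt v l, m) = _
    rw [mul_assoc, h3]
    change pB q u (v, l) * (pB q u (G.tgt v l, m) * gapB q u T' (G.tgt (G.tgt v l) m)) = _
    rw [← mul_assoc, h4, ← htg]
    rfl

/-- the decomposition of an index of a larger stage is unique -/
theorem append_inj {T : Stage G} {α α' β β' : V × List E}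
    (hα : α ∈ Psi T) (hα' : α' ∈ Psi T) (h1 : β.1 = tg G α) (h1' : β'.1 = tg G α')
    (h2 : ∀ e ∈ β.2.head?, e ∉ T.Ft) (h2' : ∀ e ∈ β'.2.head?, e ∉ T.Ft)
    (heq : ((α.1, α.2 ++ β.2) : V × List E) = (α'.1, α'.2 ++ β'.2)) : α = α' ∧ β = β' := by
  obtain ⟨v, l⟩ := α
  obtain ⟨v', l'⟩ := α'
  obtain ⟨w, m⟩ := β
  obtain ⟨w', m'⟩ := β'
  simp only [Prod.mk.injEq] at heq
  obtain ⟨rfl, heq⟩ := heq
  simp only at h1 h1' h2 h2'
  have key : ∀ {l l' m m' : List E}, (∀ e ∈ l', e ∈ T.Ft) → (∀ e ∈ m.head?, e ∉ T.Ft) →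
      ∀ c, l' = l ++ c → m = c ++ m' → c = [] := by
    intro l l' m m' hl' hm c hc hc'
    cases c with
    | nil => rfl
    | cons e c =>
      exfalso
      refine hm e ?_ (hl' e ?_)
      · rw [hc']; simp
      · rw [hc]; simp
  have hll : l = l' := by
    rcases List.append_eq_append_iff.1 heq with ⟨c, hc, hc'⟩ | ⟨c, hc, hc'⟩
    · have := key hα'.2.2.1 h2 c hc hc'
      rw [hc, this, List.append_nil]
    · have := key hα.2.2.1 h2' c hc hc'
      rw [hc, this, List.append_nil]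
  subst hll
  have hmm := List.append_cancel_left heq
  subst hmm
  refine ⟨rfl, ?_⟩
  rw [h1, h1']

end Pool.Agent.Helper32.LV
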