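import Pool.Agent.Helper32.LV.RRf

/-! Homomorphisms on `alg0 S` given by families. PIECE 9. -/

set_option autoImplicit false
set_option linter.unusedSectionVars false

universe k a b a' b' w

namespace Pool.Agent.Helper32.LV

variable {V : Type a} {E : Type b} {K : Type k} [Field K] [StarRing K] {G : Gr V E}
  {B : Type w} [Ring B] [StarRing B] [Algebra K B] [StarModule K B]
  {S : Set V} {q : V → B} {u : E → B}

variable (K G) in
/-- the algebra generated by the pairs of generators -/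
noncomputable def Gam (S : Set V) (q : V → B) (u : E → B) : NonUnitalSubalgebra K (U K G × B) :=
  NonUnitalAlgebra.adjoin K {z | (∃ v ∈ S, z = (vx K G v, q v)) ∨
    (∃ e, G.s e ∈ S ∧ G.s e ≠ G.r e ∧ (z = (ed K G e, u e) ∨ z = (gh K G e, star (u e))))}

theorem Gam_vx {v : V} (hv : v ∈ S) : (vx K G v, q v) ∈ Gam K G S q u :=
  NonUnitalAlgebra.subset_adjoin K (Or.inl ⟨v, hv, rfl⟩)

theorem Gam_ed {e : E} (hs : G.s e ∈ S) (hl : G.s e ≠ G.r e) :
    (ed K G e, u e) ∈ Gam K G S q u :=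
  NonUnitalAlgebra.subset_adjoin K (Or.inr ⟨e, hs, hl, Or.inl rfl⟩)

theorem Gam_gh {e : E} (hs : G.s e ∈ S) (hl : G.s e ≠ G.r e) :
    (gh K G e, star (u e)) ∈ Gam K G S q u :=
  NonUnitalAlgebra.subset_adjoin K (Or.inr ⟨e, hs, hl, Or.inr rfl⟩)

theorem Gam_star (h : Fam G S q u) {z : U K G × B} (hz : z ∈ Gam K G S q u) :
    star z ∈ Gam K G S q u := by
  unfold Gam at hz
  induction hz using NonUnitalAlgebra.adjoin_induction with
  | mem z hz =>
    rcases hz with ⟨v, hv, rfl⟩ | ⟨e, hs, hl, rfl | rfl⟩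
    · have h1 : star ((vx K G v, q v) : U K G × B) = (vx K G v, q v) :=
        Prod.ext (star_vx v) (h.qs v hv)
      rw [h1]
      exact Gam_vx hv
    · have h1 : star ((ed K G e, u e) : U K G × B) = (gh K G e, star (u e)) :=
        Prod.ext (star_ed e) rfl
      rw [h1]
      exact Gam_gh hs hl
    · have h1 : star ((gh K G e, star (u e)) : U K G × B) = (ed K G e, u e) :=
        Prod.ext (star_gh e) (star_star _)
      rw [h1]
      exact Gam_ed hs hl
  | zero => rw [star_zero]; exact (Gam K G S q u).zero_mem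
  | add x y _ _ h1 h2 => rw [star_add]; exact (Gam K G S q u).add_mem h1 h2
  | mul x y _ _ h1 h2 => rw [star_mul]; exact (Gam K G S q u).mul_mem h2 h1
  | smul c x _ h1 =>
    have h2 : star (c • x) = star c • star x :=
      Prod.ext (star_smul c x.1) (star_smul c x.2)
    rw [h2]
    exact (Gam K G S q u).smul_mem _ h1

theorem Gam_fst {z : U K G × B} (hz : z ∈ Gam K G S q u) : z.1 ∈ alg0 K G S := by
  unfold Gam at hz
  induction hz using NonUnitalAlgebra.adjoin_induction with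
  | mem z hz =>
    rcases hz with ⟨v, hv, rfl⟩ | ⟨e, hs, hl, rfl | rfl⟩
    · exact vx_mem_alg0 hv
    · exact ed_mem_alg0 hs hl
    · exact gh_mem_alg0 hs hl
  | zero => exact (alg0 K G S).zero_mem
  | add x y _ _ h1 h2 => exact (alg0 K G S).add_mem h1 h2
  | mul x y _ _ h1 h2 => exact (alg0 K G S).mul_mem h1 h2
  | smul c x _ h1 => exact (alg0 K G S).smul_mem _ h1

theorem Gam_dom {x : U K G} (hx : x ∈ alg0 K G S) : ∃ y, (x, y) ∈ Gam K G S q u := by
  unfold alg0 at hx
  induction hx using NonUnitalAlgebra.adjoin_induction with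
  | mem x hx =>
    rcases hx with ⟨v, hv, rfl⟩ | ⟨e, hs, hl, rfl | rfl⟩
    · exact ⟨q v, Gam_vx hv⟩
    · exact ⟨u e, Gam_ed hs hl⟩
    · exact ⟨star (u e), Gam_gh hs hl⟩
  | zero => exact ⟨0, (Gam K G S q u).zero_mem⟩
  | add x x' _ _ h1 h2 =>
    obtain ⟨y, hy⟩ := h1
    obtain ⟨y', hy'⟩ := h2
    exact ⟨y + y', (Gam K G S q u).add_mem hy hy'⟩
  | mul x x' _ _ h1 h2 =>
    obtain ⟨y, hy⟩ := h1
    obtain ⟨y', hy'⟩ := h2
    exact ⟨y * y', (Gam K G S q u).mul_mem hy hy'⟩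
  | smul c x _ h1 =>
    obtain ⟨y, hy⟩ := h1
    exact ⟨c • y, (Gam K G S q u).smul_mem _ hy⟩

/-- pairs of matrix units -/
noncomputable def Gpr (K : Type k) [Field K] [StarRing K] (q : V → B) (u : E → B) (T : Stage G)
    (α β : V × List E) : U K G × B :=
  (mU K T α β, aB q u T α * star (aB q u T β))

/-- the span of the pairs of matrix units -/
noncomputable def Gs (K : Type k) [Field K] [StarRing K] [Algebra K B] (q : V → B) (u : E → B)
    (T : Stage G) : Submodule K (U K G × B) :=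
  Submodule.span K {z | ∃ α ∈ Psi T, ∃ β ∈ Psi T,
      tg G α = tg G β ∧ z = (mU K T α β, aB q u T α * star (aB q u T β))}

theorem Gpr_mem {T : Stage G} {α β : V × List E} (hα : α ∈ Psi T) (hβ : β ∈ Psi T)
    (h : tg G α = tg G β) : Gpr K q u T α β ∈ Gs K q u T :=
  Submodule.subset_span ⟨α, hα, β, hβ, h, rfl⟩

theorem Gpr_star {T : Stage G} {α β : V × List E} :
    star (Gpr K q u T α β) = Gpr K q u T β α := by
  refine Prod.ext (mU_star T α β) ?_
  change star (aB q u T α * star (aB q u T β)) = aB q u T β * star (aB q u T α)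
  rw [star_mul, star_star]

theorem Gpr_mul (h : Fam G S q u) {T : Stage G} (hT : ∀ v ∈ T.Vt, v ∈ S)
    {α β γ δ : V × List E} (hα : α ∈ Psi T) (hβ : β ∈ Psi T) (hγ : γ ∈ Psi T)
    (hδ : δ ∈ Psi T) (h1 : tg G α = tg G β) (h2 : tg G γ = tg G δ) :
    Gpr K q u T α β * Gpr K q u T γ δ ∈ Gs K q u T := by
  classical
  by_cases hβγ : β = γ
  · subst hβγ
    have h3 : Gpr K q u T α β * Gpr K q u T β δ = Gpr K q u T α δ := by
      refine Prod.ext (mU_mul_same hα hβ h1 δ) ?_
      change aB q u T α * star (aB q u T β) * (aB q u T β * star (aB q u T δ)) =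
        aB q u T α * star (aB q u T δ)
      calc aB q u T α * star (aB q u T β) * (aB q u T β * star (aB q u T δ))
          = aB q u T α * (star (aB q u T β) * aB q u T β) * star (aB q u T δ) := by
            noncomm_ring
        _ = aB q u T α * star (aB q u T δ) := by
            rw [aB_star_aB_self h hT hβ, ← h1, aB_gapB h hT hα]
    rw [h3]
    exact Gpr_mem hα hδ (h1.trans h2)
  · have h3 : Gpr K q u T α β * Gpr K q u T γ δ = 0 := by
      refine Prod.ext (mU_mul_ne hβ hγ hβγ) ?_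
      change aB q u T α * star (aB q u T β) * (aB q u T γ * star (aB q u T δ)) = 0
      calc aB q u T α * star (aB q u T β) * (aB q u T γ * star (aB q u T δ))
          = aB q u T α * (star (aB q u T β) * aB q u T γ) * star (aB q u T δ) := by
            noncomm_ring
        _ = 0 := by
            rw [aB_star_aB_ne h hT hβ hγ hβγ, mul_zero, zero_mul]
    rw [h3]
    exact Submodule.zero_mem _

theorem Gs_mul (h : Fam G S q u) {T : Stage G} (hT : ∀ v ∈ T.Vt, v ∈ S)
    {x y : U K G × B} (hx : x ∈ Gs K q u T) (hy : y ∈ Gs K q u T) : x * y ∈ Gs K q u T := by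
  unfold Gs at hx
  induction hx using Submodule.span_induction with
  | mem x hx =>
    obtain ⟨α, hα, β, hβ, h1, rfl⟩ := hx
    unfold Gs at hy
    induction hy using Submodule.span_induction with
    | mem y hy =>
      obtain ⟨γ, hγ, δ, hδ, h2, rfl⟩ := hy
      exact Gpr_mul h hT hα hβ hγ hδ h1 h2
    | zero => rw [mul_zero]; exact Submodule.zero_mem _
    | add y z _ _ h1 h2 => rw [mul_add]; exact Submodule.add_mem _ h1 h2
    | smul c y _ h1 => rw [mul_smul_comm]; exact Submodule.smul_mem _ _ h1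
  | zero => rw [zero_mul]; exact Submodule.zero_mem _
  | add x z _ _ h1 h2 => rw [add_mul]; exact Submodule.add_mem _ h1 h2
  | smul c x _ h1 => rw [smul_mul_assoc]; exact Submodule.smul_mem _ _ h1

theorem Gs_star {T : Stage G} {x : U K G × B} (hx : x ∈ Gs K q u T) : star x ∈ Gs K q u T := by
  unfold Gs at hx
  induction hx using Submodule.span_induction with
  | mem x hx =>
    obtain ⟨α, hα, β, hβ, h1, rfl⟩ := hx
    change star (Gpr K q u T α β) ∈ _
    rw [Gpr_star]
    exact Gpr_mem hβ hα h1.symm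
  | zero => rw [star_zero]; exact Submodule.zero_mem _
  | add x z _ _ h1 h2 => rw [star_add]; exact Submodule.add_mem _ h1 h2
  | smul c x _ h1 =>
    have h2 : star (c • x) = star c • star x :=
      Prod.ext (star_smul c x.1) (star_smul c x.2)
    rw [h2]
    exact Submodule.smul_mem _ _ h1

theorem aB_sum (hG : G.LA) (h : Fam G S q u) {T T' : Stage G} (hTT : T ≤ T')
    (hT : ∀ v ∈ T'.Vt, v ∈ S) {α β : V × List E} (hα : α ∈ Psi T) (hβ : β ∈ Psi T)
    (h1 : tg G α = tg G β) [DecidableEq V] [DecidableEq E] :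
    aB q u T α * star (aB q u T β) =
      ∑ δ ∈ (PsiF T').filter (fun δ => δ.1 = tg G α ∧ ∀ e ∈ δ.2.head?, e ∉ T.Ft),
        aB q u T' (α.1, α.2 ++ δ.2) * star (aB q u T' (β.1, β.2 ++ δ.2)) := by
  have hTS : ∀ v ∈ T.Vt, v ∈ S := fun v hv => hT v (hTT.1 hv)
  have hw := tgt_mem hα
  conv_lhs => rw [← aB_gapB h hTS hα, gap_eq_sum hG h hTT hT hw, Finset.mul_sum,
    Finset.sum_mul]
  refine Finset.sum_congr rfl fun δ hδ => ?_
  rw [Finset.mem_filter, mem_PsiF hG] at hδ
  obtain ⟨hδ1, hδ2, hδ3⟩ := hδ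
  obtain ⟨-, -, h2⟩ := aB_append h hTT hT hα hδ1 hδ2 hδ3
  obtain ⟨-, -, h3⟩ := aB_append h hTT hT hβ hδ1 (hδ2.trans h1) hδ3
  rw [← h2, ← h3, star_mul]
  noncomm_ring

theorem Gs_mono (hG : G.LA) (h : Fam G S q u) {T T' : Stage G} (hTT : T ≤ T')
    (hT : ∀ v ∈ T'.Vt, v ∈ S) : Gs K q u T ≤ Gs K q u T' := by
  classical
  refine Submodule.span_le.mpr ?_
  rintro z ⟨α, hα, β, hβ, h1, rfl⟩
  have h2 : ((mU K T α β, aB q u T α * star (aB q u T β)) : U K G × B) =
      ∑ δ ∈ (PsiF T').filter (fun δ => δ.1 = tg G α ∧ ∀ e ∈ δ.2.head?, e ∉ T.Ft),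
        Gpr K q u T' (α.1, α.2 ++ δ.2) (β.1, β.2 ++ δ.2) := by
    refine Prod.ext ?_ ?_
    · rw [Prod.fst_sum]
      exact mU_eq_sum hG hTT hα hβ h1
    · rw [Prod.snd_sum]
      exact aB_sum hG h hTT hT hα hβ h1
  rw [SetLike.mem_coe, h2]
  refine Submodule.sum_mem _ fun δ hδ => ?_
  rw [Finset.mem_filter, mem_PsiF hG] at hδ
  obtain ⟨hδ1, hδ2, hδ3⟩ := hδ
  obtain ⟨h3, h4, -⟩ := aB_append h hTT hT hα hδ1 hδ2 hδ3
  obtain ⟨h5, h6, -⟩ := aB_append h hTT hT hβ hδ1 (hδ2.trans h1) hδ3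
  exact Gpr_mem h3 h5 (h4.trans h6.symm)

theorem Gs_vx (hG : G.LA) (h : Fam G S q u) {T : Stage G} (hT : ∀ v ∈ T.Vt, v ∈ S) {v : V}
    (hv : v ∈ T.Vt) : (vx K G v, q v) ∈ Gs K q u T := by
  classical
  have h2 : ((vx K G v, q v) : U K G × B) =
      ∑ β ∈ (PsiF T).filter (fun β => β.1 = v), Gpr K q u T β β := by
    refine Prod.ext ?_ ?_
    · rw [Prod.fst_sum]
      exact q_eq_sum hG (fam_U K) (fun _ _ => Set.mem_univ _) hv
    · rw [Prod.snd_sum]
      exact q_eq_sum hG h hT hv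
  rw [h2]
  refine Submodule.sum_mem _ fun β hβ => ?_
  rw [Finset.mem_filter, mem_PsiF hG] at hβ
  exact Gpr_mem hβ.1 hβ.1 rfl

theorem Gs_ed (hG : G.LA) (h : Fam G S q u) {T : Stage G} (hT : ∀ v ∈ T.Vt, v ∈ S) {e : E}
    (he : e ∈ T.Ft) : (ed K G e, u e) ∈ Gs K q u T := by
  classical
  have h2 : ((ed K G e, u e) : U K G × B) =
      ∑ γ ∈ (PsiF T).filter (fun β => β.1 = G.r e), Gpr K q u T (G.s e, e :: γ.2) γ := by
    refine Prod.ext ?_ ?_
    · rw [Prod.fst_sum]
      exact u_eq_sum hG (fam_U K) (fun _ _ => Set.mem_univ _) he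
    · rw [Prod.snd_sum]
      exact u_eq_sum hG h hT he
  rw [h2]
  refine Submodule.sum_mem _ fun γ hγ => ?_
  rw [Finset.mem_filter, mem_PsiF hG] at hγ
  have h1 := cons_mem_Psi he hγ.1 hγ.2
  exact Gpr_mem h1.1 hγ.1 h1.2

/-- Every element of `Gam` is a combination of pairs of matrix units of a stage inside `S`.
(Larger stages: `mU_eq_sum` and the same computation for the family, from `gap_eq_sum`,
`aB_append`.) -/
theorem Gam_span (hG : G.LA) (h : Fam G S q u) {z : U K G × B} (hz : z ∈ Gam K G S q u) :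
    ∃ T : Stage G, (∀ v ∈ T.Vt, v ∈ S) ∧ z ∈ Submodule.span K {z | ∃ α ∈ Psi T, ∃ β ∈ Psi T,
      tg G α = tg G β ∧ z = (mU K T α β, aB q u T α * star (aB q u T β))} := by
  classical
  change ∃ T : Stage G, (∀ v ∈ T.Vt, v ∈ S) ∧ z ∈ Gs K q u T
  have hsup : ∀ T T' : Stage G, (∀ v ∈ T.Vt, v ∈ S) → (∀ v ∈ T'.Vt, v ∈ S) →
      ∀ v ∈ (T.sup T').Vt, v ∈ S := by
    intro T T' h h' v hv
    rcases Finset.mem_union.mp hv with h1 | h1
    · exact h v h1
    · exact h' v h1
  have hed : ∀ e, G.s e ∈ S → G.s e ≠ G.r e →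
      ∃ T : Stage G, (∀ v ∈ T.Vt, v ∈ S) ∧ (ed K G e, u e) ∈ Gs K q u T := by
    intro e hs hl
    have hT : ∀ v ∈ ({G.s e, G.r e} : Finset V), v ∈ S := by
      intro v hv
      rcases Finset.mem_insert.mp hv with h1 | h1
      · rw [h1]; exact hs
      · rw [Finset.mem_singleton.mp h1]; exact h.her e hs
    refine ⟨⟨{G.s e, G.r e}, {e}, ?_, ?_, ?_⟩, hT, Gs_ed hG h hT (by simp)⟩
    · intro f hf; rw [Finset.mem_singleton.mp hf]; simp
    · intro f hf; rw [Finset.mem_singleton.mp hf]; simp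
    · intro f hf; rw [Finset.mem_singleton.mp hf]; exact hl
  unfold Gam at hz
  induction hz using NonUnitalAlgebra.adjoin_induction with
  | mem z hz =>
    rcases hz with ⟨v, hv, rfl⟩ | ⟨e, hs, hl, rfl | rfl⟩
    · have hT : ∀ w ∈ ({v} : Finset V), w ∈ S := by
        intro w hw
        rw [Finset.mem_singleton.mp hw]
        exact hv
      exact ⟨⟨{v}, ∅, by simp, by simp, by simp⟩, hT, Gs_vx hG h hT (by simp)⟩
    · exact hed e hs hl
    · obtain ⟨T, hT, h1⟩ := hed e hs hl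
      refine ⟨T, hT, ?_⟩
      have h2 : ((gh K G e, star (u e)) : U K G × B) = star (ed K G e, u e) :=
        Prod.ext (star_ed e).symm rfl
      rw [h2]
      exact Gs_star h1
  | zero => exact ⟨⟨∅, ∅, by simp, by simp, by simp⟩, by simp, Submodule.zero_mem _⟩
  | add x y _ _ h1 h2 =>
    obtain ⟨T, hT, h1⟩ := h1
    obtain ⟨T', hT', h2⟩ := h2
    have hT2 := hsup T T' hT hT'
    exact ⟨T.sup T', hT2, Submodule.add_mem _
      (Gs_mono hG h (Stage.le_sup_left T T') hT2 h1)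
      (Gs_mono hG h (Stage.le_sup_right T T') hT2 h2)⟩
  | mul x y _ _ h1 h2 =>
    obtain ⟨T, hT, h1⟩ := h1
    obtain ⟨T', hT', h2⟩ := h2
    have hT2 := hsup T T' hT hT'
    exact ⟨T.sup T', hT2, Gs_mul h hT2
      (Gs_mono hG h (Stage.le_sup_left T T') hT2 h1)
      (Gs_mono hG h (Stage.le_sup_right T T') hT2 h2)⟩
  | smul c x _ h1 =>
    obtain ⟨T, hT, h1⟩ := h1
    exact ⟨T, hT, Submodule.smul_mem _ _ h1⟩

open Classical in
/-- coordinates -/
theorem Gs_form (hG : G.LA) {T : Stage G} {z : U K G × B} (hz : z ∈ Gs K q u T) :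
    ∃ c : (V × List E) × (V × List E) → K,
      z = ∑ p ∈ (PsiF T ×ˢ PsiF T).filter (fun p => tg G p.1 = tg G p.2),
        c p • Gpr K q u T p.1 p.2 := by
  unfold Gs at hz
  induction hz using Submodule.span_induction with
  | mem z hz =>
    obtain ⟨α, hα, β, hβ, h1, rfl⟩ := hz
    refine ⟨fun p => if p = (α, β) then 1 else 0, ?_⟩
    rw [Finset.sum_eq_single_of_mem (α, β)]
    · simp only [if_true, one_smul]
      rfl
    · rw [Finset.mem_filter, Finset.mem_product, mem_PsiF hG, mem_PsiF hG]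
      exact ⟨⟨hα, hβ⟩, h1⟩
    · intro p _ hp
      simp only [hp, if_false, zero_smul]
  | zero => exact ⟨fun _ => 0, by simp⟩
  | add x y _ _ h1 h2 =>
    obtain ⟨c, h1⟩ := h1
    obtain ⟨d, h2⟩ := h2
    refine ⟨fun p => c p + d p, ?_⟩
    conv_lhs => rw [h1, h2]
    rw [← Finset.sum_add_distrib]
    exact Finset.sum_congr rfl fun p _ => (add_smul _ _ _).symm
  | smul a x _ h1 =>
    obtain ⟨c, h1⟩ := h1
    refine ⟨fun p => a * c p, ?_⟩
    conv_lhs => rw [h1]
    rw [Finset.smul_sum]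
    exact Finset.sum_congr rfl fun p _ => (mul_smul _ _ _).symm

/-- the first coordinate determines the second -/
theorem Gam_inj (hG : G.LA) (h : Fam G S q u) {y : B} (hy : ((0 : U K G), y) ∈ Gam K G S q u) :
    y = 0 := by
  classical
  obtain ⟨T, hT, h1⟩ := Gam_span hG h hy
  obtain ⟨c, h2⟩ := Gs_form hG (q := q) (u := u) h1
  have h3 : ∑ p ∈ (PsiF T ×ˢ PsiF T).filter (fun p => tg G p.1 = tg G p.2),
      c p • mU K T p.1 p.2 = 0 := by
    have h4 := congrArg Prod.fst h2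
    rw [Prod.fst_sum] at h4
    exact h4.symm
  have h4 := mU_indep T _ (by
    intro p hp
    rw [Finset.mem_filter, Finset.mem_product, mem_PsiF hG, mem_PsiF hG] at hp
    exact ⟨hp.1.1, hp.1.2, hp.2⟩) c h3
  have h5 := congrArg Prod.snd h2
  rw [Prod.snd_sum] at h5
  change y = _ at h5
  rw [h5]
  refine Finset.sum_eq_zero fun p hp => ?_
  rw [h4 p hp, zero_smul]
  rfl

theorem Gam_uniq (hG : G.LA) (h : Fam G S q u) {x : U K G} {y y' : B}
    (hy : (x, y) ∈ Gam K G S q u) (hy' : (x, y') ∈ Gam K G S q u) : y = y' := by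
  have h1 := (Gam K G S q u).sub_mem hy hy'
  have h2 : ((x, y) - (x, y') : U K G × B) = (0, y - y') := Prod.ext (sub_self x) rfl
  rw [h2] at h1
  exact sub_eq_zero.mp (Gam_inj hG h h1)

theorem Gam_pB {T : Stage G} (hT : ∀ v ∈ T.Vt, v ∈ S) (v : V) (hv : v ∈ S)
    (l : List E) (hl : ∀ e ∈ l, e ∈ T.Ft) :
    (vx K G v * (l.map (ed K G)).prod, q v * (l.map u).prod) ∈ Gam K G S q u := by
  induction l using List.reverseRecOn with
  | nil => simpa using Gam_vx hv
  | append_singleton l e ih =>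
    rw [List.map_append, List.prod_append, List.map_singleton, List.prod_singleton, ← mul_assoc,
      List.map_append, List.prod_append, List.map_singleton, List.prod_singleton, ← mul_assoc]
    have he : e ∈ T.Ft := hl e (by simp)
    exact (Gam K G S q u).mul_mem (ih fun f hf => hl f (by simp [hf]))
      (Gam_ed (hT _ (T.hs e he)) (T.nl e he))

theorem Gam_gap {T : Stage G} (hT : ∀ v ∈ T.Vt, v ∈ S) {w : V} (hw : w ∈ T.Vt) :
    (gapU K T w, gapB q u T w) ∈ Gam K G S q u := by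
  classical
  have h1 : ((gapU K T w, gapB q u T w) : U K G × B) = (vx K G w, q w) -
      ∑ e ∈ T.Ft.filter (fun e => G.s e = w),
        ((ed K G e, u e) * (gh K G e, star (u e)) : U K G × B) := by
    refine Prod.ext ?_ ?_
    · rw [Prod.fst_sub, Prod.fst_sum]
      change gapU K T w = _
      rw [gapU, gapB_eq]
      congr 1
      refine Finset.sum_congr rfl fun e _ => ?_
      rw [star_ed]
      rfl
    · rw [Prod.snd_sub, Prod.snd_sum]
      exact gapB_eq T w
  rw [h1]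
  refine (Gam K G S q u).sub_mem (Gam_vx (hT w hw)) ((Gam K G S q u).sum_mem fun e he => ?_)
  have he' := (Finset.mem_filter.mp he).1
  exact (Gam K G S q u).mul_mem (Gam_ed (hT _ (T.hs e he')) (T.nl e he'))
    (Gam_gh (hT _ (T.hs e he')) (T.nl e he'))

/-- the matrix units of a stage inside `S` and their images -/
theorem Gam_aU (hG : G.LA) (h : Fam G S q u) {T : Stage G} (hT : ∀ v ∈ T.Vt, v ∈ S)
    {α : V × List E} (hα : α ∈ Psi T) : (aU K T α, aB q u T α) ∈ Gam K G S q u :=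
  (Gam K G S q u).mul_mem (Gam_pB hT _ (hT _ hα.1) _ hα.2.2.1) (Gam_gap hT (tgt_mem hα))

theorem Gam_mU (hG : G.LA) (h : Fam G S q u) {T : Stage G} (hT : ∀ v ∈ T.Vt, v ∈ S)
    {α β : V × List E} (hα : α ∈ Psi T) (hβ : β ∈ Psi T) :
    (mU K T α β, aB q u T α * star (aB q u T β)) ∈ Gam K G S q u :=
  (Gam K G S q u).mul_mem (Gam_aU hG h hT hα) (Gam_star h (Gam_aU hG h hT hβ))

theorem Gam_sum (hG : G.LA) (h : Fam G S q u) {T : Stage G} (hT : ∀ v ∈ T.Vt, v ∈ S)
    {ι : Type*} (s : Finset ι) (f g : ι → V × List E)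
    (hs : ∀ i ∈ s, f i ∈ Psi T ∧ g i ∈ Psi T) {x : U K G} {y : B}
    (hxy : (x, y) ∈ Gam K G S q u) (hx : x = ∑ i ∈ s, mU K T (f i) (g i)) :
    y = ∑ i ∈ s, aB q u T (f i) * star (aB q u T (g i)) := by
  subst hx
  refine Gam_uniq hG h hxy ?_
  have h1 : ((∑ i ∈ s, mU K T (f i) (g i), ∑ i ∈ s, aB q u T (f i) * star (aB q u T (g i))) :
      U K G × B) = ∑ i ∈ s, (mU K T (f i) (g i), aB q u T (f i) * star (aB q u T (g i))) := by
    refine Prod.ext ?_ ?_
    · rw [Prod.fst_sum]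
    · rw [Prod.snd_sum]
  rw [h1]
  exact (Gam K G S q u).sum_mem fun i hi => Gam_mU hG h hT (hs i hi).1 (hs i hi).2

theorem Gs_fst {T : Stage G} {z : U K G × B} (hz : z ∈ Gs K q u T) : z.1 ∈ Mspan K T := by
  unfold Gs at hz
  induction hz using Submodule.span_induction with
  | mem z hz =>
    obtain ⟨α, hα, β, hβ, h1, rfl⟩ := hz
    exact mU_mem_Mspan hα hβ h1
  | zero => exact Submodule.zero_mem _
  | add x y _ _ h1 h2 => exact Submodule.add_mem _ h1 h2
  | smul c x _ h1 => exact Submodule.smul_mem _ _ h1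

variable {V' : Type a'} {E' : Type b'} {G' : Gr V' E'}

theorem Gam_stdB (hG' : G'.LA) {q : V → U K G'} {u : E → U K G'} (h : Fam G S q u)
    (hq : ∀ v ∈ S, Std (q v)) (hu : ∀ e, G.s e ∈ S → G.s e ≠ G.r e → Std (u e))
    {T : Stage G} (hT : ∀ v ∈ T.Vt, v ∈ S) {α : V × List E} (hα : α ∈ Psi T) :
    Std (aB q u T α) := by
  classical
  have h1 : ∀ l : List E, (∀ e ∈ l, e ∈ T.Ft) → Std (q α.1 * (l.map u).prod) := by
    intro l
    induction l using List.reverseRecOn with
    | nil => intro _; simpa using hq _ (hT _ hα.1)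
    | append_singleton l e ih =>
      intro hl
      rw [List.map_append, List.prod_append, List.map_singleton, List.prod_singleton,
        ← mul_assoc]
      have he : e ∈ T.Ft := hl e (by simp)
      exact Std.mul hG' (ih fun f hf => hl f (by simp [hf]))
        (hu e (hT _ (T.hs e he)) (T.nl e he))
  have h2 : Pr (gapB q u T (tg G α)) := by
    have hw := hT _ (tgt_mem hα)
    rw [gapB_eq]
    refine Pr.sub hG' ⟨hq _ hw, h.qs _ hw, h.qq _ hw⟩ (Pr.sum hG' _ _ ?_ ?_) ?_
    · intro e he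
      have he' := (Finset.mem_filter.mp he).1
      exact Pr.left hG' (hu e (hT _ (T.hs e he')) (T.nl e he'))
    · intro e he f hf hne
      have he' := (Finset.mem_filter.mp he).1
      have hf' := (Finset.mem_filter.mp hf).1
      have h3 := h.uf e f (hT _ (T.hs e he')) (hT _ (T.hs f hf')) (T.nl e he') (T.nl f hf') hne
      calc u e * star (u e) * (u f * star (u f))
          = u e * (star (u e) * u f) * star (u f) := by noncomm_ring
        _ = 0 := by rw [h3, mul_zero, zero_mul]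
    · rw [Finset.mul_sum]
      refine Finset.sum_congr rfl fun e he => ?_
      obtain ⟨he', hs⟩ := Finset.mem_filter.mp he
      rw [← mul_assoc, ← hs, h.su e (hT _ (T.hs e he')) (T.nl e he')]
  exact Std.mul hG' (h1 α.2 hα.2.2.1) h2.1

/-- images of standard elements. (`(x, y) ∈ Gam`, `Std x`: with `alg0_Mspan` and `Std.of_Mspan`
the element `x` is a sum of matrix units over a bijection at a stage inside `S`, so `y` is the
corresponding sum of the `aB α * star (aB β)`, which are standard with orthogonal supports.) -/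
theorem Gam_std (hG : G.LA) (hG' : G'.LA) {q : V → U K G'} {u : E → U K G'} (h : Fam G S q u)
    (hq : ∀ v ∈ S, Std (q v)) (hu : ∀ e, G.s e ∈ S → G.s e ≠ G.r e → Std (u e))
    {x : U K G} {y : U K G'} (hxy : (x, y) ∈ Gam K G S q u) (hx : Std x) : Std y := by
  classical
  obtain ⟨T, hT, h1⟩ := Gam_span hG h hxy
  have h2 : x ∈ Mspan K T := Gs_fst (q := q) (u := u) h1
  obtain ⟨P, hP1, hP2, hP3⟩ := Std.of_Mspan hG hx h2
  have h3 := Gam_sum hG h hT P (fun p => p.1) (fun p => p.2)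
    (fun p hp => ⟨(hP1 p hp).1, (hP1 p hp).2.1⟩) hxy hP3
  rw [h3]
  have hne : ∀ p ∈ P, ∀ p' ∈ P, p ≠ p' → p.1 ≠ p'.1 ∧ p.2 ≠ p'.2 := by
    intro p hp p' hp' hne
    have h4 := hP2 p hp p' hp'
    exact ⟨fun h5 => hne (Prod.ext h5 (h4.mp h5)), fun h5 => hne (Prod.ext (h4.mpr h5) h5)⟩
  refine Std.sum hG' P _ ?_ ?_ ?_
  · intro p hp
    exact Std.mul hG' (Gam_stdB hG' h hq hu hT (hP1 p hp).1)
      (Gam_stdB hG' h hq hu hT (hP1 p hp).2.1).st
  · intro p hp p' hp' hpp
    have h4 := aB_star_aB_ne h hT (hP1 p hp).1 (hP1 p' hp').1 (hne p hp p' hp' hpp).1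
    calc star (aB q u T p.1 * star (aB q u T p.2)) * (aB q u T p'.1 * star (aB q u T p'.2))
        = aB q u T p.2 * (star (aB q u T p.1) * aB q u T p'.1) * star (aB q u T p'.2) := by
          rw [star_mul, star_star]; noncomm_ring
      _ = 0 := by rw [h4, mul_zero, zero_mul]
  · intro p hp p' hp' hpp
    have h4 := aB_star_aB_ne h hT (hP1 p hp).2.1 (hP1 p' hp').2.1 (hne p hp p' hp' hpp).2
    calc aB q u T p.1 * star (aB q u T p.2) * star (aB q u T p'.1 * star (aB q u T p'.2))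
        = aB q u T p.1 * (star (aB q u T p.2) * aB q u T p'.2) * star (aB q u T p'.1) := by
          rw [star_mul, star_star]; noncomm_ring
      _ = 0 := by rw [h4, mul_zero, zero_mul]

/-- the relation `RR` for projections follows from the gap projections -/
theorem Gam_rr (hG : G.LA) (hG' : G'.LA) {φ : RI K G G'} {q : V → U K G'} {u : E → U K G'}
    (h : Fam G S q u)
    (hq : ∀ v ∈ S, Std (q v)) (hu : ∀ e, G.s e ∈ S → G.s e ≠ G.r e → Std (u e))
    (hr : ∀ T : Stage G, (∀ v ∈ T.Vt, v ∈ S) → ∀ w ∈ T.Vt,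
      RR φ (gapU K T w) (gapB q u T w))
    {x : U K G} {y : U K G'} (hxy : (x, y) ∈ Gam K G S q u) (hx : Pr x) : RR φ x y := by
  classical
  obtain ⟨T, hT, h1⟩ := Gam_span hG h hxy
  have h2 : x ∈ Mspan K T := Gs_fst (q := q) (u := u) h1
  obtain ⟨A, hA1, hA2⟩ := Pr.form hx (Std.of_Mspan hG hx.1 h2)
  have h3 := Gam_sum hG h hT A (fun α => α) (fun α => α)
    (fun α hα => ⟨hA1 α hα, hA1 α hα⟩) hxy hA2
  rw [h3, hA2]
  refine RR.sum A _ _ ?_ ?_ ?_ ?_ ?_ hG hG'
  · intro α hα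
    have hα' := hA1 α hα
    have hsB := Gam_stdB hG' h hq hu hT hα'
    have h4 := hr T hT (tg G α) (tgt_mem hα')
    refine RR.congr h4 ?_ ?_ (mU_mem T α α) (Pr.of_mU hα').2.2 (Pr.left hG' hsB).2.2
    · exact ⟨star (aU K T α), star_mem_L (aU_mem T α), aU K T α, aU_mem T α,
        aU_star_aU_self hα', rfl⟩
    · exact ⟨star (aB q u T α), star_mem_L hsB.mem, aB q u T α, hsB.mem,
        aB_star_aB_self h hT hα', rfl⟩
  · intro α hα
    exact Pr.of_mU (hA1 α hα)
  · intro α hα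
    exact Pr.left hG' (Gam_stdB hG' h hq hu hT (hA1 α hα))
  · intro α hα β hβ hne
    exact mU_mul_ne (hA1 α hα) (hA1 β hβ) hne
  · intro α hα β hβ hne
    have h4 := aB_star_aB_ne h hT (hA1 α hα) (hA1 β hβ) hne
    calc aB q u T α * star (aB q u T α) * (aB q u T β * star (aB q u T β))
        = aB q u T α * (star (aB q u T α) * aB q u T β) * star (aB q u T β) := by noncomm_ring
      _ = 0 := by rw [h4, mul_zero, zero_mul]

end Pool.Agent.Helper32.LV
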