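import Pool.Agent.Helper32.LV.Corner
import Pool.Agent.Helper32.LV.Mat

/-! Properties of the graph which are determined by the ring. PIECES 23, 24. -/

set_option autoImplicit false
set_option linter.unusedSectionVars false

universe k a b a' b'

namespace Pool.Agent.Helper32.LV

variable {V : Type a} {E : Type b} {K : Type k} [Field K] [StarRing K] {G : Gr V E}
  {V' : Type a'} {E' : Type b'} {G' : Gr V' E'}

/-- a right inverse of the unit of a stage is a left inverse -/
theorem tr_inv (hG : G.LA) {T : Stage G} {x y : U K G} (hx : x ∈ Zspan K G T)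
    (hy : y ∈ Zspan K G T) (h : y * x = ∑ α ∈ PsiF T, mU K T α α) :
    x * y = ∑ α ∈ PsiF T, mU K T α α := by
  classical
  have hu : (∑ α ∈ PsiF T, mU K T α α : U K G) ∈ Zspan K G T :=
    (Zspan K G T).sum_mem fun α hα =>
      Mspan_le_Zspan (mU_mem_Mspan ((mem_PsiF hG).mp hα) ((mem_PsiF hG).mp hα) rfl)
  have hxy : x * y ∈ Zspan K G T := (Zspan K G T).mul_mem hx hy
  rw [dec_sum hG hxy, dec_sum hG hu]
  refine Finset.sum_congr rfl fun α hα => Finset.sum_congr rfl fun β hβ => ?_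
  have hα' := (mem_PsiF hG).mp hα
  have hβ' := (mem_PsiF hG).mp hβ
  by_cases hne : tg G α = tg G β
  swap
  · rw [dec_ne hG hxy hα' hβ' hne, dec_ne hG hu hα' hβ' hne]
  -- coordinates at the vertex
  obtain ⟨w, hw⟩ : ∃ w, w = tg G β := ⟨_, rfl⟩
  have hwf : ¬ Full T w := hw ▸ tgt_not_full hβ'
  obtain ⟨c⟩ := exists_coord (K := K) hG T hwf
  set I := (PsiF T).filter (fun α => tg G α = w) with hI
  have hIm : ∀ α ∈ I, α ∈ Psi T ∧ tg G α = w := by
    intro α hα
    have := Finset.mem_filter.mp hα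
    exact ⟨(mem_PsiF hG).mp this.1, this.2⟩
  have hprod : ∀ {x y : U K G}, x ∈ Zspan K G T →
      ∀ M N : Matrix I I c.R, (∀ α β : I, star (aU K T α.1) * x * aU K T β.1 = c.hom (M α β)) →
      (∀ α β : I, star (aU K T α.1) * y * aU K T β.1 = c.hom (N α β)) →
      ∀ α β : I, star (aU K T α.1) * (x * y) * aU K T β.1 = c.hom ((M * N) α β) := by
    intro x y hx M N hM hN α β
    rw [dec_mul hG hx y, ← Finset.sum_filter_add_sum_filter_not (PsiF T) (fun γ => tg G γ = w)]
    have e3 : ∑ γ ∈ (PsiF T).filter (fun γ => ¬ tg G γ = w),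
        (star (aU K T α.1) * x * aU K T γ) * (star (aU K T γ) * y * aU K T β.1) = 0 := by
      refine Finset.sum_eq_zero fun γ hγ => ?_
      have hγ' := Finset.mem_filter.mp hγ
      rw [dec_ne hG hx (hIm α.1 α.2).1 ((mem_PsiF hG).mp hγ'.1)
        (by rw [(hIm α.1 α.2).2]; exact fun h => hγ'.2 h.symm), zero_mul]
    rw [e3, add_zero, ← hI, ← Finset.sum_coe_sort I, Matrix.mul_apply, map_sum]
    refine Finset.sum_congr rfl fun γ _ => ?_
    rw [hM, hN, c.hom_mul]
  have hone : ∀ α β : I, star (aU K T α.1) * (∑ γ ∈ PsiF T, mU K T γ γ) * aU K T β.1 =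
      c.hom ((1 : Matrix I I c.R) α β) := by
    intro α β
    have e1 : star (aU K T α.1) * (∑ γ ∈ PsiF T, mU K T γ γ) * aU K T β.1 =
        ∑ γ ∈ PsiF T, (star (aU K T α.1) * aU K T γ) * (star (aU K T γ) * aU K T β.1) := by
      rw [Finset.mul_sum, Finset.sum_mul]
      refine Finset.sum_congr rfl fun γ _ => ?_
      rw [mU]
      noncomm_ring
    rw [e1, Finset.sum_eq_single α.1]
    · by_cases hαβ : α = β
      · subst hαβ
        rw [Matrix.one_apply_eq, c.hom_one, aU_star_aU_self (hIm α.1 α.2).1, (hIm α.1 α.2).2,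
          gapU_idem]
      · rw [Matrix.one_apply_ne hαβ, map_zero,
          aU_star_aU_ne (hIm α.1 α.2).1 (hIm β.1 β.2).1 (fun h => hαβ (Subtype.ext h)), mul_zero]
    · intro γ hγ hne
      rw [aU_star_aU_ne (hIm α.1 α.2).1 ((mem_PsiF hG).mp hγ) hne.symm, zero_mul]
    · intro h
      exact absurd ((mem_PsiF hG).mpr (hIm α.1 α.2).1) h
  obtain ⟨M, hM⟩ := idem_coord c I hIm hx
  obtain ⟨N, hN⟩ := idem_coord c I hIm hy
  have hNM : N * M = 1 := by
    funext α β
    apply c.inj
    rw [← c.hom_apply, ← c.hom_apply, ← hone, ← h, hprod hy N M hN hM]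
  have hMN : M * N = 1 := mul_eq_one_comm.mp hNM
  have hαI : α ∈ I := Finset.mem_filter.mpr ⟨hα, hne.trans hw.symm⟩
  have hβI : β ∈ I := Finset.mem_filter.mpr ⟨hβ, hw.symm⟩
  have e4 := hprod hx M N hM hN ⟨α, hαI⟩ ⟨β, hβI⟩
  have e5 := hone ⟨α, hαI⟩ ⟨β, hβI⟩
  rw [hMN] at e4
  rw [e4, e5]

/-- PIECE 23a. Corners are directly finite: choose a stage `T` with `x`, `y`, `e` in `Zspan K G T`
and let `u` be the unit of `Zspan K G T`; then `(y + u - e) (x + u - e) = u`, and in coordinates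
(`Coord`, `dec_sum`, `dec_mul`) these are square matrices over commutative rings, so
`(x + u - e) (y + u - e) = u` (`Matrix.mul_eq_one_comm`). -/
theorem dirFin (hG : G.LA) {x y e : U K G} (hx : x ∈ L K G) (hy : y ∈ L K G) (he : e ∈ L K G)
    (hi : e * e = e) (h1 : e * x = x) (h2 : x * e = x) (h3 : e * y = y) (h4 : y * e = y)
    (h : y * x = e) : x * y = e := by
  classical
  obtain ⟨T, -, hz⟩ := exists_Zspan_finset (K := K) (G := G) (Finset.univ : Finset (Fin 3))
    (fun i => if i = 0 then x else if i = 1 then y else e)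
    (by intro i _; fin_cases i <;> simp [hx, hy, he]) ⟨∅, ∅, by simp, by simp, by simp⟩
  have hxT : x ∈ Zspan K G T := by simpa using hz 0 (Finset.mem_univ _)
  have hyT : y ∈ Zspan K G T := by simpa using hz 1 (Finset.mem_univ _)
  have heT : e ∈ Zspan K G T := by simpa using hz 2 (Finset.mem_univ _)
  have hux := Zspan_unit hG hxT
  have huy := Zspan_unit hG hyT
  have hue := Zspan_unit hG heT
  have huT : (∑ α ∈ PsiF T, mU K T α α : U K G) ∈ Zspan K G T :=
    (Zspan K G T).sum_mem fun α hα =>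
      Mspan_le_Zspan (mU_mem_Mspan ((mem_PsiF hG).mp hα) ((mem_PsiF hG).mp hα) rfl)
  have huu := Zspan_unit hG huT
  have hinv := tr_inv (K := K) hG (T := T) (x := x + ((∑ α ∈ PsiF T, mU K T α α) - e))
    (y := y + ((∑ α ∈ PsiF T, mU K T α α) - e))
    ((Zspan K G T).add_mem hxT ((Zspan K G T).sub_mem huT heT))
    ((Zspan K G T).add_mem hyT ((Zspan K G T).sub_mem huT heT))
  generalize (∑ α ∈ PsiF T, mU K T α α : U K G) = u at hux huy hue huu hinv
  have e1 : (y + (u - e)) * (x + (u - e)) = u := by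
    rw [add_mul, mul_add, mul_add, mul_sub, sub_mul, sub_mul, mul_sub, mul_sub, h, huy.2, h4,
      hux.1, h1, huu.1, hue.1, hue.2, hi]
    abel
  have e2 := hinv e1
  rw [add_mul, mul_add, mul_add, mul_sub, sub_mul, sub_mul, mul_sub, mul_sub, hux.2, h2,
      huy.1, h3, huu.1, hue.1, hue.2, hi] at e2
  have e3 : x * y + (x - x) + (y - y + (u - e - (e - e))) = (x * y - e) + u := by abel
  rw [e3] at e2
  have e4 : x * y - e = 0 := add_eq_right.mp e2
  exact sub_eq_zero.mp e4

/-- the element of a path is an isometry -/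
theorem tr_path (v : V') (l : List E') (hl : G'.IsPath v l) :
    star (pB (vx K G') (ed K G') (v, l)) * pB (vx K G') (ed K G') (v, l) =
      vx K G' (G'.tgt v l) ∧
    vx K G' v * pB (vx K G') (ed K G') (v, l) = pB (vx K G') (ed K G') (v, l) ∧
    pB (vx K G') (ed K G') (v, l) * vx K G' (G'.tgt v l) = pB (vx K G') (ed K G') (v, l) := by
  induction l generalizing v with
  | nil =>
    have h : pB (vx K G') (ed K G') (v, []) = vx K G' v := by simp [pB]
    rw [h]
    exact ⟨by rw [star_vx, vx_vx]; rfl, vx_vx v, vx_vx v⟩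
  | cons e l ih =>
    obtain ⟨h1, h2⟩ := hl
    obtain ⟨i1, i2, i3⟩ := ih _ h2
    have h : pB (vx K G') (ed K G') (v, e :: l) =
        ed K G' e * pB (vx K G') (ed K G') (G'.r e, l) := by
      unfold pB
      rw [List.map_cons, List.prod_cons]
      change vx K G' v * (ed K G' e * _) = _
      rw [← h1, ← mul_assoc, vx_ed]
      change ed K G' e * _ = ed K G' e * (vx K G' (G'.r e) * _)
      rw [← mul_assoc, ed_vx]
    rw [h]
    refine ⟨?_, ?_, ?_⟩
    · rw [star_mul, star_ed]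
      calc star (pB (vx K G') (ed K G') (G'.r e, l)) * gh K G' e *
            (ed K G' e * pB (vx K G') (ed K G') (G'.r e, l))
          = star (pB (vx K G') (ed K G') (G'.r e, l)) * ((gh K G' e * ed K G' e) *
              pB (vx K G') (ed K G') (G'.r e, l)) := by noncomm_ring
        _ = vx K G' (G'.tgt (G'.r e) l) := by rw [gh_ed, i2, i1]
    · rw [← mul_assoc, ← h1, vx_ed]
    · rw [mul_assoc]
      change ed K G' e * (pB (vx K G') (ed K G') (G'.r e, l) * vx K G' (G'.tgt (G'.r e) l)) = _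
      rw [i3]

theorem tr_pB_mem (v : V') (l : List E') : pB (vx K G') (ed K G') (v, l) ∈ L K G' :=
  pU_mem (v, l)

/-- PIECE 23b. A cycle with an exit `f` (rotate it such that it starts at `v = s f`, let `p` be its
path) gives `p* p = v` and `f* p p* f = 0 ≠ f* v f`. -/
theorem noExit_of_dirFin (h : ∀ x ∈ L K G', ∀ y ∈ L K G', ∀ e ∈ L K G', e * e = e → e * x = x →
    x * e = x → e * y = y → y * e = y → y * x = e → x * y = e) : G'.NoExit := by
  rintro l ⟨v, -, hp, ht, -⟩ e he f hf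
  by_contra hne
  obtain ⟨l1, l2, rfl⟩ := List.append_of_mem he
  have h1 := isPath_append.1 hp
  have h2 : G'.tgt v l1 = G'.s e := h1.2.1.symm
  have h3 : G'.tgt (G'.r e) l2 = v := by
    rw [tgt_append] at ht
    exact ht
  -- the rotated path
  have hq : G'.IsPath (G'.s e) (e :: (l2 ++ l1)) :=
    ⟨rfl, isPath_append.2 ⟨h1.2.2, by rw [h3]; exact h1.1⟩⟩
  have hqt : G'.tgt (G'.s e) (e :: (l2 ++ l1)) = G'.s e := by
    change G'.tgt (G'.r e) (l2 ++ l1) = G'.s e
    rw [tgt_append, h3, h2]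
  obtain ⟨i1, i2, i3⟩ := tr_path (K := K) _ _ hq
  rw [hqt] at i1 i3
  have hP := tr_pB_mem (K := K) (G' := G') (G'.s e) (e :: (l2 ++ l1))
  have hfe : gh K G' f * pB (vx K G') (ed K G') (G'.s e, e :: (l2 ++ l1)) = 0 := by
    unfold pB
    rw [List.map_cons, List.prod_cons]
    change gh K G' f * (vx K G' (G'.s e) * (ed K G' e * _)) = 0
    rw [← mul_assoc (vx K G' (G'.s e)), vx_ed, ← mul_assoc, gh_ed_of_ne hne, zero_mul]
  generalize pB (vx K G') (ed K G') (G'.s e, e :: (l2 ++ l1)) = P at i1 i2 i3 hP hfe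
  have j2 : star P * vx K G' (G'.s e) = star P := by
    have := congrArg star i2
    rwa [star_mul, star_vx] at this
  have j3 : vx K G' (G'.s e) * star P = star P := by
    have := congrArg star i3
    rwa [star_mul, star_vx] at this
  have key := h P hP (star P) (star_mem_L hP) (vx K G' (G'.s e)) (vx_mem _) (vx_vx _) i2 i3 j3 j2 i1
  have h4 : gh K G' f * vx K G' (G'.s e) = 0 := by
    rw [← key, ← mul_assoc, hfe, zero_mul]
  rw [← hf, gh_vx] at h4
  have h5 := gh_ed (K := K) (G := G') f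
  rw [h4, zero_mul] at h5
  exact vx_ne_zero (K := K) (G := G') (G'.r f) h5.symm

/-- PIECE 23c. -/
theorem noExit_transfer (hG : G.LA) (f : L K G ≃+* L K G') : G'.NoExit := by
  refine noExit_of_dirFin (K := K) ?_
  intro x hx y hy e he hi h1 h2 h3 h4 h5
  have hm : ∀ {a b c : U K G'} (ha : a ∈ L K G') (hb : b ∈ L K G') (hc : c ∈ L K G'),
      a * b = c → (f.symm ⟨a, ha⟩ : U K G) * (f.symm ⟨b, hb⟩ : U K G) = f.symm ⟨c, hc⟩ := by
    intro a b c ha hb hc habc
    have e1 : (⟨a, ha⟩ : L K G') * ⟨b, hb⟩ = ⟨c, hc⟩ := Subtype.ext habc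
    have e2 := congrArg f.symm e1
    rw [map_mul] at e2
    exact congrArg Subtype.val e2
  have key := dirFin hG (f.symm ⟨x, hx⟩).2 (f.symm ⟨y, hy⟩).2 (f.symm ⟨e, he⟩).2
    (hm he he he hi) (hm he hx hx h1) (hm hx he hx h2) (hm he hy hy h3) (hm hy he hy h4)
    (hm hy hx he h5)
  have e3 : f.symm (⟨x, hx⟩ * ⟨y, hy⟩) = f.symm ⟨e, he⟩ := by
    rw [map_mul]
    exact Subtype.ext key
  exact congrArg Subtype.val (f.symm.injective e3)

end Pool.Agent.Helper32.LV
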