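import Pool.Agent.Helper32.LV.Dec

/-! Countable emission is determined by the ring. PIECE 24. -/

set_option autoImplicit false
set_option linter.unusedSectionVars false

universe k a b a' b'

namespace Pool.Agent.Helper32.LV

variable {V : Type a} {E : Type b} {K : Type k} [Field K] [StarRing K] {G : Gr V E}
  {V' : Type a'} {E' : Type b'} {G' : Gr V' E'}

/-- products of a path and a ghost path -/
noncomputable def pgp (K : Type k) [Field K] [StarRing K] (G : Gr V E) (α β : V × List E) :
    U K G := pB (vx K G) (ed K G) α * star (pB (vx K G) (ed K G) β)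

theorem tc_pB_cons (v : V) (e : E) (l : List E) : pB (vx K G) (ed K G) (v, e :: l) =
    vx K G v * ed K G e * (l.map (ed K G)).prod := by
  rw [pB, List.map_cons, List.prod_cons, mul_assoc]

theorem tc_pB_nil (v : V) : pB (vx K G) (ed K G) (v, []) = vx K G v := by
  rw [pB, List.map_nil, List.prod_nil, mul_one]

theorem tc_vx_ed_of_ne {v : V} {e : E} (h : v ≠ G.s e) : vx K G v * ed K G e = 0 := by
  rw [← vx_ed, ← mul_assoc, vx_vx_of_ne h, zero_mul]

theorem tc_ed_vx_of_ne {v : V} {e : E} (h : v ≠ G.r e) : ed K G e * vx K G v = 0 := by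
  rw [← ed_vx, mul_assoc, vx_vx_of_ne h.symm, mul_zero]

theorem tc_ed_pB (e : E) (l : List E) : ed K G e * pB (vx K G) (ed K G) (G.r e, l) =
    pB (vx K G) (ed K G) (G.s e, e :: l) := by
  rw [tc_pB_cons, vx_ed]
  rw [pB, ← mul_assoc, ed_vx]

theorem tc_vx_pB_self (α : V × List E) : vx K G α.1 * pB (vx K G) (ed K G) α =
    pB (vx K G) (ed K G) α := by
  rw [pB, ← mul_assoc, vx_vx]

theorem tc_vx_pB_ne {v : V} {α : V × List E} (h : v ≠ α.1) :
    vx K G v * pB (vx K G) (ed K G) α = 0 := by
  rw [pB, ← mul_assoc, vx_vx_of_ne h, zero_mul]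

theorem tc_pB_star_vx_self (α : V × List E) : star (pB (vx K G) (ed K G) α) * vx K G α.1 =
    star (pB (vx K G) (ed K G) α) := by
  have := congrArg star (tc_vx_pB_self (K := K) (G := G) α)
  rwa [star_mul, star_vx] at this

theorem tc_pB_star_vx_ne {v : V} {α : V × List E} (h : v ≠ α.1) :
    star (pB (vx K G) (ed K G) α) * vx K G v = 0 := by
  have := congrArg star (tc_vx_pB_ne (K := K) (G := G) h)
  rwa [star_mul, star_vx, star_zero] at this

/-- the span of all products of a path and a ghost path -/
noncomputable def Pgs (K : Type k) [Field K] [StarRing K] (G : Gr V E) : Submodule K (U K G) :=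
  Submodule.span K {x | ∃ α β : V × List E, x = pgp K G α β}

theorem tc_pgp_mem (α β : V × List E) : pgp K G α β ∈ Pgs K G :=
  Submodule.subset_span ⟨α, β, rfl⟩

theorem tc_Pgs_mul_of {g : U K G} (h : ∀ α β : V × List E, pgp K G α β * g ∈ Pgs K G) {m : U K G}
    (hm : m ∈ Pgs K G) : m * g ∈ Pgs K G := by
  unfold Pgs at hm
  induction hm using Submodule.span_induction with
  | mem x hx =>
    obtain ⟨α, β, rfl⟩ := hx
    exact h α β
  | zero => rw [zero_mul]; exact Submodule.zero_mem _
  | add x z _ _ h1 h2 => rw [add_mul]; exact Submodule.add_mem _ h1 h2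
  | smul c x _ h1 => rw [smul_mul_assoc]; exact Submodule.smul_mem _ _ h1

theorem tc_pgp_vx (α β : V × List E) (w : V) : pgp K G α β * vx K G w ∈ Pgs K G := by
  rw [pgp, mul_assoc]
  by_cases h : w = β.1
  · rw [h, tc_pB_star_vx_self]
    exact tc_pgp_mem α β
  · rw [tc_pB_star_vx_ne h, mul_zero]
    exact Submodule.zero_mem _

theorem tc_pgp_gh (α β : V × List E) (e : E) : pgp K G α β * gh K G e ∈ Pgs K G := by
  rw [pgp, mul_assoc]
  have h0 : star (pB (vx K G) (ed K G) β) * gh K G e =
      star (ed K G e * pB (vx K G) (ed K G) β) := by rw [star_mul, star_ed]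
  rw [h0]
  by_cases h : β.1 = G.r e
  · have h1 : β = (G.r e, β.2) := Prod.ext h rfl
    rw [h1, tc_ed_pB]
    exact tc_pgp_mem α _
  · have h1 : ed K G e * pB (vx K G) (ed K G) β = 0 := by
      rw [pB, ← mul_assoc, tc_ed_vx_of_ne h, zero_mul]
    rw [h1, star_zero, mul_zero]
    exact Submodule.zero_mem _

theorem tc_pB_ed (α : V × List E) (e : E) : pB (vx K G) (ed K G) α * ed K G e =
    pgp K G (α.1, α.2 ++ [e]) (G.r e, []) := by
  rw [pgp, tc_pB_nil, star_vx, pB, pB]
  simp only [List.map_append, List.map_cons, List.map_nil, List.prod_append, List.prod_cons,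
    List.prod_nil, mul_one]
  rw [mul_assoc, mul_assoc, mul_assoc, ed_vx]

theorem tc_pgp_ed (α β : V × List E) (e : E) : pgp K G α β * ed K G e ∈ Pgs K G := by
  rw [pgp, mul_assoc]
  obtain ⟨v, l⟩ := β
  cases l with
  | nil =>
    rw [tc_pB_nil, star_vx]
    by_cases h : v = G.s e
    · rw [h, vx_ed, tc_pB_ed]
      exact tc_pgp_mem _ _
    · rw [tc_vx_ed_of_ne h, mul_zero]
      exact Submodule.zero_mem _
  | cons f l =>
    rw [tc_pB_cons, star_mul, star_mul, star_ed, star_vx]
    by_cases h : v = G.s e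
    · by_cases hf : f = e
      · have h1 : star (l.map (ed K G)).prod * (gh K G f * vx K G v) * ed K G e =
            star (pB (vx K G) (ed K G) (G.r e, l)) := by
          rw [h, hf, gh_vx, mul_assoc, gh_ed, pB, star_mul, star_vx]
        rw [h1]
        exact tc_pgp_mem _ _
      · have h1 : star (l.map (ed K G)).prod * (gh K G f * vx K G v) * ed K G e = 0 := by
          rw [mul_assoc, mul_assoc, h, vx_ed, gh_ed_of_ne hf, mul_zero]
        rw [h1, mul_zero]
        exact Submodule.zero_mem _
    · have h1 : star (l.map (ed K G)).prod * (gh K G f * vx K G v) * ed K G e = 0 := by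
        rw [mul_assoc, mul_assoc, tc_vx_ed_of_ne h, mul_zero, mul_zero]
      rw [h1, mul_zero]
      exact Submodule.zero_mem _

theorem tc_vx_mem_Pgs (v : V) : vx K G v ∈ Pgs K G := by
  have h : vx K G v = pgp K G (v, []) (v, []) := by
    rw [pgp, tc_pB_nil, star_vx, vx_vx]
  rw [h]
  exact tc_pgp_mem _ _

theorem tc_ed_mem_Pgs (e : E) : ed K G e ∈ Pgs K G := by
  rw [← vx_ed]
  exact tc_Pgs_mul_of (fun α β => tc_pgp_ed α β e) (tc_vx_mem_Pgs _)

theorem tc_gh_mem_Pgs (e : E) : gh K G e ∈ Pgs K G := by
  rw [← vx_gh]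
  exact tc_Pgs_mul_of (fun α β => tc_pgp_gh α β e) (tc_vx_mem_Pgs _)

theorem tc_mem_Pgs {x : U K G} (hx : x ∈ L K G) : x ∈ Pgs K G ∧ ∀ m ∈ Pgs K G, m * x ∈ Pgs K G := by
  refine L_ind (p := fun x => x ∈ Pgs K G ∧ ∀ m ∈ Pgs K G, m * x ∈ Pgs K G)
    ?_ ?_ ?_ ?_ ?_ ?_ ?_ hx
  · intro v
    exact ⟨tc_vx_mem_Pgs v, fun m hm => tc_Pgs_mul_of (fun α β => tc_pgp_vx α β v) hm⟩
  · intro e
    exact ⟨tc_ed_mem_Pgs e, fun m hm => tc_Pgs_mul_of (fun α β => tc_pgp_ed α β e) hm⟩
  · intro e
    exact ⟨tc_gh_mem_Pgs e, fun m hm => tc_Pgs_mul_of (fun α β => tc_pgp_gh α β e) hm⟩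
  · refine ⟨Submodule.zero_mem _, fun m _ => ?_⟩
    rw [mul_zero]
    exact Submodule.zero_mem _
  · intro x _ y _ h1 h2
    refine ⟨Submodule.add_mem _ h1.1 h2.1, fun m hm => ?_⟩
    rw [mul_add]
    exact Submodule.add_mem _ (h1.2 m hm) (h2.2 m hm)
  · intro x _ y _ h1 h2
    refine ⟨h2.2 x h1.1, fun m hm => ?_⟩
    rw [← mul_assoc]
    exact h2.2 _ (h1.2 m hm)
  · intro c x _ h1
    refine ⟨Submodule.smul_mem _ _ h1.1, fun m hm => ?_⟩
    rw [mul_smul_comm]
    exact Submodule.smul_mem _ _ (h1.2 m hm)

/-- the product of edges is zero if they do not form a path -/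
theorem tc_pB_eq_zero (l : List E) : ∀ v : V, ¬ G.IsPath v l → pB (vx K G) (ed K G) (v, l) = 0 := by
  induction l with
  | nil => intro v h; exact absurd trivial h
  | cons e l ih =>
    intro v h
    by_cases hv : v = G.s e
    · have h1 : ¬ G.IsPath (G.r e) l := fun h2 => h ⟨hv.symm, h2⟩
      rw [hv, ← tc_ed_pB, ih _ h1, mul_zero]
    · rw [tc_pB_cons, tc_vx_ed_of_ne hv, zero_mul]

/-- countably many paths start at a vertex -/
theorem tc_paths_countable_len (hC : G.CE) (n : ℕ) : ∀ v : V,
    {l : List E | G.IsPath v l ∧ l.length = n}.Countable := by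
  induction n with
  | zero =>
    intro v
    refine (Set.countable_singleton ([] : List E)).mono ?_
    rintro l ⟨-, hl⟩
    exact List.length_eq_zero_iff.mp hl
  | succ n ih =>
    intro v
    have h1 : (⋃ e ∈ {e | G.s e = v}, (fun l => e :: l) ''
        {l : List E | G.IsPath (G.r e) l ∧ l.length = n}).Countable :=
      (hC v).biUnion fun e _ => (ih (G.r e)).image _
    refine h1.mono ?_
    rintro l ⟨hl, hn⟩
    cases l with
    | nil => simp at hn
    | cons e l =>
      refine Set.mem_biUnion (x := e) hl.1 ⟨l, ⟨hl.2, ?_⟩, rfl⟩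
      simpa using hn

theorem tc_paths_countable (hC : G.CE) (v : V) : {l : List E | G.IsPath v l}.Countable := by
  refine (Set.countable_iUnion fun n => tc_paths_countable_len hC n v).mono ?_
  intro l hl
  exact Set.mem_iUnion.mpr ⟨l.length, hl, rfl⟩

theorem tc_starts_countable (hC : G.CE) (t : Finset V) :
    {α : V × List E | α.1 ∈ t ∧ G.IsPath α.1 α.2}.Countable := by
  have h1 : (⋃ v ∈ (t : Set V), (fun l => (v, l)) '' {l : List E | G.IsPath v l}).Countable :=
    t.countable_toSet.biUnion fun v _ => (tc_paths_countable hC v).image _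
  refine h1.mono ?_
  rintro ⟨v, l⟩ ⟨hv, hl⟩
  exact Set.mem_biUnion (x := v) hv ⟨l, hl, rfl⟩

theorem tc_sum_vx_pB (t : Finset V) (α : V × List E) [Decidable (α.1 ∈ t)] :
    (∑ v ∈ t, vx K G v) * pB (vx K G) (ed K G) α =
      if α.1 ∈ t then pB (vx K G) (ed K G) α else 0 := by
  classical
  rw [Finset.sum_mul]
  split_ifs with h
  · rw [Finset.sum_eq_single α.1]
    · exact tc_vx_pB_self α
    · intro v _ hv
      exact tc_vx_pB_ne hv
    · intro h'
      exact absurd h h'
  · refine Finset.sum_eq_zero fun v hv => tc_vx_pB_ne ?_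
    rintro rfl
    exact h hv

/-- If every vertex emits countably many edges then the corner of a finite set of vertices has
countable dimension: it is spanned by the products `α β*` with `α`, `β` paths starting in the
finite set, which are countably many. (For all graphs: `x ∈ L K G` is a combination of products
`α β*` of paths with the same end point, by induction with `L_ind`.) -/
theorem corner_countable (hC : G.CE) (t : Finset V) : ∃ S : Set (U K G), S.Countable ∧
    ∀ x ∈ L K G, (∑ v ∈ t, vx K G v) * x = x → x * (∑ v ∈ t, vx K G v) = x →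
      x ∈ Submodule.span K S := by
  classical
  set A : Set (V × List E) := {α : V × List E | α.1 ∈ t ∧ G.IsPath α.1 α.2} with hA
  refine ⟨(fun p : (V × List E) × (V × List E) => pgp K G p.1 p.2) '' (A ×ˢ A),
    ((tc_starts_countable hC t).prod (tc_starts_countable hC t)).image _, ?_⟩
  intro x hx h1 h2
  set PN : U K G := ∑ v ∈ t, vx K G v with hPN
  have hst : star PN = PN := by
    rw [hPN, star_sum]
    exact Finset.sum_congr rfl fun v _ => star_vx v
  have key : ∀ m ∈ Pgs K G, PN * m * PN ∈ Submodule.span K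
      ((fun p : (V × List E) × (V × List E) => pgp K G p.1 p.2) '' (A ×ˢ A)) := by
    intro m hm
    unfold Pgs at hm
    induction hm using Submodule.span_induction with
    | mem x hx =>
      obtain ⟨α, β, rfl⟩ := hx
      have e1 : PN * pgp K G α β * PN = (PN * pB (vx K G) (ed K G) α) *
          star (PN * pB (vx K G) (ed K G) β) := by
        rw [star_mul, hst, pgp]
        simp only [mul_assoc]
      rw [e1, hPN, tc_sum_vx_pB, tc_sum_vx_pB]
      by_cases hα : α ∈ A
      · by_cases hβ : β ∈ A
        · rw [if_pos hα.1, if_pos hβ.1]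
          exact Submodule.subset_span ⟨(α, β), ⟨hα, hβ⟩, rfl⟩
        · have h0 : (if β.1 ∈ t then pB (vx K G) (ed K G) β else 0) = 0 := by
            split_ifs with h3
            · exact tc_pB_eq_zero β.2 β.1 fun h4 => hβ ⟨h3, h4⟩
            · rfl
          rw [h0, star_zero, mul_zero]
          exact Submodule.zero_mem _
      · have h0 : (if α.1 ∈ t then pB (vx K G) (ed K G) α else 0) = 0 := by
          split_ifs with h3
          · exact tc_pB_eq_zero α.2 α.1 fun h4 => hα ⟨h3, h4⟩
          · rfl
        rw [h0, zero_mul]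
        exact Submodule.zero_mem _
    | zero => rw [mul_zero, zero_mul]; exact Submodule.zero_mem _
    | add x z _ _ h1 h2 => rw [mul_add, add_mul]; exact Submodule.add_mem _ h1 h2
    | smul c x _ h1 => rw [mul_smul_comm, smul_mul_assoc]; exact Submodule.smul_mem _ _ h1
  have h3 := key x (tc_mem_Pgs hx).1
  rwa [h1, h2] at h3

/-- a family of non-zero orthogonal idempotents in a space of countable dimension is countable -/
theorem tc_orth_countable {ι : Type*} {S : Set (U K G)} (hS : S.Countable) (p : ι → U K G)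
    (hp : ∀ i, p i ∈ Submodule.span K S) (h0 : ∀ i, p i ≠ 0) (hi : ∀ i, p i * p i = p i)
    (ho : ∀ i j, i ≠ j → p i * p j = 0) : Countable ι := by
  classical
  have hli : LinearIndependent K p := by
    rw [linearIndependent_iff']
    intro s g hg i hi'
    have h1 : (∑ j ∈ s, g j • p j) * p i = g i • p i := by
      rw [Finset.sum_mul, Finset.sum_eq_single i]
      · rw [smul_mul_assoc, hi]
      · intro j _ hj
        rw [smul_mul_assoc, ho j i hj, smul_zero]
      · intro h
        exact absurd hi' h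
    rw [hg, zero_mul] at h1
    rcases smul_eq_zero.mp h1.symm with h2 | h2
    · exact h2
    · exact absurd h2 (h0 i)
  set q : ι → Submodule.span K S := fun i => ⟨p i, hp i⟩ with hq
  have hli' : LinearIndependent K q := by
    apply LinearIndependent.of_comp (Submodule.span K S).subtype
    exact hli
  have h1 : Cardinal.lift.{_} (Cardinal.mk ι) ≤ Cardinal.lift.{_}
      (Module.rank K (Submodule.span K S)) := hli'.cardinal_lift_le_rank
  have h2 : Module.rank K (Submodule.span K S) ≤ Cardinal.aleph0 :=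
    (rank_span_le S).trans (Cardinal.mk_le_aleph0_iff.mpr hS.to_subtype)
  have h3 : Cardinal.lift.{_} (Cardinal.mk ι) ≤ Cardinal.aleph0 :=
    h1.trans (Cardinal.lift_le_aleph0.mpr h2)
  rw [Cardinal.lift_le_aleph0] at h3
  exact Cardinal.mk_le_aleph0_iff.mp h3

/-- If `v` emits uncountably many edges `e` then the `e e*` are uncountably many orthogonal non-zero
idempotents below `v`. Their preimages are orthogonal non-zero idempotents in
the corner of a finite set of vertices, hence linearly independent in a space of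
countable dimension, contradiction. -/
theorem ce_transfer (hC : G.CE) (f : L K G ≃+* L K G') : G'.CE := by
  intro v
  set P : L K G' := ⟨vx K G' v, vx_mem v⟩ with hP
  set p : L K G := f.symm P with hp
  obtain ⟨s, hs⟩ := exists_unit (K := K) (G := G) p.2
  obtain ⟨h1, h2⟩ := hs s (Finset.Subset.refl s)
  obtain ⟨S, hS, hspan⟩ := corner_countable (K := K) hC s
  set Q : {e | G'.s e = v} → L K G' := fun e =>
    ⟨ed K G' e.1 * gh K G' e.1, (L K G').mul_mem (ed_mem e.1) (gh_mem e.1)⟩ with hQ
  have hQP : ∀ e, P * Q e = Q e := by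
    intro e
    apply Subtype.ext
    change vx K G' v * (ed K G' e.1 * gh K G' e.1) = ed K G' e.1 * gh K G' e.1
    have h3 : vx K G' v = vx K G' (G'.s e.1) := congrArg (vx K G') e.2.symm
    rw [h3, ← mul_assoc, vx_ed]
  have hPQ : ∀ e, Q e * P = Q e := by
    intro e
    apply Subtype.ext
    change ed K G' e.1 * gh K G' e.1 * vx K G' v = ed K G' e.1 * gh K G' e.1
    have h3 : vx K G' v = vx K G' (G'.s e.1) := congrArg (vx K G') e.2.symm
    rw [h3, mul_assoc, gh_vx]
  have hQQ : ∀ e, Q e * Q e = Q e := by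
    intro e
    apply Subtype.ext
    change ed K G' e.1 * gh K G' e.1 * (ed K G' e.1 * gh K G' e.1) = ed K G' e.1 * gh K G' e.1
    rw [mul_assoc, ← mul_assoc (gh K G' e.1), gh_ed, vx_gh]
  have hQo : ∀ e e', e ≠ e' → Q e * Q e' = 0 := by
    intro e e' hne
    apply Subtype.ext
    change ed K G' e.1 * gh K G' e.1 * (ed K G' e'.1 * gh K G' e'.1) = 0
    rw [mul_assoc, ← mul_assoc (gh K G' e.1), gh_ed_of_ne (fun h => hne (Subtype.ext h)),
      zero_mul, mul_zero]
  have hQ0 : ∀ e, Q e ≠ 0 := by
    intro e h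
    have h3 : ed K G' e.1 * gh K G' e.1 = 0 := congrArg Subtype.val h
    have h4 : gh K G' e.1 * (ed K G' e.1 * gh K G' e.1) * ed K G' e.1 = vx K G' (G'.r e.1) := by
      rw [← mul_assoc, gh_ed, vx_gh, gh_ed]
    rw [h3, mul_zero, zero_mul] at h4
    exact vx_ne_zero (K := K) (G := G') _ h4.symm
  set q : {e | G'.s e = v} → L K G := fun e => f.symm (Q e) with hq
  have hpq : ∀ e, p * q e = q e := by
    intro e
    rw [hp, hq, ← map_mul, hQP]
  have hqp : ∀ e, q e * p = q e := by
    intro e
    rw [hp, hq, ← map_mul, hPQ]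
  have hct : Countable {e | G'.s e = v} := by
    refine tc_orth_countable hS (fun e => (q e : U K G)) ?_ ?_ ?_ ?_
    · intro e
      refine hspan _ (q e).2 ?_ ?_
      · have h5 : ((q e : L K G) : U K G) = (p : U K G) * (q e : U K G) :=
          (congrArg Subtype.val (hpq e)).symm
        rw [h5, ← mul_assoc, h1]
      · have h5 : ((q e : L K G) : U K G) = (q e : U K G) * (p : U K G) :=
          (congrArg Subtype.val (hqp e)).symm
        rw [h5, mul_assoc, h2]
    · intro e h
      have h5 : q e = 0 := Subtype.ext h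
      have h6 : f (q e) = 0 := by rw [h5, map_zero]
      rw [hq] at h6
      simp only [RingEquiv.apply_symm_apply] at h6
      exact hQ0 e h6
    · intro e
      have h5 : q e * q e = q e := by
        rw [hq, ← map_mul, hQQ]
      exact congrArg Subtype.val h5
    · intro e e' hne
      have h5 : q e * q e' = 0 := by
        rw [hq, ← map_mul, hQo e e' hne, map_zero]
      exact congrArg Subtype.val h5
  exact Set.countable_coe_iff.mp hct

end Pool.Agent.Helper32.LV
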