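import Pool.Agent.Helper32.LV.Loops
import Pool.Agent.Helper32.LV.Cut
import Pool.Agent.Helper32.LV.Trans
import Pool.Agent.Helper32.LV.TransC

/-! The main theorem. -/

set_option autoImplicit false

universe k a b a' b'

namespace Pool.Agent.Helper32.LV

variable {V : Type a} {E : Type b} {K : Type k} [Field K] [StarRing K] {G : Gr V E}
  {V' : Type a'} {E' : Type b'} {G' : Gr V' E'}

theorem main (hG : G.NoExit) (hC : G.CE)
    (h : Nonempty (L K G ≃+* L K G')) : Nonempty (L K G ≃⋆ₐ[K] L K G') := by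
  obtain ⟨G1, h1, hs, ⟨f⟩⟩ := cut (K := K) G hG
  obtain ⟨g⟩ := h
  have e1 : L K G1 ≃+* L K G := (f.symm : L K G1 ≃⋆ₐ[K] L K G).toRingEquiv
  have hG' : G'.NoExit := noExit_transfer h1 (e1.trans g)
  have hC' : G'.CE := ce_transfer hC g
  obtain ⟨G1', h1', hs', ⟨f'⟩⟩ := cut (K := K) G' hG'
  have hC1 : G1.CE := fun v => by rw [hs]; exact hC v
  have hC1' : G1'.CE := fun v => by rw [hs']; exact hC' v
  have e2 : L K G' ≃+* L K G1' := (f' : L K G' ≃⋆ₐ[K] L K G1').toRingEquiv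
  obtain ⟨F⟩ := main_LA h1 h1' hC1 hC1' ⟨(e1.trans g).trans e2⟩
  exact ⟨(f.trans F).trans f'.symm⟩

end Pool.Agent.Helper32.LV
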