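import Pool.Agent.Helper32.LV.Seq
import Pool.Agent.Helper32.LV.FamAdj

/-! Gluing compatible closed isomorphisms. PIECE 17. -/

set_option autoImplicit false
set_option linter.unusedSectionVars false

universe k a b a' b'

namespace Pool.Agent.Helper32.LV

variable {V : Type a} {E : Type b} {K : Type k} [Field K] [StarRing K] {G : Gr V E}
  {V' : Type a'} {E' : Type b'} {G' : Gr V' E'} {φ : RI K G G'}

theorem glue_uniq (c : CP φ) {x : U K G} {y y' : U K G'} (h : (x, y) ∈ c.Θ)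
    (h' : (x, y') ∈ c.Θ) : y = y' := by
  have h1 := c.Θ.sub_mem h h'
  rw [Prod.mk_sub_mk, sub_self] at h1
  exact sub_eq_zero.1 (c.inj _ h1)

theorem glue_star (c : CP φ) {x : U K G} {y : U K G'} (h : (x, y) ∈ c.Θ) :
    (star x, star y) ∈ c.Θ := c.st _ h

theorem glue_mul (c : CP φ) {x x' : U K G} {y y' : U K G'} (h : (x, y) ∈ c.Θ)
    (h' : (x', y') ∈ c.Θ) : (x * x', y * y') ∈ c.Θ := c.Θ.mul_mem h h'

theorem glue_sum (c : CP φ) {ι : Type*} (s : Finset ι) (f : ι → U K G) (g : ι → U K G')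
    (h : ∀ i ∈ s, (f i, g i) ∈ c.Θ) : (∑ i ∈ s, f i, ∑ i ∈ s, g i) ∈ c.Θ := by
  have h1 : ((∑ i ∈ s, f i, ∑ i ∈ s, g i) : U K G × U K G') = ∑ i ∈ s, (f i, g i) :=
    Prod.ext (by rw [Prod.fst_sum]) (by rw [Prod.snd_sum])
  rw [h1]
  exact sum_mem h

theorem glue_vx_mem {H : Set V} {v : V} (hv : v ∈ H) : vx K G v ∈ alg0 K G H :=
  NonUnitalAlgebra.subset_adjoin K (Or.inl ⟨v, hv, rfl⟩)

theorem glue_ed_mem {H : Set V} {e : E} (he : G.s e ∈ H) (hl : G.s e ≠ G.r e) :
    ed K G e ∈ alg0 K G H :=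
  NonUnitalAlgebra.subset_adjoin K (Or.inr ⟨e, he, hl, Or.inl rfl⟩)

/-- the family of a closed isomorphism -/
theorem glue_Fam (c : CP φ) {q : V → U K G'} {u : E → U K G'}
    (hq : ∀ v ∈ c.H, (vx K G v, q v) ∈ c.Θ)
    (hu : ∀ e, G.s e ∈ c.H → G.s e ≠ G.r e → (ed K G e, u e) ∈ c.Θ) : Fam G c.H q u where
  her := c.her
  qs v hv := by
    have h1 := glue_star c (hq v hv)
    rw [star_vx] at h1
    exact glue_uniq c h1 (hq v hv)
  qq v hv := by
    have h1 := glue_mul c (hq v hv) (hq v hv)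
    rw [vx_vx] at h1
    exact glue_uniq c h1 (hq v hv)
  qw v hv w hw hne := by
    have h1 := glue_mul c (hq v hv) (hq w hw)
    rw [vx_vx_of_ne hne] at h1
    exact c.inj _ h1
  su e he hl := by
    have h1 := glue_mul c (hq _ he) (hu e he hl)
    rw [vx_ed] at h1
    exact glue_uniq c h1 (hu e he hl)
  ur e he hl := by
    have h1 := glue_mul c (hu e he hl) (hq _ (c.her e he))
    rw [ed_vx] at h1
    exact glue_uniq c h1 (hu e he hl)
  uu e he hl := by
    have h1 := glue_mul c (glue_star c (hu e he hl)) (hu e he hl)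
    rw [star_ed, gh_ed] at h1
    exact glue_uniq c h1 (hq _ (c.her e he))
  uf e f he hf hle hlf hne := by
    have h1 := glue_mul c (glue_star c (hu e he hle)) (hu f hf hlf)
    rw [star_ed, gh_ed_of_ne hne] at h1
    exact c.inj _ h1
  ck v hv hfin h0 hl := by
    have h1 := glue_sum c hfin.toFinset (fun e => ed K G e * gh K G e)
      (fun e => u e * star (u e)) (by
        intro e he
        have he' : G.s e = v := by simpa using he
        have h2 := hu e (by rw [he']; exact hv) (hl e he')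
        have h3 := glue_mul c h2 (glue_star c h2)
        rw [star_ed] at h3
        exact h3)
    rw [← vx_eq_sum v hfin h0] at h1
    exact glue_uniq c (hq v hv) h1

/-- the union of two orthogonal families -/
theorem glue_union {S S' : Set V} {q : V → U K G'} {u : E → U K G'} (hc : Fam G S q u)
    (hd : Fam G S' q u) (h : ∀ v ∈ S, ∀ w ∈ S', w ∉ S → q v * q w = 0) :
    Fam G (S ∪ S') q u := by
  have hqw : ∀ v ∈ S ∪ S', ∀ w ∈ S ∪ S', v ≠ w → q v * q w = 0 := by
    intro v hv w hw hne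
    by_cases hvS : v ∈ S
    · by_cases hwS : w ∈ S
      · exact hc.qw v hvS w hwS hne
      · exact h v hvS w (hw.resolve_left hwS) hwS
    · have hv' := hv.resolve_left hvS
      by_cases hwS : w ∈ S
      · have h2 := congrArg star (h w hwS v hv' hvS)
        rw [star_mul, star_zero, hd.qs v hv', hc.qs w hwS] at h2
        exact h2
      · exact hd.qw v hv' w (hw.resolve_left hwS) hne
  have hsu : ∀ e, G.s e ∈ S ∪ S' → G.s e ≠ G.r e → q (G.s e) * u e = u e :=
    fun e he hl => he.elim (fun h => hc.su e h hl) (fun h => hd.su e h hl)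
  have hqs : ∀ v ∈ S ∪ S', star (q v) = q v := fun v hv => hv.elim (hc.qs v) (hd.qs v)
  exact {
    her := fun e he => he.elim (fun h => Or.inl (hc.her e h)) (fun h => Or.inr (hd.her e h))
    qs := hqs
    qq := fun v hv => hv.elim (hc.qq v) (hd.qq v)
    qw := hqw
    su := hsu
    ur := fun e he hl => he.elim (fun h => hc.ur e h hl) (fun h => hd.ur e h hl)
    uu := fun e he hl => he.elim (fun h => hc.uu e h hl) (fun h => hd.uu e h hl)
    uf := by
      intro e f he hf hle hlf hne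
      by_cases hs : G.s e = G.s f
      · rcases he with he | he
        · exact hc.uf e f he (hs ▸ he) hle hlf hne
        · exact hd.uf e f he (hs ▸ he) hle hlf hne
      · rw [← hsu e he hle, ← hsu f hf hlf, star_mul, hqs _ he]
        have h0 := hqw _ he _ hf hs
        calc star (u e) * q (G.s e) * (q (G.s f) * u f)
            = star (u e) * (q (G.s e) * q (G.s f)) * u f := by noncomm_ring
          _ = 0 := by rw [h0, mul_zero, zero_mul]
    ck := by
      intro v hv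
      rcases hv with hv | hv
      · exact hc.ck v hv
      · exact hd.ck v hv }

/-- elements over `c.H'` annihilate elements which are annihilated by the vertices of `c.H'` -/
theorem glue_orth (c : CP φ) {x y : U K G'} (hx : x ∈ alg0 K G' c.H')
    (h : ∀ w ∈ c.H', vx K G' w * y = 0) : x * y = 0 := by
  obtain ⟨t, ht, -, h1⟩ := algz_unit c.her' (alg0_le_algz _ hx)
  rw [← h1, mul_assoc, Finset.sum_mul, Finset.sum_eq_zero (fun v hv => h v (ht v hv)), mul_zero]

/-- gap projections -/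
theorem glue_gap (c : CP φ) {q : V → U K G'} {u : E → U K G'}
    (hq : ∀ v ∈ c.H, (vx K G v, q v) ∈ c.Θ)
    (hu : ∀ e, G.s e ∈ c.H → G.s e ≠ G.r e → (ed K G e, u e) ∈ c.Θ) (T : Stage G) {w : V}
    (hw : w ∈ c.H) : (gapU K T w, gapB q u T w) ∈ c.Θ := by
  classical
  unfold gapU gapB
  have h1 := glue_sum c (T.Ft.filter (fun e => G.s e = w))
    (fun e => ed K G e * star (ed K G e)) (fun e => u e * star (u e)) (by
      intro e he
      rw [Finset.mem_filter] at he
      have h2 := hu e (by rw [he.2]; exact hw) (T.nl e he.1)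
      exact glue_mul c h2 (glue_star c h2))
  have h2 : (vx K G w, q w) - (∑ e ∈ T.Ft.filter (fun e => G.s e = w),
      ed K G e * star (ed K G e), ∑ e ∈ T.Ft.filter (fun e => G.s e = w),
      u e * star (u e)) ∈ c.Θ := sub_mem (hq w hw) h1
  rw [Prod.mk_sub_mk] at h2
  convert h2

theorem glue_Gam_mono {S S' : Set V} (h : S ⊆ S') (q : V → U K G') (u : E → U K G') :
    Gam K G S q u ≤ Gam K G S' q u := by
  refine NonUnitalAlgebra.adjoin_mono ?_
  rintro z (⟨v, hv, rfl⟩ | ⟨e, he, hl, hz⟩)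
  · exact Or.inl ⟨v, h hv, rfl⟩
  · exact Or.inr ⟨e, h he, hl, hz⟩

/-- a closed isomorphism is generated by the pairs of generators -/
theorem glue_Gam_eq (c : CP φ) {q : V → U K G'} {u : E → U K G'}
    (hq : ∀ v ∈ c.H, (vx K G v, q v) ∈ c.Θ)
    (hu : ∀ e, G.s e ∈ c.H → G.s e ≠ G.r e → (ed K G e, u e) ∈ c.Θ) :
    Gam K G c.H q u = c.Θ := by
  have h1 : Gam K G c.H q u ≤ c.Θ := by
    refine NonUnitalAlgebra.adjoin_le ?_
    rintro z (⟨v, hv, rfl⟩ | ⟨e, he, hl, rfl | rfl⟩)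
    · exact hq v hv
    · exact hu e he hl
    · have h2 := glue_star c (hu e he hl)
      rw [star_ed] at h2
      exact h2
  refine le_antisymm h1 ?_
  rintro ⟨x, y⟩ hz
  obtain ⟨y', hy'⟩ := Gam_dom (q := q) (u := u) ((c.dom x).2 ⟨y, hz⟩)
  rw [glue_uniq c hz (h1 hy')]
  exact hy'

theorem glue_Gam_sup (c d : CP φ) {q : V → U K G'} {u : E → U K G'}
    (hq : ∀ v ∈ c.H, (vx K G v, q v) ∈ c.Θ)
    (hu : ∀ e, G.s e ∈ c.H → G.s e ≠ G.r e → (ed K G e, u e) ∈ c.Θ)
    (hq' : ∀ v ∈ d.H, (vx K G v, q v) ∈ d.Θ)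
    (hu' : ∀ e, G.s e ∈ d.H → G.s e ≠ G.r e → (ed K G e, u e) ∈ d.Θ) :
    Gam K G (c.H ∪ d.H) q u = c.Θ ⊔ d.Θ := by
  refine le_antisymm ?_ ?_
  · refine NonUnitalAlgebra.adjoin_le ?_
    have hc : c.Θ ≤ c.Θ ⊔ d.Θ := le_sup_left
    have hd : d.Θ ≤ c.Θ ⊔ d.Θ := le_sup_right
    rintro z (⟨v, hv | hv, rfl⟩ | ⟨e, he | he, hl, rfl | rfl⟩)
    · exact hc (hq v hv)
    · exact hd (hq' v hv)
    · exact hc (hu e he hl)
    · have h2 := glue_star c (hu e he hl)
      rw [star_ed] at h2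
      exact hc h2
    · exact hd (hu' e he hl)
    · have h2 := glue_star d (hu' e he hl)
      rw [star_ed] at h2
      exact hd h2
  · refine sup_le ?_ ?_
    · rw [← glue_Gam_eq c hq hu]
      exact glue_Gam_mono Set.subset_union_left q u
    · rw [← glue_Gam_eq d hq' hu']
      exact glue_Gam_mono Set.subset_union_right q u

theorem glue_swap_sup {A B : Type*} [Ring A] [Algebra K A] [Ring B] [Algebra K B]
    (Θ Θ' : NonUnitalSubalgebra K (A × B)) :
    swapSub Θ ⊔ swapSub Θ' = swapSub (Θ ⊔ Θ') := by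
  refine le_antisymm (sup_le ?_ ?_) ?_
  · intro z hz
    exact (le_sup_left : Θ ≤ Θ ⊔ Θ') hz
  · intro z hz
    exact (le_sup_right : Θ' ≤ Θ ⊔ Θ') hz
  · have h : Θ ⊔ Θ' ≤ swapSub (swapSub Θ ⊔ swapSub Θ') := by
      refine sup_le ?_ ?_
      · intro z hz
        exact (le_sup_left : swapSub Θ ≤ swapSub Θ ⊔ swapSub Θ')
          (show (z.swap).swap ∈ Θ by rwa [Prod.swap_swap])
      · intro z hz
        exact (le_sup_right : swapSub Θ' ≤ swapSub Θ ⊔ swapSub Θ')
          (show (z.swap).swap ∈ Θ' by rwa [Prod.swap_swap])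
    intro z hz
    have h2 : z.swap.swap ∈ swapSub Θ ⊔ swapSub Θ' := h hz
    rwa [Prod.swap_swap] at h2

/-- The images of the vertices and of the non-loop edges under `c` (sources in `c.H`) or `d`
(sources in `d.H` outside `c.H`) form a family of standard elements on `c.H ∪ d.H`, with
graph `Gam`; it contains `c.Θ` and `d.Θ`. -/
theorem glue_fam (hG : G.LA) (hG' : G'.LA) (c d : CP φ) (h : Compat c d) :
    ∃ (q : V → U K G') (u : E → U K G'), Fam G (c.H ∪ d.H) q u ∧
      (∀ v ∈ c.H ∪ d.H, Std (q v)) ∧ (∀ e, G.s e ∈ c.H ∪ d.H → G.s e ≠ G.r e → Std (u e)) ∧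
      (∀ v ∈ c.H, (vx K G v, q v) ∈ c.Θ) ∧ (∀ v ∈ d.H, (vx K G v, q v) ∈ d.Θ) ∧
      (∀ e, G.s e ∈ c.H → G.s e ≠ G.r e → (ed K G e, u e) ∈ c.Θ) ∧
      (∀ e, G.s e ∈ d.H → G.s e ≠ G.r e → (ed K G e, u e) ∈ d.Θ) ∧
      (∀ T : Stage G, (∀ v ∈ T.Vt, v ∈ c.H ∪ d.H) → ∀ w ∈ T.Vt,
        RR φ (gapU K T w) (gapB q u T w)) := by
  classical
  have hvc : ∀ v, ∃ y, (v ∈ c.H → (vx K G v, y) ∈ c.Θ) ∧ (v ∈ d.H → (vx K G v, y) ∈ d.Θ) := by
    intro v
    by_cases hd : v ∈ d.H
    · obtain ⟨y, hy⟩ := (d.dom _).1 (glue_vx_mem hd)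
      exact ⟨y, fun hc => h.av v hc hd y hy, fun _ => hy⟩
    · by_cases hc : v ∈ c.H
      · obtain ⟨y, hy⟩ := (c.dom _).1 (glue_vx_mem hc)
        exact ⟨y, fun _ => hy, fun h => absurd h hd⟩
      · exact ⟨0, fun h => absurd h hc, fun h => absurd h hd⟩
  have hec : ∀ e, ∃ y, (G.s e ∈ c.H → G.s e ≠ G.r e → (ed K G e, y) ∈ c.Θ) ∧
      (G.s e ∈ d.H → G.s e ≠ G.r e → (ed K G e, y) ∈ d.Θ) := by
    intro e
    by_cases hl : G.s e = G.r e
    · exact ⟨0, fun _ h => absurd hl h, fun _ h => absurd hl h⟩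
    · by_cases hd : G.s e ∈ d.H
      · obtain ⟨y, hy⟩ := (d.dom _).1 (glue_ed_mem hd hl)
        exact ⟨y, fun hc _ => h.ae e hc hd hl y hy, fun _ _ => hy⟩
      · by_cases hc : G.s e ∈ c.H
        · obtain ⟨y, hy⟩ := (c.dom _).1 (glue_ed_mem hc hl)
          exact ⟨y, fun _ _ => hy, fun h => absurd h hd⟩
        · exact ⟨0, fun h => absurd h hc, fun h => absurd h hd⟩
  choose q hq using hvc
  choose u hu using hec
  have hqc : ∀ v ∈ c.H, (vx K G v, q v) ∈ c.Θ := fun v hv => (hq v).1 hv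
  have hqd : ∀ v ∈ d.H, (vx K G v, q v) ∈ d.Θ := fun v hv => (hq v).2 hv
  have huc : ∀ e, G.s e ∈ c.H → G.s e ≠ G.r e → (ed K G e, u e) ∈ c.Θ := fun e => (hu e).1
  have hud : ∀ e, G.s e ∈ d.H → G.s e ≠ G.r e → (ed K G e, u e) ∈ d.Θ := fun e => (hu e).2
  refine ⟨q, u, ?_, ?_, ?_, hqc, hqd, huc, hud, ?_⟩
  · refine glue_union (glue_Fam c hqc huc) (glue_Fam d hqd hud) ?_
    intro v hv w hw hwc
    exact glue_orth c ((c.ran _).2 ⟨_, hqc v hv⟩) (h.ov w hw hwc _ (hqd w hw))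
  · intro v hv
    rcases hv with hv | hv
    · exact (c.std _ _ (hqc v hv)).1 (Std.of_vx hG v)
    · exact (d.std _ _ (hqd v hv)).1 (Std.of_vx hG v)
  · intro e he hl
    rcases he with he | he
    · exact (c.std _ _ (huc e he hl)).1 (Std.of_ed hG hl)
    · exact (d.std _ _ (hud e he hl)).1 (Std.of_ed hG hl)
  · intro T hT w hw
    rcases hT w hw with hw' | hw'
    · exact c.rr _ _ (glue_gap c hqc huc T hw') (Pr.of_gapU hG T w)
    · exact d.rr _ _ (glue_gap d hqd hud T hw') (Pr.of_gapU hG T w)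

theorem Compat.symm {c d : CP φ} (h : Compat c d) : Compat c.symm d.symm where
  av := h.av'
  ae := h.ae'
  av' := h.av
  ae' := h.ae
  ov := h.ov'
  ov' := h.ov

/-- With `glue_fam` for `φ` and for the inverse: the subalgebra generated by `c.Θ` and `d.Θ` is
contained in `Gam` for `(q, u)` and, swapped, in `Gam` for the family of the inverse. -/
theorem glue (hG : G.LA) (hG' : G'.LA) (c d : CP φ) (h : Compat c d) :
    ∃ e : CP φ, CLe c e ∧ d.H ⊆ e.H := by
  obtain ⟨q, u, hF, hs, hsu, hqc, hqd, huc, hud, hr⟩ := glue_fam hG hG' c d h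
  obtain ⟨q', u', hF', hs', hsu', hqc', hqd', huc', hud', hr'⟩ :=
    glue_fam hG' hG c.symm d.symm h.symm
  have hΓ : Gam K G (c.H ∪ d.H) q u = c.Θ ⊔ d.Θ := glue_Gam_sup c d hqc huc hqd hud
  have hΓ' : Gam K G' (c.H' ∪ d.H') q' u' = swapSub (c.Θ ⊔ d.Θ) := by
    rw [← glue_swap_sup]
    exact glue_Gam_sup c.symm d.symm hqc' huc' hqd' hud'
  have hmem : ∀ x y, (x, y) ∈ Gam K G (c.H ∪ d.H) q u ↔
      (y, x) ∈ Gam K G' (c.H' ∪ d.H') q' u' := by
    intro x y
    rw [hΓ, hΓ']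
    exact Iff.rfl
  have hher : ∀ e, G.s e ∈ c.H ∪ d.H → G.r e ∈ c.H ∪ d.H := hF.her
  have hher' : ∀ e, G'.s e ∈ c.H' ∪ d.H' → G'.r e ∈ c.H' ∪ d.H' := hF'.her
  let e : CP φ :=
    { H := c.H ∪ d.H
      H' := c.H' ∪ d.H'
      Θ := Gam K G (c.H ∪ d.H) q u
      her := hher
      her' := hher'
      st := fun z hz => Gam_star hF hz
      dom := fun x => ⟨fun hx => Gam_dom hx, fun ⟨_, hy⟩ => Gam_fst hy⟩
      ran := fun y => ⟨fun hy => by
          obtain ⟨x, hx⟩ := Gam_dom (q := q') (u := u') hy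
          exact ⟨x, (hmem x y).2 hx⟩, fun ⟨x, hx⟩ => Gam_fst ((hmem x y).1 hx)⟩
      inj := fun y hy => Gam_inj hG hF hy
      inj' := fun x hx => Gam_inj hG' hF' ((hmem x 0).1 hx)
      std := fun x y hxy => ⟨fun hx => Gam_std hG hG' hF hs hsu hxy hx,
        fun hy => Gam_std hG' hG hF' hs' hsu' ((hmem x y).1 hxy) hy⟩
      rr := fun p r hpr hp => Gam_rr hG hG' hF hs hsu hr hpr hp
      phi := fun x hx => phi_of_vx hG hG' φ hher hher' (by
        intro v hv
        rcases hv with hv | hv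
        · exact algz_mono Set.subset_union_left
            (c.phi _ (alg0_le_algz _ (glue_vx_mem hv)))
        · exact algz_mono Set.subset_union_right
            (d.phi _ (alg0_le_algz _ (glue_vx_mem hv)))) hx
      phi' := fun y hy => phi_of_vx hG' hG φ.symm hher' hher (by
        intro v hv
        rcases hv with hv | hv
        · exact algz_mono Set.subset_union_left
            (c.phi' _ (alg0_le_algz _ (glue_vx_mem hv)))
        · exact algz_mono Set.subset_union_right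
            (d.phi' _ (alg0_le_algz _ (glue_vx_mem hv)))) hy }
  refine ⟨e, ⟨Set.subset_union_left, Set.subset_union_left, ?_⟩, Set.subset_union_right⟩
  change c.Θ ≤ Gam K G (c.H ∪ d.H) q u
  rw [hΓ]
  exact le_sup_left

end Pool.Agent.Helper32.LV
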