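import Pool.Agent.Helper32.LV.Dec
import Pool.Agent.Helper32.LV.Mat

/-! Idempotents of the Leavitt path algebra up to equivalence. PIECE 7.

With `Coord`, `dec_sum`, `dec_ne` an element of `Zspan K G T` is a family (over the vertices `w` of
the stage that are not full) of matrices over the ring `R_w`, indexed by the `α ∈ Psi T` with
`tg G α = w`; the products are products of matrices, and `mU K T α α` is the diagonal matrix unit
(`θ 1 = gapU K T w`). Then use `idem_diag` and `diag_card` for each `w`. -/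

set_option autoImplicit false

universe k a b

namespace Pool.Agent.Helper32.LV

variable {V : Type a} {E : Type b} {K : Type k} [Field K] [StarRing K] {G : Gr V E}

instance idem_cr {T : Stage G} {w : V} (c : Coord K T w) : CommRing c.R := c.cr
instance idem_dom {T : Stage G} {w : V} (c : Coord K T w) : IsDomain c.R := c.dom
instance idem_pid {T : Stage G} {w : V} (c : Coord K T w) : IsPrincipalIdealRing c.R := c.pid

/-- the coordinate map as an additive homomorphism -/
noncomputable def Coord.hom {T : Stage G} {w : V} (c : Coord K T w) : c.R →+ U K G :=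
  AddMonoidHom.mk' c.θ c.add

theorem Coord.hom_apply {T : Stage G} {w : V} (c : Coord K T w) (r : c.R) : c.hom r = c.θ r := rfl

theorem Coord.hom_mul {T : Stage G} {w : V} (c : Coord K T w) (r s : c.R) :
    c.hom (r * s) = c.hom r * c.hom s := c.mul r s

theorem Coord.hom_one {T : Stage G} {w : V} (c : Coord K T w) : c.hom 1 = gapU K T w := c.one

/-- the element of a matrix over the coordinate ring -/
noncomputable def idemOf {T : Stage G} {w : V} (c : Coord K T w) (A : Finset (V × List E))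
    (M : Matrix A A c.R) : U K G :=
  ∑ α : A, ∑ β : A, aU K T α.1 * c.hom (M α β) * star (aU K T β.1)

theorem idemOf_sub {T : Stage G} {w : V} (c : Coord K T w) (A : Finset (V × List E))
    (M N : Matrix A A c.R) : idemOf c A (M - N) = idemOf c A M - idemOf c A N := by
  unfold idemOf
  rw [← Finset.sum_sub_distrib]
  refine Finset.sum_congr rfl fun α _ => ?_
  rw [← Finset.sum_sub_distrib]
  refine Finset.sum_congr rfl fun β _ => ?_
  rw [Matrix.sub_apply, map_sub, mul_sub, sub_mul]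

theorem idemOf_mem {T : Stage G} {w : V} (c : Coord K T w) (A : Finset (V × List E))
    (M : Matrix A A c.R) : idemOf c A M ∈ L K G := by
  unfold idemOf
  refine (L K G).sum_mem fun α _ => (L K G).sum_mem fun β _ => ?_
  exact (L K G).mul_mem ((L K G).mul_mem (aU_mem T _) (c.mem _)) (star_mem_L (aU_mem T _))

open Classical in
theorem idemOf_mul {T : Stage G} {w : V} (c : Coord K T w) (A : Finset (V × List E))
    (hA : ∀ α ∈ A, α ∈ Psi T ∧ tg G α = w) (M N : Matrix A A c.R) :
    idemOf c A M * idemOf c A N = idemOf c A (M * N) := by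
  unfold idemOf
  rw [Finset.sum_mul]
  refine Finset.sum_congr rfl fun α _ => ?_
  rw [Finset.sum_mul]
  have key : ∀ β : A, aU K T α.1 * c.hom (M α β) * star (aU K T β.1) *
      (∑ γ : A, ∑ δ : A, aU K T γ.1 * c.hom (N γ δ) * star (aU K T δ.1)) =
      ∑ δ : A, aU K T α.1 * c.hom (M α β * N β δ) * star (aU K T δ.1) := by
    intro β
    rw [Finset.mul_sum, Finset.sum_eq_single β]
    · rw [Finset.mul_sum]
      refine Finset.sum_congr rfl fun δ _ => ?_
      calc aU K T α.1 * c.hom (M α β) * star (aU K T β.1) *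
            (aU K T β.1 * c.hom (N β δ) * star (aU K T δ.1))
          = aU K T α.1 * (c.hom (M α β) * (star (aU K T β.1) * aU K T β.1) * c.hom (N β δ)) *
              star (aU K T δ.1) := by noncomm_ring
        _ = _ := by
          rw [aU_star_aU_self (hA β.1 β.2).1, (hA β.1 β.2).2, ← c.hom_one, ← c.hom_mul, mul_one,
            ← c.hom_mul]
    · intro γ _ hne
      rw [Finset.mul_sum]
      refine Finset.sum_eq_zero fun δ _ => ?_
      have hne' : β.1 ≠ γ.1 := fun h => hne (Subtype.ext h.symm)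
      calc aU K T α.1 * c.hom (M α β) * star (aU K T β.1) *
            (aU K T γ.1 * c.hom (N γ δ) * star (aU K T δ.1))
          = aU K T α.1 * (c.hom (M α β) * (star (aU K T β.1) * aU K T γ.1) * c.hom (N γ δ)) *
              star (aU K T δ.1) := by noncomm_ring
        _ = _ := by
          rw [aU_star_aU_ne (hA β.1 β.2).1 (hA γ.1 γ.2).1 hne']
          simp
    · intro h
      exact absurd (Finset.mem_univ β) h
  rw [Finset.sum_congr rfl fun β _ => key β, Finset.sum_comm]
  refine Finset.sum_congr rfl fun δ _ => ?_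
  rw [← Finset.sum_mul, ← Finset.mul_sum, ← map_sum, Matrix.mul_apply]

open Classical in
theorem idemOf_diag {T : Stage G} {w : V} (c : Coord K T w) (A : Finset (V × List E))
    (hA : ∀ α ∈ A, α ∈ Psi T ∧ tg G α = w) (S : Finset A) :
    idemOf c A (Matrix.diagonal (fun i => if i ∈ S then 1 else 0)) =
      ∑ α ∈ S.map (Function.Embedding.subtype _), mU K T α α := by
  rw [Finset.sum_map]
  unfold idemOf
  rw [← Finset.sum_filter_add_sum_filter_not Finset.univ (fun i => i ∈ S)
    (fun α : A => ∑ β : A, aU K T α.1 * c.hom (Matrix.diagonal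
      (fun i => if i ∈ S then (1 : c.R) else 0) α β) * star (aU K T β.1))]
  have h2 : ∑ α ∈ Finset.univ.filter (fun i => ¬ i ∈ S), ∑ β : A, aU K T α.1 *
      c.hom (Matrix.diagonal (fun i => if i ∈ S then (1 : c.R) else 0) α β) *
      star (aU K T β.1) = 0 := by
    refine Finset.sum_eq_zero fun α hα => Finset.sum_eq_zero fun β _ => ?_
    have hα' := (Finset.mem_filter.mp hα).2
    by_cases h : α = β
    · subst h
      rw [Matrix.diagonal_apply_eq, if_neg hα', map_zero, mul_zero, zero_mul]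
    · rw [Matrix.diagonal_apply_ne _ h, map_zero, mul_zero, zero_mul]
  rw [h2, add_zero, Finset.filter_mem_eq_inter, Finset.univ_inter]
  refine Finset.sum_congr rfl fun α hα => ?_
  rw [Finset.sum_eq_single α]
  · rw [Matrix.diagonal_apply_eq, if_pos hα, c.hom_one, ← (hA α.1 α.2).2, aU_gapU (hA α.1 α.2).1]
    rfl
  · intro β _ hne
    rw [Matrix.diagonal_apply_ne _ hne.symm, map_zero, mul_zero, zero_mul]
  · intro h
    exact absurd (Finset.mem_univ α) h

open Classical in
theorem idemOf_one {T : Stage G} {w : V} (c : Coord K T w) (A : Finset (V × List E))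
    (hA : ∀ α ∈ A, α ∈ Psi T ∧ tg G α = w) :
    idemOf c A 1 = ∑ α ∈ A, mU K T α α := by
  have h := idemOf_diag c A hA Finset.univ
  have h1 : (Matrix.diagonal (fun i => if i ∈ (Finset.univ : Finset A) then (1 : c.R) else 0)) =
      1 := by
    rw [← Matrix.diagonal_one]
    congr 1
    funext i
    rw [if_pos (Finset.mem_univ i)]
  rw [h1] at h
  rw [h, Finset.sum_map]
  exact Finset.sum_coe_sort A (fun α => mU K T α α)

open Classical in
theorem idemOf_apply {T : Stage G} {w : V} (c : Coord K T w) (A : Finset (V × List E))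
    (hA : ∀ α ∈ A, α ∈ Psi T ∧ tg G α = w) (M : Matrix A A c.R) (α β : A) :
    star (aU K T α.1) * idemOf c A M * aU K T β.1 = c.hom (M α β) := by
  unfold idemOf
  rw [Finset.mul_sum, Finset.sum_mul, Finset.sum_eq_single α]
  · rw [Finset.mul_sum, Finset.sum_mul, Finset.sum_eq_single β]
    · calc star (aU K T α.1) * (aU K T α.1 * c.hom (M α β) * star (aU K T β.1)) * aU K T β.1
          = (star (aU K T α.1) * aU K T α.1) * c.hom (M α β) *
              (star (aU K T β.1) * aU K T β.1) := by noncomm_ring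
        _ = _ := by
          rw [aU_star_aU_self (hA α.1 α.2).1, aU_star_aU_self (hA β.1 β.2).1, (hA α.1 α.2).2,
            (hA β.1 β.2).2, ← c.hom_one, ← c.hom_mul, ← c.hom_mul, one_mul, mul_one]
    · intro γ _ hne
      have hne' : γ.1 ≠ β.1 := fun h => hne (Subtype.ext h)
      calc star (aU K T α.1) * (aU K T α.1 * c.hom (M α γ) * star (aU K T γ.1)) * aU K T β.1
          = (star (aU K T α.1) * aU K T α.1) * c.hom (M α γ) *
              (star (aU K T γ.1) * aU K T β.1) := by noncomm_ring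
        _ = _ := by rw [aU_star_aU_ne (hA γ.1 γ.2).1 (hA β.1 β.2).1 hne', mul_zero]
    · intro h
      exact absurd (Finset.mem_univ β) h
  · intro γ _ hne
    have hne' : α.1 ≠ γ.1 := fun h => hne (Subtype.ext h.symm)
    rw [Finset.mul_sum, Finset.sum_mul]
    refine Finset.sum_eq_zero fun δ _ => ?_
    calc star (aU K T α.1) * (aU K T γ.1 * c.hom (M γ δ) * star (aU K T δ.1)) * aU K T β.1
        = (star (aU K T α.1) * aU K T γ.1) * c.hom (M γ δ) *
            (star (aU K T δ.1) * aU K T β.1) := by noncomm_ring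
      _ = _ := by rw [aU_star_aU_ne (hA α.1 α.2).1 (hA γ.1 γ.2).1 hne', zero_mul, zero_mul]
  · intro h
    exact absurd (Finset.mem_univ α) h

theorem idem_coord {T : Stage G} {w : V} (c : Coord K T w) (A : Finset (V × List E))
    (hA : ∀ α ∈ A, α ∈ Psi T ∧ tg G α = w) {x : U K G} (hx : x ∈ Zspan K G T) :
    ∃ M : Matrix A A c.R, ∀ α β : A, star (aU K T α.1) * x * aU K T β.1 = c.hom (M α β) := by
  have h : ∀ α β : A, ∃ r : c.R, star (aU K T α.1) * x * aU K T β.1 = c.hom r := fun α β =>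
    c.coord x hx α.1 (hA α.1 α.2).1 β.1 (hA β.1 β.2).1 (hA α.1 α.2).2 (hA β.1 β.2).2
  choose M hM using h
  exact ⟨Matrix.of M, hM⟩

/-- multiplication by two sums of diagonal matrix units -/
theorem idem_sand {T : Stage G} (A B : Finset (V × List E)) (x : U K G) :
    (∑ α ∈ A, mU K T α α) * x * (∑ β ∈ B, mU K T β β) =
      ∑ α ∈ A, ∑ β ∈ B, aU K T α * (star (aU K T α) * x * aU K T β) * star (aU K T β) := by
  rw [Finset.sum_mul, Finset.sum_mul]
  refine Finset.sum_congr rfl fun α _ => ?_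
  rw [Finset.mul_sum]
  refine Finset.sum_congr rfl fun β _ => ?_
  rw [mU, mU]
  noncomm_ring

theorem idemOf_eq {T : Stage G} {w : V} (c : Coord K T w) (A : Finset (V × List E))
    {x : U K G} (h1 : (∑ α ∈ A, mU K T α α) * x = x) (h2 : x * (∑ α ∈ A, mU K T α α) = x)
    (M : Matrix A A c.R)
    (hM : ∀ α β : A, star (aU K T α.1) * x * aU K T β.1 = c.hom (M α β)) :
    x = idemOf c A M := by
  have h3 : x = (∑ α ∈ A, mU K T α α) * x * (∑ β ∈ A, mU K T β β) := by rw [h1, h2]
  rw [idem_sand] at h3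
  rw [h3]
  unfold idemOf
  rw [← Finset.sum_coe_sort A]
  refine Finset.sum_congr rfl fun α _ => ?_
  rw [← Finset.sum_coe_sort A]
  refine Finset.sum_congr rfl fun β _ => ?_
  rw [hM]

open Classical in
/-- diagonalisation at one vertex -/
theorem idem_one_vertex (hG : G.LA) {T : Stage G} {w : V} (hw : ¬ Full T w)
    (A : Finset (V × List E)) (hA : ∀ α ∈ A, α ∈ Psi T ∧ tg G α = w) {e : U K G}
    (he : e ∈ Zspan K G T) (hi : e * e = e) (h1 : (∑ α ∈ A, mU K T α α) * e = e)
    (h2 : e * (∑ α ∈ A, mU K T α α) = e) :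
    ∃ S : Finset (V × List E), S ⊆ A ∧ ∃ x y x' y' : U K G,
      (x ∈ L K G ∧ y ∈ L K G ∧ x' ∈ L K G ∧ y' ∈ L K G) ∧
      (x * y = e ∧ y * x = ∑ α ∈ S, mU K T α α) ∧
      (x' * y' = (∑ α ∈ A, mU K T α α) - e ∧
        y' * x' = (∑ α ∈ A, mU K T α α) - ∑ α ∈ S, mU K T α α) ∧
      (x * (∑ α ∈ A, mU K T α α) = x ∧ (∑ α ∈ A, mU K T α α) * x = x) ∧
      (y * (∑ α ∈ A, mU K T α α) = y ∧ (∑ α ∈ A, mU K T α α) * y = y) ∧
      (x' * (∑ α ∈ A, mU K T α α) = x' ∧ (∑ α ∈ A, mU K T α α) * x' = x') ∧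
      (y' * (∑ α ∈ A, mU K T α α) = y' ∧ (∑ α ∈ A, mU K T α α) * y' = y') := by
  obtain ⟨c⟩ := exists_coord (K := K) hG T hw
  obtain ⟨M, hM⟩ := idem_coord c A hA he
  have heM := idemOf_eq c A h1 h2 M hM
  have hMM : M * M = M := by
    funext α β
    apply c.inj
    rw [← c.hom_apply, ← c.hom_apply, ← idemOf_apply c A hA (M * M), ← idemOf_mul c A hA, ← heM,
      hi, hM]
  obtain ⟨S, ⟨X, Y, hXY, hYX⟩, X', Y', hXY', hYX'⟩ := idem_diag M hMM
  have hone := idemOf_one c A hA
  have hl : ∀ Z : Matrix A A c.R, idemOf c A Z * (∑ α ∈ A, mU K T α α) = idemOf c A Z := by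
    intro Z
    rw [← hone, idemOf_mul c A hA, mul_one]
  have hr : ∀ Z : Matrix A A c.R, (∑ α ∈ A, mU K T α α) * idemOf c A Z = idemOf c A Z := by
    intro Z
    rw [← hone, idemOf_mul c A hA, one_mul]
  refine ⟨S.map (Function.Embedding.subtype _), ?_, idemOf c A X, idemOf c A Y, idemOf c A X',
    idemOf c A Y', ⟨idemOf_mem c A X, idemOf_mem c A Y, idemOf_mem c A X', idemOf_mem c A Y'⟩,
    ⟨?_, ?_⟩, ⟨?_, ?_⟩, ⟨hl _, hr _⟩, ⟨hl _, hr _⟩, ⟨hl _, hr _⟩, ⟨hl _, hr _⟩⟩
  · intro α hα
    obtain ⟨β, -, rfl⟩ := Finset.mem_map.mp hα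
    exact β.2
  · rw [idemOf_mul c A hA, hXY, ← heM]
  · rw [idemOf_mul c A hA, hYX, idemOf_diag c A hA]
  · rw [idemOf_mul c A hA, hXY', idemOf_sub, hone, ← heM]
  · rw [idemOf_mul c A hA, hYX', idemOf_sub, hone, idemOf_diag c A hA]

open Classical in
/-- equivalent sums of matrix units have the same number of indices over every vertex -/
theorem card_eq (hG : G.LA) {T : Stage G} (A B : Finset (V × List E))
    (hA : ∀ α ∈ A, α ∈ Psi T) (hB : ∀ α ∈ B, α ∈ Psi T) {x y : U K G}
    (hx : x ∈ Zspan K G T) (hy : y ∈ Zspan K G T) (h1 : x * y = ∑ α ∈ A, mU K T α α)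
    (h2 : y * x = ∑ α ∈ B, mU K T α α) (w : V) :
    (A.filter fun α => tg G α = w).card = (B.filter fun α => tg G α = w).card := by
  by_cases hw : Full T w
  · have hA' : A.filter (fun α => tg G α = w) = ∅ := by
      rw [Finset.filter_eq_empty_iff]
      intro α hα h
      exact tgt_not_full (hA α hα) (h ▸ hw)
    have hB' : B.filter (fun α => tg G α = w) = ∅ := by
      rw [Finset.filter_eq_empty_iff]
      intro α hα h
      exact tgt_not_full (hB α hα) (h ▸ hw)
    rw [hA', hB']
  obtain ⟨c⟩ := exists_coord (K := K) hG T hw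
  set I := (PsiF T).filter (fun α => tg G α = w) with hI
  have hIm : ∀ α ∈ I, α ∈ Psi T ∧ tg G α = w := by
    intro α hα
    have := Finset.mem_filter.mp hα
    exact ⟨(mem_PsiF hG).mp this.1, this.2⟩
  -- products of coordinates
  have hprod : ∀ {x y : U K G}, x ∈ Zspan K G T → y ∈ Zspan K G T →
      ∀ M N : Matrix I I c.R, (∀ α β : I, star (aU K T α.1) * x * aU K T β.1 = c.hom (M α β)) →
      (∀ α β : I, star (aU K T α.1) * y * aU K T β.1 = c.hom (N α β)) →
      ∀ α β : I, star (aU K T α.1) * (x * y) * aU K T β.1 = c.hom ((M * N) α β) := by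
    intro x y hx hy M N hM hN α β
    have e1 : star (aU K T α.1) * (x * y) * aU K T β.1 =
        ∑ γ ∈ PsiF T, (star (aU K T α.1) * x * aU K T γ) * (star (aU K T γ) * y * aU K T β.1) := by
      have e2 : x * y = ∑ γ ∈ PsiF T, x * mU K T γ γ * y := by
        rw [← Finset.sum_mul, ← Finset.mul_sum, (Zspan_unit hG hx).2]
      rw [e2, Finset.mul_sum, Finset.sum_mul]
      refine Finset.sum_congr rfl fun γ _ => ?_
      rw [mU]
      noncomm_ring
    rw [e1, ← Finset.sum_filter_add_sum_filter_not (PsiF T) (fun γ => tg G γ = w)]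
    have e3 : ∑ γ ∈ (PsiF T).filter (fun γ => ¬ tg G γ = w),
        (star (aU K T α.1) * x * aU K T γ) * (star (aU K T γ) * y * aU K T β.1) = 0 := by
      refine Finset.sum_eq_zero fun γ hγ => ?_
      have hγ' := Finset.mem_filter.mp hγ
      rw [dec_ne hG hx (hIm α.1 α.2).1 ((mem_PsiF hG).mp hγ'.1)
        (by rw [(hIm α.1 α.2).2]; exact fun h => hγ'.2 h.symm), zero_mul]
    rw [e3, add_zero, ← hI, ← Finset.sum_coe_sort I, Matrix.mul_apply, map_sum]
    refine Finset.sum_congr rfl fun γ _ => ?_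
    rw [hM, hN, c.hom_mul]
  -- coordinates of a sum of matrix units
  have hdiag : ∀ C : Finset (V × List E), (∀ α ∈ C, α ∈ Psi T) → ∀ α β : I,
      star (aU K T α.1) * (∑ γ ∈ C, mU K T γ γ) * aU K T β.1 =
        c.hom (Matrix.diagonal (fun i : I =>
          if i ∈ Finset.univ.filter (fun i : I => i.1 ∈ C) then (1 : c.R) else 0) α β) := by
    intro C hC α β
    have e1 : star (aU K T α.1) * (∑ γ ∈ C, mU K T γ γ) * aU K T β.1 =
        ∑ γ ∈ C, (star (aU K T α.1) * aU K T γ) * (star (aU K T γ) * aU K T β.1) := by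
      rw [Finset.mul_sum, Finset.sum_mul]
      refine Finset.sum_congr rfl fun γ _ => ?_
      rw [mU]
      noncomm_ring
    rw [e1]
    by_cases hαβ : α = β
    · subst hαβ
      rw [Matrix.diagonal_apply_eq]
      by_cases hαC : α.1 ∈ C
      · have hmem : α ∈ Finset.univ.filter (fun i : I => i.1 ∈ C) :=
          Finset.mem_filter.mpr ⟨Finset.mem_univ α, hαC⟩
        rw [if_pos hmem, c.hom_one, Finset.sum_eq_single α.1]
        · rw [aU_star_aU_self (hIm α.1 α.2).1, (hIm α.1 α.2).2, gapU_idem]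
        · intro γ hγ hne
          rw [aU_star_aU_ne (hIm α.1 α.2).1 (hC γ hγ) hne.symm, zero_mul]
        · intro h
          exact absurd hαC h
      · have hmem : α ∉ Finset.univ.filter (fun i : I => i.1 ∈ C) := fun h =>
          hαC (Finset.mem_filter.mp h).2
        rw [if_neg hmem, map_zero]
        refine Finset.sum_eq_zero fun γ hγ => ?_
        have hne : α.1 ≠ γ := fun h => hαC (h ▸ hγ)
        rw [aU_star_aU_ne (hIm α.1 α.2).1 (hC γ hγ) hne, zero_mul]
    · rw [Matrix.diagonal_apply_ne _ hαβ, map_zero]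
      refine Finset.sum_eq_zero fun γ hγ => ?_
      by_cases h : α.1 = γ
      · have hne : γ ≠ β.1 := fun h' => hαβ (Subtype.ext (h.trans h'))
        rw [aU_star_aU_ne (hC γ hγ) (hIm β.1 β.2).1 hne, mul_zero]
      · rw [aU_star_aU_ne (hIm α.1 α.2).1 (hC γ hγ) h, zero_mul]
  obtain ⟨M, hM⟩ := idem_coord c I hIm hx
  obtain ⟨N, hN⟩ := idem_coord c I hIm hy
  have hMN : M * N = Matrix.diagonal (fun i : I =>
      if i ∈ Finset.univ.filter (fun i : I => i.1 ∈ A) then (1 : c.R) else 0) := by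
    funext α β
    apply c.inj
    rw [← c.hom_apply, ← c.hom_apply, ← hdiag A hA, ← h1, hprod hx hy M N hM hN]
  have hNM : N * M = Matrix.diagonal (fun i : I =>
      if i ∈ Finset.univ.filter (fun i : I => i.1 ∈ B) then (1 : c.R) else 0) := by
    funext α β
    apply c.inj
    rw [← c.hom_apply, ← c.hom_apply, ← hdiag B hB, ← h2, hprod hy hx N M hN hM]
  have hcard := diag_card _ _ M N hMN hNM
  have hcc : ∀ C : Finset (V × List E), (∀ α ∈ C, α ∈ Psi T) →
      (Finset.univ.filter (fun i : I => i.1 ∈ C)).card = (C.filter fun α => tg G α = w).card := by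
    intro C hC
    refine Finset.card_bij (fun i _ => i.1) ?_ ?_ ?_
    · intro i hi
      exact Finset.mem_filter.mpr ⟨(Finset.mem_filter.mp hi).2, (hIm i.1 i.2).2⟩
    · intro i _ j _ h
      exact Subtype.ext h
    · intro α hα
      have hα' := Finset.mem_filter.mp hα
      exact ⟨⟨α, Finset.mem_filter.mpr ⟨(mem_PsiF hG).mpr (hC α hα'.1), hα'.2⟩⟩,
        Finset.mem_filter.mpr ⟨Finset.mem_univ _, hα'.1⟩, rfl⟩
  rw [← hcc A hA, ← hcc B hB, hcard]

open Classical in
/-- the converse: a bijection gives a standard element -/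
theorem std_of_card (hG : G.LA) {T : Stage G} (A B : Finset (V × List E))
    (hA : ∀ α ∈ A, α ∈ Psi T) (hB : ∀ α ∈ B, α ∈ Psi T)
    (h : ∀ w, (A.filter fun α => tg G α = w).card = (B.filter fun α => tg G α = w).card) :
    ∃ s : U K G, StdAt T s ∧ s * star s = ∑ α ∈ A, mU K T α α ∧
      star s * s = ∑ α ∈ B, mU K T α α := by
  -- a bijection
  let e : ∀ w : V, {x // x ∈ A.filter fun α => tg G α = w} ≃
      {x // x ∈ B.filter fun α => tg G α = w} := fun w => Finset.equivOfCardEq (h w)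
  have hmA : ∀ α (hα : α ∈ A), α ∈ A.filter fun β => tg G β = tg G α := fun α hα =>
    Finset.mem_filter.mpr ⟨hα, rfl⟩
  let f : {x // x ∈ A} → V × List E := fun α => (e (tg G α.1) ⟨α.1, hmA α.1 α.2⟩).1
  have hf : ∀ α : {x // x ∈ A}, f α ∈ B ∧ tg G (f α) = tg G α.1 := fun α =>
    Finset.mem_filter.mp (e (tg G α.1) ⟨α.1, hmA α.1 α.2⟩).2
  have hinj : ∀ α β : {x // x ∈ A}, f α = f β → α = β := by
    rintro ⟨α, hα⟩ ⟨β, hβ⟩ hαβ
    have htg : tg G α = tg G β := by
      have h1 := (hf ⟨α, hα⟩).2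
      have h2 := (hf ⟨β, hβ⟩).2
      rw [hαβ] at h1
      exact h1.symm.trans h2
    have h3 : ∀ (w : V) (h1 : α ∈ A.filter fun γ => tg G γ = w)
        (h2 : β ∈ A.filter fun γ => tg G γ = w), (e w ⟨α, h1⟩).1 = (e w ⟨β, h2⟩).1 → α = β := by
      intro w h1 h2 h4
      have := (e w).injective (Subtype.ext h4)
      exact congrArg Subtype.val this
    have h5 : ∀ (w w' : V) (hww : w = w') (h1 : β ∈ A.filter fun γ => tg G γ = w)
        (h2 : β ∈ A.filter fun γ => tg G γ = w'), (e w ⟨β, h1⟩).1 = (e w' ⟨β, h2⟩).1 := by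
      intro w w' hww h1 h2
      subst hww
      rfl
    have h6 : β ∈ A.filter fun γ => tg G γ = tg G α := Finset.mem_filter.mpr ⟨hβ, htg.symm⟩
    apply Subtype.ext
    exact h3 (tg G α) (hmA α hα) h6 (hαβ.trans (h5 _ _ htg.symm (hmA β hβ) h6))
  have hsurj : ∀ β ∈ B, ∃ α : {x // x ∈ A}, f α = β := by
    intro β hβ
    have hmB : β ∈ B.filter fun γ => tg G γ = tg G β := Finset.mem_filter.mpr ⟨hβ, rfl⟩
    set α := (e (tg G β)).symm ⟨β, hmB⟩ with hα
    have hα2 := Finset.mem_filter.mp α.2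
    refine ⟨⟨α.1, hα2.1⟩, ?_⟩
    have h5 : ∀ (w w' : V) (hww : w = w') (h1 : α.1 ∈ A.filter fun γ => tg G γ = w)
        (h2 : α.1 ∈ A.filter fun γ => tg G γ = w'), (e w ⟨α.1, h1⟩).1 = (e w' ⟨α.1, h2⟩).1 := by
      intro w w' hww h1 h2
      subst hww
      rfl
    have h6 := h5 (tg G α.1) (tg G β) hα2.2 (hmA α.1 hα2.1) α.2
    change (e (tg G α.1) ⟨α.1, hmA α.1 hα2.1⟩).1 = β
    rw [h6]
    have : (e (tg G β)) α = ⟨β, hmB⟩ := by rw [hα, Equiv.apply_symm_apply]
    exact congrArg Subtype.val this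
  set P : Finset ((V × List E) × (V × List E)) :=
    Finset.univ.image (fun α : {x // x ∈ A} => (α.1, f α)) with hP
  have hmP : ∀ p ∈ P, ∃ α : {x // x ∈ A}, (α.1, f α) = p := by
    intro p hp
    obtain ⟨α, -, h1⟩ := Finset.mem_image.mp hp
    exact ⟨α, h1⟩
  have hP1 : ∀ p ∈ P, p.1 ∈ Psi T ∧ p.2 ∈ Psi T ∧ tg G p.1 = tg G p.2 := by
    intro p hp
    obtain ⟨α, rfl⟩ := hmP p hp
    exact ⟨hA α.1 α.2, hB _ (hf α).1, (hf α).2.symm⟩
  have hP2 : ∀ p ∈ P, ∀ p' ∈ P, p.1 = p'.1 ↔ p.2 = p'.2 := by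
    intro p hp p' hp'
    obtain ⟨α, rfl⟩ := hmP p hp
    obtain ⟨β, rfl⟩ := hmP p' hp'
    constructor
    · intro h1
      have : α = β := Subtype.ext h1
      rw [this]
    · intro h1
      have : α = β := hinj α β h1
      rw [this]
  have hsumP : ∀ g : (V × List E) × (V × List E) → U K G,
      ∑ p ∈ P, g p = ∑ α : {x // x ∈ A}, g (α.1, f α) := by
    intro g
    rw [hP, Finset.sum_image]
    intro α _ β _ h1
    exact Subtype.ext (congrArg Prod.fst h1)
  refine ⟨∑ p ∈ P, mU K T p.1 p.2, ⟨P, hP1, hP2, rfl⟩, ?_, ?_⟩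
  · rw [star_sum, hsumP, hsumP, Finset.sum_mul]
    have h1 : ∀ α : {x // x ∈ A}, mU K T α.1 (f α) * (∑ β : {x // x ∈ A},
        star (mU K T β.1 (f β))) = mU K T α.1 α.1 := by
      intro α
      rw [Finset.mul_sum, Finset.sum_eq_single α]
      · rw [mU_star, mU_mul_same (hA α.1 α.2) (hB _ (hf α).1) (hf α).2.symm]
      · intro β _ hne
        rw [mU_star, mU_mul_ne (hB _ (hf α).1) (hB _ (hf β).1) (fun h1 => hne (hinj α β h1).symm)]
      · intro h1
        exact absurd (Finset.mem_univ α) h1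
    rw [Finset.sum_congr rfl fun α _ => h1 α]
    exact Finset.sum_coe_sort A (fun α => mU K T α α)
  · rw [star_sum, hsumP, hsumP, Finset.sum_mul]
    have h1 : ∀ α : {x // x ∈ A}, star (mU K T α.1 (f α)) * (∑ β : {x // x ∈ A},
        mU K T β.1 (f β)) = mU K T (f α) (f α) := by
      intro α
      rw [Finset.mul_sum, Finset.sum_eq_single α]
      · rw [mU_star, mU_mul_same (hB _ (hf α).1) (hA α.1 α.2) (hf α).2]
      · intro β _ hne
        rw [mU_star, mU_mul_ne (hA α.1 α.2) (hA β.1 β.2)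
          (fun h1 => hne (Subtype.ext h1.symm))]
      · intro h1
        exact absurd (Finset.mem_univ α) h1
    rw [Finset.sum_congr rfl fun α _ => h1 α]
    refine Finset.sum_bij (fun α _ => f α) (fun α _ => (hf α).1) (fun α _ β _ h1 => hinj α β h1)
      (fun β hβ => ?_) (fun α _ => rfl)
    obtain ⟨α, h1⟩ := hsurj β hβ
    exact ⟨α, Finset.mem_univ _, h1⟩

/-- product of two orthogonal sums -/
theorem idem_sum_mul (W : Finset V) (u x y : V → U K G)
    (hu : ∀ w ∈ W, ∀ w' ∈ W, w ≠ w' → u w * u w' = 0) (hx : ∀ w ∈ W, x w * u w = x w)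
    (hy : ∀ w ∈ W, u w * y w = y w) :
    (∑ w ∈ W, x w) * (∑ w ∈ W, y w) = ∑ w ∈ W, x w * y w := by
  rw [Finset.sum_mul]
  refine Finset.sum_congr rfl fun w hw => ?_
  rw [Finset.mul_sum, Finset.sum_eq_single w]
  · intro w' hw' hne
    calc x w * y w' = (x w * u w) * (u w' * y w') := by rw [hx w hw, hy w' hw']
      _ = x w * (u w * u w') * y w' := by noncomm_ring
      _ = 0 := by rw [hu w hw w' hw' hne.symm]; simp
  · intro h
    exact absurd hw h

open Classical in
/-- diagonalisation of an idempotent below a standard projection -/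
theorem F1 (hG : G.LA) {Q e : U K G} (hQ : Pr Q) (he : e ∈ L K G) (hi : e * e = e)
    (h1 : Q * e = e) (h2 : e * Q = e) :
    ∃ q, Pr q ∧ Q * q = q ∧ Eqv K G e q ∧ Eqv K G (Q - e) (Q - q) := by
  obtain ⟨T0, hT0⟩ := hQ.1
  obtain ⟨T1, hT1⟩ := exists_Zspan he
  have hQT : StdAt (T0.sup T1) Q := hT0.mono hG (Stage.le_sup_left T0 T1)
  have heT : e ∈ Zspan K G (T0.sup T1) := Zspan_mono (Stage.le_sup_right T0 T1) hT1
  generalize T0.sup T1 = T at hQT heT
  obtain ⟨A, hA, rfl⟩ := hQ.form hQT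
  set W := A.image (tg G) with hW
  set A' : V → Finset (V × List E) := fun w => A.filter (fun α => tg G α = w) with hA'
  obtain ⟨u, hu⟩ : ∃ u' : V → U K G, u' = fun w => ∑ α ∈ A' w, mU K T α α := ⟨_, rfl⟩
  have hu' : ∀ w, u w = ∑ α ∈ A' w, mU K T α α := fun w => by rw [hu]
  have hAm : ∀ w, ∀ α ∈ A' w, α ∈ Psi T ∧ tg G α = w := by
    intro w α hα
    have := Finset.mem_filter.mp hα
    exact ⟨hA α this.1, this.2⟩
  have hfull : ∀ w ∈ W, ¬ Full T w := by
    intro w hw
    obtain ⟨α, hα, rfl⟩ := Finset.mem_image.mp hw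
    exact tgt_not_full (hA α hα)
  have hQs : ∑ α ∈ A, mU K T α α = ∑ w ∈ W, u w := by
    rw [hu, hW]
    exact (Finset.sum_fiberwise_of_maps_to (fun α hα => Finset.mem_image_of_mem (tg G) hα) _).symm
  have huu : ∀ w, u w * u w = u w := by
    intro w
    rw [hu]
    have := mul_sum_mU (K := K) (T := T) (A' w) (A' w) (fun α hα => (hAm w α hα).1)
      (fun α hα => (hAm w α hα).1)
    rwa [Finset.inter_self] at this
  have huu' : ∀ w ∈ W, ∀ w' ∈ W, w ≠ w' → u w * u w' = 0 := by
    intro w _ w' _ hne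
    rw [hu]
    have h3 := mul_sum_mU (K := K) (T := T) (A' w) (A' w') (fun α hα => (hAm w α hα).1)
      (fun α hα => (hAm w' α hα).1)
    have h4 : A' w ∩ A' w' = ∅ := by
      rw [Finset.eq_empty_iff_forall_notMem]
      intro α hα
      have h5 := Finset.mem_inter.mp hα
      exact hne ((hAm w α h5.1).2.symm.trans (hAm w' α h5.2).2)
    rw [h4, Finset.sum_empty] at h3
    exact h3
  have huz : ∀ w, u w ∈ Zspan K G T := by
    intro w
    rw [hu']
    exact (Zspan K G T).sum_mem fun α hα =>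
      Mspan_le_Zspan (mU_mem_Mspan (hAm w α hα).1 (hAm w α hα).1 rfl)
  have hue : ∀ w w', w ≠ w' → u w * e * u w' = 0 := by
    intro w w' hne
    rw [hu]
    rw [idem_sand]
    refine Finset.sum_eq_zero fun α hα => Finset.sum_eq_zero fun β hβ => ?_
    rw [dec_ne hG heT (hAm w α hα).1 (hAm w' β hβ).1
      (by rw [(hAm w α hα).2, (hAm w' β hβ).2]; exact hne)]
    simp
  have hes : ∑ w ∈ W, u w * e * u w = e := by
    have h3 : e = (∑ w ∈ W, u w) * e * (∑ w ∈ W, u w) := by rw [← hQs, h1, h2]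
    rw [Finset.sum_mul, Finset.sum_mul] at h3
    conv_rhs => rw [h3]
    refine Finset.sum_congr rfl fun w hw => ?_
    rw [Finset.mul_sum, Finset.sum_eq_single w]
    · intro w' _ hne
      exact hue w w' hne.symm
    · intro h
      exact absurd hw h
  have hei : ∀ w ∈ W, (u w * e * u w) * (u w * e * u w) = u w * e * u w := by
    intro w hw
    have h3 : u w * e * u w = u w * e * (∑ w' ∈ W, u w') * e * u w := by
      rw [← hQs]
      calc u w * e * u w = u w * (e * e) * u w := by rw [hi]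
        _ = u w * (e * ((∑ α ∈ A, mU K T α α) * e)) * u w := by rw [h1]
        _ = _ := by noncomm_ring
    have h4 : u w * e * (∑ w' ∈ W, u w') * e * u w = u w * e * u w * e * u w := by
      rw [Finset.mul_sum, Finset.sum_mul, Finset.sum_mul, Finset.sum_eq_single w]
      · intro w' _ hne
        rw [hue w w' hne.symm]
        simp
      · intro h
        exact absurd hw h
    calc (u w * e * u w) * (u w * e * u w) = u w * e * (u w * u w) * e * u w := by noncomm_ring
      _ = u w * e * u w * e * u w := by rw [huu]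
      _ = u w * e * u w := by rw [← h4, ← h3]
  have key : ∀ w ∈ W, ∃ S : Finset (V × List E), S ⊆ A' w ∧ ∃ x y x' y' : U K G,
      (x ∈ L K G ∧ y ∈ L K G ∧ x' ∈ L K G ∧ y' ∈ L K G) ∧
      (x * y = u w * e * u w ∧ y * x = ∑ α ∈ S, mU K T α α) ∧
      (x' * y' = u w - u w * e * u w ∧ y' * x' = u w - ∑ α ∈ S, mU K T α α) ∧
      (x * u w = x ∧ u w * x = x) ∧ (y * u w = y ∧ u w * y = y) ∧
      (x' * u w = x' ∧ u w * x' = x') ∧ (y' * u w = y' ∧ u w * y' = y') := by
    intro w hw
    have e1 : (∑ α ∈ A' w, mU K T α α) * (u w * e * u w) = u w * e * u w := by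
      rw [← hu' w, ← mul_assoc, ← mul_assoc, huu]
    have e2 : (u w * e * u w) * (∑ α ∈ A' w, mU K T α α) = u w * e * u w := by
      rw [← hu' w, mul_assoc, huu]
    have e3 := idem_one_vertex hG (hfull w hw) (A' w) (hAm w)
      ((Zspan K G T).mul_mem ((Zspan K G T).mul_mem (huz w) heT) (huz w)) (hei w hw) e1 e2
    rw [← hu' w] at e3
    exact e3
  choose! S hS x y x' y' hm hxy hxy' hxu hyu hxu' hyu' using key
  have hdisj : ∀ w ∈ W, ∀ w' ∈ W, w ≠ w' → Disjoint (S w) (S w') := by
    intro w hw w' hw' hne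
    rw [Finset.disjoint_left]
    intro α h3 h4
    exact hne ((hAm w α (hS w hw h3)).2.symm.trans (hAm w' α (hS w' hw' h4)).2)
  have hSA : W.biUnion S ⊆ A := by
    intro α hα
    obtain ⟨w, hw, h3⟩ := Finset.mem_biUnion.mp hα
    exact (Finset.mem_filter.mp (hS w hw h3)).1
  have hSP : ∀ α ∈ W.biUnion S, α ∈ Psi T := fun α hα => hA α (hSA hα)
  have hqs : ∑ α ∈ W.biUnion S, mU K T α α = ∑ w ∈ W, ∑ α ∈ S w, mU K T α α :=
    Finset.sum_biUnion (fun w hw w' hw' hne => hdisj w hw w' hw' hne)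
  refine ⟨∑ α ∈ W.biUnion S, mU K T α α, Pr.sum_mU _ hSP, ?_, ?_, ?_⟩
  · rw [mul_sum_mU A _ hA hSP, Finset.inter_eq_right.mpr hSA]
  · refine ⟨∑ w ∈ W, x w, (L K G).sum_mem fun w hw => (hm w hw).1,
      ∑ w ∈ W, y w, (L K G).sum_mem fun w hw => (hm w hw).2.1, ?_, ?_⟩
    · rw [idem_sum_mul W u x y huu' (fun w hw => (hxu w hw).1) (fun w hw => (hyu w hw).2),
        Finset.sum_congr rfl fun w hw => (hxy w hw).1, hes]
    · rw [idem_sum_mul W u y x huu' (fun w hw => (hyu w hw).1) (fun w hw => (hxu w hw).2),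
        Finset.sum_congr rfl fun w hw => (hxy w hw).2, hqs]
  · refine ⟨∑ w ∈ W, x' w, (L K G).sum_mem fun w hw => (hm w hw).2.2.1,
      ∑ w ∈ W, y' w, (L K G).sum_mem fun w hw => (hm w hw).2.2.2, ?_, ?_⟩
    · rw [idem_sum_mul W u x' y' huu' (fun w hw => (hxu' w hw).1) (fun w hw => (hyu' w hw).2),
        Finset.sum_congr rfl fun w hw => (hxy' w hw).1, Finset.sum_sub_distrib, hes, hQs]
    · rw [idem_sum_mul W u y' x' huu' (fun w hw => (hyu' w hw).1) (fun w hw => (hxu' w hw).2),
        Finset.sum_congr rfl fun w hw => (hxy' w hw).2, Finset.sum_sub_distrib, ← hqs, hQs]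

/-- equivalent standard projections are equivalent through a standard element -/
theorem F2 (hG : G.LA) {p q : U K G} (hp : Pr p) (hq : Pr q) (h : Eqv K G p q) :
    ∃ s, Std s ∧ s * star s = p ∧ star s * s = q := by
  obtain ⟨x, hx, y, hy, h1, h2⟩ := h
  obtain ⟨T0, hT0⟩ := hp.1
  obtain ⟨T1, hT1⟩ := hq.1
  obtain ⟨T, hT, hz⟩ := exists_Zspan_finset (K := K) (G := G) (Finset.univ : Finset Bool)
    (fun i => if i then x else y) (by intro i _; cases i <;> simp [hx, hy]) (T0.sup T1)
  have hpT : StdAt T p := hT0.mono hG (Stage.le_trans' (Stage.le_sup_left T0 T1) hT)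
  have hqT : StdAt T q := hT1.mono hG (Stage.le_trans' (Stage.le_sup_right T0 T1) hT)
  have hxT : x ∈ Zspan K G T := by simpa using hz true (Finset.mem_univ _)
  have hyT : y ∈ Zspan K G T := by simpa using hz false (Finset.mem_univ _)
  obtain ⟨A, hA, rfl⟩ := hp.form hpT
  obtain ⟨B, hB, rfl⟩ := hq.form hqT
  obtain ⟨s, hs, h3, h4⟩ := std_of_card (K := K) hG A B hA hB
    (card_eq hG A B hA hB hxT hyT h1 h2)
  exact ⟨s, ⟨T, hs⟩, h3, h4⟩

/-- standard elements give equivalences -/
theorem Std.eqv {s : U K G} (hs : Std s) : Eqv K G (s * star s) (star s * s) :=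
  ⟨s, hs.mem, star s, hs.st.mem, rfl, rfl⟩

open Classical in
/-- comparison -/
theorem F3 (hG : G.LA) {Q qa qb qc : U K G} (hQ : Pr Q) (ha : Pr qa) (hb : Pr qb) (hc : Pr qc)
    (ha1 : Q * qa = qa) (hb1 : Q * qb = qb) (hc1 : Q * qc = qc) (hab : qa * qb = 0)
    (h : Eqv K G qa qc) :
    ∃ qd, Pr qd ∧ Q * qd = qd ∧ qc * qd = 0 ∧ Eqv K G qb qd := by
  obtain ⟨x, hx, y, hy, h1, h2⟩ := h
  obtain ⟨T0, hT0, hst⟩ := exists_stage (K := K) hG (Finset.univ : Finset (Fin 4))
    (fun i => if i = 0 then Q else if i = 1 then qa else if i = 2 then qb else qc)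
    (by intro i _; fin_cases i <;> simp [hQ.1, ha.1, hb.1, hc.1]) ⟨∅, ∅, by simp, by simp, by simp⟩
  obtain ⟨T, hT, hz⟩ := exists_Zspan_finset (K := K) (G := G) (Finset.univ : Finset Bool)
    (fun i => if i then x else y) (by intro i _; cases i <;> simp [hx, hy]) T0
  have hQT : StdAt T Q := (by simpa using hst 0 (Finset.mem_univ _) : StdAt T0 Q).mono hG hT
  have haT : StdAt T qa := (by simpa using hst 1 (Finset.mem_univ _) : StdAt T0 qa).mono hG hT
  have hbT : StdAt T qb := (by simpa using hst 2 (Finset.mem_univ _) : StdAt T0 qb).mono hG hT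
  have hcT : StdAt T qc := (by simpa using hst 3 (Finset.mem_univ _) : StdAt T0 qc).mono hG hT
  have hxT : x ∈ Zspan K G T := by simpa using hz true (Finset.mem_univ _)
  have hyT : y ∈ Zspan K G T := by simpa using hz false (Finset.mem_univ _)
  obtain ⟨D, hD, rfl⟩ := hQ.form hQT
  obtain ⟨A, hA, rfl⟩ := ha.form haT
  obtain ⟨B, hB, rfl⟩ := hb.form hbT
  obtain ⟨C, hC, rfl⟩ := hc.form hcT
  have hcard := card_eq hG A C hA hC hxT hyT h1 h2
  have hsub : ∀ X : Finset (V × List E), (∀ α ∈ X, α ∈ Psi T) →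
      (∑ α ∈ D, mU K T α α) * (∑ α ∈ X, mU K T α α) = ∑ α ∈ X, mU K T α α → X ⊆ D := by
    intro X hX h3
    rw [mul_sum_mU D X hD hX] at h3
    have h4 := sum_mU_inj (K := K) (D ∩ X) X (fun α hα => hX α (Finset.mem_inter.mp hα).2) hX h3
    exact Finset.inter_eq_right.mp h4
  have hAD := hsub A hA ha1
  have hBD := hsub B hB hb1
  have hCD := hsub C hC hc1
  have hAB : A ∩ B = ∅ := by
    rw [mul_sum_mU A B hA hB] at hab
    have h3 : ∑ α ∈ A ∩ B, mU K T α α = ∑ α ∈ (∅ : Finset (V × List E)), mU K T α α := by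
      rw [hab, Finset.sum_empty]
    exact sum_mU_inj (K := K) (A ∩ B) ∅ (fun α hα => hA α (Finset.mem_inter.mp hα).1) (by simp) h3
  have hle : ∀ w, (B.filter fun α => tg G α = w).card ≤
      ((D \ C).filter fun α => tg G α = w).card := by
    intro w
    have h3 : (D \ C).filter (fun α => tg G α = w) =
        D.filter (fun α => tg G α = w) \ C.filter (fun α => tg G α = w) := by
      ext α
      simp only [Finset.mem_filter, Finset.mem_sdiff]
      tauto
    have h4 : C.filter (fun α => tg G α = w) ⊆ D.filter (fun α => tg G α = w) :=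
      Finset.filter_subset_filter _ hCD
    have h5 : (A.filter fun α => tg G α = w) ∪ (B.filter fun α => tg G α = w) ⊆
        D.filter (fun α => tg G α = w) :=
      Finset.union_subset (Finset.filter_subset_filter _ hAD) (Finset.filter_subset_filter _ hBD)
    have h6 : Disjoint (A.filter fun α => tg G α = w) (B.filter fun α => tg G α = w) := by
      rw [Finset.disjoint_iff_inter_eq_empty, ← Finset.filter_inter_distrib, hAB,
        Finset.filter_empty]
    have h7 := Finset.card_le_card h5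
    rw [Finset.card_union_of_disjoint h6, hcard w] at h7
    rw [h3, Finset.card_sdiff_of_subset h4]
    omega
  have hex : ∀ w, ∃ t ⊆ (D \ C).filter (fun α => tg G α = w),
      t.card = (B.filter fun α => tg G α = w).card := fun w =>
    Finset.exists_subset_card_eq (hle w)
  choose t ht htc using hex
  set F := (B.image (tg G)).biUnion t with hF
  have hFD : F ⊆ D \ C := by
    intro α hα
    obtain ⟨w, hw, h3⟩ := Finset.mem_biUnion.mp hα
    exact (Finset.mem_filter.mp (ht w h3)).1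
  have hFP : ∀ α ∈ F, α ∈ Psi T := fun α hα => hD α (Finset.mem_sdiff.mp (hFD hα)).1
  have hFc : ∀ w, (B.filter fun α => tg G α = w).card = (F.filter fun α => tg G α = w).card := by
    intro w
    by_cases hw : w ∈ B.image (tg G)
    · rw [← htc w]
      congr 1
      ext α
      rw [Finset.mem_filter]
      constructor
      · intro h3
        exact ⟨Finset.mem_biUnion.mpr ⟨w, hw, h3⟩, (Finset.mem_filter.mp (ht w h3)).2⟩
      · rintro ⟨h3, h4⟩
        obtain ⟨w', hw', h5⟩ := Finset.mem_biUnion.mp h3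
        have h6 := (Finset.mem_filter.mp (ht w' h5)).2
        rw [h4] at h6
        rw [h6]
        exact h5
    · have h3 : B.filter (fun α => tg G α = w) = ∅ := by
        rw [Finset.filter_eq_empty_iff]
        intro α hα h4
        exact hw (Finset.mem_image.mpr ⟨α, hα, h4⟩)
      have h4 : F.filter (fun α => tg G α = w) = ∅ := by
        rw [Finset.filter_eq_empty_iff]
        intro α hα h5
        obtain ⟨w', hw', h6⟩ := Finset.mem_biUnion.mp hα
        have h7 := (Finset.mem_filter.mp (ht w' h6)).2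
        rw [h5] at h7
        exact hw (h7 ▸ hw')
      rw [h3, h4]
  obtain ⟨s, hs, h3, h4⟩ := std_of_card (K := K) hG B F hB hFP hFc
  refine ⟨∑ α ∈ F, mU K T α α, Pr.sum_mU F hFP, ?_, ?_, ?_⟩
  · rw [mul_sum_mU D F hD hFP,
      Finset.inter_eq_right.mpr (fun α hα => (Finset.mem_sdiff.mp (hFD hα)).1)]
  · rw [mul_sum_mU C F hC hFP]
    have h5 : C ∩ F = ∅ := by
      rw [Finset.eq_empty_iff_forall_notMem]
      intro α hα
      have h6 := Finset.mem_inter.mp hα
      exact (Finset.mem_sdiff.mp (hFD h6.2)).2 h6.1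
    rw [h5, Finset.sum_empty]
  · have := Std.eqv ⟨T, hs⟩
    rwa [h3, h4] at this

end Pool.Agent.Helper32.LV
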