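import Pool.Agent.Helper32.LV.RRf

/-! Matching of the loops. PIECE 20. -/

set_option autoImplicit false
set_option linter.unusedSectionVars false

universe k a b a' b'

namespace Pool.Agent.Helper32.LV

variable {V : Type a} {E : Type b} {K : Type k} [Field K] [StarRing K] {G : Gr V E}
  {V' : Type a'} {E' : Type b'} {G' : Gr V' E'} {φ : RI K G G'}

theorem loop_not_full (T : Stage G) {e : E} (he : G.s e = G.r e) : ¬ Full T (G.s e) := by
  rintro ⟨-, hf⟩
  exact T.nl e (hf e rfl) he

/-- the corner of a loop vertex consists of Laurent polynomials -/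
theorem corner_loop (hG : G.LA) {e : E} (he : G.s e = G.r e) {x : U K G} (hx : x ∈ L K G)
    (h1 : vx K G (G.s e) * x = x) (h2 : x * vx K G (G.s e) = x) :
    ∃ p : LaurentPolynomial K, x = theta K G e p := by
  obtain ⟨T, hT⟩ := exists_Zspan hx
  have hT' : x ∈ Zspan K G (T.sup (stV G (G.s e))) := Zspan_mono (T.le_sup_left _) hT
  have hv : G.s e ∈ (T.sup (stV G (G.s e))).Vt := (T.le_sup_right _).1 (by simp [stV])
  have hα : (G.s e, ([] : List E)) ∈ Psi (T.sup (stV G (G.s e))) :=
    vx_mem_Psi hv (loop_not_full _ he)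
  obtain ⟨p, hp⟩ := dec_loop hG hT' hα hα he rfl rfl
  refine ⟨p, ?_⟩
  rw [aU_nil, gapU_star, gapU_loop hG _ he, h1, h2] at hp
  exact hp

theorem corner_idem (hG : G.LA) {e : E} (he : G.s e = G.r e) {x : U K G} (hx : x ∈ L K G)
    (h1 : vx K G (G.s e) * x = x) (h2 : x * vx K G (G.s e) = x) (hi : x * x = x) :
    x = 0 ∨ x = vx K G (G.s e) := by
  obtain ⟨p, rfl⟩ := corner_loop hG he hx h1 h2
  rw [← theta_mul hG he] at hi
  have h3 := theta_inj he hi
  have h4 : p * (p - 1) = 0 := by rw [mul_sub, mul_one, h3, sub_self]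
  rcases mul_eq_zero.mp h4 with h | h
  · left; rw [h, theta_zero]
  · right; rw [sub_eq_zero.mp h, theta_one]

theorem corner_nonunit (hG : G.LA) {e : E} (he : G.s e = G.r e) :
    ∃ x ∈ L K G, vx K G (G.s e) * x = x ∧ x * vx K G (G.s e) = x ∧ x ≠ 0 ∧
      ∀ y ∈ L K G, vx K G (G.s e) * y = y → y * vx K G (G.s e) = y →
        x * y ≠ vx K G (G.s e) := by
  refine ⟨theta K G e (1 - LaurentPolynomial.T 1), theta_mem e _, ?_, ?_, ?_, ?_⟩
  · conv_lhs => rw [← theta_one, ← theta_mul hG he, one_mul]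
  · conv_lhs => rw [← theta_one, ← theta_mul hG he, mul_one]
  · intro h
    rw [← theta_zero e] at h
    have h1 := theta_inj he h
    rw [sub_eq_zero, ← LaurentPolynomial.T_zero] at h1
    have h2 : zp K G e 0 = zp K G e 1 := by rw [← theta_T, ← theta_T, h1]
    exact absurd ((zp_li (K := K) he).injective h2) (by norm_num)
  · intro y hy h1 h2 h3
    obtain ⟨p, rfl⟩ := corner_loop hG he hy h1 h2
    rw [← theta_mul hG he, ← theta_one] at h3
    have h4 := theta_inj he h3
    have h5 := congrArg (LaurentPolynomial.eval₂ (RingHom.id K) 1) h4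
    simp at h5

/-- PIECE 20. The corner of a loop vertex is a ring of Laurent polynomials, which has no idempotents
besides `0`, `1` and is not a field. Take a standard projection `Q` equivalent to
`φ (vx (s e))` (`F1` below a sum of vertices). At every stage `T` with `StdAt T Q` it
is a single matrix unit `mU α α` (otherwise there is a non-trivial idempotent in the corner); if
`tg α` never has a loop the corner of `Q` is `K • Q`, a field, contradiction. -/
theorem kappa (hG : G.LA) (hG' : G'.LA) (φ : RI K G G') {e : E} (he : G.s e = G.r e) :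
    ∃ e', G'.s e' = G'.r e' ∧ RR φ (vx K G (G.s e)) (vx K G' (G'.s e')) := by
  classical
  have hpm : vx K G (G.s e) ∈ L K G := vx_mem _
  have hpp : vx K G (G.s e) * vx K G (G.s e) = vx K G (G.s e) := vx_vx _
  have hfm : φ.f (vx K G (G.s e)) ∈ L K G' := φ.f_mem _ hpm
  have hff := φ.f_idem hpm hpp
  obtain ⟨t, ht⟩ := exists_unit hfm
  obtain ⟨ht1, ht2⟩ := ht t (Finset.Subset.refl _)
  obtain ⟨q, hq, -, hpq, -⟩ := F1 hG' (Pr.sum_vx hG' t) hfm hff ht1 ht2
  have hqq : q * q = q := hq.2.2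
  have hpq' := hpq
  obtain ⟨x, hx, y, hy, hxy, hyx⟩ := hpq
  have hgm : ∀ z ∈ L K G', φ.g (x * z * y) ∈ L K G := fun z hz =>
    φ.g_mem _ ((L K G').mul_mem ((L K G').mul_mem hx hz) hy)
  have hm : ∀ z ∈ L K G', x * z * y ∈ L K G' := fun z hz =>
    (L K G').mul_mem ((L K G').mul_mem hx hz) hy
  -- the homomorphism
  have hgmul : ∀ z ∈ L K G', ∀ w ∈ L K G', z * q = z →
      φ.g (x * z * y) * φ.g (x * w * y) = φ.g (x * (z * w) * y) := by
    intro z hz w hw hzq
    rw [← φ.g_mul _ (hm z hz) _ (hm w hw)]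
    congr 1
    calc x * z * y * (x * w * y) = x * (z * (y * x)) * w * y := by noncomm_ring
      _ = x * (z * w) * y := by rw [hyx, hzq]; noncomm_ring
  have hgq : φ.g (x * q * y) = vx K G (G.s e) := by
    have h1 : x * q * y = φ.f (vx K G (G.s e)) := by
      calc x * q * y = (x * y) * (x * y) := by rw [← hyx]; noncomm_ring
        _ = φ.f (vx K G (G.s e)) := by rw [hxy, hff]
    rw [h1, φ.gf _ hpm]
  have hinj : ∀ z ∈ L K G', q * z = z → z * q = z → φ.g (x * z * y) = 0 → z = 0 := by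
    intro z hz h1 h2 h3
    have h4 : x * z * y = 0 := by
      rw [← φ.fg _ (hm z hz), h3, φ.f_zero]
    calc z = q * z * q := by rw [h1, h2]
      _ = y * (x * z * y) * x := by rw [← hyx]; noncomm_ring
      _ = 0 := by rw [h4, mul_zero, zero_mul]
  have hcor : ∀ z ∈ L K G', q * z = z → z * q = z →
      vx K G (G.s e) * φ.g (x * z * y) = φ.g (x * z * y) ∧
      φ.g (x * z * y) * vx K G (G.s e) = φ.g (x * z * y) := by
    intro z hz h1 h2
    constructor
    · rw [← hgq, hgmul q hq.mem z hz hqq, h1]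
    · rw [← hgq, hgmul z hz q hq.mem h2, h2]
  have hq0 : q ≠ 0 := by
    intro h
    rw [h, mul_zero, zero_mul] at hgq
    have h1 : φ.g 0 = 0 := φ.symm.f_zero
    rw [h1] at hgq
    exact vx_ne_zero (G.s e) hgq.symm
  -- a single matrix unit at every stage
  have hsingle : ∀ T : Stage G', StdAt T q → ∃ α ∈ Psi T, q = mU K T α α := by
    intro T hT
    obtain ⟨A, hA, hqA⟩ := Pr.form hq hT
    have hne : A.Nonempty := by
      rw [Finset.nonempty_iff_ne_empty]
      rintro rfl
      exact hq0 (by rw [hqA, Finset.sum_empty])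
    obtain ⟨α, hα⟩ := hne
    refine ⟨α, hA α hα, ?_⟩
    have hmul : ∀ β ∈ A, q * mU K T β β = mU K T β β ∧ mU K T β β * q = mU K T β β := by
      intro β hβ
      constructor
      · rw [hqA, Finset.sum_mul, Finset.sum_eq_single β]
        · exact mU_mul_same (hA β hβ) (hA β hβ) rfl β
        · intro γ hγ hne
          exact mU_mul_ne (hA γ hγ) (hA β hβ) hne
        · exact fun h => absurd hβ h
      · rw [hqA, Finset.mul_sum, Finset.sum_eq_single β]
        · exact mU_mul_same (hA β hβ) (hA β hβ) rfl β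
        · intro γ hγ hne
          exact mU_mul_ne (hA β hβ) (hA γ hγ) hne.symm
        · exact fun h => absurd hβ h
    have hmm : mU K T α α ∈ L K G' := mU_mem T α α
    obtain ⟨h1, h2⟩ := hmul α hα
    have hid : mU K T α α * mU K T α α = mU K T α α := mU_mul_same (hA α hα) (hA α hα) rfl α
    obtain ⟨h3, h4⟩ := hcor _ hmm h1 h2
    rcases corner_idem hG he (hgm _ hmm) h3 h4 (by rw [hgmul _ hmm _ hmm h2, hid]) with h5 | h5
    · exact absurd (hinj _ hmm h1 h2 h5) (mU_ne_zero (hA α hα) (hA α hα) rfl)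
    · have h6 : φ.g (x * (q - mU K T α α) * y) = 0 := by
        have h7 : x * (q - mU K T α α) * y = x * q * y - x * mU K T α α * y := by noncomm_ring
        have h8 := φ.symm.f_sub (hm q hq.mem) (hm _ hmm)
        change φ.g _ = φ.g _ - φ.g _ at h8
        rw [h7, h8, hgq, h5, sub_self]
      have h9 := hinj _ ((L K G').sub_mem hq.mem hmm) (by rw [mul_sub, hqq, h1])
        (by rw [sub_mul, hqq, h2]) h6
      exact sub_eq_zero.mp h9
  by_cases hex : ∃ T : Stage G', ∃ α ∈ Psi T, q = mU K T α α ∧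
      ∃ e', G'.s e' = tg G' α ∧ G'.s e' = G'.r e'
  · obtain ⟨T, α, hα, hqα, e', he1, he2⟩ := hex
    refine ⟨e', he2, ?_⟩
    have h1 : Eqv K G' q (vx K G' (G'.s e')) := by
      refine ⟨aU K T α, aU_mem T α, star (aU K T α), star_mem_L (aU_mem T α), hqα.symm, ?_⟩
      rw [aU_star_aU_self hα, ← he1, gapU_loop hG' T he2]
    exact hpq'.trans h1 hff (vx_vx _)
  · exfalso
    have hK : ∀ z ∈ L K G', q * z = z → z * q = z → ∃ c : K, z = c • q := by
      intro z hz h1 h2
      obtain ⟨T0, hT0⟩ := hq.1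
      obtain ⟨T1, hT1⟩ := exists_Zspan hz
      have hz' : z ∈ Zspan K G' (T0.sup T1) := Zspan_mono (T0.le_sup_right T1) hT1
      obtain ⟨α, hα, hqα⟩ := hsingle (T0.sup T1) (StdAt.mono hG' (T0.le_sup_left T1) hT0)
      obtain ⟨c, hc⟩ := dec_noloop hG' hz' hα hα
        (fun f hf hl => hex ⟨_, α, hα, hqα, f, hf, hl⟩) rfl
      refine ⟨c, ?_⟩
      have h3 : z = aU K (T0.sup T1) α * (star (aU K (T0.sup T1) α) * z * aU K (T0.sup T1) α) *
          star (aU K (T0.sup T1) α) := by
        calc z = q * z * q := by rw [h1, h2]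
          _ = _ := by
            rw [hqα]
            simp only [mU, mul_assoc]
      rw [h3, hc, mul_smul_comm, smul_mul_assoc, aU_gapU hα]
      conv_rhs => rw [hqα]
      rfl
    obtain ⟨c, hc, hc1, hc2, hc0, hcn⟩ := corner_nonunit (K := K) hG he
    have hfc : φ.f c ∈ L K G' := φ.f_mem c hc
    have hfc1 : φ.f (vx K G (G.s e)) * φ.f c = φ.f c := by
      rw [← φ.f_mul _ hpm _ hc, hc1]
    have hfc2 : φ.f c * φ.f (vx K G (G.s e)) = φ.f c := by
      rw [← φ.f_mul _ hc _ hpm, hc2]
    have hzm : y * φ.f c * x ∈ L K G' := (L K G').mul_mem ((L K G').mul_mem hy hfc) hx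
    have hz1 : q * (y * φ.f c * x) = y * φ.f c * x := by
      calc q * (y * φ.f c * x) = y * ((x * y) * φ.f c) * x := by rw [← hyx]; noncomm_ring
        _ = y * φ.f c * x := by rw [hxy, hfc1]
    have hz2 : y * φ.f c * x * q = y * φ.f c * x := by
      calc y * φ.f c * x * q = y * (φ.f c * (x * y)) * x := by rw [← hyx]; noncomm_ring
        _ = y * φ.f c * x := by rw [hxy, hfc2]
    have hzg : φ.g (x * (y * φ.f c * x) * y) = c := by
      have h1 : x * (y * φ.f c * x) * y = φ.f c := by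
        calc x * (y * φ.f c * x) * y = (x * y) * φ.f c * (x * y) := by noncomm_ring
          _ = φ.f c := by rw [hxy, hfc1, hfc2]
      rw [h1, φ.gf c hc]
    obtain ⟨d, hd⟩ := hK _ hzm hz1 hz2
    have hd0 : d ≠ 0 := by
      rintro rfl
      rw [zero_smul] at hd
      rw [hd, mul_zero, zero_mul] at hzg
      have h1 : φ.g 0 = 0 := φ.symm.f_zero
      rw [h1] at hzg
      exact hc0 hzg.symm
    have hwm : d⁻¹ • q ∈ L K G' := SMulMemClass.smul_mem _ hq.mem
    have hw1 : q * (d⁻¹ • q) = d⁻¹ • q := by rw [mul_smul_comm, hqq]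
    have hw2 : (d⁻¹ • q) * q = d⁻¹ • q := by rw [smul_mul_assoc, hqq]
    obtain ⟨h1, h2⟩ := hcor _ hwm hw1 hw2
    refine hcn _ (hgm _ hwm) h1 h2 ?_
    rw [← hzg, hgmul _ hzm _ hwm hz2, hd, smul_mul_smul_comm, hqq, mul_inv_cancel₀ hd0, one_smul,
      hgq]

/-- loop vertices are not equivalent (`card_eq` at a stage with `x`, `y`, where the index sets are
`{(s e, [])}` and `{(s f, [])}`) -/
theorem loop_uniq (hG : G.LA) {e f : E} (he : G.s e = G.r e) (hf : G.s f = G.r f)
    (h : Eqv K G (vx K G (G.s e)) (vx K G (G.s f))) : e = f := by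
  classical
  obtain ⟨x, hx, y, hy, h1, h2⟩ := h
  obtain ⟨T1, hT1⟩ := exists_Zspan hx
  obtain ⟨T2, hT2⟩ := exists_Zspan hy
  obtain ⟨T, hle1, hle2, hle3⟩ : ∃ T : Stage G, T1 ≤ T ∧ T2 ≤ T ∧
      (G.s e ∈ T.Vt ∧ G.s f ∈ T.Vt) := by
    refine ⟨(T1.sup T2).sup ((stV G (G.s e)).sup (stV G (G.s f))), ?_, ?_, ?_, ?_⟩
    · exact Stage.le_trans' (T1.le_sup_left T2) (Stage.le_sup_left _ _)
    · exact Stage.le_trans' (T1.le_sup_right T2) (Stage.le_sup_left _ _)
    · exact (Stage.le_trans' (Stage.le_sup_left _ _) (Stage.le_sup_right _ _)).1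
        (by simp [stV])
    · exact (Stage.le_trans' (Stage.le_sup_right _ _) (Stage.le_sup_right _ _)).1
        (by simp [stV])
  have hA : (G.s e, ([] : List E)) ∈ Psi T := vx_mem_Psi hle3.1 (loop_not_full T he)
  have hB : (G.s f, ([] : List E)) ∈ Psi T := vx_mem_Psi hle3.2 (loop_not_full T hf)
  have hmA : mU K T (G.s e, []) (G.s e, []) = vx K G (G.s e) := by
    unfold mU
    rw [aU_nil, gapU_star, gapU_idem, gapU_loop hG T he]
  have hmB : mU K T (G.s f, []) (G.s f, []) = vx K G (G.s f) := by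
    unfold mU
    rw [aU_nil, gapU_star, gapU_idem, gapU_loop hG T hf]
  have h3 := card_eq hG {(G.s e, ([] : List E))} {(G.s f, ([] : List E))}
    (by simpa using hA) (by simpa using hB) (Zspan_mono hle1 hT1) (Zspan_mono hle2 hT2)
    (by rw [Finset.sum_singleton, hmA, h1]) (by rw [Finset.sum_singleton, hmB, h2]) (G.s e)
  by_contra hne
  have h4 : G.s f ≠ G.s e := fun h => hne (hG.loop e f he h).symm
  have h5 : tg G (G.s e, ([] : List E)) = G.s e := rfl
  have h6 : tg G (G.s f, ([] : List E)) ≠ G.s e := h4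
  rw [Finset.filter_singleton, Finset.filter_singleton, if_pos h5, if_neg h6] at h3
  simp at h3

end Pool.Agent.Helper32.LV
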