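import Pool.Agent.Helper32.LV.RRf

/-! The graph `Lam` of a finite isomorphism. PIECE 10. -/

set_option autoImplicit false
set_option linter.unusedSectionVars false

universe k a b a' b'

namespace Pool.Agent.Helper32.LV

variable {V : Type a} {E : Type b} {K : Type k} [Field K] [StarRing K] {G : Gr V E}
  {V' : Type a'} {E' : Type b'} {G' : Gr V' E'} {φ : RI K G G'} {c : CP φ}

theorem FS.mem_Lam (s : FS c) {α β : V × List E} (hα : α ∈ Psi s.T) (hβ : β ∈ Psi s.T)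
    (h : tg G α = tg G β) : (mU K s.T α β, s.τ α * star (s.τ β)) ∈ s.Lam :=
  Submodule.subset_span ⟨α, hα, β, hβ, h, rfl⟩

/-- `τ α` absorbs its initial projection, which only depends on the end point -/
theorem FS.tau_mul (s : FS c) {α β : V × List E} (hα : α ∈ Psi s.T) (hβ : β ∈ Psi s.T)
    (h : tg G α = tg G β) : s.τ α * (star (s.τ β) * s.τ β) = s.τ α := by
  rw [← s.eqn α hα β hβ h, ← mul_assoc]
  exact (s.std α hα).mul_star_mul

theorem FS.tt_mul_same (s : FS c) {α β : V × List E} (hα : α ∈ Psi s.T) (hβ : β ∈ Psi s.T)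
    (h : tg G α = tg G β) (δ : V × List E) :
    s.τ α * star (s.τ β) * (s.τ β * star (s.τ δ)) = s.τ α * star (s.τ δ) := by
  have h1 : s.τ α * star (s.τ β) * (s.τ β * star (s.τ δ)) =
      s.τ α * (star (s.τ β) * s.τ β) * star (s.τ δ) := by noncomm_ring
  rw [h1, s.tau_mul hα hβ h]

theorem FS.tt_mul_ne (s : FS c) {α β γ δ : V × List E} (hβ : β ∈ Psi s.T) (hγ : γ ∈ Psi s.T)
    (h : β ≠ γ) : s.τ α * star (s.τ β) * (s.τ γ * star (s.τ δ)) = 0 := by
  have h1 : s.τ α * star (s.τ β) * (s.τ γ * star (s.τ δ)) =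
      s.τ α * (star (s.τ β) * s.τ γ) * star (s.τ δ) := by noncomm_ring
  rw [h1, s.orth β hβ γ hγ h, mul_zero, zero_mul]

theorem FS.Lam_mul (s : FS c) {z z' : U K G × U K G'} (hz : z ∈ s.Lam) (hz' : z' ∈ s.Lam) :
    z * z' ∈ s.Lam := by
  unfold FS.Lam at hz
  induction hz using Submodule.span_induction with
  | mem x hx =>
    obtain ⟨α, hα, β, hβ, h, rfl⟩ := hx
    unfold FS.Lam at hz'
    induction hz' using Submodule.span_induction with
    | mem y hy =>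
      obtain ⟨γ, hγ, δ, hδ, h', rfl⟩ := hy
      by_cases hne : β = γ
      · subst hne
        rw [Prod.mk_mul_mk, mU_mul_same hα hβ h, s.tt_mul_same hα hβ h]
        exact s.mem_Lam hα hδ (h.trans h')
      · rw [Prod.mk_mul_mk, mU_mul_ne hβ hγ hne, s.tt_mul_ne hβ hγ hne]
        exact Submodule.zero_mem _
    | zero => rw [mul_zero]; exact Submodule.zero_mem _
    | add y z _ _ h1 h2 => rw [mul_add]; exact Submodule.add_mem _ h1 h2
    | smul c y _ h1 => rw [mul_smul_comm]; exact Submodule.smul_mem _ _ h1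
  | zero => rw [zero_mul]; exact Submodule.zero_mem _
  | add x z _ _ h1 h2 => rw [add_mul]; exact Submodule.add_mem _ h1 h2
  | smul c x _ h1 => rw [smul_mul_assoc]; exact Submodule.smul_mem _ _ h1

theorem FS.Lam_star (s : FS c) {z : U K G × U K G'} (hz : z ∈ s.Lam) : star z ∈ s.Lam := by
  unfold FS.Lam at hz
  induction hz using Submodule.span_induction with
  | mem x hx =>
    obtain ⟨α, hα, β, hβ, h, rfl⟩ := hx
    have h1 : star (mU K s.T α β, s.τ α * star (s.τ β)) =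
        (mU K s.T β α, s.τ β * star (s.τ α)) := by
      refine Prod.ext ?_ ?_
      · exact mU_star _ _ _
      · change star (s.τ α * star (s.τ β)) = _
        rw [star_mul, star_star]
    rw [h1]
    exact s.mem_Lam hβ hα h.symm
  | zero => rw [star_zero]; exact Submodule.zero_mem _
  | add x z _ _ h1 h2 => rw [star_add]; exact Submodule.add_mem _ h1 h2
  | smul c x _ h1 =>
    have h2 : star (c • x) = star c • star x := by
      refine Prod.ext ?_ ?_
      · change star (c • x.1) = star c • star x.1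
        rw [star_smul]
      · change star (c • x.2) = star c • star x.2
        rw [star_smul]
    rw [h2]
    exact Submodule.smul_mem _ _ h1

theorem FS.Lam_fst (s : FS c) {z : U K G × U K G'} (hz : z ∈ s.Lam) : z.1 ∈ Mspan K s.T := by
  unfold FS.Lam at hz
  induction hz using Submodule.span_induction with
  | mem x hx =>
    obtain ⟨α, hα, β, hβ, h, rfl⟩ := hx
    exact mU_mem_Mspan hα hβ h
  | zero => exact Submodule.zero_mem _
  | add x z _ _ h1 h2 => exact Submodule.add_mem _ h1 h2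
  | smul c x _ h1 => exact Submodule.smul_mem _ _ h1

theorem FS.Lam_dom (s : FS c) {x : U K G} (hx : x ∈ Mspan K s.T) : ∃ y, (x, y) ∈ s.Lam := by
  unfold Mspan at hx
  induction hx using Submodule.span_induction with
  | mem x hx =>
    obtain ⟨α, hα, β, hβ, h, rfl⟩ := hx
    exact ⟨_, s.mem_Lam hα hβ h⟩
  | zero => exact ⟨0, Submodule.zero_mem _⟩
  | add x z _ _ h1 h2 =>
    obtain ⟨y1, h1⟩ := h1
    obtain ⟨y2, h2⟩ := h2
    exact ⟨y1 + y2, Submodule.add_mem _ h1 h2⟩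
  | smul c x _ h1 =>
    obtain ⟨y1, h1⟩ := h1
    exact ⟨c • y1, Submodule.smul_mem _ c h1⟩

/-- elements of the graph are combinations over finitely many distinct pairs of indices -/
theorem FS.Lam_form (s : FS c) {z : U K G × U K G'} (hz : z ∈ s.Lam) :
    ∃ (P : Finset ((V × List E) × (V × List E))) (d : (V × List E) × (V × List E) → K),
      (∀ p ∈ P, p.1 ∈ Psi s.T ∧ p.2 ∈ Psi s.T ∧ tg G p.1 = tg G p.2) ∧
      z.1 = ∑ p ∈ P, d p • mU K s.T p.1 p.2 ∧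
      z.2 = ∑ p ∈ P, d p • (s.τ p.1 * star (s.τ p.2)) := by
  have himg : {z : U K G × U K G' | ∃ α ∈ Psi s.T, ∃ β ∈ Psi s.T, tg G α = tg G β ∧
      z = (mU K s.T α β, s.τ α * star (s.τ β))} =
      (fun p : (V × List E) × (V × List E) => (mU K s.T p.1 p.2, s.τ p.1 * star (s.τ p.2))) ''
        {p | p.1 ∈ Psi s.T ∧ p.2 ∈ Psi s.T ∧ tg G p.1 = tg G p.2} := by
    ext z
    constructor
    · rintro ⟨α, hα, β, hβ, h, rfl⟩
      exact ⟨(α, β), ⟨hα, hβ, h⟩, rfl⟩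
    · rintro ⟨⟨α, β⟩, ⟨hα, hβ, h⟩, rfl⟩
      exact ⟨α, hα, β, hβ, h, rfl⟩
  unfold FS.Lam at hz
  rw [himg, Finsupp.mem_span_image_iff_linearCombination] at hz
  obtain ⟨l, hl, rfl⟩ := hz
  refine ⟨l.support, l, ?_, ?_, ?_⟩
  · intro p hp
    exact (Finsupp.mem_supported K l).mp hl hp
  · rw [Finsupp.linearCombination_apply, Finsupp.sum, Prod.fst_sum]
    rfl
  · rw [Finsupp.linearCombination_apply, Finsupp.sum, Prod.snd_sum]
    rfl

theorem FS.Lam_inj (s : FS c) {y : U K G'} (hy : ((0 : U K G), y) ∈ s.Lam) : y = 0 := by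
  obtain ⟨P, d, hP, h1, h2⟩ := s.Lam_form hy
  have h3 := mU_indep s.T P hP d h1.symm
  change y = _ at h2
  rw [h2]
  exact Finset.sum_eq_zero fun p hp => by rw [h3 p hp, zero_smul]

theorem FS.Lam_unique (s : FS c) {x : U K G} {y y' : U K G'} (h : (x, y) ∈ s.Lam)
    (h' : (x, y') ∈ s.Lam) : y = y' := by
  have h1 := s.Lam.sub_mem h h'
  rw [Prod.mk_sub_mk, sub_self] at h1
  exact sub_eq_zero.mp (s.Lam_inj h1)

theorem FS.tau_ne_zero (s : FS c) {α : V × List E} (hα : α ∈ Psi s.T) :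
    star (s.τ α) * s.τ α ≠ 0 := by
  intro h
  have h1 := s.tau_mul hα hα rfl
  rw [h, mul_zero] at h1
  have h2 := s.rr α hα
  rw [← h1, zero_mul] at h2
  exact mU_ne_zero hα hα rfl (rr_zero (Pr.of_mU hα) h2)

/-- the second coordinate determines the first: `τ α ≠ 0` by `s.rr`, `rr_zero`-type argument -/
theorem FS.Lam_inj' (s : FS c) {x : U K G} (hx : (x, (0 : U K G')) ∈ s.Lam) : x = 0 := by
  classical
  obtain ⟨P, d, hP, h1, h2⟩ := s.Lam_form hx
  change x = _ at h1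
  change 0 = _ at h2
  rw [h1]
  refine Finset.sum_eq_zero fun p hp => ?_
  suffices hd : d p = 0 by rw [hd, zero_smul]
  have h3 : star (s.τ p.1) * (∑ x ∈ P, d x • (s.τ x.1 * star (s.τ x.2))) * s.τ p.2 =
      d p • (star (s.τ p.1) * s.τ p.1) := by
    rw [Finset.mul_sum, Finset.sum_mul, Finset.sum_eq_single p]
    · rw [mul_smul_comm, smul_mul_assoc]
      congr 1
      calc star (s.τ p.1) * (s.τ p.1 * star (s.τ p.2)) * s.τ p.2
          = star (s.τ p.1) * (s.τ p.1 * (star (s.τ p.2) * s.τ p.2)) := by noncomm_ring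
        _ = _ := by rw [s.tau_mul (hP p hp).1 (hP p hp).2.1 (hP p hp).2.2]
    · intro x hx hne
      rw [mul_smul_comm, smul_mul_assoc]
      have e1 : star (s.τ p.1) * (s.τ x.1 * star (s.τ x.2)) * s.τ p.2
          = (star (s.τ p.1) * s.τ x.1) * (star (s.τ x.2) * s.τ p.2) := by
        noncomm_ring
      rw [e1]
      by_cases h1 : p.1 = x.1
      · have h2 : x.2 ≠ p.2 := fun h2 => hne (Prod.ext h1.symm h2)
        rw [s.orth _ (hP x hx).2.1 _ (hP p hp).2.1 h2, mul_zero, smul_zero]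
      · rw [s.orth _ (hP p hp).1 _ (hP x hx).1 h1, zero_mul, smul_zero]
    · intro hp'
      exact absurd hp hp'
  rw [← h2, mul_zero, zero_mul] at h3
  rcases smul_eq_zero.mp h3.symm with h4 | h4
  · exact h4
  · exact absurd h4 (s.tau_ne_zero (hP p hp).1)

theorem FS.sum_mem_Lam (s : FS c) (P : Finset ((V × List E) × (V × List E)))
    (hP : ∀ p ∈ P, p.1 ∈ Psi s.T ∧ p.2 ∈ Psi s.T ∧ tg G p.1 = tg G p.2) :
    (∑ p ∈ P, mU K s.T p.1 p.2, ∑ p ∈ P, s.τ p.1 * star (s.τ p.2)) ∈ s.Lam := by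
  have h1 : (∑ p ∈ P, mU K s.T p.1 p.2, ∑ p ∈ P, s.τ p.1 * star (s.τ p.2)) =
      ∑ p ∈ P, (mU K s.T p.1 p.2, s.τ p.1 * star (s.τ p.2)) := by
    refine Prod.ext ?_ ?_
    · rw [Prod.fst_sum]
    · rw [Prod.snd_sum]
  rw [h1]
  exact Submodule.sum_mem _ fun p hp => s.mem_Lam (hP p hp).1 (hP p hp).2.1 (hP p hp).2.2

theorem FS.sum_mem_Lam' (s : FS c) (A : Finset (V × List E)) (f g : V × List E → V × List E)
    (hA : ∀ α ∈ A, f α ∈ Psi s.T ∧ g α ∈ Psi s.T ∧ tg G (f α) = tg G (g α)) :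
    (∑ α ∈ A, mU K s.T (f α) (g α), ∑ α ∈ A, s.τ (f α) * star (s.τ (g α))) ∈ s.Lam := by
  have h1 : (∑ α ∈ A, mU K s.T (f α) (g α), ∑ α ∈ A, s.τ (f α) * star (s.τ (g α))) =
      ∑ α ∈ A, (mU K s.T (f α) (g α), s.τ (f α) * star (s.τ (g α))) := by
    refine Prod.ext ?_ ?_
    · rw [Prod.fst_sum]
    · rw [Prod.snd_sum]
  rw [h1]
  exact Submodule.sum_mem _ fun α hα => s.mem_Lam (hA α hα).1 (hA α hα).2.1 (hA α hα).2.2

theorem FS.Lam_std (hG : G.LA) (hG' : G'.LA) (s : FS c) {x : U K G} {y : U K G'}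
    (h : (x, y) ∈ s.Lam) (hx : Std x) : Std y := by
  obtain ⟨P, hP, hinj, hxP⟩ := hx.of_Mspan hG (s.Lam_fst h)
  have h1 := s.sum_mem_Lam P hP
  rw [← hxP] at h1
  rw [s.Lam_unique h h1]
  refine Std.sum hG' P _ (fun p hp => ?_) ?_ ?_
  · exact (s.std _ (hP p hp).1).mul hG' (s.std _ (hP p hp).2.1).st
  · intro p hp p' hp' hne
    have h2 : p.1 ≠ p'.1 := fun h2 => hne (Prod.ext h2 ((hinj p hp p' hp').mp h2))
    rw [star_mul, star_star]
    exact s.tt_mul_ne (hP p hp).1 (hP p' hp').1 h2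
  · intro p hp p' hp' hne
    have h2 : p.2 ≠ p'.2 := fun h2 => hne (Prod.ext ((hinj p hp p' hp').mpr h2) h2)
    rw [star_mul, star_star]
    exact s.tt_mul_ne (hP p hp).2.1 (hP p' hp').2.1 h2

theorem FS.Lam_rr (hG : G.LA) (hG' : G'.LA) (s : FS c) {x : U K G} {y : U K G'}
    (h : (x, y) ∈ s.Lam) (hx : Pr x) : RR φ x y := by
  obtain ⟨A, hA, hxA⟩ := hx.form (hx.1.of_Mspan hG (s.Lam_fst h))
  have h1 := s.sum_mem_Lam' A id id fun α hα => ⟨hA α hα, hA α hα, rfl⟩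
  simp only [id] at h1
  rw [← hxA] at h1
  rw [s.Lam_unique h h1, hxA]
  refine RR.sum A _ _ (fun α hα => s.rr α (hA α hα)) (fun α hα => Pr.of_mU (hA α hα))
    (fun α hα => Pr.left hG' (s.std α (hA α hα))) ?_ ?_ hG hG'
  · intro α hα β hβ hne
    exact mU_mul_ne (hA α hα) (hA β hβ) hne
  · intro α hα β hβ hne
    exact s.tt_mul_ne (hA α hα) (hA β hβ) hne

/-- the form of the image of a vertex -/
theorem FS.Lam_vx_form (hG : G.LA) (s : FS c) {v : V} (hv : v ∈ s.T.Vt) {y : U K G'}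
    (h : (vx K G v, y) ∈ s.Lam) : ∃ A : Finset (V × List E),
      (∀ β ∈ A, β ∈ Psi s.T ∧ β.1 = v) ∧ vx K G v = ∑ β ∈ A, mU K s.T β β ∧
      y = ∑ β ∈ A, s.τ β * star (s.τ β) := by
  classical
  have h0 : vx K G v = ∑ β ∈ (PsiF s.T).filter (fun β => β.1 = v), mU K s.T β β :=
    q_eq_sum hG (fam_U K) (fun _ _ => Set.mem_univ _) hv
  have hA : ∀ β ∈ (PsiF s.T).filter (fun β => β.1 = v), β ∈ Psi s.T ∧ β.1 = v := by
    intro β hβ
    exact ⟨(mem_PsiF hG).mp (Finset.mem_filter.mp hβ).1, (Finset.mem_filter.mp hβ).2⟩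
  refine ⟨(PsiF s.T).filter (fun β => β.1 = v), hA, h0, ?_⟩
  have h1 := s.sum_mem_Lam' ((PsiF s.T).filter (fun β => β.1 = v)) id id fun α hα =>
    ⟨(hA α hα).1, (hA α hα).1, rfl⟩
  simp only [id] at h1
  rw [← h0] at h1
  exact s.Lam_unique h h1

/-- the pair of matrix units with both indices starting in the closed part -/
theorem FS.pair_mem (s : FS c) {α β : V × List E} (hα : α ∈ Psi s.T) (hβ : β ∈ Psi s.T)
    (h1 : α.1 ∈ c.H) (h2 : β.1 ∈ c.H) : (mU K s.T α β, s.τ α * star (s.τ β)) ∈ c.Θ :=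
  c.Θ.mul_mem (s.h1 α hα h1) (c.st _ (s.h1 β hβ h2))

/-- on the closed part it agrees with `c` -/
theorem FS.Lam_vx (hG : G.LA) (s : FS c) {v : V} (hv : v ∈ s.T.Vt) (hH : v ∈ c.H) {y : U K G'}
    (h : (vx K G v, y) ∈ s.Lam) : (vx K G v, y) ∈ c.Θ := by
  obtain ⟨A, hA, h1, h2⟩ := s.Lam_vx_form hG hv h
  have h3 : (vx K G v, y) = ∑ β ∈ A, (mU K s.T β β, s.τ β * star (s.τ β)) := by
    refine Prod.ext ?_ ?_
    · rw [Prod.fst_sum]; exact h1
    · rw [Prod.snd_sum]; exact h2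
  rw [h3]
  refine c.Θ.sum_mem fun β hβ => ?_
  have h4 : β.1 ∈ c.H := by rw [(hA β hβ).2]; exact hH
  exact s.pair_mem (hA β hβ).1 (hA β hβ).1 h4 h4

theorem FS.Lam_ed (hG : G.LA) (s : FS c) {e : E} (he : e ∈ s.T.Ft) (hH : G.s e ∈ c.H) {y : U K G'}
    (h : (ed K G e, y) ∈ s.Lam) : (ed K G e, y) ∈ c.Θ := by
  classical
  have h0 : ed K G e = ∑ γ ∈ (PsiF s.T).filter (fun β => β.1 = G.r e),
      mU K s.T (G.s e, e :: γ.2) γ :=
    u_eq_sum hG (fam_U K) (fun _ _ => Set.mem_univ _) he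
  have hA : ∀ β ∈ (PsiF s.T).filter (fun β => β.1 = G.r e), β ∈ Psi s.T ∧ β.1 = G.r e := by
    intro β hβ
    exact ⟨(mem_PsiF hG).mp (Finset.mem_filter.mp hβ).1, (Finset.mem_filter.mp hβ).2⟩
  have hB : ∀ γ ∈ (PsiF s.T).filter (fun β => β.1 = G.r e),
      (G.s e, e :: γ.2) ∈ Psi s.T ∧ γ ∈ Psi s.T ∧ tg G (G.s e, e :: γ.2) = tg G γ := by
    intro γ hγ
    have h1 := cons_mem_Psi he (hA γ hγ).1 (hA γ hγ).2
    exact ⟨h1.1, (hA γ hγ).1, h1.2⟩
  have h1 := s.sum_mem_Lam' ((PsiF s.T).filter (fun β => β.1 = G.r e))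
    (fun γ => (G.s e, e :: γ.2)) (fun γ => γ) hB
  rw [← h0] at h1
  rw [s.Lam_unique h h1]
  have h3 : (ed K G e, ∑ γ ∈ (PsiF s.T).filter (fun β => β.1 = G.r e),
      s.τ (G.s e, e :: γ.2) * star (s.τ γ)) =
      ∑ γ ∈ (PsiF s.T).filter (fun β => β.1 = G.r e),
        (mU K s.T (G.s e, e :: γ.2) γ, s.τ (G.s e, e :: γ.2) * star (s.τ γ)) := by
    refine Prod.ext ?_ ?_
    · rw [Prod.fst_sum]; exact h0
    · rw [Prod.snd_sum]
  rw [h3]
  refine c.Θ.sum_mem fun γ hγ => ?_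
  refine s.pair_mem (hB γ hγ).1 (hB γ hγ).2.1 hH ?_
  rw [(hA γ hγ).2]
  exact c.her e hH

/-- outside the closed part it is orthogonal to it -/
theorem FS.Lam_out (hG : G.LA) (s : FS c) {v : V} (hv : v ∈ s.T.Vt) (hH : v ∉ c.H) {y : U K G'}
    (h : (vx K G v, y) ∈ s.Lam) (w : V') (hw : w ∈ c.H') : vx K G' w * y = 0 := by
  obtain ⟨A, hA, h1, h2⟩ := s.Lam_vx_form hG hv h
  rw [h2, Finset.mul_sum]
  refine Finset.sum_eq_zero fun β hβ => ?_
  have h4 : β.1 ∉ c.H := by rw [(hA β hβ).2]; exact hH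
  rw [← mul_assoc, s.h2 β (hA β hβ).1 h4 w hw, zero_mul]

end Pool.Agent.Helper32.LV
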