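import Pool.Agent.Helper32.LV.Sym

/-! Isomorphisms from inverse homomorphisms on generators. -/

set_option autoImplicit false
set_option linter.unusedSectionVars false

universe k a b a' b'

namespace Pool.Agent.Helper32.LV

variable {V : Type a} {E : Type b} {K : Type k} [Field K] [StarRing K] {G : Gr V E}
  {V' : Type a'} {E' : Type b'} {G' : Gr V' E'}

/-- the induced homomorphism commutes with the involutions -/
theorem lift_star {q : V → U K G'} {u : E → U K G'}
    (h : IsRep K G q u (fun e => star (u e))) (hs : ∀ v, star (q v) = q v) (x : U K G) :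
    lift h (star x) = star (lift h x) := by
  refine U_ind (p := fun x => lift h (star x) = star (lift h x)) ?_ ?_ ?_ ?_ ?_ ?_ x
  · intro c
    rw [star_algebraMap', AlgHom.commutes, AlgHom.commutes, star_algebraMap']
  · intro v; rw [star_vx, lift_vx, hs]
  · intro e; rw [star_ed, lift_gh, lift_ed]
  · intro e; rw [star_gh, lift_gh, lift_ed, star_star]
  · intro x y hx hy; rw [star_add, map_add, map_add, star_add, hx, hy]
  · intro x y hx hy; rw [star_mul, map_mul, map_mul, star_mul, hx, hy]

theorem lift_mem {q : V → U K G'} {u : E → U K G'}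
    (h : IsRep K G q u (fun e => star (u e)))
    (hq : ∀ v, q v ∈ L K G') (hu : ∀ e, u e ∈ L K G') {x : U K G} (hx : x ∈ L K G) :
    lift h x ∈ L K G' := by
  refine L_ind (p := fun x => lift h x ∈ L K G') ?_ ?_ ?_ ?_ ?_ ?_ ?_ hx
  · intro v; rw [lift_vx]; exact hq v
  · intro e; rw [lift_ed]; exact hu e
  · intro e; rw [lift_gh]; exact star_mem_L (hu e)
  · rw [map_zero]; exact (L K G').zero_mem
  · intro x _ y _ h1 h2; rw [map_add]; exact (L K G').add_mem h1 h2
  · intro x _ y _ h1 h2; rw [map_mul]; exact (L K G').mul_mem h1 h2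
  · intro c x _ h1; rw [map_smul]; exact (L K G').smul_mem _ h1

theorem lift_lift {q : V → U K G'} {u : E → U K G'} {q' : V' → U K G} {u' : E' → U K G}
    (h : IsRep K G q u (fun e => star (u e))) (h' : IsRep K G' q' u' (fun e => star (u' e)))
    (h1 : ∀ v, lift h' (q v) = vx K G v) (h2 : ∀ e, lift h' (u e) = ed K G e)
    (hs' : ∀ v, star (q' v) = q' v) (x : U K G) : lift h' (lift h x) = x := by
  refine U_ind (p := fun x => lift h' (lift h x) = x) ?_ ?_ ?_ ?_ ?_ ?_ x
  · intro c; rw [AlgHom.commutes, AlgHom.commutes]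
  · intro v; rw [lift_vx, h1]
  · intro e; rw [lift_ed, h2]
  · intro e; rw [lift_gh, lift_star h' hs', h2, star_ed]
  · intro x y hx hy; rw [map_add, map_add, hx, hy]
  · intro x y hx hy; rw [map_mul, map_mul, hx, hy]

/-- the hypotheses on the images `q v` of the vertices and `u e` of the edges -/
theorem mkEquiv {q : V → U K G'} {u : E → U K G'} {q' : V' → U K G} {u' : E' → U K G}
    (h : IsRep K G q u (fun e => star (u e))) (h' : IsRep K G' q' u' (fun e => star (u' e)))
    (hq : ∀ v, q v ∈ L K G') (hu : ∀ e, u e ∈ L K G')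
    (hq' : ∀ v, q' v ∈ L K G) (hu' : ∀ e, u' e ∈ L K G)
    (h1 : ∀ v, lift h' (q v) = vx K G v) (h2 : ∀ e, lift h' (u e) = ed K G e)
    (h1' : ∀ v, lift h (q' v) = vx K G' v) (h2' : ∀ e, lift h (u' e) = ed K G' e)
    (hs : ∀ v, star (q v) = q v) (hs' : ∀ v, star (q' v) = q' v) :
    Nonempty (L K G ≃⋆ₐ[K] L K G') := by
  refine ⟨{ toFun := fun x => ⟨lift h x.1, lift_mem h hq hu x.2⟩
            invFun := fun x => ⟨lift h' x.1, lift_mem h' hq' hu' x.2⟩
            left_inv := fun x => Subtype.ext (lift_lift h h' h1 h2 hs' x.1)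
            right_inv := fun x => Subtype.ext (lift_lift h' h h1' h2' hs x.1)
            map_mul' := fun x y => Subtype.ext (map_mul (lift h) x.1 y.1)
            map_add' := fun x y => Subtype.ext (map_add (lift h) x.1 y.1)
            map_star' := fun x => Subtype.ext (lift_star h hs x.1)
            map_smul' := fun c x => Subtype.ext (map_smul (lift h) c x.1) }⟩

end Pool.Agent.Helper32.LV
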