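import Pool.Agent.Helper32.LV.Zorn
import Pool.Agent.Helper32.LV.MkEq
import Pool.Agent.Helper32.LV.Kappa

/-! Matching of the loops and the final isomorphism. PIECE 21. -/

set_option autoImplicit false
set_option linter.unusedSectionVars false

universe k a b a' b'

namespace Pool.Agent.Helper32.LV

variable {V : Type a} {E : Type b} {K : Type k} [Field K] [StarRing K] {G : Gr V E}
  {V' : Type a'} {E' : Type b'} {G' : Gr V' E'} {φ : RI K G G'}

theorem loops_alg0_le {H : Set V} {x : U K G} (hx : x ∈ alg0 K G H) : x ∈ L K G := by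
  refine (NonUnitalAlgebra.adjoin_le ?_ : alg0 K G H ≤ L K G) hx
  rintro y (⟨v, -, rfl⟩ | ⟨e, -, -, rfl | rfl⟩)
  · exact vx_mem v
  · exact ed_mem e
  · exact gh_mem e

theorem loops_uniq (c : CP φ) {x : U K G} {y y' : U K G'} (h : (x, y) ∈ c.Θ)
    (h' : (x, y') ∈ c.Θ) : y = y' := by
  have h1 := c.Θ.sub_mem h h'
  rw [Prod.mk_sub_mk, sub_self] at h1
  exact sub_eq_zero.1 (c.inj _ h1)

theorem loops_uniq' (c : CP φ) {x x' : U K G} {y : U K G'} (h : (x, y) ∈ c.Θ)
    (h' : (x', y) ∈ c.Θ) : x = x' := by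
  have h1 := c.Θ.sub_mem h h'
  rw [Prod.mk_sub_mk, sub_self] at h1
  exact sub_eq_zero.1 (c.inj' _ h1)

theorem loops_star (c : CP φ) {x : U K G} {y : U K G'} (h : (x, y) ∈ c.Θ) :
    (star x, star y) ∈ c.Θ := c.st _ h

theorem loops_mul (c : CP φ) {x x' : U K G} {y y' : U K G'} (h : (x, y) ∈ c.Θ)
    (h' : (x', y') ∈ c.Θ) : (x * x', y * y') ∈ c.Θ := c.Θ.mul_mem h h'

theorem loops_sum (c : CP φ) {ι : Type*} (s : Finset ι) (f : ι → U K G) (g : ι → U K G')
    (h : ∀ i ∈ s, (f i, g i) ∈ c.Θ) : (∑ i ∈ s, f i, ∑ i ∈ s, g i) ∈ c.Θ := by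
  have h1 : ((∑ i ∈ s, f i, ∑ i ∈ s, g i) : U K G × U K G') = ∑ i ∈ s, (f i, g i) :=
    Prod.ext (by rw [Prod.fst_sum]) (by rw [Prod.snd_sum])
  rw [h1]
  exact sum_mem h

/-- a bijection of the loops -/
theorem loops_kappa (hG : G.LA) (hG' : G'.LA) (φ : RI K G G') :
    ∃ κ : {e : E // G.s e = G.r e} ≃ {e : E' // G'.s e = G'.r e},
      ∀ e, RR φ (vx K G (G.s e.1)) (vx K G' (G'.s (κ e).1)) := by
  have h1 : ∀ e : {e : E // G.s e = G.r e}, ∃ e' : {e : E' // G'.s e = G'.r e},
      RR φ (vx K G (G.s e.1)) (vx K G' (G'.s e'.1)) := by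
    rintro ⟨e, he⟩
    obtain ⟨e', he', h⟩ := kappa hG hG' φ he
    exact ⟨⟨e', he'⟩, h⟩
  choose f hf using h1
  have hb : Function.Bijective f := by
    constructor
    · intro e e2 h
      have h2 := (hf e).symm (vx_mem _)
      have h3 := (hf e2).symm (vx_mem _)
      rw [h] at h2
      have h4 : Eqv K G (vx K G (G.s e.1)) (vx K G (G.s e2.1)) :=
        Eqv.trans (Eqv.symm h2) h3 (vx_vx _) (vx_vx _)
      exact Subtype.ext (loop_uniq hG e.2 e2.2 h4)
    · rintro ⟨e', he'⟩
      obtain ⟨e, he, h⟩ := kappa hG' hG φ.symm he'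
      have h2 : RR φ (vx K G (G.s e)) (vx K G' (G'.s e')) := h.symm (vx_mem _)
      have h3 : Eqv K G' (vx K G' (G'.s (f ⟨e, he⟩).1)) (vx K G' (G'.s e')) :=
        Eqv.trans (Eqv.symm (hf ⟨e, he⟩)) h2 (vx_vx _) (vx_vx _)
      exact ⟨⟨e, he⟩, Subtype.ext (loop_uniq hG' (f ⟨e, he⟩).2 he' h3)⟩
  exact ⟨Equiv.ofBijective f hb, hf⟩

/-- the family with the images of the loops -/
theorem loops_isRep (hG : G.LA) (hG' : G'.LA) (c : CP φ) {q : V → U K G'} {u : E → U K G'}
    (hq : ∀ v, (vx K G v, q v) ∈ c.Θ)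
    (hu : ∀ e, G.s e ≠ G.r e → (ed K G e, u e) ∈ c.Θ)
    (hl : ∀ e, G.s e = G.r e → ∃ (e' : E') (t : U K G'), G'.s e' = G'.r e' ∧
      t * star t * t = t ∧ t * star t = q (G.s e) ∧ star t * t = vx K G' (G'.s e') ∧
      u e = t * ed K G' e' * star t) :
    IsRep K G q u (fun e => star (u e)) := by
  have qs : ∀ v, star (q v) = q v := by
    intro v
    have h1 := loops_star c (hq v)
    rw [star_vx] at h1
    exact loops_uniq c h1 (hq v)
  have qq : ∀ v, q v * q v = q v := by
    intro v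
    have h1 := loops_mul c (hq v) (hq v)
    rw [vx_vx] at h1
    exact loops_uniq c h1 (hq v)
  have qw : ∀ v w, v ≠ w → q v * q w = 0 := by
    intro v w hne
    have h1 := loops_mul c (hq v) (hq w)
    rw [vx_vx_of_ne hne] at h1
    exact c.inj _ h1
  have su : ∀ e, q (G.s e) * u e = u e := by
    intro e
    by_cases he : G.s e = G.r e
    · obtain ⟨e', t, h1, h2, h3, h4, h5⟩ := hl e he
      rw [h5, ← h3]
      calc t * star t * (t * ed K G' e' * star t) = (t * star t * t) * ed K G' e' * star t := by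
            noncomm_ring
        _ = _ := by rw [h2]
    · have h1 := loops_mul c (hq (G.s e)) (hu e he)
      rw [vx_ed] at h1
      exact loops_uniq c h1 (hu e he)
  have ur : ∀ e, u e * q (G.r e) = u e := by
    intro e
    by_cases he : G.s e = G.r e
    · obtain ⟨e', t, h1, h2, h3, h4, h5⟩ := hl e he
      have h6 : star t * t * star t = star t := by
        have := congrArg star h2
        simpa [star_mul, mul_assoc] using this
      rw [← he, h5, ← h3]
      calc t * ed K G' e' * star t * (t * star t) = t * ed K G' e' * (star t * t * star t) := by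
            noncomm_ring
        _ = _ := by rw [h6]
    · have h1 := loops_mul c (hu e he) (hq (G.r e))
      rw [ed_vx] at h1
      exact loops_uniq c h1 (hu e he)
  have uu : ∀ e, star (u e) * u e = q (G.r e) := by
    intro e
    by_cases he : G.s e = G.r e
    · obtain ⟨e', t, h1, h2, h3, h4, h5⟩ := hl e he
      rw [← he, h5, ← h3]
      have h6 : star (t * ed K G' e' * star t) = t * gh K G' e' * star t := by
        rw [star_mul, star_mul, star_star, star_ed, mul_assoc]
      rw [h6]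
      calc t * gh K G' e' * star t * (t * ed K G' e' * star t) =
            t * gh K G' e' * (star t * t) * ed K G' e' * star t := by noncomm_ring
        _ = t * (gh K G' e' * vx K G' (G'.s e')) * ed K G' e' * star t := by
            rw [h4]; noncomm_ring
        _ = t * (gh K G' e' * ed K G' e') * star t := by
            rw [gh_vx]; noncomm_ring
        _ = t * (star t * t) * star t := by rw [gh_ed, h4, h1]
        _ = (t * star t * t) * star t := by noncomm_ring
        _ = _ := by rw [h2]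
    · have h1 := loops_mul c (loops_star c (hu e he)) (hu e he)
      rw [star_ed, gh_ed] at h1
      exact loops_uniq c h1 (hq _)
  have gs : ∀ e, star (u e) * q (G.s e) = star (u e) := by
    intro e
    have := congrArg star (su e)
    rwa [star_mul, qs] at this
  refine {
    vv := qq
    vw := qw
    se := su
    er := ur
    rg := ?_
    gs := gs
    ge := uu
    gf := ?_
    ck := ?_ }
  · intro e
    have := congrArg star (ur e)
    rwa [star_mul, qs] at this
  · intro e f hne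
    by_cases hs : G.s e = G.s f
    · have he : G.s e ≠ G.r e := fun h => hne (hG.loop e f h hs.symm).symm
      have hf : G.s f ≠ G.r f := fun h => hne (hG.loop f e h hs)
      have h1 := loops_mul c (loops_star c (hu e he)) (hu f hf)
      rw [star_ed, gh_ed_of_ne hne] at h1
      exact c.inj _ h1
    · change star (u e) * u f = 0
      rw [← gs e, ← su f]
      calc star (u e) * q (G.s e) * (q (G.s f) * u f) =
            star (u e) * (q (G.s e) * q (G.s f)) * u f := by noncomm_ring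
        _ = 0 := by rw [qw _ _ hs, mul_zero, zero_mul]
  · intro v hfin h0
    by_cases hlp : ∃ e, G.s e = v ∧ G.s e = G.r e
    · obtain ⟨e, rfl, he⟩ := hlp
      have h1 : hfin.toFinset = {e} := by
        ext f
        rw [Set.Finite.mem_toFinset, Finset.mem_singleton]
        exact ⟨fun hf => hG.loop e f he hf, fun hf => by rw [hf]; rfl⟩
      rw [h1, Finset.sum_singleton]
      obtain ⟨e', t, h1, h2, h3, h4, h5⟩ := hl e he
      rw [h5, ← h3]
      have h6 : star (t * ed K G' e' * star t) = t * gh K G' e' * star t := by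
        rw [star_mul, star_mul, star_star, star_ed, mul_assoc]
      rw [h6]
      symm
      calc t * ed K G' e' * star t * (t * gh K G' e' * star t) =
            t * ed K G' e' * (star t * t) * gh K G' e' * star t := by noncomm_ring
        _ = t * (ed K G' e' * vx K G' (G'.r e')) * gh K G' e' * star t := by
            rw [h4, h1]; noncomm_ring
        _ = t * (ed K G' e' * gh K G' e') * star t := by
            rw [ed_vx]; noncomm_ring
        _ = t * (star t * t) * star t := by rw [ed_gh_loop hG' h1, h4]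
        _ = (t * star t * t) * star t := by noncomm_ring
        _ = _ := by rw [h2]
    · have hnl : ∀ e, G.s e = v → G.s e ≠ G.r e := fun e he h => hlp ⟨e, he, h⟩
      have h1 := loops_sum c hfin.toFinset (fun e => ed K G e * gh K G e)
        (fun e => u e * star (u e)) (by
          intro e he
          have he' : G.s e = v := by simpa using he
          have h2 := hu e (hnl e he')
          have h3 := loops_mul c h2 (loops_star c h2)
          rw [star_ed] at h3
          exact h3)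
      rw [← vx_eq_sum v hfin h0] at h1
      exact loops_uniq c (hq v) h1

/-- the homomorphism of the family extends the closed isomorphism -/
theorem loops_lift (c : CP φ) (hH : c.H = Set.univ) {q : V → U K G'} {u : E → U K G'}
    (h : IsRep K G q u (fun e => star (u e)))
    (hq : ∀ v, (vx K G v, q v) ∈ c.Θ)
    (hu : ∀ e, G.s e ≠ G.r e → (ed K G e, u e) ∈ c.Θ) {x : U K G} {y : U K G'}
    (hxy : (x, y) ∈ c.Θ) : lift h x = y := by
  have hx : x ∈ alg0 K G c.H := (c.dom x).2 ⟨y, hxy⟩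
  have h1 : (x, lift h x) ∈ c.Θ := by
    clear hxy
    induction hx using NonUnitalAlgebra.adjoin_induction with
    | mem x hx =>
      rcases hx with ⟨v, -, rfl⟩ | ⟨e, -, he, rfl | rfl⟩
      · rw [lift_vx]; exact hq v
      · rw [lift_ed]; exact hu e he
      · rw [lift_gh]
        have h2 := loops_star c (hu e he)
        rwa [star_ed] at h2
    | zero => rw [map_zero]; exact zero_mem _
    | add x z _ _ h1 h2 => rw [map_add]; exact c.Θ.add_mem h1 h2
    | mul x z _ _ h1 h2 => rw [map_mul]; exact c.Θ.mul_mem h1 h2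
    | smul r x _ h1 => rw [map_smul]; exact c.Θ.smul_mem r h1
  exact loops_uniq c h1 hxy

/-- PIECE 21. With a bijection `κ` of the loops (`kappa` for `φ` and its inverse, `loop_uniq`) and
for every loop `e` a standard `t` with `t t* = q (s e)`, `t* t = vx (s (κ e))` (`F2`) put
`u e = t * ed (κ e) * t*`; on the other edges and the vertices take the images under `c`. The
inverse: `u' (κ e) = s* * ed e * s` with `(s, t) ∈ c.Θ`. Then `mkEquiv`. -/
theorem loops_final (hG : G.LA) (hG' : G'.LA) (c : CP φ) (h : c.H = Set.univ)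
    (h' : c.H' = Set.univ) : Nonempty (L K G ≃⋆ₐ[K] L K G') := by
  classical
  have hqe : ∀ v, ∃ y, (vx K G v, y) ∈ c.Θ := fun v =>
    (c.dom _).1 (vx_mem_alg0 (by rw [h]; trivial))
  choose q hq using hqe
  have hqe' : ∀ v, ∃ x, (x, vx K G' v) ∈ c.Θ := fun v =>
    (c.ran _).1 (vx_mem_alg0 (by rw [h']; trivial))
  choose q' hq' using hqe'
  have hwe : ∀ e, ∃ y, G.s e ≠ G.r e → (ed K G e, y) ∈ c.Θ := by
    intro e
    by_cases he : G.s e = G.r e
    · exact ⟨0, fun hne => absurd he hne⟩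
    · obtain ⟨y, hy⟩ := (c.dom _).1 (ed_mem_alg0 (K := K) (G := G) (H := c.H) (e := e)
        (by rw [h]; trivial) he)
      exact ⟨y, fun _ => hy⟩
  choose w hw using hwe
  have hwe' : ∀ e, ∃ x, G'.s e ≠ G'.r e → (x, ed K G' e) ∈ c.Θ := by
    intro e
    by_cases he : G'.s e = G'.r e
    · exact ⟨0, fun hne => absurd he hne⟩
    · obtain ⟨x, hx⟩ := (c.ran _).1 (ed_mem_alg0 (K := K) (G := G') (H := c.H') (e := e)
        (by rw [h']; trivial) he)
      exact ⟨x, fun _ => hx⟩
  choose w' hw' using hwe'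
  obtain ⟨κ, hκ⟩ := loops_kappa hG hG' φ
  have qs : ∀ v, star (q v) = q v := by
    intro v
    have h1 := loops_star c (hq v)
    rw [star_vx] at h1
    exact loops_uniq c h1 (hq v)
  have qq : ∀ v, q v * q v = q v := by
    intro v
    have h1 := loops_mul c (hq v) (hq v)
    rw [vx_vx] at h1
    exact loops_uniq c h1 (hq v)
  have qs' : ∀ v, star (q' v) = q' v := by
    intro v
    have h1 := loops_star c (hq' v)
    rw [star_vx] at h1
    exact loops_uniq' c h1 (hq' v)
  have hdata : ∀ e : {e : E // G.s e = G.r e}, ∃ (t : U K G') (s : U K G), (s, t) ∈ c.Θ ∧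
      t * star t * t = t ∧ t * star t = q (G.s e.1) ∧
      star t * t = vx K G' (G'.s (κ e).1) ∧ s * star s * s = s ∧ s * star s = vx K G (G.s e.1) ∧
      star s * s = q' (G'.s (κ e).1) := by
    intro e
    have h1 : RR φ (vx K G (G.s e.1)) (q (G.s e.1)) := c.rr _ _ (hq _) (Pr.of_vx hG _)
    have h2 : Pr (q (G.s e.1)) := ⟨(c.std _ _ (hq _)).1 (Std.of_vx hG _), qs _, qq _⟩
    have h3 : Eqv K G' (q (G.s e.1)) (vx K G' (G'.s (κ e).1)) :=
      Eqv.trans (Eqv.symm h1) (hκ e) (qq _) (vx_vx _)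
    obtain ⟨t, ht, h4, h5⟩ := F2 hG' h2 (Pr.of_vx hG' _) h3
    have h6 : t ∈ alg0 K G' c.H' := by
      obtain ⟨T, hT⟩ := ht
      exact Mspan_le_alg0 c.her' (by intro v _; rw [h']; trivial) hT.mem_Mspan
    obtain ⟨s, hs⟩ := (c.ran _).1 h6
    refine ⟨t, s, hs, ht.mul_star_mul, h4, h5, ?_, ?_, ?_⟩
    · have h7 := loops_mul c (loops_mul c hs (loops_star c hs)) hs
      rw [ht.mul_star_mul] at h7
      exact loops_uniq' c h7 hs
    · have h7 := loops_mul c hs (loops_star c hs)
      rw [h4] at h7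
      exact loops_uniq' c h7 (hq _)
    · have h7 := loops_mul c (loops_star c hs) hs
      rw [h5] at h7
      exact loops_uniq' c h7 (hq' _)
  choose t s hst ht1 ht2 ht3 hs1 hs2 hs3 using hdata
  let u : E → U K G' := fun e => if he : G.s e = G.r e then
    t ⟨e, he⟩ * ed K G' (κ ⟨e, he⟩).1 * star (t ⟨e, he⟩) else w e
  let u' : E' → U K G := fun e => if he : G'.s e = G'.r e then
    star (s (κ.symm ⟨e, he⟩)) * ed K G (κ.symm ⟨e, he⟩).1 * s (κ.symm ⟨e, he⟩) else w' e
  have hul : ∀ (e : E) (he : G.s e = G.r e),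
      u e = t ⟨e, he⟩ * ed K G' (κ ⟨e, he⟩).1 * star (t ⟨e, he⟩) := fun e he => dif_pos he
  have hul' : ∀ (e : E') (he : G'.s e = G'.r e),
      u' e = star (s (κ.symm ⟨e, he⟩)) * ed K G (κ.symm ⟨e, he⟩).1 * s (κ.symm ⟨e, he⟩) :=
    fun e he => dif_pos he
  have hun : ∀ e, G.s e ≠ G.r e → (ed K G e, u e) ∈ c.Θ := by
    intro e he
    have h1 : u e = w e := dif_neg he
    rw [h1]
    exact hw e he
  have hun' : ∀ e, G'.s e ≠ G'.r e → (u' e, ed K G' e) ∈ c.Θ := by
    intro e he
    have h1 : u' e = w' e := dif_neg he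
    rw [h1]
    exact hw' e he
  have hR : IsRep K G q u (fun e => star (u e)) := by
    refine loops_isRep hG hG' c hq hun ?_
    intro e he
    exact ⟨(κ ⟨e, he⟩).1, t ⟨e, he⟩, (κ ⟨e, he⟩).2, ht1 _, ht2 _, ht3 _, hul e he⟩
  have hR' : IsRep K G' q' u' (fun e => star (u' e)) := by
    refine loops_isRep hG' hG c.symm hq' hun' ?_
    intro e he
    refine ⟨(κ.symm ⟨e, he⟩).1, star (s (κ.symm ⟨e, he⟩)), (κ.symm ⟨e, he⟩).2, ?_, ?_, ?_, ?_⟩
    · have h1 := congrArg star (hs1 (κ.symm ⟨e, he⟩))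
      rw [star_mul, star_mul, star_star, ← mul_assoc] at h1
      rw [star_star]
      exact h1
    · rw [star_star, hs3, Equiv.apply_symm_apply]
    · rw [star_star, hs2]
    · rw [star_star]
      exact hul' e he
  have hL : ∀ {x : U K G} {y : U K G'}, (x, y) ∈ c.Θ → lift hR x = y := fun hxy =>
    loops_lift c h hR hq hun hxy
  have hL' : ∀ {x : U K G} {y : U K G'}, (x, y) ∈ c.Θ → lift hR' y = x := fun {x y} hxy =>
    loops_lift c.symm h' hR' hq' hun' (show (y, x) ∈ c.symm.Θ from hxy)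
  have hqm : ∀ v, q v ∈ L K G' := fun v => loops_alg0_le ((c.ran _).2 ⟨_, hq v⟩)
  have hqm' : ∀ v, q' v ∈ L K G := fun v => loops_alg0_le ((c.dom _).2 ⟨_, hq' v⟩)
  have htm : ∀ e, t e ∈ L K G' := fun e => loops_alg0_le ((c.ran _).2 ⟨_, hst e⟩)
  have hsm : ∀ e, s e ∈ L K G := fun e => loops_alg0_le ((c.dom _).2 ⟨_, hst e⟩)
  have h2 : ∀ e, lift hR' (u e) = ed K G e := by
    intro e
    by_cases he : G.s e = G.r e
    · rw [hul e he, map_mul, map_mul, hL' (hst ⟨e, he⟩), hL' (loops_star c (hst ⟨e, he⟩)),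
        lift_ed, hul' _ (κ ⟨e, he⟩).2]
      have h3 : κ.symm ⟨(κ ⟨e, he⟩).1, (κ ⟨e, he⟩).2⟩ = ⟨e, he⟩ := by
        rw [Subtype.coe_eta, Equiv.symm_apply_apply]
      rw [h3]
      calc s ⟨e, he⟩ * (star (s ⟨e, he⟩) * ed K G e * s ⟨e, he⟩) * star (s ⟨e, he⟩) =
            (s ⟨e, he⟩ * star (s ⟨e, he⟩)) * ed K G e * (s ⟨e, he⟩ * star (s ⟨e, he⟩)) := by
            noncomm_ring
        _ = vx K G (G.s e) * ed K G e * vx K G (G.r e) := by rw [hs2, ← he]
        _ = ed K G e := by rw [vx_ed, ed_vx]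
    · exact hL' (hun e he)
  have h2' : ∀ e, lift hR (u' e) = ed K G' e := by
    intro e
    by_cases he : G'.s e = G'.r e
    · have h3 : κ (κ.symm ⟨e, he⟩) = ⟨e, he⟩ := Equiv.apply_symm_apply _ _
      rw [hul' e he, map_mul, map_mul, hL (hst _), hL (loops_star c (hst _)),
        lift_ed, hul _ (κ.symm ⟨e, he⟩).2]
      have h4 : (⟨(κ.symm ⟨e, he⟩).1, (κ.symm ⟨e, he⟩).2⟩ : {e : E // G.s e = G.r e}) =
        κ.symm ⟨e, he⟩ := Subtype.coe_eta _ _
      rw [h4]
      have h5 := ht3 (κ.symm ⟨e, he⟩)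
      rw [h3] at h5
      rw [h3]
      calc star (t (κ.symm ⟨e, he⟩)) * (t (κ.symm ⟨e, he⟩) * ed K G' e *
            star (t (κ.symm ⟨e, he⟩))) * t (κ.symm ⟨e, he⟩) =
            (star (t (κ.symm ⟨e, he⟩)) * t (κ.symm ⟨e, he⟩)) * ed K G' e *
              (star (t (κ.symm ⟨e, he⟩)) * t (κ.symm ⟨e, he⟩)) := by
            noncomm_ring
        _ = vx K G' (G'.s e) * ed K G' e * vx K G' (G'.r e) := by rw [h5, ← he]
        _ = ed K G' e := by rw [vx_ed, ed_vx]
    · exact hL (hun' e he)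
  refine mkEquiv hR hR' hqm ?_ hqm' ?_ (fun v => hL' (hq v)) h2 (fun v => hL (hq' v)) h2' qs qs'
  · intro e
    by_cases he : G.s e = G.r e
    · rw [hul e he]
      exact (L K G').mul_mem ((L K G').mul_mem (htm _) (ed_mem _)) (star_mem_L (htm _))
    · exact loops_alg0_le ((c.ran _).2 ⟨_, hun e he⟩)
  · intro e
    by_cases he : G'.s e = G'.r e
    · rw [hul' e he]
      exact (L K G).mul_mem ((L K G).mul_mem (star_mem_L (hsm _)) (ed_mem _)) (hsm _)
    · exact loops_alg0_le ((c.dom _).2 ⟨_, hun' e he⟩)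

/-- a ring isomorphism in functional form -/
theorem exists_RI (f : L K G ≃+* L K G') : Nonempty (RI K G G') := by
  classical
  let F : U K G → U K G' := fun x => if hx : x ∈ L K G then (f ⟨x, hx⟩ : U K G') else 0
  let F' : U K G' → U K G := fun y => if hy : y ∈ L K G' then (f.symm ⟨y, hy⟩ : U K G) else 0
  have hF : ∀ (x : U K G) (hx : x ∈ L K G), F x = (f ⟨x, hx⟩ : U K G') := fun x hx => dif_pos hx
  have hF' : ∀ (y : U K G') (hy : y ∈ L K G'), F' y = (f.symm ⟨y, hy⟩ : U K G) :=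
    fun y hy => dif_pos hy
  refine ⟨{
    f := F
    g := F'
    f_mem := ?_
    g_mem := ?_
    f_add := ?_
    f_mul := ?_
    g_add := ?_
    g_mul := ?_
    gf := ?_
    fg := ?_ }⟩
  · intro x hx
    rw [hF x hx]
    exact (f ⟨x, hx⟩).2
  · intro y hy
    rw [hF' y hy]
    exact (f.symm ⟨y, hy⟩).2
  · intro x hx y hy
    rw [hF x hx, hF y hy, hF _ ((L K G).add_mem hx hy)]
    have h1 : (⟨x + y, (L K G).add_mem hx hy⟩ : L K G) = ⟨x, hx⟩ + ⟨y, hy⟩ := rfl
    rw [h1, map_add]
    rfl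
  · intro x hx y hy
    rw [hF x hx, hF y hy, hF _ ((L K G).mul_mem hx hy)]
    have h1 : (⟨x * y, (L K G).mul_mem hx hy⟩ : L K G) = ⟨x, hx⟩ * ⟨y, hy⟩ := rfl
    rw [h1, map_mul]
    rfl
  · intro x hx y hy
    rw [hF' x hx, hF' y hy, hF' _ ((L K G').add_mem hx hy)]
    have h1 : (⟨x + y, (L K G').add_mem hx hy⟩ : L K G') = ⟨x, hx⟩ + ⟨y, hy⟩ := rfl
    rw [h1, map_add]
    rfl
  · intro x hx y hy
    rw [hF' x hx, hF' y hy, hF' _ ((L K G').mul_mem hx hy)]
    have h1 : (⟨x * y, (L K G').mul_mem hx hy⟩ : L K G') = ⟨x, hx⟩ * ⟨y, hy⟩ := rfl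
    rw [h1, map_mul]
    rfl
  · intro x hx
    rw [hF x hx, hF' _ (f ⟨x, hx⟩).2]
    have h1 : (⟨((f ⟨x, hx⟩ : L K G') : U K G'), (f ⟨x, hx⟩).2⟩ : L K G') = f ⟨x, hx⟩ := rfl
    rw [h1, RingEquiv.symm_apply_apply]
  · intro y hy
    rw [hF' y hy, hF _ (f.symm ⟨y, hy⟩).2]
    have h1 : (⟨((f.symm ⟨y, hy⟩ : L K G) : U K G), (f.symm ⟨y, hy⟩).2⟩ : L K G) =
      f.symm ⟨y, hy⟩ := rfl
    rw [h1, RingEquiv.apply_symm_apply]

theorem main_LA (hG : G.LA) (hG' : G'.LA) (hC : G.CE) (hC' : G'.CE)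
    (h : Nonempty (L K G ≃+* L K G')) : Nonempty (L K G ≃⋆ₐ[K] L K G') := by
  obtain ⟨f⟩ := h
  obtain ⟨φ⟩ := exists_RI f
  obtain ⟨c, h1, h2⟩ := exists_full hG hG' hC hC' φ
  exact loops_final hG hG' c h1 h2

end Pool.Agent.Helper32.LV
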