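import Pool.Agent.Helper32.LV.Fam

/-! Matrix units of the stages. PIECE 4. -/

set_option autoImplicit false
set_option linter.unusedSectionVars false
set_option linter.unusedVariables false

universe k a b

namespace Pool.Agent.Helper32.LV

variable {V : Type a} {E : Type b} {K : Type k} [Field K] [StarRing K] {G : Gr V E}

theorem gapU_star (T : Stage G) (w : V) : star (gapU K T w) = gapU K T w :=
  gapB_star (fam_U K) T (Set.mem_univ w)

theorem gapU_idem (T : Stage G) (w : V) : gapU K T w * gapU K T w = gapU K T w :=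
  gapB_idem (fam_U K) T (Set.mem_univ w)

theorem aU_nil (T : Stage G) (w : V) : aU K T (w, []) = gapU K T w :=
  aB_nil (fam_U K) T (Set.mem_univ w)

theorem aU_gapU {T : Stage G} {α : V × List E} (hα : α ∈ Psi T) :
    aU K T α * gapU K T (tg G α) = aU K T α :=
  aB_gapB (fam_U K) (fun _ _ => Set.mem_univ _) hα

theorem aU_star_aU_self {T : Stage G} {α : V × List E} (hα : α ∈ Psi T) :
    star (aU K T α) * aU K T α = gapU K T (tg G α) :=
  aB_star_aB_self (fam_U K) (fun _ _ => Set.mem_univ _) hα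

theorem aU_star_aU_ne {T : Stage G} {α β : V × List E} (hα : α ∈ Psi T) (hβ : β ∈ Psi T)
    (hne : α ≠ β) : star (aU K T α) * aU K T β = 0 :=
  aB_star_aB_ne (fam_U K) (fun _ _ => Set.mem_univ _) hα hβ hne

theorem mU_star (T : Stage G) (α β : V × List E) : star (mU K T α β) = mU K T β α := by
  rw [mU, mU, star_mul, star_star]

theorem mU_mul_same {T : Stage G} {α β : V × List E} (hα : α ∈ Psi T) (hβ : β ∈ Psi T)
    (h : tg G α = tg G β) (δ : V × List E) : mU K T α β * mU K T β δ = mU K T α δ := by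
  rw [mU, mU, mU]
  calc aU K T α * star (aU K T β) * (aU K T β * star (aU K T δ))
      = aU K T α * (star (aU K T β) * aU K T β) * star (aU K T δ) := by noncomm_ring
    _ = _ := by rw [aU_star_aU_self hβ, ← h, aU_gapU hα]

theorem mU_mul_ne {T : Stage G} {α β γ δ : V × List E} (hβ : β ∈ Psi T) (hγ : γ ∈ Psi T)
    (h : β ≠ γ) : mU K T α β * mU K T γ δ = 0 := by
  rw [mU, mU]
  calc aU K T α * star (aU K T β) * (aU K T γ * star (aU K T δ))
      = aU K T α * (star (aU K T β) * aU K T γ) * star (aU K T δ) := by noncomm_ring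
    _ = _ := by rw [aU_star_aU_ne hβ hγ h]; simp

/-- an edge outside the stage is not affected by the gap -/
theorem gapU_ed_of_notMem (T : Stage G) {e : E} (he : e ∉ T.Ft) :
    gapU K T (G.s e) * ed K G e = ed K G e := by
  classical
  rw [gapU, gapB, sub_mul, vx_ed, Finset.sum_mul, Finset.sum_eq_zero, sub_zero]
  intro f hf
  have hfe : f ≠ e := by
    rintro rfl
    exact he (Finset.mem_filter.mp hf).1
  rw [mul_assoc, star_ed, gh_ed_of_ne hfe, mul_zero]

/-- `star (a γ) * m α β = star (a β)` if `γ = α` and `0` otherwise, so the gaps can be recovered -/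
theorem gapU_ne_zero (T : Stage G) {w : V} (hf : ¬ Full T w) : gapU K T w ≠ 0 := by
  classical
  intro h
  by_cases hw : ∃ e, G.s e = w
  · have : ∃ e, G.s e = w ∧ e ∉ T.Ft := by
      by_contra hcon
      push Not at hcon
      exact hf ⟨hw, hcon⟩
    obtain ⟨e, rfl, he⟩ := this
    have h1 := gapU_ed_of_notMem (K := K) T he
    rw [h, zero_mul] at h1
    have h2 := gh_ed (K := K) (G := G) e
    rw [← h1, mul_zero] at h2
    exact vx_ne_zero (K := K) (G := G) (G.r e) h2.symm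
  · have h1 : gapU K T w = vx K G w := by
      rw [gapU, gapB, Finset.sum_eq_zero, sub_zero]
      intro e he
      exact absurd ⟨e, (Finset.mem_filter.mp he).2⟩ hw
    rw [h1] at h
    exact vx_ne_zero (K := K) (G := G) w h

theorem mU_ne_zero {T : Stage G} {α β : V × List E} (hα : α ∈ Psi T) (hβ : β ∈ Psi T)
    (h : tg G α = tg G β) : mU K T α β ≠ 0 := by
  intro h0
  have h1 : star (aU K T α) * mU K T α β * aU K T β = gapU K T (tg G α) := by
    rw [mU]
    calc star (aU K T α) * (aU K T α * star (aU K T β)) * aU K T β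
        = (star (aU K T α) * aU K T α) * (star (aU K T β) * aU K T β) := by noncomm_ring
      _ = _ := by rw [aU_star_aU_self hα, aU_star_aU_self hβ, ← h, gapU_idem]
  rw [h0, mul_zero, zero_mul] at h1
  exact gapU_ne_zero T (tgt_not_full hα) h1.symm

/-- linear independence of the matrix units -/
theorem mU_indep (T : Stage G) (P : Finset ((V × List E) × (V × List E)))
    (hP : ∀ p ∈ P, p.1 ∈ Psi T ∧ p.2 ∈ Psi T ∧ tg G p.1 = tg G p.2)
    (c : (V × List E) × (V × List E) → K) (h : ∑ p ∈ P, c p • mU K T p.1 p.2 = 0) :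
    ∀ p ∈ P, c p = 0 := by
  classical
  intro p hp
  have h1 : star (aU K T p.1) * (∑ x ∈ P, c x • mU K T x.1 x.2) * aU K T p.2 =
      c p • gapU K T (tg G p.1) := by
    rw [Finset.mul_sum, Finset.sum_mul, Finset.sum_eq_single p]
    · rw [mul_smul_comm, smul_mul_assoc, mU]
      congr 1
      calc star (aU K T p.1) * (aU K T p.1 * star (aU K T p.2)) * aU K T p.2
          = (star (aU K T p.1) * aU K T p.1) * (star (aU K T p.2) * aU K T p.2) := by noncomm_ring
        _ = _ := by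
          rw [aU_star_aU_self (hP p hp).1, aU_star_aU_self (hP p hp).2.1, ← (hP p hp).2.2,
            gapU_idem]
    · intro x hx hne
      rw [mul_smul_comm, smul_mul_assoc, mU]
      have e1 : star (aU K T p.1) * (aU K T x.1 * star (aU K T x.2)) * aU K T p.2
          = (star (aU K T p.1) * aU K T x.1) * (star (aU K T x.2) * aU K T p.2) := by
        noncomm_ring
      rw [e1]
      by_cases h1 : p.1 = x.1
      · have h2 : x.2 ≠ p.2 := fun h2 => hne (Prod.ext h1.symm h2)
        rw [aU_star_aU_ne (hP x hx).2.1 (hP p hp).2.1 h2, mul_zero, smul_zero]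
      · rw [aU_star_aU_ne (hP p hp).1 (hP x hx).1 h1, zero_mul, smul_zero]
    · intro hp'
      exact absurd hp hp'
  rw [h, mul_zero, zero_mul] at h1
  rcases smul_eq_zero.mp h1.symm with h2 | h2
  · exact h2
  · exact absurd h2 (gapU_ne_zero T (tgt_not_full (hP p hp).1))

/-- change of stage -/
theorem mU_eq_sum (hG : G.LA) {T T' : Stage G} (hTT : T ≤ T') {α β : V × List E}
    (hα : α ∈ Psi T) (hβ : β ∈ Psi T) (h : tg G α = tg G β) [DecidableEq V] [DecidableEq E] :
    mU K T α β =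
      ∑ δ ∈ (PsiF T').filter (fun δ => δ.1 = tg G α ∧ ∀ e ∈ δ.2.head?, e ∉ T.Ft),
        mU K T' (α.1, α.2 ++ δ.2) (β.1, β.2 ++ δ.2) := by
  have hT : ∀ v ∈ T'.Vt, v ∈ (Set.univ : Set V) := fun _ _ => Set.mem_univ _
  have h1 : mU K T α β = aU K T α * gapB (vx K G) (ed K G) T (tg G α) * star (aU K T β) := by
    change aU K T α * star (aU K T β) = aU K T α * gapU K T (tg G α) * star (aU K T β)
    rw [aU_gapU hα]
  rw [h1, gap_eq_sum hG (fam_U K) hTT hT (tgt_mem hα), Finset.mul_sum, Finset.sum_mul]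
  refine Finset.sum_congr rfl fun δ hδ => ?_
  obtain ⟨hδ1, hδ2, hδ3⟩ := Finset.mem_filter.mp hδ
  have hδ' := (mem_PsiF hG).mp hδ1
  have a1 : aU K T α * aU K T' δ = aU K T' (α.1, α.2 ++ δ.2) :=
    (aB_append (fam_U K) hTT hT hα hδ' hδ2 hδ3).2.2
  have a2 : aU K T β * aU K T' δ = aU K T' (β.1, β.2 ++ δ.2) :=
    (aB_append (fam_U K) hTT hT hβ hδ' (hδ2.trans h) hδ3).2.2
  rw [mU, ← a1, ← a2, star_mul]
  change aU K T α * (aU K T' δ * star (aU K T' δ)) * star (aU K T β) = _
  simp only [mul_assoc]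

variable (K) in
/-- the span of the matrix units of a stage -/
noncomputable def Mspan (T : Stage G) : Submodule K (U K G) :=
  Submodule.span K {x | ∃ α ∈ Psi T, ∃ β ∈ Psi T, tg G α = tg G β ∧ x = mU K T α β}

theorem mU_mem_Mspan {T : Stage G} {α β : V × List E} (hα : α ∈ Psi T) (hβ : β ∈ Psi T)
    (h : tg G α = tg G β) : mU K T α β ∈ Mspan K T :=
  Submodule.subset_span ⟨α, hα, β, hβ, h, rfl⟩

theorem Mspan_mono (hG : G.LA) {T T' : Stage G} (hTT : T ≤ T') : Mspan K T ≤ Mspan K T' := by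
  classical
  refine Submodule.span_le.mpr ?_
  rintro x ⟨α, hα, β, hβ, h, rfl⟩
  rw [SetLike.mem_coe, mU_eq_sum hG hTT hα hβ h]
  refine Submodule.sum_mem _ fun δ hδ => ?_
  obtain ⟨hδ1, hδ2, hδ3⟩ := Finset.mem_filter.mp hδ
  have hδ' := (mem_PsiF hG).mp hδ1
  have hT : ∀ v ∈ T'.Vt, v ∈ (Set.univ : Set V) := fun _ _ => Set.mem_univ _
  have a1 := aB_append (fam_U K) hTT hT hα hδ' hδ2 hδ3
  have a2 := aB_append (fam_U K) hTT hT hβ hδ' (hδ2.trans h) hδ3
  exact mU_mem_Mspan a1.1 a2.1 (a1.2.1.trans a2.2.1.symm)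

theorem Mspan_mul {T : Stage G} {x y : U K G} (hx : x ∈ Mspan K T) (hy : y ∈ Mspan K T) :
    x * y ∈ Mspan K T := by
  induction hx using Submodule.span_induction with
  | mem x hx =>
    obtain ⟨α, hα, β, hβ, h, rfl⟩ := hx
    induction hy using Submodule.span_induction with
    | mem y hy =>
      obtain ⟨γ, hγ, δ, hδ, h', rfl⟩ := hy
      by_cases hne : β = γ
      · subst hne
        rw [mU_mul_same hα hβ h]
        exact mU_mem_Mspan hα hδ (h.trans h')
      · rw [mU_mul_ne hβ hγ hne]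
        exact Submodule.zero_mem _
    | zero => rw [mul_zero]; exact Submodule.zero_mem _
    | add y z _ _ h1 h2 => rw [mul_add]; exact Submodule.add_mem _ h1 h2
    | smul c y _ h1 => rw [mul_smul_comm]; exact Submodule.smul_mem _ _ h1
  | zero => rw [zero_mul]; exact Submodule.zero_mem _
  | add x z _ _ h1 h2 => rw [add_mul]; exact Submodule.add_mem _ h1 h2
  | smul c x _ h1 => rw [smul_mul_assoc]; exact Submodule.smul_mem _ _ h1

theorem Mspan_star {T : Stage G} {x : U K G} (hx : x ∈ Mspan K T) : star x ∈ Mspan K T := by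
  induction hx using Submodule.span_induction with
  | mem x hx =>
    obtain ⟨α, hα, β, hβ, h, rfl⟩ := hx
    rw [mU_star]
    exact mU_mem_Mspan hβ hα h.symm
  | zero => rw [star_zero]; exact Submodule.zero_mem _
  | add x z _ _ h1 h2 => rw [star_add]; exact Submodule.add_mem _ h1 h2
  | smul c x _ h1 => rw [star_smul]; exact Submodule.smul_mem _ _ h1

theorem vx_mem_Mspan (hG : G.LA) {T : Stage G} {v : V} (hv : v ∈ T.Vt) :
    vx K G v ∈ Mspan K T := by
  classical
  rw [q_eq_sum hG (fam_U K) (fun _ _ => Set.mem_univ _) hv]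
  refine Submodule.sum_mem _ fun β hβ => ?_
  have hβ' := (mem_PsiF hG).mp (Finset.mem_filter.mp hβ).1
  exact mU_mem_Mspan hβ' hβ' rfl

/-- an edge of the stage followed by an index -/
theorem cons_mem_Psi {T : Stage G} {e : E} (he : e ∈ T.Ft) {γ : V × List E} (hγ : γ ∈ Psi T)
    (h : γ.1 = G.r e) :
    (G.s e, e :: γ.2) ∈ Psi T ∧ tg G (G.s e, e :: γ.2) = tg G γ := by
  have ht : tg G (G.s e, e :: γ.2) = tg G γ := by
    change G.tgt (G.r e) γ.2 = G.tgt γ.1 γ.2
    rw [h]
  refine ⟨⟨T.hs e he, ⟨rfl, ?_⟩, ?_, ?_⟩, ht⟩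
  · have := hγ.2.1
    rwa [h] at this
  · intro f hf
    rcases List.mem_cons.mp hf with rfl | hf
    · exact he
    · exact hγ.2.2.1 f hf
  · have := hγ.2.2.2
    change ¬ Full T (tg G γ) at this
    rwa [← ht] at this

theorem ed_mem_Mspan (hG : G.LA) {T : Stage G} {e : E} (he : e ∈ T.Ft) :
    ed K G e ∈ Mspan K T := by
  classical
  rw [u_eq_sum hG (fam_U K) (fun _ _ => Set.mem_univ _) he]
  refine Submodule.sum_mem _ fun γ hγ => ?_
  have hγ' := (mem_PsiF hG).mp (Finset.mem_filter.mp hγ).1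
  have h1 := cons_mem_Psi he hγ' (Finset.mem_filter.mp hγ).2
  exact mU_mem_Mspan h1.1 hγ' h1.2

theorem vx_mem_alg0 {H : Set V} {v : V} (hv : v ∈ H) : vx K G v ∈ alg0 K G H :=
  NonUnitalAlgebra.subset_adjoin K (Or.inl ⟨v, hv, rfl⟩)

theorem ed_mem_alg0 {H : Set V} {e : E} (hs : G.s e ∈ H) (hl : G.s e ≠ G.r e) :
    ed K G e ∈ alg0 K G H :=
  NonUnitalAlgebra.subset_adjoin K (Or.inr ⟨e, hs, hl, Or.inl rfl⟩)

theorem gh_mem_alg0 {H : Set V} {e : E} (hs : G.s e ∈ H) (hl : G.s e ≠ G.r e) :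
    gh K G e ∈ alg0 K G H :=
  NonUnitalAlgebra.subset_adjoin K (Or.inr ⟨e, hs, hl, Or.inr rfl⟩)

theorem alg0_star {H : Set V} {x : U K G} (hx : x ∈ alg0 K G H) : star x ∈ alg0 K G H := by
  unfold alg0 at hx
  induction hx using NonUnitalAlgebra.adjoin_induction with
  | mem x hx =>
    rcases hx with ⟨v, hv, rfl⟩ | ⟨e, hs, hl, rfl | rfl⟩
    · rw [star_vx]; exact vx_mem_alg0 hv
    · rw [star_ed]; exact gh_mem_alg0 hs hl
    · rw [star_gh]; exact ed_mem_alg0 hs hl
  | zero => rw [star_zero]; exact (alg0 K G H).zero_mem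
  | add x y _ _ h1 h2 => rw [star_add]; exact (alg0 K G H).add_mem h1 h2
  | mul x y _ _ h1 h2 => rw [star_mul]; exact (alg0 K G H).mul_mem h2 h1
  | smul c x _ h1 => rw [star_smul]; exact (alg0 K G H).smul_mem _ h1

theorem pB_mem_alg0 {H : Set V} {T : Stage G} (hT : ∀ v ∈ T.Vt, v ∈ H) (v : V) (hv : v ∈ H)
    (l : List E) (hl : ∀ e ∈ l, e ∈ T.Ft) :
    vx K G v * (l.map (ed K G)).prod ∈ alg0 K G H := by
  induction l using List.reverseRecOn with
  | nil => simpa using vx_mem_alg0 hv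
  | append_singleton l e ih =>
    rw [List.map_append, List.prod_append, List.map_singleton, List.prod_singleton, ← mul_assoc]
    have he : e ∈ T.Ft := hl e (by simp)
    exact (alg0 K G H).mul_mem (ih fun f hf => hl f (by simp [hf]))
      (ed_mem_alg0 (hT _ (T.hs e he)) (T.nl e he))

theorem aU_mem_alg0 {H : Set V} {T : Stage G} (hT : ∀ v ∈ T.Vt, v ∈ H) {α : V × List E}
    (hα : α ∈ Psi T) : aU K T α ∈ alg0 K G H := by
  classical
  rw [aU, aB, pB, gapB]
  refine (alg0 K G H).mul_mem (pB_mem_alg0 hT _ (hT _ hα.1) _ hα.2.2.1)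
    ((alg0 K G H).sub_mem (vx_mem_alg0 (hT _ (tgt_mem hα))) ((alg0 K G H).sum_mem fun e he => ?_))
  have he' := (Finset.mem_filter.mp he).1
  have h1 := ed_mem_alg0 (K := K) (hT _ (T.hs e he')) (T.nl e he')
  exact (alg0 K G H).mul_mem h1 (alg0_star h1)

theorem Mspan_le_alg0 {H : Set V} (her : ∀ e, G.s e ∈ H → G.r e ∈ H) {T : Stage G}
    (hT : ∀ v ∈ T.Vt, v ∈ H) {x : U K G} (hx : x ∈ Mspan K T) : x ∈ alg0 K G H := by
  induction hx using Submodule.span_induction with
  | mem x hx =>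
    obtain ⟨α, hα, β, hβ, h, rfl⟩ := hx
    exact (alg0 K G H).mul_mem (aU_mem_alg0 hT hα) (alg0_star (aU_mem_alg0 hT hβ))
  | zero => exact (alg0 K G H).zero_mem
  | add x z _ _ h1 h2 => exact (alg0 K G H).add_mem h1 h2
  | smul c x _ h1 => exact (alg0 K G H).smul_mem _ h1

/-- the elements of `alg0 H` are combinations of matrix units of a stage inside `H` -/
theorem alg0_Mspan (hG : G.LA) {H : Set V} (her : ∀ e, G.s e ∈ H → G.r e ∈ H) {x : U K G}
    (hx : x ∈ alg0 K G H) : ∃ T : Stage G, (∀ v ∈ T.Vt, v ∈ H) ∧ x ∈ Mspan K T := by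
  classical
  have hsup : ∀ T T' : Stage G, (∀ v ∈ T.Vt, v ∈ H) → (∀ v ∈ T'.Vt, v ∈ H) →
      ∀ v ∈ (T.sup T').Vt, v ∈ H := by
    intro T T' h h' v hv
    rcases Finset.mem_union.mp hv with h1 | h1
    · exact h v h1
    · exact h' v h1
  have hed : ∀ e, G.s e ∈ H → G.s e ≠ G.r e →
      ∃ T : Stage G, (∀ v ∈ T.Vt, v ∈ H) ∧ ed K G e ∈ Mspan K T := by
    intro e hs hl
    refine ⟨⟨{G.s e, G.r e}, {e}, ?_, ?_, ?_⟩, ?_, ed_mem_Mspan hG (by simp)⟩
    · intro f hf; rw [Finset.mem_singleton.mp hf]; simp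
    · intro f hf; rw [Finset.mem_singleton.mp hf]; simp
    · intro f hf; rw [Finset.mem_singleton.mp hf]; exact hl
    · intro v hv
      rcases Finset.mem_insert.mp hv with h | h
      · rw [h]; exact hs
      · rw [Finset.mem_singleton.mp h]; exact her e hs
  unfold alg0 at hx
  induction hx using NonUnitalAlgebra.adjoin_induction with
  | mem x hx =>
    rcases hx with ⟨v, hv, rfl⟩ | ⟨e, hs, hl, rfl | rfl⟩
    · refine ⟨⟨{v}, ∅, by simp, by simp, by simp⟩, ?_, vx_mem_Mspan hG (by simp)⟩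
      intro w hw
      rw [Finset.mem_singleton.mp hw]
      exact hv
    · exact hed e hs hl
    · obtain ⟨T, hT, h⟩ := hed e hs hl
      refine ⟨T, hT, ?_⟩
      rw [← star_ed]
      exact Mspan_star h
  | zero => exact ⟨⟨∅, ∅, by simp, by simp, by simp⟩, by simp, Submodule.zero_mem _⟩
  | add x y _ _ h1 h2 =>
    obtain ⟨T, hT, h1⟩ := h1
    obtain ⟨T', hT', h2⟩ := h2
    exact ⟨T.sup T', hsup T T' hT hT', Submodule.add_mem _
      (Mspan_mono hG (Stage.le_sup_left T T') h1) (Mspan_mono hG (Stage.le_sup_right T T') h2)⟩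
  | mul x y _ _ h1 h2 =>
    obtain ⟨T, hT, h1⟩ := h1
    obtain ⟨T', hT', h2⟩ := h2
    exact ⟨T.sup T', hsup T T' hT hT', Mspan_mul
      (Mspan_mono hG (Stage.le_sup_left T T') h1) (Mspan_mono hG (Stage.le_sup_right T T') h2)⟩
  | smul c x _ h1 =>
    obtain ⟨T, hT, h1⟩ := h1
    exact ⟨T, hT, Submodule.smul_mem _ _ h1⟩

/-- the elements of `alg0 H`, with a prescribed part of the stage -/
theorem alg0_Mspan' (hG : G.LA) {H : Set V} (her : ∀ e, G.s e ∈ H → G.r e ∈ H) {x : U K G}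
    (hx : x ∈ alg0 K G H) (T0 : Stage G) (hT0 : ∀ v ∈ T0.Vt, v ∈ H) :
    ∃ T : Stage G, T0 ≤ T ∧ (∀ v ∈ T.Vt, v ∈ H) ∧ x ∈ Mspan K T := by
  classical
  obtain ⟨T, hT, h⟩ := alg0_Mspan hG her hx
  refine ⟨T0.sup T, Stage.le_sup_left T0 T, ?_, Mspan_mono hG (Stage.le_sup_right T0 T) h⟩
  intro v hv
  rcases Finset.mem_union.mp hv with h1 | h1
  · exact hT0 v h1
  · exact hT v h1

end Pool.Agent.Helper32.LV
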