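import Pool.Agent.Helper32.LV.Idem

/-! The relation `RR φ p q`: `φ p` is equivalent to `q`. PIECE 8. -/

set_option autoImplicit false
set_option linter.unusedSectionVars false

universe k a b a' b'

namespace Pool.Agent.Helper32.LV

variable {V : Type a} {E : Type b} {K : Type k} [Field K] [StarRing K] {G : Gr V E}
  {V' : Type a'} {E' : Type b'} {G' : Gr V' E'} {φ : RI K G G'}

theorem RI.f_zero (φ : RI K G G') : φ.f 0 = 0 := by
  have := φ.f_add 0 (L K G).zero_mem 0 (L K G).zero_mem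
  simpa using this

theorem RI.f_eqv (φ : RI K G G') {e f : U K G} (h : Eqv K G e f) :
    Eqv K G' (φ.f e) (φ.f f) := by
  obtain ⟨x, hx, y, hy, h1, h2⟩ := h
  exact ⟨φ.f x, φ.f_mem x hx, φ.f y, φ.f_mem y hy, by rw [← φ.f_mul x hx y hy, h1],
    by rw [← φ.f_mul y hy x hx, h2]⟩

/-- hint: `φ p1 = xy`, `yx = φ p = zw`, `wz = q = uv`, `vu = q1`; use `x z u` and `v w y` -/
theorem RR.congr {p p1 : U K G} {q q1 : U K G'} (h : RR φ p q) (hp : Eqv K G p p1)
    (hq : Eqv K G' q q1) (hp1 : p1 ∈ L K G) (hi : p1 * p1 = p1) (hi' : q1 * q1 = q1) :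
    RR φ p1 q1 := by
  obtain ⟨y, hy, x, hx, h1, h2⟩ := φ.f_eqv hp
  obtain ⟨z, hz, w, hw, h3, h4⟩ := h
  obtain ⟨u, hu, v, hv, h5, h6⟩ := hq
  have hid : φ.f p1 * φ.f p1 = φ.f p1 := by rw [← φ.f_mul p1 hp1 p1 hp1, hi]
  refine ⟨x * z * u, (L K G').mul_mem ((L K G').mul_mem hx hz) hu, v * w * y,
    (L K G').mul_mem ((L K G').mul_mem hv hw) hy, ?_, ?_⟩
  · calc x * z * u * (v * w * y) = x * z * (u * v) * w * y := by noncomm_ring
      _ = x * (z * w) * (z * w) * y := by rw [h5, ← h4]; noncomm_ring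
      _ = (x * y) * (x * y) * (x * y) := by rw [h3, ← h1]; noncomm_ring
      _ = φ.f p1 := by rw [h2, hid, hid]
  · calc v * w * y * (x * z * u) = v * w * (y * x) * z * u := by noncomm_ring
      _ = v * (w * z) * (w * z) * u := by rw [h1, ← h3]; noncomm_ring
      _ = (v * u) * (v * u) * (v * u) := by rw [h4, ← h5]; noncomm_ring
      _ = q1 := by rw [h6, hi', hi']

theorem RR.zero : RR φ (0 : U K G) (0 : U K G') :=
  ⟨0, (L K G').zero_mem, 0, (L K G').zero_mem, by rw [φ.f_zero, mul_zero], mul_zero _⟩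

/-- images of idempotents -/
theorem RI.f_idem (φ : RI K G G') {p : U K G} (hp : p ∈ L K G) (h : p * p = p) :
    φ.f p * φ.f p = φ.f p := by rw [← φ.f_mul p hp p hp, h]

theorem RI.f_mul_zero (φ : RI K G G') {p q : U K G} (hp : p ∈ L K G) (hq : q ∈ L K G)
    (h : p * q = 0) : φ.f p * φ.f q = 0 := by rw [← φ.f_mul p hp q hq, h, φ.f_zero]

theorem RI.f_sub (φ : RI K G G') {p q : U K G} (hp : p ∈ L K G) (hq : q ∈ L K G) :
    φ.f (p - q) = φ.f p - φ.f q := by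
  have h := φ.f_add (p - q) ((L K G).sub_mem hp hq) q hq
  rw [sub_add_cancel] at h
  rw [h, add_sub_cancel_right]

/-- sums of orthogonal pairs -/
theorem RR.add {p1 p2 : U K G} {q1 q2 : U K G'} (h1 : RR φ p1 q1) (h2 : RR φ p2 q2)
    (hp1 : Pr p1) (hp2 : Pr p2) (hq1 : Pr q1) (hq2 : Pr q2) (hp : p1 * p2 = 0)
    (hq : q1 * q2 = 0) : RR φ (p1 + p2) (q1 + q2) := by
  obtain ⟨x1, hx1, y1, hy1, a1, b1⟩ := h1
  obtain ⟨x2, hx2, y2, hy2, a2, b2⟩ := h2
  have m1 := φ.f_mem p1 hp1.mem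
  have m2 := φ.f_mem p2 hp2.mem
  have i1 := φ.f_idem hp1.mem hp1.2.2
  have i2 := φ.f_idem hp2.mem hp2.2.2
  have z12 := φ.f_mul_zero hp1.mem hp2.mem hp
  have z21 := φ.f_mul_zero hp2.mem hp1.mem (hp1.comm_zero hp2 hp)
  have hq' := hq1.comm_zero hq2 hq
  refine ⟨φ.f p1 * x1 * q1 + φ.f p2 * x2 * q2, ?_, q1 * y1 * φ.f p1 + q2 * y2 * φ.f p2, ?_, ?_, ?_⟩
  · exact (L K G').add_mem ((L K G').mul_mem ((L K G').mul_mem m1 hx1) hq1.mem)
      ((L K G').mul_mem ((L K G').mul_mem m2 hx2) hq2.mem)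
  · exact (L K G').add_mem ((L K G').mul_mem ((L K G').mul_mem hq1.mem hy1) m1)
      ((L K G').mul_mem ((L K G').mul_mem hq2.mem hy2) m2)
  · rw [φ.f_add p1 hp1.mem p2 hp2.mem]
    calc (φ.f p1 * x1 * q1 + φ.f p2 * x2 * q2) * (q1 * y1 * φ.f p1 + q2 * y2 * φ.f p2)
        = φ.f p1 * x1 * (q1 * q1) * y1 * φ.f p1 + φ.f p1 * x1 * (q1 * q2) * y2 * φ.f p2
          + φ.f p2 * x2 * (q2 * q1) * y1 * φ.f p1 + φ.f p2 * x2 * (q2 * q2) * y2 * φ.f p2 := by
          noncomm_ring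
      _ = φ.f p1 * x1 * q1 * y1 * φ.f p1 + φ.f p2 * x2 * q2 * y2 * φ.f p2 := by
          rw [hq, hq', hq1.2.2, hq2.2.2]; simp
      _ = φ.f p1 * (x1 * y1) * (x1 * y1) * φ.f p1 + φ.f p2 * (x2 * y2) * (x2 * y2) * φ.f p2 := by
          rw [← b1, ← b2]; noncomm_ring
      _ = φ.f p1 + φ.f p2 := by rw [a1, a2, i1, i1, i1, i2, i2, i2]
  · calc (q1 * y1 * φ.f p1 + q2 * y2 * φ.f p2) * (φ.f p1 * x1 * q1 + φ.f p2 * x2 * q2)
        = q1 * y1 * (φ.f p1 * φ.f p1) * x1 * q1 + q1 * y1 * (φ.f p1 * φ.f p2) * x2 * q2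
          + q2 * y2 * (φ.f p2 * φ.f p1) * x1 * q1 + q2 * y2 * (φ.f p2 * φ.f p2) * x2 * q2 := by
          noncomm_ring
      _ = q1 * y1 * φ.f p1 * x1 * q1 + q2 * y2 * φ.f p2 * x2 * q2 := by
          rw [z12, z21, i1, i2]; simp
      _ = q1 * (y1 * x1) * (y1 * x1) * q1 + q2 * (y2 * x2) * (y2 * x2) * q2 := by
          rw [← a1, ← a2]; noncomm_ring
      _ = q1 + q2 := by
          rw [b1, b2, hq1.2.2, hq1.2.2, hq1.2.2, hq2.2.2, hq2.2.2, hq2.2.2]

theorem RR.sum {ι : Type*} (s : Finset ι) (p : ι → U K G) (q : ι → U K G')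
    (h : ∀ i ∈ s, RR φ (p i) (q i)) (hp : ∀ i ∈ s, Pr (p i)) (hq : ∀ i ∈ s, Pr (q i))
    (hp1 : ∀ i ∈ s, ∀ j ∈ s, i ≠ j → p i * p j = 0)
    (hq1 : ∀ i ∈ s, ∀ j ∈ s, i ≠ j → q i * q j = 0) (hG : G.LA) (hG' : G'.LA) :
    RR φ (∑ i ∈ s, p i) (∑ i ∈ s, q i) := by
  classical
  induction s using Finset.induction_on with
  | empty => simpa using RR.zero
  | insert a s ha ih =>
    rw [Finset.sum_insert ha, Finset.sum_insert ha]
    have hs : ∀ {i}, i ∈ s → i ∈ insert a s := fun h => Finset.mem_insert_of_mem h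
    have haa : a ∈ insert a s := Finset.mem_insert_self _ _
    have hne : ∀ i ∈ s, a ≠ i := fun i hi h => ha (h ▸ hi)
    refine RR.add (h a haa) (ih (fun i hi => h i (hs hi)) (fun i hi => hp i (hs hi))
      (fun i hi => hq i (hs hi)) (fun i hi j hj => hp1 i (hs hi) j (hs hj))
      (fun i hi j hj => hq1 i (hs hi) j (hs hj))) (hp a haa) ?_ (hq a haa) ?_ ?_ ?_
    · exact Pr.sum hG s p (fun i hi => hp i (hs hi)) (fun i hi j hj => hp1 i (hs hi) j (hs hj))
    · exact Pr.sum hG' s q (fun i hi => hq i (hs hi)) (fun i hi j hj => hq1 i (hs hi) j (hs hj))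
    · rw [Finset.mul_sum]
      exact Finset.sum_eq_zero fun i hi => hp1 a haa i (hs hi) (hne i hi)
    · rw [Finset.mul_sum]
      exact Finset.sum_eq_zero fun i hi => hq1 a haa i (hs hi) (hne i hi)

/-- two projections with the same partner are equivalent through a standard element -/
theorem rr_std (hG : G.LA) {p p' : U K G} {q q' : U K G'} (hp : Pr p) (hp' : Pr p')
    (hq : q * q = q) (hqq : Eqv K G' q q') (hq' : q' * q' = q')
    (h : RR φ p q) (h' : RR φ p' q') : ∃ s, Std s ∧ s * star s = p ∧ star s * s = p' := by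
  have i1 := φ.f_idem hp.mem hp.2.2
  have i2 := φ.f_idem hp'.mem hp'.2.2
  have e1 : Eqv K G' (φ.f p) q' := Eqv.trans h hqq i1 hq'
  have e2 : Eqv K G' (φ.f p) (φ.f p') := Eqv.trans e1 (Eqv.symm h') i1 i2
  have e3 := φ.symm.f_eqv e2
  have e4 : φ.symm.f (φ.f p) = p := φ.gf p hp.mem
  have e5 : φ.symm.f (φ.f p') = p' := φ.gf p' hp'.mem
  rw [e4, e5] at e3
  exact F2 hG hp hp' e3

theorem rr_zero {p : U K G} (hp : Pr p) (h : RR φ p (0 : U K G')) : p = 0 := by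
  obtain ⟨x, hx, y, hy, h1, h2⟩ := h
  have i1 := φ.f_idem hp.mem hp.2.2
  have e1 : φ.f p = 0 := by
    rw [← i1, ← h1]
    calc x * y * (x * y) = x * (y * x) * y := by noncomm_ring
      _ = 0 := by rw [h2]; simp
  have e2 := φ.gf p hp.mem
  rw [← e2, e1]
  exact φ.symm.f_zero

/-- decomposition of a projection along a decomposition of its partner -/
theorem rr_split2 (hG : G.LA) {P : U K G} {Q1 Q2 : U K G'} (hP : Pr P) (h1 : Pr Q1) (h2 : Pr Q2)
    (ho : Q1 * Q2 = 0) (h : RR φ P (Q1 + Q2)) :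
    ∃ P1 P2, Pr P1 ∧ Pr P2 ∧ P1 * P2 = 0 ∧ P1 + P2 = P ∧ RR φ P1 Q1 ∧ RR φ P2 Q2 := by
  obtain ⟨x, hx, y, hy, a1, a2⟩ := h
  have ho' := h1.comm_zero h2 ho
  have i1 := φ.f_idem hP.mem hP.2.2
  have m1 : x * Q1 * y ∈ L K G' := (L K G').mul_mem ((L K G').mul_mem hx h1.mem) hy
  -- the two corners
  have k1 : x * Q1 * y * (x * Q1 * y) = x * Q1 * y := by
    calc x * Q1 * y * (x * Q1 * y) = x * Q1 * (y * x) * Q1 * y := by noncomm_ring
      _ = x * (Q1 * Q1 * Q1 + Q1 * Q2 * Q1) * y := by rw [a2]; noncomm_ring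
      _ = x * Q1 * y := by rw [h1.2.2, h1.2.2, ho]; simp
  have k2 : φ.f P * (x * Q1 * y) = x * Q1 * y := by
    calc φ.f P * (x * Q1 * y) = x * (y * x) * Q1 * y := by rw [← a1]; noncomm_ring
      _ = x * (Q1 * Q1 + Q2 * Q1) * y := by rw [a2]; noncomm_ring
      _ = x * Q1 * y := by rw [h1.2.2, ho']; simp
  have k3 : x * Q1 * y * φ.f P = x * Q1 * y := by
    calc x * Q1 * y * φ.f P = x * Q1 * (y * x) * y := by rw [← a1]; noncomm_ring
      _ = x * (Q1 * Q1 + Q1 * Q2) * y := by rw [a2]; noncomm_ring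
      _ = x * Q1 * y := by rw [h1.2.2, ho]; simp
  have k4 : φ.f P - x * Q1 * y = x * Q2 * y := by
    calc φ.f P - x * Q1 * y = (x * y) * (x * y) - x * Q1 * y := by rw [a1, i1]
      _ = x * (y * x) * y - x * Q1 * y := by noncomm_ring
      _ = x * Q2 * y := by rw [a2]; noncomm_ring
  have v1 : Eqv K G' (x * Q1 * y) Q1 := by
    refine ⟨x * Q1, (L K G').mul_mem hx h1.mem, Q1 * y, (L K G').mul_mem h1.mem hy, ?_, ?_⟩
    · calc x * Q1 * (Q1 * y) = x * (Q1 * Q1) * y := by noncomm_ring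
        _ = x * Q1 * y := by rw [h1.2.2]
    · calc Q1 * y * (x * Q1) = Q1 * (y * x) * Q1 := by noncomm_ring
        _ = Q1 * Q1 * Q1 + Q1 * Q2 * Q1 := by rw [a2]; noncomm_ring
        _ = Q1 := by rw [h1.2.2, h1.2.2, ho]; simp
  have v2 : Eqv K G' (x * Q2 * y) Q2 := by
    refine ⟨x * Q2, (L K G').mul_mem hx h2.mem, Q2 * y, (L K G').mul_mem h2.mem hy, ?_, ?_⟩
    · calc x * Q2 * (Q2 * y) = x * (Q2 * Q2) * y := by noncomm_ring
        _ = x * Q2 * y := by rw [h2.2.2]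
    · calc Q2 * y * (x * Q2) = Q2 * (y * x) * Q2 := by noncomm_ring
        _ = Q2 * Q1 * Q2 + Q2 * Q2 * Q2 := by rw [a2]; noncomm_ring
        _ = Q2 := by rw [h2.2.2, h2.2.2, ho']; simp
  -- transport to `G`
  have mE : φ.g (x * Q1 * y) ∈ L K G := φ.g_mem _ m1
  have fE : φ.f (φ.g (x * Q1 * y)) = x * Q1 * y := φ.fg _ m1
  have gP : φ.g (φ.f P) = P := φ.gf P hP.mem
  have mP := φ.f_mem P hP.mem
  have e1 : φ.g (x * Q1 * y) * φ.g (x * Q1 * y) = φ.g (x * Q1 * y) := by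
    rw [← φ.g_mul _ m1 _ m1, k1]
  have e2 : P * φ.g (x * Q1 * y) = φ.g (x * Q1 * y) := by
    have := φ.g_mul _ mP _ m1
    rw [k2, gP] at this
    exact this.symm
  have e3 : φ.g (x * Q1 * y) * P = φ.g (x * Q1 * y) := by
    have := φ.g_mul _ m1 _ mP
    rw [k3, gP] at this
    exact this.symm
  obtain ⟨q, hq, f1, f2, f3⟩ := F1 hG hP mE e1 e2 e3
  have hqP : q * P = q := by
    have := congrArg star f1
    rwa [star_mul, hq.2.1, hP.2.1] at this
  have hsub : Pr (P - q) := Pr.sub hG hP hq f1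
  refine ⟨q, P - q, hq, hsub, by rw [mul_sub, hqP, hq.2.2, sub_self], by abel, ?_, ?_⟩
  · have g1 := φ.f_eqv f2
    rw [fE] at g1
    exact Eqv.trans (Eqv.symm g1) v1 (φ.f_idem hq.mem hq.2.2) h1.2.2
  · have g1 := φ.f_eqv f3
    rw [φ.f_sub hP.mem mE, fE, k4] at g1
    exact Eqv.trans (Eqv.symm g1) v2 (φ.f_idem hsub.mem hsub.2.2) h2.2.2

theorem rr_split (hG : G.LA) (hG' : G'.LA) {P : U K G} (hP : Pr P) {ι : Type*} (s : Finset ι)
    (Q : ι → U K G') (hQ : ∀ i ∈ s, Pr (Q i)) (hQ1 : ∀ i ∈ s, ∀ j ∈ s, i ≠ j → Q i * Q j = 0)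
    (h : RR φ P (∑ i ∈ s, Q i)) :
    ∃ P' : ι → U K G, (∀ i ∈ s, Pr (P' i)) ∧ (∀ i ∈ s, ∀ j ∈ s, i ≠ j → P' i * P' j = 0) ∧
      ∑ i ∈ s, P' i = P ∧ ∀ i ∈ s, RR φ (P' i) (Q i) := by
  classical
  induction s using Finset.induction_on generalizing P with
  | empty =>
    rw [Finset.sum_empty] at h
    have h0 := rr_zero hP h
    exact ⟨fun _ => 0, by simp, by simp, by simp [h0], by simp⟩
  | insert a s ha ih =>
    rw [Finset.sum_insert ha] at h
    have hs : ∀ {i}, i ∈ s → i ∈ insert a s := fun h => Finset.mem_insert_of_mem h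
    have haa : a ∈ insert a s := Finset.mem_insert_self _ _
    have hne : ∀ i ∈ s, a ≠ i := fun i hi h => ha (h ▸ hi)
    have hsum : Pr (∑ i ∈ s, Q i) :=
      Pr.sum hG' s Q (fun i hi => hQ i (hs hi)) (fun i hi j hj => hQ1 i (hs hi) j (hs hj))
    have ho : Q a * ∑ i ∈ s, Q i = 0 := by
      rw [Finset.mul_sum]
      exact Finset.sum_eq_zero fun i hi => hQ1 a haa i (hs hi) (hne i hi)
    obtain ⟨P1, P2, p1, p2, p3, p4, p5, p6⟩ := rr_split2 hG hP (hQ a haa) hsum ho h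
    obtain ⟨P', c1, c2, c3, c4⟩ := ih p2 (fun i hi => hQ i (hs hi))
      (fun i hi j hj => hQ1 i (hs hi) j (hs hj)) p6
    have k1 : ∀ i ∈ s, P2 * P' i = P' i := by
      intro i hi
      rw [← c3, Finset.sum_mul, Finset.sum_eq_single i]
      · exact (c1 i hi).2.2
      · intro j hj hji; exact c2 j hj i hi hji
      · intro h'; exact absurd hi h'
    have k2 : ∀ i ∈ s, P1 * P' i = 0 := by
      intro i hi
      rw [← k1 i hi, ← mul_assoc, p3, zero_mul]
    have k3 : ∀ i ∈ s, P' i * P1 = 0 := fun i hi => p1.comm_zero (c1 i hi) (k2 i hi)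
    obtain ⟨F, hF⟩ : ∃ F : ι → U K G, F = fun i => if i = a then P1 else P' i := ⟨_, rfl⟩
    have u1 : F a = P1 := by simp [hF]
    have u2 : ∀ i ∈ s, F i = P' i := by
      intro i hi
      simp [hF, (hne i hi).symm]
    refine ⟨F, ?_, ?_, ?_, ?_⟩
    · intro i hi
      rcases Finset.mem_insert.mp hi with h' | h'
      · rw [h', u1]; exact p1
      · rw [u2 i h']; exact c1 i h'
    · intro i hi j hj hij
      rcases Finset.mem_insert.mp hi with h' | h'
      · rcases Finset.mem_insert.mp hj with h'' | h''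
        · exact absurd (h'.trans h''.symm) hij
        · rw [h', u1, u2 j h'']; exact k2 j h''
      · rcases Finset.mem_insert.mp hj with h'' | h''
        · rw [h'', u1, u2 i h']; exact k3 i h'
        · rw [u2 i h', u2 j h'']; exact c2 i h' j h'' hij
    · rw [Finset.sum_insert ha, u1, Finset.sum_congr rfl u2, c3, p4]
    · intro i hi
      rcases Finset.mem_insert.mp hi with h' | h'
      · rw [h', u1]; exact p5
      · rw [u2 i h']; exact c4 i h'

/-- elements of `algz H` are annihilated by what is orthogonal to the vertices in `H` -/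
theorem algz_mul_zero {H : Set V} {x q : U K G} (hx : x ∈ algz K G H)
    (hq : ∀ h ∈ H, vx K G h * q = 0) (her : ∀ e, G.s e ∈ H → G.r e ∈ H) : x * q = 0 := by
  induction hx using NonUnitalAlgebra.adjoin_induction with
  | mem x hx =>
    rcases hx with ⟨v, hv, rfl⟩ | ⟨e, he, rfl | rfl⟩
    · exact hq v hv
    · rw [← ed_vx, mul_assoc, hq _ (her e he), mul_zero]
    · rw [← gh_vx, mul_assoc, hq _ he, mul_zero]
  | zero => exact zero_mul _
  | add x y _ _ h1 h2 => rw [add_mul, h1, h2, add_zero]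
  | mul x y _ _ h1 h2 => rw [mul_assoc, h2, mul_zero]
  | smul c x _ h1 => rw [smul_mul_assoc, h1, smul_zero]

theorem algz_star {H : Set V} {x : U K G} (hx : x ∈ algz K G H) : star x ∈ algz K G H := by
  induction hx using NonUnitalAlgebra.adjoin_induction with
  | mem x hx =>
    rcases hx with ⟨v, hv, rfl⟩ | ⟨e, he, rfl | rfl⟩
    · rw [star_vx]
      exact NonUnitalAlgebra.subset_adjoin K (Or.inl ⟨v, hv, rfl⟩)
    · rw [star_ed]
      exact NonUnitalAlgebra.subset_adjoin K (Or.inr ⟨e, he, Or.inr rfl⟩)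
    · rw [star_gh]
      exact NonUnitalAlgebra.subset_adjoin K (Or.inr ⟨e, he, Or.inl rfl⟩)
  | zero => rw [star_zero]; exact (algz K G H).zero_mem
  | add x y _ _ h1 h2 => rw [star_add]; exact (algz K G H).add_mem h1 h2
  | mul x y _ _ h1 h2 => rw [star_mul]; exact (algz K G H).mul_mem h2 h1
  | smul c x _ h1 => rw [star_smul]; exact (algz K G H).smul_mem _ h1

theorem vx_mem_algz {H : Set V} {v : V} (hv : v ∈ H) : vx K G v ∈ algz K G H :=
  NonUnitalAlgebra.subset_adjoin K (Or.inl ⟨v, hv, rfl⟩)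

/-- the preimage of a projection orthogonal to the closed part is orthogonal to the vertices of
the closed part -/
theorem cp_orth (c : CP φ) {q : U K G'} (hq : Pr q) (hqH : ∀ h ∈ c.H', vx K G' h * q = 0) {h : V}
    (hh : h ∈ c.H) : vx K G h * φ.g q = 0 ∧ φ.g q * vx K G h = 0 := by
  have h1 : φ.f (vx K G h) ∈ algz K G' c.H' := c.phi _ (vx_mem_algz hh)
  have h2 : φ.f (vx K G h) * q = 0 := algz_mul_zero h1 hqH c.her'
  have h3 : q * φ.f (vx K G h) = 0 := by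
    have h4 : star (φ.f (vx K G h)) * q = 0 := algz_mul_zero (algz_star h1) hqH c.her'
    have h5 := congrArg star h4
    rwa [star_mul, star_star, hq.2.1, star_zero] at h5
  have m1 := φ.f_mem _ (vx_mem (K := K) (G := G) h)
  have g0 : φ.g 0 = 0 := φ.symm.f_zero
  have g1 : φ.g (φ.f (vx K G h)) = vx K G h := φ.gf _ (vx_mem h)
  constructor
  · have := φ.g_mul _ m1 _ hq.mem
    rw [h2, g0, g1] at this
    exact this.symm
  · have := φ.g_mul _ hq.mem _ m1
    rw [h3, g0, g1] at this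
    exact this.symm

open Classical in
/-- restriction of a local unit to the vertices outside `H` -/
theorem unit_filter {H : Set V} (t : Finset V) {x : U K G}
    (h1 : (∑ v ∈ t, vx K G v) * x = x) (h2 : ∀ h ∈ H, vx K G h * x = 0) :
    (∑ v ∈ t.filter (fun v => v ∉ H), vx K G v) * x = x := by
  have h3 : (∑ v ∈ t.filter (fun v => ¬ v ∉ H), vx K G v) * x = 0 := by
    rw [Finset.sum_mul]
    refine Finset.sum_eq_zero fun v hv => h2 v ?_
    exact not_not.mp (Finset.mem_filter.mp hv).2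
  have h4 := Finset.sum_filter_add_sum_filter_not t (fun v => v ∉ H) (fun v => vx K G v)
  rw [← h4, add_mul, h3, add_zero] at h1
  exact h1

open Classical in
theorem unit_filter' {H : Set V} (t : Finset V) {x : U K G}
    (h1 : x * (∑ v ∈ t, vx K G v) = x) (h2 : ∀ h ∈ H, x * vx K G h = 0) :
    x * (∑ v ∈ t.filter (fun v => v ∉ H), vx K G v) = x := by
  have h3 : x * (∑ v ∈ t.filter (fun v => ¬ v ∉ H), vx K G v) = 0 := by
    rw [Finset.mul_sum]
    refine Finset.sum_eq_zero fun v hv => h2 v ?_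
    exact not_not.mp (Finset.mem_filter.mp hv).2
  have h4 := Finset.sum_filter_add_sum_filter_not t (fun v => v ∉ H) (fun v => vx K G v)
  rw [← h4, mul_add, h3, add_zero] at h1
  exact h1

/-- a partner for a projection that is orthogonal to the closed part, orthogonal to a given one.
Proof: `E0 = φ.g Q0`, `E = φ.g q` are orthogonal idempotents, orthogonal to the vertices in `H`
(because `φ` and its inverse exchange `algz H` and `algz H'`). Let `PN` be the sum of finitely many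
vertices outside `H` with `PN E = E = E PN`, `PN E0 = E0 = E0 PN`, `PN P0 = P0`. `F1` for
`E0 ≤ PN` gives `qa ≤ PN` with `E0 ~ qa`, `PN - E0 ~ PN - qa`; transport `E` to `E1 ≤ PN - qa`,
`F1` for `E1 ≤ PN - qa` gives `qb ≤ PN - qa`, `qb ~ E`. Now `qa ~ P0`, so `F3` gives
`qd ≤ PN` with `P0 qd = 0`, `qd ~ qb ~ E`; take `p = qd`. -/
theorem rr_ext (hG : G.LA) (hG' : G'.LA) (c : CP φ) {q Q0 : U K G'} {P0 : U K G} (hq : Pr q)
    (hQ0 : Pr Q0) (hP0 : Pr P0) (hqH : ∀ h ∈ c.H', vx K G' h * q = 0)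
    (hQH : ∀ h ∈ c.H', vx K G' h * Q0 = 0) (hPH : ∀ h ∈ c.H, vx K G h * P0 = 0)
    (hqQ : Q0 * q = 0) (h : RR φ P0 Q0) :
    ∃ p, Pr p ∧ (∀ h ∈ c.H, vx K G h * p = 0) ∧ P0 * p = 0 ∧ RR φ p q := by
  classical
  have g0 : φ.g 0 = 0 := φ.symm.f_zero
  have mE0 : φ.g Q0 ∈ L K G := φ.g_mem _ hQ0.mem
  have mE : φ.g q ∈ L K G := φ.g_mem _ hq.mem
  have iE0 : φ.g Q0 * φ.g Q0 = φ.g Q0 := by rw [← φ.g_mul _ hQ0.mem _ hQ0.mem, hQ0.2.2]
  have iE : φ.g q * φ.g q = φ.g q := by rw [← φ.g_mul _ hq.mem _ hq.mem, hq.2.2]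
  have z1 : φ.g Q0 * φ.g q = 0 := by rw [← φ.g_mul _ hQ0.mem _ hq.mem, hqQ, g0]
  have z2 : φ.g q * φ.g Q0 = 0 := by
    rw [← φ.g_mul _ hq.mem _ hQ0.mem, hQ0.comm_zero hq hqQ, g0]
  -- local unit
  obtain ⟨s1, hs1⟩ := exists_unit mE0
  obtain ⟨s2, hs2⟩ := exists_unit mE
  obtain ⟨s3, hs3⟩ := exists_unit hP0.mem
  obtain ⟨t, ht⟩ : ∃ t : Finset V, t = s1 ∪ s2 ∪ s3 := ⟨_, rfl⟩
  have t1 := hs1 t (by rw [ht]; intro v hv; simp [hv])
  have t2 := hs2 t (by rw [ht]; intro v hv; simp [hv])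
  have t3 := hs3 t (by rw [ht]; intro v hv; simp [hv])
  obtain ⟨PN, hPN⟩ : ∃ PN : U K G, PN = ∑ v ∈ t.filter (fun v => v ∉ c.H), vx K G v := ⟨_, rfl⟩
  have hPr : Pr PN := by rw [hPN]; exact Pr.sum_vx hG _
  have a1 : PN * φ.g Q0 = φ.g Q0 := by
    rw [hPN]; exact unit_filter t t1.1 fun h hh => (cp_orth c hQ0 hQH hh).1
  have a2 : φ.g Q0 * PN = φ.g Q0 := by
    rw [hPN]; exact unit_filter' t t1.2 fun h hh => (cp_orth c hQ0 hQH hh).2
  have a3 : PN * φ.g q = φ.g q := by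
    rw [hPN]; exact unit_filter t t2.1 fun h hh => (cp_orth c hq hqH hh).1
  have a4 : φ.g q * PN = φ.g q := by
    rw [hPN]; exact unit_filter' t t2.2 fun h hh => (cp_orth c hq hqH hh).2
  have a5 : PN * P0 = P0 := by
    rw [hPN]; exact unit_filter t t3.1 hPH
  have a6 : ∀ h ∈ c.H, vx K G h * PN = 0 := by
    intro h hh
    rw [hPN, Finset.mul_sum]
    refine Finset.sum_eq_zero fun v hv => vx_vx_of_ne ?_
    rintro rfl
    exact (Finset.mem_filter.mp hv).2 hh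
  obtain ⟨qa, hqa, b1, b2, b3⟩ := F1 hG hPr mE0 iE0 a1 a2
  have b1' : qa * PN = qa := by
    have := congrArg star b1
    rwa [star_mul, hqa.2.1, hPr.2.1] at this
  have hsub : Pr (PN - qa) := Pr.sub hG hPr hqa b1
  -- transport of `E`
  obtain ⟨x, hx, y, hy, c1, c2⟩ := b3
  have d1 : (PN - φ.g Q0) * φ.g q = φ.g q := by rw [sub_mul, a3, z1, sub_zero]
  have d2 : φ.g q * (PN - φ.g Q0) = φ.g q := by rw [mul_sub, a4, z2, sub_zero]
  have mE1 : y * φ.g q * x ∈ L K G := (L K G).mul_mem ((L K G).mul_mem hy mE) hx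
  have e1 : y * φ.g q * x * (y * φ.g q * x) = y * φ.g q * x := by
    calc y * φ.g q * x * (y * φ.g q * x) = y * (φ.g q * (x * y)) * φ.g q * x := by noncomm_ring
      _ = y * (φ.g q * φ.g q) * x := by rw [c1, d2]; noncomm_ring
      _ = y * φ.g q * x := by rw [iE]
  have e2 : (PN - qa) * (y * φ.g q * x) = y * φ.g q * x := by
    calc (PN - qa) * (y * φ.g q * x) = y * ((x * y) * φ.g q) * x := by rw [← c2]; noncomm_ring
      _ = y * φ.g q * x := by rw [c1, d1]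
  have e3 : y * φ.g q * x * (PN - qa) = y * φ.g q * x := by
    calc y * φ.g q * x * (PN - qa) = y * (φ.g q * (x * y)) * x := by rw [← c2]; noncomm_ring
      _ = y * φ.g q * x := by rw [c1, d2]
  have e4 : Eqv K G (φ.g q) (y * φ.g q * x) := by
    refine ⟨φ.g q * x, (L K G).mul_mem mE hx, y * φ.g q, (L K G).mul_mem hy mE, ?_, ?_⟩
    · calc φ.g q * x * (y * φ.g q) = (φ.g q * (x * y)) * φ.g q := by noncomm_ring
        _ = φ.g q := by rw [c1, d2, iE]
    · calc y * φ.g q * (φ.g q * x) = y * (φ.g q * φ.g q) * x := by noncomm_ring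
        _ = y * φ.g q * x := by rw [iE]
  obtain ⟨qb, hqb, f1, f2, -⟩ := F1 hG hsub mE1 e1 e2 e3
  have f3 : PN * qb = qb := by
    rw [← f1, ← mul_assoc, mul_sub, hPr.2.2, b1]
  have f4 : qa * qb = 0 := by
    rw [← f1, ← mul_assoc, mul_sub, b1', hqa.2.2, sub_self, zero_mul]
  -- `qa ~ E0 ~ P0`
  have k1 : Eqv K G P0 (φ.g Q0) := by
    have k2 := φ.symm.f_eqv h
    have k3 : φ.symm.f (φ.f P0) = P0 := φ.gf P0 hP0.mem
    rw [k3] at k2
    exact k2
  have k2 : Eqv K G qa P0 := Eqv.trans (Eqv.symm b2) (Eqv.symm k1) hqa.2.2 hP0.2.2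
  obtain ⟨qd, hqd, l1, l2, l3⟩ := F3 hG hPr hqa hqb hP0 b1 f3 a5 f4 k2
  refine ⟨qd, hqd, ?_, l2, ?_⟩
  · intro h hh
    rw [← l1, ← mul_assoc, a6 h hh, zero_mul]
  · have m1 : Eqv K G (φ.g q) qb := Eqv.trans e4 f2 iE hqb.2.2
    have m2 : Eqv K G (φ.g q) qd := Eqv.trans m1 l3 iE hqd.2.2
    have m3 := φ.f_eqv m2
    rw [φ.fg q hq.mem] at m3
    exact Eqv.symm m3

/-- the same for finitely many projections -/
theorem rr_ext_fin (hG : G.LA) (hG' : G'.LA) (c : CP φ) {ι : Type*} (s : Finset ι)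
    (q : ι → U K G') {Q0 : U K G'} {P0 : U K G} (hq : ∀ i ∈ s, Pr (q i))
    (hQ0 : Pr Q0) (hP0 : Pr P0) (hqH : ∀ i ∈ s, ∀ h ∈ c.H', vx K G' h * q i = 0)
    (hQH : ∀ h ∈ c.H', vx K G' h * Q0 = 0) (hPH : ∀ h ∈ c.H, vx K G h * P0 = 0)
    (hqQ : ∀ i ∈ s, Q0 * q i = 0) (hqq : ∀ i ∈ s, ∀ j ∈ s, i ≠ j → q i * q j = 0)
    (h : RR φ P0 Q0) :
    ∃ p : ι → U K G, (∀ i ∈ s, Pr (p i)) ∧ (∀ i ∈ s, ∀ h ∈ c.H, vx K G h * p i = 0) ∧
      (∀ i ∈ s, P0 * p i = 0) ∧ (∀ i ∈ s, ∀ j ∈ s, i ≠ j → p i * p j = 0) ∧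
      ∀ i ∈ s, RR φ (p i) (q i) := by
  classical
  induction s using Finset.induction_on with
  | empty => exact ⟨fun _ => 0, by simp, by simp, by simp, by simp, by simp⟩
  | insert a s ha ih =>
    have hs : ∀ {i}, i ∈ s → i ∈ insert a s := fun h => Finset.mem_insert_of_mem h
    have haa : a ∈ insert a s := Finset.mem_insert_self _ _
    have hne : ∀ i ∈ s, a ≠ i := fun i hi h => ha (h ▸ hi)
    obtain ⟨p, r1, r2, r3, r4, r5⟩ := ih (fun i hi => hq i (hs hi)) (fun i hi => hqH i (hs hi))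
      (fun i hi => hqQ i (hs hi)) (fun i hi j hj => hqq i (hs hi) j (hs hj))
    have Sp : Pr (∑ i ∈ s, p i) := Pr.sum hG s p r1 r4
    have Sq : Pr (∑ i ∈ s, q i) := Pr.sum hG' s q (fun i hi => hq i (hs hi))
      (fun i hi j hj => hqq i (hs hi) j (hs hj))
    have o1 : P0 * ∑ i ∈ s, p i = 0 := by
      rw [Finset.mul_sum]; exact Finset.sum_eq_zero r3
    have o2 : Q0 * ∑ i ∈ s, q i = 0 := by
      rw [Finset.mul_sum]; exact Finset.sum_eq_zero fun i hi => hqQ i (hs hi)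
    have hP1 : Pr (P0 + ∑ i ∈ s, p i) := Pr.add hG hP0 Sp o1
    have hQ1 : Pr (Q0 + ∑ i ∈ s, q i) := Pr.add hG' hQ0 Sq o2
    have hrr : RR φ (P0 + ∑ i ∈ s, p i) (Q0 + ∑ i ∈ s, q i) :=
      RR.add h (RR.sum s p q r5 r1 (fun i hi => hq i (hs hi)) r4
        (fun i hi j hj => hqq i (hs hi) j (hs hj)) hG hG') hP0 Sp hQ0 Sq o1 o2
    obtain ⟨pa, u1, u2, u3, u4⟩ := rr_ext hG hG' c (q := q a) (Q0 := Q0 + ∑ i ∈ s, q i)
      (P0 := P0 + ∑ i ∈ s, p i) (hq a haa) hQ1 hP1 (hqH a haa)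
      (by
        intro h' hh
        rw [mul_add, hQH h' hh, zero_add, Finset.mul_sum]
        exact Finset.sum_eq_zero fun i hi => hqH i (hs hi) h' hh)
      (by
        intro h' hh
        rw [mul_add, hPH h' hh, zero_add, Finset.mul_sum]
        exact Finset.sum_eq_zero fun i hi => r2 i hi h' hh)
      (by
        rw [add_mul, hqQ a haa, zero_add, Finset.sum_mul]
        exact Finset.sum_eq_zero fun i hi => hqq i (hs hi) a haa (hne i hi).symm)
      hrr
    have w1 : P0 * pa = 0 := by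
      have e : P0 * (P0 + ∑ i ∈ s, p i) = P0 := by rw [mul_add, hP0.2.2, o1, add_zero]
      rw [← e, mul_assoc, u3, mul_zero]
    have w2 : ∀ i ∈ s, p i * pa = 0 := by
      intro i hi
      have e : p i * (P0 + ∑ i ∈ s, p i) = p i := by
        rw [mul_add, hP0.comm_zero (r1 i hi) (r3 i hi), zero_add, Finset.mul_sum,
          Finset.sum_eq_single i]
        · exact (r1 i hi).2.2
        · intro j hj hji; exact r4 i hi j hj hji.symm
        · intro h'; exact absurd hi h'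
      rw [← e, mul_assoc, u3, mul_zero]
    have w3 : ∀ i ∈ s, pa * p i = 0 := fun i hi => (r1 i hi).comm_zero u1 (w2 i hi)
    obtain ⟨F, hF⟩ : ∃ F : ι → U K G, F = fun i => if i = a then pa else p i := ⟨_, rfl⟩
    have v1 : F a = pa := by simp [hF]
    have v2 : ∀ i ∈ s, F i = p i := by
      intro i hi
      simp [hF, (hne i hi).symm]
    refine ⟨F, ?_, ?_, ?_, ?_, ?_⟩
    · intro i hi
      rcases Finset.mem_insert.mp hi with h' | h'
      · rw [h', v1]; exact u1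
      · rw [v2 i h']; exact r1 i h'
    · intro i hi
      rcases Finset.mem_insert.mp hi with h' | h'
      · rw [h', v1]; exact u2
      · rw [v2 i h']; exact r2 i h'
    · intro i hi
      rcases Finset.mem_insert.mp hi with h' | h'
      · rw [h', v1]; exact w1
      · rw [v2 i h']; exact r3 i h'
    · intro i hi j hj hij
      rcases Finset.mem_insert.mp hi with h' | h'
      · rcases Finset.mem_insert.mp hj with h'' | h''
        · exact absurd (h'.trans h''.symm) hij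
        · rw [h', v1, v2 j h'']; exact w3 j h''
      · rcases Finset.mem_insert.mp hj with h'' | h''
        · rw [h'', v1, v2 i h']; exact w2 i h'
        · rw [v2 i h', v2 j h'']; exact r4 i h' j h'' hij
    · intro i hi
      rcases Finset.mem_insert.mp hi with h' | h'
      · rw [h', v1]; exact u4
      · rw [v2 i h']; exact r5 i h'

end Pool.Agent.Helper32.LV
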