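import Pool.Agent.Helper32.LV.Step
import Pool.Agent.Helper32.LV.LamF
import Pool.Agent.Helper32.LV.Corner

/-! The back-and-forth sequence. PIECES 15 (exists_sq) and 16 (Sq.cp, in SeqCP.lean). -/

set_option autoImplicit false
set_option linter.unusedSectionVars false

universe k a b a' b'

namespace Pool.Agent.Helper32.LV

variable {V : Type a} {E : Type b} {K : Type k} [Field K] [StarRing K] {G : Gr V E}
  {V' : Type a'} {E' : Type b'} {G' : Gr V' E'} {φ : RI K G G'}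

/-- bookkeeping: stage `n` contains the first `n` edges of each of its vertices -/
theorem exists_need (hC : G.CE) : ∃ need : ℕ → Stage G → Stage G, (∀ n T, T ≤ need n T) ∧
    ∀ e, G.s e ≠ G.r e → ∃ n0, ∀ n ≥ n0, ∀ T : Stage G, G.s e ∈ T.Vt → e ∈ (need n T).Ft := by
  classical
  have hcode : ∀ v : V, ∃ f : {e | G.s e = v} → ℕ, Function.Injective f := fun v =>
    (Set.countable_iff_exists_injective.mp (hC v))
  choose f hf using hcode
  let code : E → ℕ := fun e => f (G.s e) ⟨e, rfl⟩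
  have hcode : ∀ e e', G.s e = G.s e' → code e = code e' → e = e' := by
    intro e e' hs hc
    have h1 : ∀ (w : V) (h : G.s e = w) (h' : G.s e' = w),
        f w ⟨e, h⟩ = f w ⟨e', h'⟩ → e = e' := fun w h h' hh =>
      congrArg Subtype.val (hf w hh)
    have h2 : ∀ (w w' : V) (hw : w = w') (h : G.s e' = w) (h' : G.s e' = w'),
        f w ⟨e', h⟩ = f w' ⟨e', h'⟩ := by
      intro w w' hw h h'
      subst hw
      rfl
    exact h1 (G.s e) rfl hs.symm (hc.trans (h2 _ _ hs.symm rfl hs.symm))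
  have hfin : ∀ (n : ℕ) (T : Stage G),
      {e | G.s e ∈ T.Vt ∧ G.s e ≠ G.r e ∧ code e < n}.Finite := by
    intro n T
    refine Set.Finite.of_injOn (t := ((T.Vt ×ˢ Finset.range n : Finset (V × ℕ)) : Set (V × ℕ)))
      (f := fun e => (G.s e, code e)) ?_ ?_ (Finset.finite_toSet _)
    · rintro e ⟨h1, -, h3⟩
      exact Finset.mem_coe.mpr (Finset.mem_product.mpr ⟨h1, Finset.mem_range.mpr h3⟩)
    · intro e _ e' _ h
      exact hcode e e' (congrArg Prod.fst h) (congrArg Prod.snd h)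
  refine ⟨fun n T => ⟨T.Vt ∪ (hfin n T).toFinset.image G.r, T.Ft ∪ (hfin n T).toFinset, ?_, ?_, ?_⟩,
    ?_, ?_⟩
  · intro e he
    rcases Finset.mem_union.mp he with h | h
    · exact Finset.mem_union_left _ (T.hs e h)
    · exact Finset.mem_union_left _ ((hfin n T).mem_toFinset.mp h).1
  · intro e he
    rcases Finset.mem_union.mp he with h | h
    · exact Finset.mem_union_left _ (T.hr e h)
    · exact Finset.mem_union_right _ (Finset.mem_image_of_mem _ h)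
  · intro e he
    rcases Finset.mem_union.mp he with h | h
    · exact T.nl e h
    · exact ((hfin n T).mem_toFinset.mp h).2.1
  · intro n T
    exact ⟨fun v hv => Finset.mem_union_left _ hv, fun v hv => Finset.mem_union_left _ hv⟩
  · intro e he
    refine ⟨code e + 1, fun n hn T hT => ?_⟩
    exact Finset.mem_union_right _ ((hfin n T).mem_toFinset.mpr ⟨hT, he, by omega⟩)

theorem exists_cov (φ : RI K G G') : ∃ cov : Stage G → Stage G',
    ∀ T, ∀ v ∈ T.Vt, φ.f (vx K G v) ∈ Zspan K G' (cov T) := by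
  have h : ∀ T : Stage G, ∃ T' : Stage G', ∀ v ∈ T.Vt, φ.f (vx K G v) ∈ Zspan K G' T' := by
    intro T
    obtain ⟨T', -, h⟩ := exists_Zspan_finset (K := K) (G := G') T.Vt (fun v => φ.f (vx K G v))
      (fun v _ => φ.f_mem _ (vx_mem v)) ⟨∅, ∅, by simp, by simp, by simp⟩
    exact ⟨T', h⟩
  choose cov hcov using h
  exact ⟨cov, hcov⟩

/-- the empty finite isomorphism -/
theorem exists_start (c : CP φ) : Nonempty (FS c) := by
  have h : ∀ α : V × List E, α ∉ Psi (⟨∅, ∅, by simp, by simp, by simp⟩ : Stage G) := by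
    intro α hα
    exact absurd hα.1 (Finset.notMem_empty _)
  exact ⟨{
    T := ⟨∅, ∅, by simp, by simp, by simp⟩
    τ := fun _ => 0
    std := fun α hα => absurd hα (h α)
    orth := fun α hα => absurd hα (h α)
    eqn := fun α hα => absurd hα (h α)
    rr := fun α hα => absurd hα (h α)
    h1 := fun α hα => absurd hα (h α)
    h2 := fun α hα => absurd hα (h α) }⟩

/-- a sequence of finite isomorphisms, alternating between the two directions -/
structure Sq (c : CP φ) (v : V) where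
  s : ℕ → FS c
  s' : ℕ → FS c.symm
  l1 : ∀ n, ∀ z ∈ (s n).Lam, z.swap ∈ (s' n).Lam
  l2 : ∀ n, ∀ z ∈ (s' n).Lam, z.swap ∈ (s (n + 1)).Lam
  m1 : ∀ n, (s n).T ≤ (s (n + 1)).T
  m2 : ∀ n, (s' n).T ≤ (s' (n + 1)).T
  e1 : ∀ e, G.s e ≠ G.r e → ∀ n, G.s e ∈ (s n).T.Vt → ∃ m, e ∈ (s m).T.Ft
  e2 : ∀ e, G'.s e ≠ G'.r e → ∀ n, G'.s e ∈ (s' n).T.Vt → ∃ m, e ∈ (s' m).T.Ft
  v1 : ∃ n, v ∈ (s n).T.Vt
  c1 : ∀ n, ∀ v ∈ (s n).T.Vt, φ.f (vx K G v) ∈ Zspan K G' (s' n).T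
  c2 : ∀ n, ∀ v ∈ (s' n).T.Vt, φ.g (vx K G' v) ∈ Zspan K G (s (n + 1)).T

/-- PIECE 15. Iterate `step` for `c` and for `c.symm` (a recursion on pairs `(s, s')` with
`Lam s ⊆ swap (Lam s')`), with prescribed stages
`T0 = sup (need n (s n).T) (sup (cov' (s' n).T) {v})` for `s (n+1)` and
`T0 = sup (need' n (s' n).T) (cov (s (n+1)).T)` for `s' (n+1)`. -/
theorem exists_sq (hG : G.LA) (hG' : G'.LA) (hC : G.CE) (hC' : G'.CE) (c : CP φ) (v : V) :
    Nonempty (Sq c v) := by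
  classical
  obtain ⟨need, hn1, hn2⟩ := exists_need hC
  obtain ⟨need', hn1', hn2'⟩ := exists_need hC'
  obtain ⟨cov, hcov⟩ := exists_cov φ
  obtain ⟨cov', hcov'⟩ := exists_cov φ.symm
  obtain ⟨s0⟩ := exists_start c
  have hstep1 : ∀ (s : FS c) (T0 : Stage G'),
      ∃ s' : FS c.symm, T0 ≤ s'.T ∧ ∀ z ∈ s.Lam, z.swap ∈ s'.Lam := step hG hG'
  have hstep2 : ∀ (s' : FS c.symm) (T0 : Stage G),
      ∃ s : FS c, T0 ≤ s.T ∧ ∀ z ∈ s'.Lam, z.swap ∈ s.Lam :=
    fun s' T0 => step (c := c.symm) hG' hG s' T0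
  choose F hF1 hF2 using hstep1
  choose F' hF1' hF2' using hstep2
  let Tv : Stage G := ⟨{v}, ∅, by simp, by simp, by simp⟩
  let nx : ℕ → FS c × FS c.symm → FS c := fun n p =>
    F' p.2 ((need n p.1.T).sup ((cov' p.2.T).sup Tv))
  let nx' : ℕ → FS c × FS c.symm → FS c.symm := fun n p =>
    F (nx n p) ((need' n p.2.T).sup (cov (nx n p).T))
  let pr : ℕ → FS c × FS c.symm := fun n =>
    Nat.rec (s0, F s0 (cov s0.T)) (fun n p => (nx n p, nx' n p)) n
  have hp1 : ∀ n, (pr (n + 1)).1 = nx n (pr n) := fun _ => rfl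
  have hp2 : ∀ n, (pr (n + 1)).2 = nx' n (pr n) := fun _ => rfl
  have t1 : ∀ n, (need n (pr n).1.T).sup ((cov' (pr n).2.T).sup Tv) ≤ (pr (n + 1)).1.T :=
    fun n => hF1' _ _
  have t2 : ∀ n, (need' n (pr n).2.T).sup (cov (pr (n + 1)).1.T) ≤ (pr (n + 1)).2.T :=
    fun n => hF1 _ _
  have m1 : ∀ n, (pr n).1.T ≤ (pr (n + 1)).1.T := fun n =>
    Stage.le_trans' (hn1 n _) (Stage.le_trans' (Stage.le_sup_left _ _) (t1 n))
  have m2 : ∀ n, (pr n).2.T ≤ (pr (n + 1)).2.T := fun n =>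
    Stage.le_trans' (hn1' n _) (Stage.le_trans' (Stage.le_sup_left _ _) (t2 n))
  have mm1 : ∀ n k, (pr n).1.T ≤ (pr (n + k)).1.T := by
    intro n k
    induction k with
    | zero => exact Stage.le_rfl' _
    | succ k ih => exact Stage.le_trans' ih (m1 (n + k))
  have mm2 : ∀ n k, (pr n).2.T ≤ (pr (n + k)).2.T := by
    intro n k
    induction k with
    | zero => exact Stage.le_rfl' _
    | succ k ih => exact Stage.le_trans' ih (m2 (n + k))
  have hc1 : ∀ n, cov (pr n).1.T ≤ (pr n).2.T := by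
    intro n
    cases n with
    | zero => exact hF1 _ _
    | succ n => exact Stage.le_trans' (Stage.le_sup_right _ _) (t2 n)
  refine ⟨{
    s := fun n => (pr n).1
    s' := fun n => (pr n).2
    l1 := ?_
    l2 := fun n z hz => hF2' _ _ z hz
    m1 := m1
    m2 := m2
    e1 := ?_
    e2 := ?_
    v1 := ⟨1, ?_⟩
    c1 := fun n w hw => Zspan_mono (hc1 n) (hcov _ w hw)
    c2 := fun n w hw => Zspan_mono (Stage.le_trans' (Stage.le_sup_left _ _)
      (Stage.le_trans' (Stage.le_sup_right _ _) (t1 n))) (hcov' _ w hw) }⟩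
  · intro n z hz
    cases n with
    | zero => exact hF2 _ _ z hz
    | succ n => exact hF2 _ _ z hz
  · intro e he n hn
    obtain ⟨n0, h0⟩ := hn2 e he
    refine ⟨n + n0 + 1, ?_⟩
    have h1 : e ∈ (need (n + n0) (pr (n + n0)).1.T).Ft :=
      h0 (n + n0) (by omega) _ ((mm1 n n0).1 hn)
    exact (Stage.le_trans' (Stage.le_sup_left _ _) (t1 (n + n0))).2 h1
  · intro e he n hn
    obtain ⟨n0, h0⟩ := hn2' e he
    refine ⟨n + n0 + 1, ?_⟩
    have h1 : e ∈ (need' (n + n0) (pr (n + n0)).2.T).Ft :=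
      h0 (n + n0) (by omega) _ ((mm2 n n0).1 hn)
    exact (Stage.le_trans' (Stage.le_sup_left _ _) (t2 (n + n0))).2 h1
  · have h1 : v ∈ Tv.Vt := Finset.mem_singleton_self v
    exact (Stage.le_trans' (Stage.le_sup_right _ _)
      (Stage.le_trans' (Stage.le_sup_right _ _) (t1 0))).1 h1

/-- compatibility of two closed isomorphisms -/
structure Compat (c d : CP φ) : Prop where
  av : ∀ v ∈ c.H, v ∈ d.H → ∀ y, (vx K G v, y) ∈ d.Θ → (vx K G v, y) ∈ c.Θ
  ae : ∀ e, G.s e ∈ c.H → G.s e ∈ d.H → G.s e ≠ G.r e → ∀ y, (ed K G e, y) ∈ d.Θ →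
    (ed K G e, y) ∈ c.Θ
  av' : ∀ v ∈ c.H', v ∈ d.H' → ∀ x, (x, vx K G' v) ∈ d.Θ → (x, vx K G' v) ∈ c.Θ
  ae' : ∀ e, G'.s e ∈ c.H' → G'.s e ∈ d.H' → G'.s e ≠ G'.r e → ∀ x, (x, ed K G' e) ∈ d.Θ →
    (x, ed K G' e) ∈ c.Θ
  ov : ∀ v ∈ d.H, v ∉ c.H → ∀ y, (vx K G v, y) ∈ d.Θ → ∀ h ∈ c.H', vx K G' h * y = 0
  ov' : ∀ v ∈ d.H', v ∉ c.H' → ∀ x, (x, vx K G' v) ∈ d.Θ → ∀ h ∈ c.H, vx K G h * x = 0

/-- extension of closed isomorphisms -/
def CLe (c d : CP φ) : Prop := c.H ⊆ d.H ∧ c.H' ⊆ d.H' ∧ c.Θ ≤ d.Θ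

end Pool.Agent.Helper32.LV
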