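import Pool.Agent.Helper32.LV.Seq

/-! The closed isomorphism of a back-and-forth sequence. PIECE 16. -/

set_option autoImplicit false
set_option linter.unusedSectionVars false

universe k a b a' b'

namespace Pool.Agent.Helper32.LV

variable {V : Type a} {E : Type b} {K : Type k} [Field K] [StarRing K] {G : Gr V E}
  {V' : Type a'} {E' : Type b'} {G' : Gr V' E'} {φ : RI K G G'} {c : CP φ}

/-- an increasing sequence of finite isomorphisms which eventually contains all non-loop edges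
starting in its vertices -/
structure Up (s : ℕ → FS c) : Prop where
  mT : ∀ n, (s n).T ≤ (s (n + 1)).T
  mL : ∀ n, ∀ z ∈ (s n).Lam, z ∈ (s (n + 1)).Lam
  me : ∀ e, G.s e ≠ G.r e → ∀ n, G.s e ∈ (s n).T.Vt → ∃ m, e ∈ (s m).T.Ft

/-- the vertices of the sequence -/
def Up.H (s : ℕ → FS c) : Set V := {w | ∃ n, w ∈ (s n).T.Vt}

theorem Up.monoT {s : ℕ → FS c} (h : Up s) {n m : ℕ} (hnm : n ≤ m) : (s n).T ≤ (s m).T := by
  induction hnm with
  | refl => exact Stage.le_rfl' _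
  | step _ ih => exact Stage.le_trans' ih (h.mT _)

theorem Up.monoL {s : ℕ → FS c} (h : Up s) {n m : ℕ} (hnm : n ≤ m) {z : U K G × U K G'}
    (hz : z ∈ (s n).Lam) : z ∈ (s m).Lam := by
  induction hnm with
  | refl => exact hz
  | step _ ih => exact h.mL _ _ ih

theorem Up.her {s : ℕ → FS c} (h : Up s) (e : E) (he : G.s e ∈ Up.H s) : G.r e ∈ Up.H s := by
  by_cases hl : G.s e = G.r e
  · rw [← hl]; exact he
  · obtain ⟨n, hn⟩ := he
    obtain ⟨m, hm⟩ := h.me e hl n hn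
    exact ⟨m, (s m).T.hr e hm⟩

theorem Up.ed_mem {s : ℕ → FS c} (h : Up s) {e : E} (hl : G.s e ≠ G.r e) (he : G.s e ∈ Up.H s) :
    ∃ m, e ∈ (s m).T.Ft := by
  obtain ⟨n, hn⟩ := he
  exact h.me e hl n hn

/-- elements of `alg0` are in the span of matrix units of some stage of the sequence -/
theorem Up.alg0_iff {s : ℕ → FS c} (h : Up s) (hG : G.LA) (x : U K G) :
    x ∈ alg0 K G (Up.H s) ↔ ∃ n, x ∈ Mspan K (s n).T := by
  constructor
  · intro hx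
    unfold alg0 at hx
    induction hx using NonUnitalAlgebra.adjoin_induction with
    | mem x hx =>
      rcases hx with ⟨v, ⟨n, hn⟩, rfl⟩ | ⟨e, he, hl, rfl | rfl⟩
      · exact ⟨n, vx_mem_Mspan hG hn⟩
      · obtain ⟨m, hm⟩ := h.ed_mem hl he
        exact ⟨m, ed_mem_Mspan hG hm⟩
      · obtain ⟨m, hm⟩ := h.ed_mem hl he
        refine ⟨m, ?_⟩
        rw [← star_ed]
        exact Mspan_star (ed_mem_Mspan hG hm)
    | zero => exact ⟨0, Submodule.zero_mem _⟩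
    | add x y _ _ h1 h2 =>
      obtain ⟨n, h1⟩ := h1
      obtain ⟨m, h2⟩ := h2
      exact ⟨max n m, Submodule.add_mem _ (Mspan_mono hG (h.monoT (le_max_left n m)) h1)
        (Mspan_mono hG (h.monoT (le_max_right n m)) h2)⟩
    | mul x y _ _ h1 h2 =>
      obtain ⟨n, h1⟩ := h1
      obtain ⟨m, h2⟩ := h2
      exact ⟨max n m, Mspan_mul (Mspan_mono hG (h.monoT (le_max_left n m)) h1)
        (Mspan_mono hG (h.monoT (le_max_right n m)) h2)⟩
    | smul r x _ h1 =>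
      obtain ⟨n, h1⟩ := h1
      exact ⟨n, Submodule.smul_mem _ _ h1⟩
  · rintro ⟨n, hn⟩
    exact Mspan_le_alg0 h.her (fun v hv => ⟨n, hv⟩) hn

theorem Up.dom {s : ℕ → FS c} (h : Up s) (hG : G.LA) (x : U K G) :
    x ∈ alg0 K G (Up.H s) ↔ ∃ y, ∃ n, (x, y) ∈ (s n).Lam := by
  rw [h.alg0_iff hG]
  constructor
  · rintro ⟨n, hn⟩
    obtain ⟨y, hy⟩ := (s n).Lam_dom hn
    exact ⟨y, n, hy⟩
  · rintro ⟨y, n, hn⟩
    exact ⟨n, (s n).Lam_fst hn⟩

/-- the union of the graphs -/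
noncomputable def Up.Th {s : ℕ → FS c} (h : Up s) : NonUnitalSubalgebra K (U K G × U K G') where
  carrier := {z | ∃ n, z ∈ (s n).Lam}
  add_mem' := by
    rintro x y ⟨n, hn⟩ ⟨m, hm⟩
    exact ⟨max n m, Submodule.add_mem _ (h.monoL (le_max_left n m) hn)
      (h.monoL (le_max_right n m) hm)⟩
  zero_mem' := ⟨0, Submodule.zero_mem _⟩
  mul_mem' := by
    rintro x y ⟨n, hn⟩ ⟨m, hm⟩
    exact ⟨max n m, (s (max n m)).Lam_mul (h.monoL (le_max_left n m) hn)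
      (h.monoL (le_max_right n m) hm)⟩
  smul_mem' := by
    rintro r x ⟨n, hn⟩
    exact ⟨n, Submodule.smul_mem _ _ hn⟩

theorem Up.mem_Th {s : ℕ → FS c} (h : Up s) {z : U K G × U K G'} :
    z ∈ h.Th ↔ ∃ n, z ∈ (s n).Lam := Iff.rfl

theorem Up.vx_c {s : ℕ → FS c} (h : Up s) (hG : G.LA) {v : V} (hv : v ∈ c.H) (hs : v ∈ Up.H s)
    {n : ℕ} {y : U K G'} (hy : (vx K G v, y) ∈ (s n).Lam) : (vx K G v, y) ∈ c.Θ := by
  obtain ⟨m, hm⟩ := hs
  exact (s (max n m)).Lam_vx hG ((h.monoT (le_max_right n m)).1 hm) hv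
    (h.monoL (le_max_left n m) hy)

theorem Up.ed_c {s : ℕ → FS c} (h : Up s) (hG : G.LA) {e : E} (hv : G.s e ∈ c.H)
    (hs : G.s e ∈ Up.H s) (hl : G.s e ≠ G.r e)
    {n : ℕ} {y : U K G'} (hy : (ed K G e, y) ∈ (s n).Lam) : (ed K G e, y) ∈ c.Θ := by
  obtain ⟨m, hm⟩ := h.ed_mem hl hs
  exact (s (max n m)).Lam_ed hG ((h.monoT (le_max_right n m)).2 hm) hv
    (h.monoL (le_max_left n m) hy)

theorem Up.out_c {s : ℕ → FS c} (h : Up s) (hG : G.LA) {v : V} (hv : v ∉ c.H) (hs : v ∈ Up.H s)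
    {n : ℕ} {y : U K G'} (hy : (vx K G v, y) ∈ (s n).Lam) (w : V') (hw : w ∈ c.H') :
    vx K G' w * y = 0 := by
  obtain ⟨m, hm⟩ := hs
  exact (s (max n m)).Lam_out hG ((h.monoT (le_max_right n m)).1 hm) hv
    (h.monoL (le_max_left n m) hy) w hw

/-- `H` is the union of the `(s n).T.Vt`, `H'` the union of the `(s' n).T.Vt`, and `Θ` the union of
the `(s n).Lam` (equal to the union of the swapped `(s' n).Lam`). The properties come from the
`FS.Lam_*` lemmas for `s n` and `s' n`, `phi` and `phi'` from `phi_of_vx` and `c1`, `c2`. -/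
theorem Sq.cp (hG : G.LA) (hG' : G'.LA) {v : V} (S : Sq c v) :
    ∃ d : CP φ, v ∈ d.H ∧ Compat c d := by
  have l1 : ∀ n x y, (x, y) ∈ (S.s n).Lam → (y, x) ∈ (S.s' n).Lam := fun n x y h =>
    S.l1 n (x, y) h
  have l2 : ∀ n x y, (y, x) ∈ (S.s' n).Lam → (x, y) ∈ (S.s (n + 1)).Lam := fun n x y h =>
    S.l2 n (y, x) h
  have U1 : Up S.s := ⟨S.m1, fun n z hz => l2 n z.1 z.2 (l1 n z.1 z.2 hz), S.e1⟩
  have U2 : Up S.s' := ⟨S.m2, fun n z hz => l1 (n + 1) z.2 z.1 (l2 n z.2 z.1 hz), S.e2⟩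
  have ran : ∀ y, y ∈ alg0 K G' (Up.H S.s') ↔ ∃ x, (x, y) ∈ U1.Th := by
    intro y
    rw [U2.dom hG']
    constructor
    · rintro ⟨x, n, h⟩
      exact ⟨x, n + 1, l2 n x y h⟩
    · rintro ⟨x, n, h⟩
      exact ⟨x, n, l1 n x y h⟩
  have phi : ∀ x ∈ algz K G (Up.H S.s), φ.f x ∈ algz K G' (Up.H S.s') := by
    intro x hx
    refine phi_of_vx hG hG' φ U1.her U2.her ?_ hx
    rintro w ⟨n, hn⟩
    exact Zspan_le_algz (H := Up.H S.s') (fun u hu => ⟨n, hu⟩) (S.c1 n w hn)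
  have phi' : ∀ y ∈ algz K G' (Up.H S.s'), φ.g y ∈ algz K G (Up.H S.s) := by
    intro y hy
    refine phi_of_vx hG' hG φ.symm U2.her U1.her ?_ hy
    rintro w ⟨n, hn⟩
    exact Zspan_le_algz (H := Up.H S.s) (fun u hu => ⟨n + 1, hu⟩) (S.c2 n w hn)
  refine ⟨{
    H := Up.H S.s
    H' := Up.H S.s'
    Θ := U1.Th
    her := U1.her
    her' := U2.her
    st := ?_
    dom := U1.dom hG
    ran := ran
    inj := ?_
    inj' := ?_
    std := ?_
    rr := ?_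
    phi := phi
    phi' := phi' }, S.v1, ?_⟩
  · rintro z ⟨n, hn⟩
    exact ⟨n, (S.s n).Lam_star hn⟩
  · rintro y ⟨n, hn⟩
    exact (S.s n).Lam_inj hn
  · rintro x ⟨n, hn⟩
    exact (S.s n).Lam_inj' hn
  · rintro x y ⟨n, hn⟩
    exact ⟨(S.s n).Lam_std hG hG' hn, (S.s' n).Lam_std hG' hG (l1 n x y hn)⟩
  · rintro p q ⟨n, hn⟩ hp
    exact (S.s n).Lam_rr hG hG' hn hp
  · refine ⟨?_, ?_, ?_, ?_, ?_, ?_⟩
    · rintro w hw hw' y ⟨n, hn⟩
      exact U1.vx_c hG hw hw' hn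
    · rintro e hw hw' hl y ⟨n, hn⟩
      exact U1.ed_c hG hw hw' hl hn
    · rintro w hw hw' x ⟨n, hn⟩
      exact U2.vx_c hG' (c := c.symm) hw hw' (l1 n _ _ hn)
    · rintro e hw hw' hl x ⟨n, hn⟩
      exact U2.ed_c hG' (c := c.symm) hw hw' hl (l1 n _ _ hn)
    · rintro w hw hw' y ⟨n, hn⟩ h hh
      exact U1.out_c hG hw' hw hn h hh
    · rintro w hw hw' x ⟨n, hn⟩ h hh
      exact U2.out_c hG' (c := c.symm) hw' hw (l1 n _ _ hn) h hh

theorem exists_cp (hG : G.LA) (hG' : G'.LA) (hC : G.CE) (hC' : G'.CE) (c : CP φ) (v : V) :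
    ∃ d : CP φ, v ∈ d.H ∧ Compat c d := by
  obtain ⟨S⟩ := exists_sq hG hG' hC hC' c v
  exact S.cp hG hG'

end Pool.Agent.Helper32.LV
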