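import Pool.Agent.Helper32.LV.Star

/-! Leavitt path algebras of graphs whose only cycles are loops without exits: finite stages,
standard elements, ring isomorphisms, isomorphisms between parts. Definitions. -/

set_option autoImplicit false

universe k a b a' b'

namespace Pool.Agent.Helper32.LV

variable {V : Type a} {E : Type b} (K : Type k) [Field K] (G : Gr V E)

/-- the only cycles are loops, and loops have no exit -/
structure Gr.LA (G : Gr V E) : Prop where
  acyc : ∀ v l, l ≠ [] → (∀ e ∈ l, G.s e ≠ G.r e) → G.IsPath v l → G.tgt v l ≠ v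
  loop : ∀ e f, G.s e = G.r e → G.s f = G.s e → f = e

/-- every vertex emits at most countably many edges -/
def Gr.CE (G : Gr V E) : Prop := ∀ v, {e | G.s e = v}.Countable

/-- a finite set of vertices and a finite set of non-loop edges between them -/
structure Stage where
  Vt : Finset V
  Ft : Finset E
  hs : ∀ e ∈ Ft, G.s e ∈ Vt
  hr : ∀ e ∈ Ft, G.r e ∈ Vt
  nl : ∀ e ∈ Ft, G.s e ≠ G.r e

variable {G}

instance : LE (Stage G) := ⟨fun T T' => T.Vt ⊆ T'.Vt ∧ T.Ft ⊆ T'.Ft⟩

theorem Stage.le_def {T T' : Stage G} : T ≤ T' ↔ T.Vt ⊆ T'.Vt ∧ T.Ft ⊆ T'.Ft := Iff.rfl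

theorem Stage.le_rfl' (T : Stage G) : T ≤ T := ⟨Finset.Subset.refl _, Finset.Subset.refl _⟩

theorem Stage.le_trans' {T T' T'' : Stage G} (h : T ≤ T') (h' : T' ≤ T'') : T ≤ T'' :=
  ⟨h.1.trans h'.1, h.2.trans h'.2⟩

open Classical in
/-- the union of two stages -/
noncomputable def Stage.sup (T T' : Stage G) : Stage G where
  Vt := T.Vt ∪ T'.Vt
  Ft := T.Ft ∪ T'.Ft
  hs e he := by
    rcases Finset.mem_union.mp he with h | h
    · exact Finset.mem_union_left _ (T.hs e h)
    · exact Finset.mem_union_right _ (T'.hs e h)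
  hr e he := by
    rcases Finset.mem_union.mp he with h | h
    · exact Finset.mem_union_left _ (T.hr e h)
    · exact Finset.mem_union_right _ (T'.hr e h)
  nl e he := by
    rcases Finset.mem_union.mp he with h | h
    · exact T.nl e h
    · exact T'.nl e h

open Classical in
theorem Stage.le_sup_left (T T' : Stage G) : T ≤ T.sup T' :=
  ⟨fun _ h => Finset.mem_union_left _ h, fun _ h => Finset.mem_union_left _ h⟩

open Classical in
theorem Stage.le_sup_right (T T' : Stage G) : T' ≤ T.sup T' :=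
  ⟨fun _ h => Finset.mem_union_right _ h, fun _ h => Finset.mem_union_right _ h⟩

/-- all edges of the emitting vertex `w` are in the stage -/
def Full (T : Stage G) (w : V) : Prop := (∃ e, G.s e = w) ∧ ∀ e, G.s e = w → e ∈ T.Ft

/-- the paths of the stage which end at a vertex that is not full -/
def Psi (T : Stage G) : Set (V × List E) :=
  {α | α.1 ∈ T.Vt ∧ G.IsPath α.1 α.2 ∧ (∀ e ∈ α.2, e ∈ T.Ft) ∧ ¬ Full T (G.tgt α.1 α.2)}

open Classical in
/-- the same as a finite set (it is finite for `LA` graphs) -/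
noncomputable def PsiF (T : Stage G) : Finset (V × List E) :=
  if h : (Psi T).Finite then h.toFinset else ∅

/-- end point of an index -/
def tg (G : Gr V E) (α : V × List E) : V := G.tgt α.1 α.2

section fam
variable {B : Type*} [Ring B] [StarRing B]

/-- A family of projections and isometries between them for the vertices in the hereditary set `S` and the
non-loop edges starting there. -/
structure Fam (G : Gr V E) (S : Set V) (q : V → B) (u : E → B) : Prop where
  her : ∀ e, G.s e ∈ S → G.r e ∈ S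
  qs : ∀ v ∈ S, star (q v) = q v
  qq : ∀ v ∈ S, q v * q v = q v
  qw : ∀ v ∈ S, ∀ w ∈ S, v ≠ w → q v * q w = 0
  su : ∀ e, G.s e ∈ S → G.s e ≠ G.r e → q (G.s e) * u e = u e
  ur : ∀ e, G.s e ∈ S → G.s e ≠ G.r e → u e * q (G.r e) = u e
  uu : ∀ e, G.s e ∈ S → G.s e ≠ G.r e → star (u e) * u e = q (G.r e)
  uf : ∀ e f, G.s e ∈ S → G.s f ∈ S → G.s e ≠ G.r e → G.s f ≠ G.r f → e ≠ f →
    star (u e) * u f = 0
  ck : ∀ v ∈ S, ∀ h : {e | G.s e = v}.Finite, (∃ e, G.s e = v) →
    (∀ e, G.s e = v → G.s e ≠ G.r e) → q v = ∑ e ∈ h.toFinset, u e * star (u e)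

/-- the element of a path -/
def pB (q : V → B) (u : E → B) (α : V × List E) : B := q α.1 * (α.2.map u).prod

open Classical in
/-- the gap projection of the stage at the vertex `w` -/
noncomputable def gapB (q : V → B) (u : E → B) (T : Stage G) (w : V) : B :=
  q w - ∑ e ∈ T.Ft.filter (fun e => G.s e = w), u e * star (u e)

/-- the element of an index -/
noncomputable def aB (q : V → B) (u : E → B) (T : Stage G) (α : V × List E) : B :=
  pB q u α * gapB q u T (tg G α)

end fam

variable [StarRing K]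

/-- the element of an index in the algebra -/
noncomputable def aU (T : Stage G) (α : V × List E) : U K G := aB (vx K G) (ed K G) T α

/-- gap projection in the algebra -/
noncomputable def gapU (T : Stage G) (w : V) : U K G := gapB (vx K G) (ed K G) T w

/-- matrix units in the algebra -/
noncomputable def mU (T : Stage G) (α β : V × List E) : U K G := aU K T α * star (aU K T β)

variable {K}

/-- standard elements of the stage: sums of matrix units over a bijection between sets of indices -/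
def StdAt (T : Stage G) (x : U K G) : Prop :=
  ∃ P : Finset ((V × List E) × (V × List E)),
    (∀ p ∈ P, p.1 ∈ Psi T ∧ p.2 ∈ Psi T ∧ tg G p.1 = tg G p.2) ∧
    (∀ p ∈ P, ∀ p' ∈ P, p.1 = p'.1 ↔ p.2 = p'.2) ∧ x = ∑ p ∈ P, mU K T p.1 p.2

/-- standard elements -/
def Std (x : U K G) : Prop := ∃ T : Stage G, StdAt T x

/-- standard projections -/
def Pr (x : U K G) : Prop := Std x ∧ star x = x ∧ x * x = x

variable (K G)

/-- generators of the subalgebra of a stage, with the loops -/
def zgens (T : Stage G) : Set (U K G) :=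
  {x | (∃ v ∈ T.Vt, x = vx K G v) ∨
    (∃ e, (e ∈ T.Ft ∨ (G.s e ∈ T.Vt ∧ G.s e = G.r e)) ∧ (x = ed K G e ∨ x = gh K G e))}

/-- the subalgebra of a stage, with the loops -/
noncomputable def Zspan (T : Stage G) : NonUnitalSubalgebra K (U K G) :=
  NonUnitalAlgebra.adjoin K (zgens K G T)

/-- the subalgebra generated by the vertices in `H` and the non-loop edges starting in `H` -/
noncomputable def alg0 (H : Set V) : NonUnitalSubalgebra K (U K G) :=
  NonUnitalAlgebra.adjoin K {x | (∃ v ∈ H, x = vx K G v) ∨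
    (∃ e, G.s e ∈ H ∧ G.s e ≠ G.r e ∧ (x = ed K G e ∨ x = gh K G e))}

/-- the subalgebra generated by the vertices in `H` and all edges starting in `H` -/
noncomputable def algz (H : Set V) : NonUnitalSubalgebra K (U K G) :=
  NonUnitalAlgebra.adjoin K {x | (∃ v ∈ H, x = vx K G v) ∨
    (∃ e, G.s e ∈ H ∧ (x = ed K G e ∨ x = gh K G e))}

/-- Murray-von Neumann equivalence in the Leavitt path algebra -/
def Eqv (e f : U K G) : Prop := ∃ x ∈ L K G, ∃ y ∈ L K G, x * y = e ∧ y * x = f

variable {V' : Type a'} {E' : Type b'} (G' : Gr V' E')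

/-- a ring isomorphism between the Leavitt path algebras, given by functions on the ambient
algebras -/
structure RI where
  f : U K G → U K G'
  g : U K G' → U K G
  f_mem : ∀ x ∈ L K G, f x ∈ L K G'
  g_mem : ∀ y ∈ L K G', g y ∈ L K G
  f_add : ∀ x ∈ L K G, ∀ y ∈ L K G, f (x + y) = f x + f y
  f_mul : ∀ x ∈ L K G, ∀ y ∈ L K G, f (x * y) = f x * f y
  g_add : ∀ x ∈ L K G', ∀ y ∈ L K G', g (x + y) = g x + g y
  g_mul : ∀ x ∈ L K G', ∀ y ∈ L K G', g (x * y) = g x * g y
  gf : ∀ x ∈ L K G, g (f x) = x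
  fg : ∀ y ∈ L K G', f (g y) = y

variable {K G G'}

/-- the inverse -/
def RI.symm (φ : RI K G G') : RI K G' G where
  f := φ.g
  g := φ.f
  f_mem := φ.g_mem
  g_mem := φ.f_mem
  f_add := φ.g_add
  f_mul := φ.g_mul
  g_add := φ.f_add
  g_mul := φ.f_mul
  gf := φ.fg
  fg := φ.gf

/-- `p` and `q` correspond to each other up to equivalence -/
def RR (φ : RI K G G') (p : U K G) (q : U K G') : Prop := Eqv K G' (φ.f p) q

/-- A closed isomorphism: hereditary sets `H`, `H'` of vertices and the graph `Θ` of an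
isomorphism `alg0 H → alg0 H'`. -/
structure CP (φ : RI K G G') where
  H : Set V
  H' : Set V'
  Θ : NonUnitalSubalgebra K (U K G × U K G')
  her : ∀ e, G.s e ∈ H → G.r e ∈ H
  her' : ∀ e, G'.s e ∈ H' → G'.r e ∈ H'
  st : ∀ z ∈ Θ, star z ∈ Θ
  dom : ∀ x, x ∈ alg0 K G H ↔ ∃ y, (x, y) ∈ Θ
  ran : ∀ y, y ∈ alg0 K G' H' ↔ ∃ x, (x, y) ∈ Θ
  inj : ∀ y, ((0 : U K G), y) ∈ Θ → y = 0
  inj' : ∀ x, (x, (0 : U K G')) ∈ Θ → x = 0
  std : ∀ x y, (x, y) ∈ Θ → (Std x ↔ Std y)
  rr : ∀ p q, (p, q) ∈ Θ → Pr p → RR φ p q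
  phi : ∀ x ∈ algz K G H, φ.f x ∈ algz K G' H'
  phi' : ∀ y ∈ algz K G' H', φ.g y ∈ algz K G H

/-- Finite isomorphism compatible with a closed one: images `τ α` of the elements `aU T α` up
to a base change on the right. -/
structure FS {φ : RI K G G'} (c : CP φ) where
  T : Stage G
  τ : V × List E → U K G'
  std : ∀ α ∈ Psi T, Std (τ α)
  orth : ∀ α ∈ Psi T, ∀ β ∈ Psi T, α ≠ β → star (τ α) * τ β = 0
  eqn : ∀ α ∈ Psi T, ∀ β ∈ Psi T, tg G α = tg G β → star (τ α) * τ α = star (τ β) * τ β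
  rr : ∀ α ∈ Psi T, RR φ (mU K T α α) (τ α * star (τ α))
  h1 : ∀ α ∈ Psi T, α.1 ∈ c.H → (aU K T α, τ α) ∈ c.Θ
  h2 : ∀ α ∈ Psi T, α.1 ∉ c.H → ∀ h ∈ c.H', vx K G' h * τ α = 0

/-- the graph of the finite isomorphism -/
noncomputable def FS.Lam {φ : RI K G G'} {c : CP φ} (s : FS c) : Submodule K (U K G × U K G') :=
  Submodule.span K {z | ∃ α ∈ Psi s.T, ∃ β ∈ Psi s.T, tg G α = tg G β ∧
    z = (mU K s.T α β, s.τ α * star (s.τ β))}

end Pool.Agent.Helper32.LV
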