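import Pool.Agent.Helper32.LV.Defs

/-! Leavitt path algebras: the involution and the (in general non-unital) Leavitt path algebra. -/

set_option autoImplicit false

universe k a b

namespace Pool.Agent.Helper32.LV

open MulOpposite

variable {V : Type a} {E : Type b} (K : Type k) [Field K] (G : Gr V E)

/-- the opposite algebra with the scalars twisted by the involution of `K` -/
def Op : Type (max k a b) := (U K G)ᵐᵒᵖ

noncomputable instance : Ring (Op K G) := inferInstanceAs (Ring (U K G)ᵐᵒᵖ)

noncomputable instance instAlgebraOp [StarRing K] : Algebra K (Op K G) :=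
  RingHom.toAlgebra' ((algebraMap K (U K G)ᵐᵒᵖ).comp (starRingEnd K)) (fun c x => by
    exact Algebra.commutes (R := K) (A := (U K G)ᵐᵒᵖ) _ _)

variable {K G}

theorem isRep_op [StarRing K] : IsRep K G (B := Op K G) (fun v => (op (vx K G v) : (U K G)ᵐᵒᵖ))
    (fun e => (op (gh K G e) : (U K G)ᵐᵒᵖ)) (fun e => (op (ed K G e) : (U K G)ᵐᵒᵖ)) where
  vv v := congrArg op (vx_vx v)
  vw v w h := congrArg op (vx_vx_of_ne (K := K) (G := G) h.symm)
  se e := congrArg op (gh_vx e)
  er e := congrArg op (vx_gh e)
  rg e := congrArg op (ed_vx e)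
  gs e := congrArg op (vx_ed e)
  ge e := congrArg op (gh_ed e)
  gf e f h := congrArg op (gh_ed_of_ne (K := K) (G := G) h.symm)
  ck v h h0 := by
    change (op (vx K G v) : (U K G)ᵐᵒᵖ) = _
    rw [vx_eq_sum v h h0]
    exact map_sum (opAddEquiv : U K G ≃+ (U K G)ᵐᵒᵖ) _ _

/-- the involution as a homomorphism to the twisted opposite algebra -/
noncomputable def stHom [StarRing K] : U K G →ₐ[K] Op K G := lift isRep_op

noncomputable instance instStarU [StarRing K] : Star (U K G) :=
  ⟨fun x => unop (show (U K G)ᵐᵒᵖ from stHom x)⟩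

theorem star_def [StarRing K] (x : U K G) : star x = unop (show (U K G)ᵐᵒᵖ from stHom x) := rfl

theorem star_vx [StarRing K] (v : V) : star (vx K G v) = vx K G v := by
  rw [star_def, stHom, lift_vx]; rfl

theorem star_ed [StarRing K] (e : E) : star (ed K G e) = gh K G e := by
  rw [star_def, stHom, lift_ed]; rfl

theorem star_gh [StarRing K] (e : E) : star (gh K G e) = ed K G e := by
  rw [star_def, stHom, lift_gh]; rfl

theorem star_algebraMap' [StarRing K] (c : K) :
    star (algebraMap K (U K G) c) = algebraMap K (U K G) (star c) := by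
  rw [star_def, AlgHom.commutes]; rfl

theorem star_add' [StarRing K] (x y : U K G) : star (x + y) = star x + star y := by
  rw [star_def, map_add]; rfl

theorem star_mul' [StarRing K] (x y : U K G) : star (x * y) = star y * star x := by
  rw [star_def, map_mul]; rfl

theorem star_star' [StarRing K] (x : U K G) : star (star x) = x := by
  induction x using U_ind with
  | hk c => rw [star_algebraMap', star_algebraMap', star_star]
  | hv v => rw [star_vx, star_vx]
  | he e => rw [star_ed, star_gh]
  | hg e => rw [star_gh, star_ed]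
  | ha x y hx hy => rw [star_add', star_add', hx, hy]
  | hm x y hx hy => rw [star_mul', star_mul', hx, hy]

/-- the involution of the algebra: `v* = v`, `e ↦ e*`, conjugate linear, reversing products -/
noncomputable instance instStarRingU [StarRing K] : StarRing (U K G) where
  star_involutive := star_star'
  star_mul := star_mul'
  star_add := star_add'

instance instStarModuleU [StarRing K] : StarModule K (U K G) where
  star_smul c x := by
    rw [Algebra.smul_def, star_mul', star_algebraMap', Algebra.smul_def, Algebra.commutes]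

variable (K G)

/-- The Leavitt path algebra: the (in general non-unital) subalgebra generated by the vertices,
the edges and the ghost edges. -/
noncomputable def L : NonUnitalSubalgebra K (U K G) :=
  NonUnitalAlgebra.adjoin K (Set.range (gen K G))

variable {K G}

theorem vx_mem (v : V) : vx K G v ∈ L K G :=
  NonUnitalAlgebra.subset_adjoin K ⟨_, rfl⟩

theorem ed_mem (e : E) : ed K G e ∈ L K G :=
  NonUnitalAlgebra.subset_adjoin K ⟨_, rfl⟩

theorem gh_mem (e : E) : gh K G e ∈ L K G :=
  NonUnitalAlgebra.subset_adjoin K ⟨_, rfl⟩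

theorem L_ind {p : U K G → Prop} (hv : ∀ v, p (vx K G v)) (he : ∀ e, p (ed K G e))
    (hg : ∀ e, p (gh K G e)) (h0 : p 0) (ha : ∀ x ∈ L K G, ∀ y ∈ L K G, p x → p y → p (x + y))
    (hm : ∀ x ∈ L K G, ∀ y ∈ L K G, p x → p y → p (x * y))
    (hc : ∀ (c : K), ∀ x ∈ L K G, p x → p (c • x)) {x : U K G} (hx : x ∈ L K G) : p x := by
  induction hx using NonUnitalAlgebra.adjoin_induction with
  | mem x hx =>
    obtain ⟨g, rfl⟩ := hx
    cases g with
    | vert v => exact hv v
    | edge e => exact he e
    | ghost e => exact hg e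
  | zero => exact h0
  | add x y hx hy h1 h2 => exact ha x hx y hy h1 h2
  | mul x y hx hy h1 h2 => exact hm x hx y hy h1 h2
  | smul c x hx h1 => exact hc c x hx h1

theorem star_mem_L [StarRing K] {x : U K G} (hx : x ∈ L K G) : star x ∈ L K G := by
  refine L_ind (p := fun x => star x ∈ L K G) ?_ ?_ ?_ ?_ ?_ ?_ ?_ hx
  · intro v; rw [star_vx]; exact vx_mem v
  · intro e; rw [star_ed]; exact gh_mem e
  · intro e; rw [star_gh]; exact ed_mem e
  · rw [star_zero]; exact (L K G).zero_mem
  · intro x _ y _ h1 h2; rw [star_add]; exact (L K G).add_mem h1 h2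
  · intro x _ y _ h1 h2; rw [star_mul]; exact (L K G).mul_mem h2 h1
  · intro c x _ h; rw [star_smul]; exact (L K G).smul_mem _ h

noncomputable instance instStarL [StarRing K] : Star (L K G) := ⟨fun x => ⟨star x.1, star_mem_L x.2⟩⟩

/-- the list of edges is a path starting at the vertex -/
def Gr.IsPath (G : Gr V E) : V → List E → Prop
  | _, [] => True
  | v, e :: l => G.s e = v ∧ G.IsPath (G.r e) l

/-- the end point of a path -/
def Gr.tgt (G : Gr V E) : V → List E → V
  | v, [] => v
  | _, e :: l => G.tgt (G.r e) l

/-- the list of edges `l` is a cycle: a non-empty closed path whose edges have distinct sources -/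
def Gr.IsCycle (G : Gr V E) (l : List E) : Prop :=
  ∃ v, l ≠ [] ∧ G.IsPath v l ∧ G.tgt v l = v ∧ (l.map G.s).Nodup

/-- no cycle has an exit -/
def Gr.NoExit (G : Gr V E) : Prop :=
  ∀ l, G.IsCycle l → ∀ e ∈ l, ∀ f, G.s f = G.s e → f = e

end Pool.Agent.Helper32.LV
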