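import Pool.Agent.Helper32.LV.MU

/-! Standard elements. PIECE 5. -/

set_option autoImplicit false

universe k a b

namespace Pool.Agent.Helper32.LV

variable {V : Type a} {E : Type b} {K : Type k} [Field K] [StarRing K] {G : Gr V E}

/-- sums of matrix units over families -/
theorem std_of_fam {ι : Type*} {T : Stage G} (s : Finset ι) (a b : ι → V × List E)
    (h : ∀ i ∈ s, a i ∈ Psi T ∧ b i ∈ Psi T ∧ tg G (a i) = tg G (b i))
    (ha : ∀ i ∈ s, ∀ j ∈ s, a i = a j → i = j) (hb : ∀ i ∈ s, ∀ j ∈ s, b i = b j → i = j) :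
    StdAt T (∑ i ∈ s, mU K T (a i) (b i)) := by
  classical
  refine ⟨s.image fun i => (a i, b i), ?_, ?_, ?_⟩
  · intro p hp
    obtain ⟨i, hi, rfl⟩ := Finset.mem_image.mp hp
    exact h i hi
  · intro p hp p' hp'
    obtain ⟨i, hi, rfl⟩ := Finset.mem_image.mp hp
    obtain ⟨j, hj, rfl⟩ := Finset.mem_image.mp hp'
    constructor
    · intro e; rw [ha i hi j hj e]
    · intro e; rw [hb i hi j hj e]
  · rw [Finset.sum_image]
    intro i hi j hj e
    exact ha i hi j hj (congrArg Prod.fst e)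

/-- products of sums of matrix units -/
theorem mU_sum_mul {ι κ : Type*} {T : Stage G} [DecidableEq (V × List E)] (s : Finset ι)
    (t : Finset κ) (a b : ι → V × List E) (c d : κ → V × List E)
    (h1 : ∀ i ∈ s, a i ∈ Psi T ∧ b i ∈ Psi T ∧ tg G (a i) = tg G (b i))
    (h2 : ∀ j ∈ t, c j ∈ Psi T) :
    (∑ i ∈ s, mU K T (a i) (b i)) * (∑ j ∈ t, mU K T (c j) (d j)) =
      ∑ i ∈ s, ∑ j ∈ t, if b i = c j then mU K T (a i) (d j) else 0 := by
  rw [Finset.sum_mul_sum]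
  refine Finset.sum_congr rfl fun i hi => Finset.sum_congr rfl fun j hj => ?_
  split_ifs with h
  · rw [← h]
    exact mU_mul_same (h1 i hi).1 (h1 i hi).2.1 (h1 i hi).2.2 _
  · exact mU_mul_ne (h1 i hi).2.1 (h2 j hj) h

theorem star_sum_mU {ι : Type*} (T : Stage G) (s : Finset ι) (a b : ι → V × List E) :
    star (∑ i ∈ s, mU K T (a i) (b i)) = ∑ i ∈ s, mU K T (b i) (a i) := by
  rw [star_sum]
  exact Finset.sum_congr rfl fun i _ => mU_star T _ _

theorem std_mul_star {T : Stage G} (P : Finset ((V × List E) × (V × List E)))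
    (h1 : ∀ p ∈ P, p.1 ∈ Psi T ∧ p.2 ∈ Psi T ∧ tg G p.1 = tg G p.2)
    (h2 : ∀ p ∈ P, ∀ p' ∈ P, p.1 = p'.1 ↔ p.2 = p'.2) :
    (∑ p ∈ P, mU K T p.1 p.2) * star (∑ p ∈ P, mU K T p.1 p.2) = ∑ p ∈ P, mU K T p.1 p.1 := by
  classical
  rw [star_sum_mU T P Prod.fst Prod.snd,
    mU_sum_mul P P Prod.fst Prod.snd Prod.snd Prod.fst h1 (fun j hj => (h1 j hj).2.1)]
  refine Finset.sum_congr rfl fun p hp => ?_
  rw [Finset.sum_eq_single p, if_pos rfl]
  · intro r hr hne
    rw [if_neg]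
    intro h
    exact hne (Prod.ext ((h2 r hr p hp).2 h.symm) h.symm)
  · intro h; exact absurd hp h

theorem std_star_mul {T : Stage G} (P : Finset ((V × List E) × (V × List E)))
    (h1 : ∀ p ∈ P, p.1 ∈ Psi T ∧ p.2 ∈ Psi T ∧ tg G p.1 = tg G p.2)
    (h2 : ∀ p ∈ P, ∀ p' ∈ P, p.1 = p'.1 ↔ p.2 = p'.2) :
    star (∑ p ∈ P, mU K T p.1 p.2) * (∑ p ∈ P, mU K T p.1 p.2) = ∑ p ∈ P, mU K T p.2 p.2 := by
  classical
  rw [star_sum_mU T P Prod.fst Prod.snd,
    mU_sum_mul P P Prod.snd Prod.fst Prod.fst Prod.snd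
      (fun i hi => ⟨(h1 i hi).2.1, (h1 i hi).1, (h1 i hi).2.2.symm⟩) (fun j hj => (h1 j hj).1)]
  refine Finset.sum_congr rfl fun p hp => ?_
  rw [Finset.sum_eq_single p, if_pos rfl]
  · intro r hr hne
    rw [if_neg]
    intro h
    exact hne (Prod.ext h.symm ((h2 r hr p hp).1 h.symm))
  · intro h; exact absurd hp h

/-- uniqueness of coefficients -/
theorem mU_uniq {T : Stage G} [DecidableEq ((V × List E) × (V × List E))]
    (A B : Finset ((V × List E) × (V × List E)))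
    (hA : ∀ p ∈ A, p.1 ∈ Psi T ∧ p.2 ∈ Psi T ∧ tg G p.1 = tg G p.2)
    (hB : ∀ p ∈ B, p.1 ∈ Psi T ∧ p.2 ∈ Psi T ∧ tg G p.1 = tg G p.2)
    (c d : (V × List E) × (V × List E) → K)
    (h : ∑ r ∈ A, c r • mU K T r.1 r.2 = ∑ r ∈ B, d r • mU K T r.1 r.2) :
    ∀ r ∈ A ∪ B, (if r ∈ A then c r else 0) = (if r ∈ B then d r else 0) := by
  have key := mU_indep T (A ∪ B) (fun p hp => by
    rcases Finset.mem_union.mp hp with h | h
    · exact hA p h
    · exact hB p h) (fun r => (if r ∈ A then c r else 0) - (if r ∈ B then d r else 0)) (by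
      simp_rw [sub_smul, ite_smul, zero_smul]
      rw [Finset.sum_sub_distrib, Finset.sum_ite_mem, Finset.sum_ite_mem,
        Finset.union_inter_cancel_left, Finset.union_inter_cancel_right, h, sub_self])
  intro r hr
  exact sub_eq_zero.mp (key r hr)

open Classical in
/-- continuations of the indices of `T` with end point `w` in `T'` -/
noncomputable def contF (T T' : Stage G) (w : V) : Finset (V × List E) :=
  (PsiF T').filter (fun δ => δ.1 = w ∧ ∀ e ∈ δ.2.head?, e ∉ T.Ft)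

theorem mem_contF (hG : G.LA) {T T' : Stage G} {w : V} {δ : V × List E} :
    δ ∈ contF T T' w ↔ δ ∈ Psi T' ∧ δ.1 = w ∧ ∀ e ∈ δ.2.head?, e ∉ T.Ft := by
  classical
  rw [contF, Finset.mem_filter, mem_PsiF hG]

theorem mU_exp (hG : G.LA) {T T' : Stage G} (hTT : T ≤ T') {α β : V × List E}
    (hα : α ∈ Psi T) (hβ : β ∈ Psi T) (h : tg G α = tg G β) :
    mU K T α β = ∑ δ ∈ contF T T' (tg G α), mU K T' (α.1, α.2 ++ δ.2) (β.1, β.2 ++ δ.2) := by
  classical
  rw [mU_eq_sum hG hTT hα hβ h]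
  refine Finset.sum_congr ?_ fun _ _ => rfl
  ext δ
  rw [mem_contF hG, Finset.mem_filter, mem_PsiF hG]

theorem contF_nonempty (hG : G.LA) {T T' : Stage G} (hTT : T ≤ T') (K : Type k) [Field K]
    [StarRing K] {α : V × List E} (hα : α ∈ Psi T) : (contF T T' (tg G α)).Nonempty := by
  by_contra h
  rw [Finset.not_nonempty_iff_eq_empty] at h
  have h1 := mU_exp (K := K) hG hTT hα hα rfl
  rw [h, Finset.sum_empty] at h1
  exact mU_ne_zero hα hα rfl h1

theorem cont_mem (hG : G.LA) {T T' : Stage G} (hTT : T ≤ T') (K : Type k) [Field K]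
    [StarRing K] {α δ : V × List E} (hα : α ∈ Psi T) (hδ : δ ∈ contF T T' (tg G α)) :
    (α.1, α.2 ++ δ.2) ∈ Psi T' ∧ tg G (α.1, α.2 ++ δ.2) = tg G δ := by
  obtain ⟨h1, h2, h3⟩ := (mem_contF hG).mp hδ
  have h4 := aB_append (fam_U K) hTT (fun v _ => Set.mem_univ v) hα h1 h2 h3
  exact ⟨h4.1, h4.2.1⟩

theorem StdAt.mem_Mspan {T : Stage G} {x : U K G} (h : StdAt T x) : x ∈ Mspan K T := by
  obtain ⟨P, h1, -, rfl⟩ := h
  exact Submodule.sum_mem _ fun p hp => mU_mem_Mspan (h1 p hp).1 (h1 p hp).2.1 (h1 p hp).2.2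

theorem StdAt.zero (T : Stage G) : StdAt T (0 : U K G) := ⟨∅, by simp, by simp, by simp⟩

theorem StdAt.of_mU {T : Stage G} {α β : V × List E} (hα : α ∈ Psi T) (hβ : β ∈ Psi T)
    (h : tg G α = tg G β) : StdAt T (mU K T α β) := by
  have := std_of_fam (K := K) (T := T) ({()} : Finset Unit) (fun _ => α) (fun _ => β)
    (fun _ _ => ⟨hα, hβ, h⟩) (fun _ _ _ _ _ => rfl) (fun _ _ _ _ _ => rfl)
  simpa using this

theorem StdAt.st {T : Stage G} {x : U K G} (h : StdAt T x) : StdAt T (star x) := by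
  obtain ⟨P, h1, h2, rfl⟩ := h
  rw [star_sum_mU T P Prod.fst Prod.snd]
  refine std_of_fam P Prod.snd Prod.fst
    (fun p hp => ⟨(h1 p hp).2.1, (h1 p hp).1, (h1 p hp).2.2.symm⟩) ?_ ?_
  · intro p hp p' hp' h
    exact Prod.ext ((h2 p hp p' hp').2 h) h
  · intro p hp p' hp' h
    exact Prod.ext h ((h2 p hp p' hp').1 h)

/-- the product is the sum over the composition of the bijections -/
theorem StdAt.mul {T : Stage G} {x y : U K G} (hx : StdAt T x) (hy : StdAt T y) :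
    StdAt T (x * y) := by
  classical
  obtain ⟨P, h1, h2, rfl⟩ := hx
  obtain ⟨Q, h3, h4, rfl⟩ := hy
  have e : (∑ p ∈ P, mU K T p.1 p.2) * (∑ r ∈ Q, mU K T r.1 r.2) =
      ∑ z ∈ (P ×ˢ Q).filter (fun z => z.1.2 = z.2.1), mU K T z.1.1 z.2.2 := by
    rw [mU_sum_mul P Q Prod.fst Prod.snd Prod.fst Prod.snd h1 (fun j hj => (h3 j hj).1),
      Finset.sum_filter, Finset.sum_product]
  rw [e]
  refine std_of_fam (K := K) ((P ×ˢ Q).filter (fun z => z.1.2 = z.2.1)) (fun z => z.1.1)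
    (fun z => z.2.2) ?_ ?_ ?_
  · intro z hz
    rw [Finset.mem_filter, Finset.mem_product] at hz
    obtain ⟨⟨hz1, hz2⟩, hz3⟩ := hz
    refine ⟨(h1 _ hz1).1, (h3 _ hz2).2.1, ?_⟩
    rw [(h1 _ hz1).2.2, hz3, (h3 _ hz2).2.2]
  · intro z hz z' hz' h
    rw [Finset.mem_filter, Finset.mem_product] at hz hz'
    have e1 : z.1 = z'.1 := Prod.ext h ((h2 _ hz.1.1 _ hz'.1.1).1 h)
    have e2 : z.2.1 = z'.2.1 := by rw [← hz.2, ← hz'.2, e1]
    exact Prod.ext e1 (Prod.ext e2 ((h4 _ hz.1.2 _ hz'.1.2).1 e2))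
  · intro z hz z' hz' h
    rw [Finset.mem_filter, Finset.mem_product] at hz hz'
    have e1 : z.2 = z'.2 := Prod.ext ((h4 _ hz.1.2 _ hz'.1.2).2 h) h
    have e2 : z.1.2 = z'.1.2 := by rw [hz.2, hz'.2, e1]
    exact Prod.ext (Prod.ext ((h2 _ hz.1.1 _ hz'.1.1).2 e2) e2) e1

theorem StdAt.add {T : Stage G} {x y : U K G} (hx : StdAt T x) (hy : StdAt T y)
    (h1 : star x * y = 0) (h2 : x * star y = 0) : StdAt T (x + y) := by
  classical
  obtain ⟨P, hP, hP', rfl⟩ := hx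
  obtain ⟨Q, hQ, hQ', rfl⟩ := hy
  have f1 : ∀ p ∈ P, ∀ r ∈ Q, p.1 ≠ r.1 := by
    intro p hp r hr hpr
    have e1 : mU K T p.1 p.1 * (∑ r ∈ Q, mU K T r.1 r.2) = 0 := by
      have e2 := std_mul_star P hP hP' (K := K)
      have e3 : (∑ p ∈ P, mU K T p.1 p.1) * (∑ r ∈ Q, mU K T r.1 r.2) = 0 := by
        rw [← e2, mul_assoc, h1, mul_zero]
      have e4 : mU K T p.1 p.1 * (∑ p ∈ P, mU K T p.1 p.1) = mU K T p.1 p.1 := by
        have e5 := mU_sum_mul (K := K) (T := T) ({()} : Finset Unit) P (fun _ => p.1)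
          (fun _ => p.1) Prod.fst Prod.fst (fun _ _ => ⟨(hP p hp).1, (hP p hp).1, rfl⟩)
          (fun j hj => (hP j hj).1)
        simp only [Finset.sum_singleton] at e5
        rw [e5, Finset.sum_eq_single p, if_pos rfl]
        · intro r hr hne
          rw [if_neg]
          intro h
          exact hne (Prod.ext h.symm ((hP' r hr p hp).1 h.symm))
        · intro h; exact absurd hp h
      rw [← e4, mul_assoc, e3, mul_zero]
    have e6 := mU_sum_mul (K := K) (T := T) ({()} : Finset Unit) Q (fun _ => p.1)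
      (fun _ => p.1) Prod.fst Prod.snd (fun _ _ => ⟨(hP p hp).1, (hP p hp).1, rfl⟩)
      (fun j hj => (hQ j hj).1)
    simp only [Finset.sum_singleton] at e6
    rw [e6, Finset.sum_eq_single r, if_pos hpr] at e1
    · exact mU_ne_zero (hP p hp).1 (hQ r hr).2.1 (by rw [hpr, (hQ r hr).2.2]) e1
    · intro r' hr' hne
      rw [if_neg]
      intro h
      have h' : r'.1 = r.1 := by rw [← h, hpr]
      exact hne (Prod.ext h' ((hQ' r' hr' r hr).1 h'))
    · intro h; exact absurd hr h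
  have f2 : ∀ p ∈ P, ∀ r ∈ Q, p.2 ≠ r.2 := by
    intro p hp r hr hpr
    have e2 := std_star_mul P hP hP' (K := K)
    have e0 : (∑ p ∈ P, mU K T p.2 p.2) * star (∑ r ∈ Q, mU K T r.1 r.2) = 0 := by
      rw [← e2, mul_assoc, h2, mul_zero]
    rw [star_sum_mU T Q Prod.fst Prod.snd] at e0
    have e1 : mU K T p.2 p.2 * (∑ r ∈ Q, mU K T r.2 r.1) = 0 := by
      have e4 : mU K T p.2 p.2 * (∑ p ∈ P, mU K T p.2 p.2) = mU K T p.2 p.2 := by
        have e5 := mU_sum_mul (K := K) (T := T) ({()} : Finset Unit) P (fun _ => p.2)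
          (fun _ => p.2) Prod.snd Prod.snd (fun _ _ => ⟨(hP p hp).2.1, (hP p hp).2.1, rfl⟩)
          (fun j hj => (hP j hj).2.1)
        simp only [Finset.sum_singleton] at e5
        rw [e5, Finset.sum_eq_single p, if_pos rfl]
        · intro r hr hne
          rw [if_neg]
          intro h
          exact hne (Prod.ext ((hP' r hr p hp).2 h.symm) h.symm)
        · intro h; exact absurd hp h
      rw [← e4, mul_assoc, e0, mul_zero]
    have e6 := mU_sum_mul (K := K) (T := T) ({()} : Finset Unit) Q (fun _ => p.2)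
      (fun _ => p.2) Prod.snd Prod.fst (fun _ _ => ⟨(hP p hp).2.1, (hP p hp).2.1, rfl⟩)
      (fun j hj => (hQ j hj).2.1)
    simp only [Finset.sum_singleton] at e6
    rw [e6, Finset.sum_eq_single r, if_pos hpr] at e1
    · exact mU_ne_zero (hP p hp).2.1 (hQ r hr).1 (by rw [hpr, (hQ r hr).2.2]) e1
    · intro r' hr' hne
      rw [if_neg]
      intro h
      have h' : r'.2 = r.2 := by rw [← h, hpr]
      exact hne (Prod.ext ((hQ' r' hr' r hr).2 h') h')
    · intro h; exact absurd hr h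
  have hdis : Disjoint P Q := by
    rw [Finset.disjoint_left]
    intro p hp hq
    exact f1 p hp p hq rfl
  rw [← Finset.sum_union hdis]
  refine std_of_fam (P ∪ Q) Prod.fst Prod.snd ?_ ?_ ?_
  · intro p hp
    rcases Finset.mem_union.mp hp with h | h
    · exact hP p h
    · exact hQ p h
  · intro p hp r hr h
    rcases Finset.mem_union.mp hp with h3 | h3 <;> rcases Finset.mem_union.mp hr with h4 | h4
    · exact Prod.ext h ((hP' p h3 r h4).1 h)
    · exact absurd h (f1 p h3 r h4)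
    · exact absurd h.symm (f1 r h4 p h3)
    · exact Prod.ext h ((hQ' p h3 r h4).1 h)
  · intro p hp r hr h
    rcases Finset.mem_union.mp hp with h3 | h3 <;> rcases Finset.mem_union.mp hr with h4 | h4
    · exact Prod.ext ((hP' p h3 r h4).2 h) h
    · exact absurd h (f2 p h3 r h4)
    · exact absurd h.symm (f2 r h4 p h3)
    · exact Prod.ext ((hQ' p h3 r h4).2 h) h

/-- uniqueness of the form at a stage: coefficients `0`, `1` are determined by the element -/
theorem StdAt.of_Mspan (hG : G.LA) {T T' : Stage G} (hTT : T ≤ T') {x : U K G}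
    (hx : StdAt T' x) (h : x ∈ Mspan K T) : StdAt T x := by
  classical
  obtain ⟨P', hP1, hP2, hx'⟩ := hx
  set Q := ((PsiF T) ×ˢ (PsiF T)).filter (fun p => tg G p.1 = tg G p.2) with hQdef
  have hQ : ∀ p, p ∈ Q ↔ p.1 ∈ Psi T ∧ p.2 ∈ Psi T ∧ tg G p.1 = tg G p.2 := by
    intro p
    rw [hQdef, Finset.mem_filter, Finset.mem_product, mem_PsiF hG, mem_PsiF hG, and_assoc]
  have hspan : Mspan K T = Submodule.span K
      ((fun p : (V × List E) × (V × List E) => mU K T p.1 p.2) '' (Q : Set _)) := by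
    unfold Mspan
    congr 1
    ext y
    constructor
    · rintro ⟨α, hα, β, hβ, h1, rfl⟩
      exact ⟨(α, β), (hQ _).mpr ⟨hα, hβ, h1⟩, rfl⟩
    · rintro ⟨p, hp, rfl⟩
      obtain ⟨h1, h2, h3⟩ := (hQ _).mp hp
      exact ⟨_, h1, _, h2, h3, rfl⟩
  rw [hspan, Submodule.mem_span_image_finset_iff_exists_fun] at h
  obtain ⟨c, hc⟩ : ∃ c : (V × List E) × (V × List E) → K, ∑ p ∈ Q, c p • mU K T p.1 p.2 = x := by
    obtain ⟨c0, hc0⟩ := h
    refine ⟨fun p => if hp : p ∈ Q then c0 ⟨p, hp⟩ else 0, ?_⟩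
    rw [← hc0, ← Finset.sum_coe_sort Q]
    refine Finset.sum_congr rfl fun p _ => ?_
    change (if hp : (p : (V × List E) × (V × List E)) ∈ Q then c0 ⟨p, hp⟩ else 0) • _ = _
    rw [dif_pos p.2]
  let S : Finset (Σ _ : (V × List E) × (V × List E), V × List E) :=
    Q.sigma (fun p => contF T T' (tg G p.1))
  let F : (Σ _ : (V × List E) × (V × List E), V × List E) → (V × List E) × (V × List E) :=
    fun s => ((s.1.1.1, s.1.1.2 ++ s.2.2), (s.1.2.1, s.1.2.2 ++ s.2.2))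
  have hS : ∀ s, s ∈ S ↔ s.1 ∈ Q ∧ s.2 ∈ contF T T' (tg G s.1.1) := fun s => Finset.mem_sigma
  have hFinj : ∀ s ∈ S, ∀ s' ∈ S, F s = F s' → s = s' := by
    intro s hs s' hs' he
    obtain ⟨g1, g2⟩ := (hS s).mp hs
    obtain ⟨g1', g2'⟩ := (hS s').mp hs'
    obtain ⟨q1, q2, q3⟩ := (hQ _).mp g1
    obtain ⟨q1', q2', q3'⟩ := (hQ _).mp g1'
    obtain ⟨m1, m2, m3⟩ := (mem_contF hG).mp g2
    obtain ⟨m1', m2', m3'⟩ := (mem_contF hG).mp g2'
    have e1 := append_inj q1 q1' m2 m2' m3 m3' (congrArg Prod.fst he)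
    have e2 := append_inj q2 q2' (m2.trans q3) (m2'.trans q3') m3 m3' (congrArg Prod.snd he)
    obtain ⟨⟨a1, a2⟩, a3⟩ := s
    obtain ⟨⟨b1, b2⟩, b3⟩ := s'
    obtain ⟨r1, r2⟩ := e1
    obtain ⟨r3, -⟩ := e2
    dsimp only at r1 r2 r3
    rw [r1, r2, r3]
  have hFval : ∀ s ∈ S, (F s).1 ∈ Psi T' ∧ (F s).2 ∈ Psi T' ∧ tg G (F s).1 = tg G (F s).2 := by
    intro s hs
    obtain ⟨g1, g2⟩ := (hS s).mp hs
    obtain ⟨q1, q2, q3⟩ := (hQ _).mp g1
    have h1 := cont_mem hG hTT K q1 g2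
    have h2 := cont_mem hG hTT K q2 (by rw [← q3]; exact g2)
    exact ⟨h1.1, h2.1, h1.2.trans h2.2.symm⟩
  let c' : (V × List E) × (V × List E) → K := fun r => ∑ s ∈ S.filter (fun s => F s = r), c s.1
  have hc' : ∀ s ∈ S, c' (F s) = c s.1 := by
    intro s hs
    have : S.filter (fun s' => F s' = F s) = {s} := by
      ext s'
      rw [Finset.mem_filter, Finset.mem_singleton]
      constructor
      · rintro ⟨h1, h2⟩; exact hFinj s' h1 s hs h2
      · rintro rfl; exact ⟨hs, rfl⟩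
    change ∑ s' ∈ S.filter (fun s' => F s' = F s), c s'.1 = c s.1
    rw [this, Finset.sum_singleton]
  have hsum : ∑ r ∈ S.image F, c' r • mU K T' r.1 r.2 = x := by
    rw [Finset.sum_image hFinj, Finset.sum_congr rfl (fun s hs => by rw [hc' s hs]),
      Finset.sum_sigma, ← hc]
    refine Finset.sum_congr rfl fun p hp => ?_
    obtain ⟨q1, q2, q3⟩ := (hQ _).mp hp
    dsimp only
    rw [mU_exp hG hTT q1 q2 q3, Finset.smul_sum]
  have huniq := mU_uniq (S.image F) P' (fun p hp => by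
    obtain ⟨s, hs, rfl⟩ := Finset.mem_image.mp hp
    exact hFval s hs) hP1 c' (fun _ => 1) (by rw [hsum, hx']; simp)
  have hcoef : ∀ s ∈ S, c s.1 = if F s ∈ P' then 1 else 0 := by
    intro s hs
    have h1 := Finset.mem_image_of_mem F hs
    have h2 := huniq (F s) (Finset.mem_union_left _ h1)
    rw [if_pos h1, hc' s hs] at h2
    exact h2
  have hone : ∀ p ∈ Q, c p ≠ 0 → c p = 1 ∧ ∀ δ ∈ contF T T' (tg G p.1), F ⟨p, δ⟩ ∈ P' := by
    intro p hp hne
    have h1 : ∀ δ ∈ contF T T' (tg G p.1), F ⟨p, δ⟩ ∈ P' := by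
      intro δ hδ
      have h2 := hcoef ⟨p, δ⟩ ((hS _).mpr ⟨hp, hδ⟩)
      by_contra h3
      rw [if_neg h3] at h2
      exact hne h2
    obtain ⟨δ, hδ⟩ := contF_nonempty hG hTT K ((hQ _).mp hp).1
    have h2 := hcoef ⟨p, δ⟩ ((hS _).mpr ⟨hp, hδ⟩)
    rw [if_pos (h1 δ hδ)] at h2
    exact ⟨h2, h1⟩
  refine ⟨Q.filter (fun p => c p ≠ 0), ?_, ?_, ?_⟩
  · intro p hp
    exact (hQ p).mp (Finset.mem_filter.mp hp).1
  · intro p hp p' hp'
    obtain ⟨g1, g2⟩ := Finset.mem_filter.mp hp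
    obtain ⟨g1', g2'⟩ := Finset.mem_filter.mp hp'
    obtain ⟨q1, q2, q3⟩ := (hQ _).mp g1
    obtain ⟨q1', q2', q3'⟩ := (hQ _).mp g1'
    have k1 := (hone p g1 g2).2
    have k1' := (hone p' g1' g2').2
    obtain ⟨δ, hδ⟩ := contF_nonempty hG hTT K q1
    constructor
    · intro e
      have e1 := (hP2 _ (k1 δ hδ) _ (k1' δ (by rw [← e]; exact hδ))).1
        (by change (p.1.1, p.1.2 ++ δ.2) = (p'.1.1, p'.1.2 ++ δ.2); rw [e])
      have e2 : (p.2.1, p.2.2 ++ δ.2) = (p'.2.1, p'.2.2 ++ δ.2) := e1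
      rw [Prod.mk.injEq] at e2
      exact Prod.ext e2.1 (List.append_cancel_right e2.2)
    · intro e
      have hδ' : δ ∈ contF T T' (tg G p'.1) := by rw [q3', ← e, ← q3]; exact hδ
      have e1 := (hP2 _ (k1 δ hδ) _ (k1' δ hδ')).2
        (by change (p.2.1, p.2.2 ++ δ.2) = (p'.2.1, p'.2.2 ++ δ.2); rw [e])
      have e2 : (p.1.1, p.1.2 ++ δ.2) = (p'.1.1, p'.1.2 ++ δ.2) := e1
      rw [Prod.mk.injEq] at e2
      exact Prod.ext e2.1 (List.append_cancel_right e2.2)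
  · have hfil := Finset.sum_filter (s := Q) (fun p => c p ≠ 0) (fun p => mU K T p.1 p.2)
    rw [← hc, hfil]
    refine Finset.sum_congr rfl fun p hp => ?_
    split_ifs with h1
    · rw [(hone p hp h1).1, one_smul]
    · rw [not_not] at h1
      rw [h1, zero_smul]

theorem StdAt.mono (hG : G.LA) {T T' : Stage G} (hTT : T ≤ T') {x : U K G} (h : StdAt T x) :
    StdAt T' x := by
  obtain ⟨P, h1, h2, rfl⟩ := h
  have e : ∑ p ∈ P, mU K T p.1 p.2 = ∑ s ∈ P.sigma (fun p => contF T T' (tg G p.1)),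
      mU K T' (s.1.1.1, s.1.1.2 ++ s.2.2) (s.1.2.1, s.1.2.2 ++ s.2.2) := by
    rw [Finset.sum_sigma]
    refine Finset.sum_congr rfl fun p hp => ?_
    rw [mU_exp hG hTT (h1 p hp).1 (h1 p hp).2.1 (h1 p hp).2.2]
  rw [e]
  refine std_of_fam (P.sigma (fun p => contF T T' (tg G p.1)))
    (fun s => (s.1.1.1, s.1.1.2 ++ s.2.2)) (fun s => (s.1.2.1, s.1.2.2 ++ s.2.2)) ?_ ?_ ?_
  · intro s hs
    obtain ⟨g1, g2⟩ := Finset.mem_sigma.mp hs
    obtain ⟨q1, q2, q3⟩ := h1 _ g1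
    have k1 := cont_mem hG hTT K q1 g2
    have k2 := cont_mem hG hTT K q2 (by rw [← q3]; exact g2)
    exact ⟨k1.1, k2.1, k1.2.trans k2.2.symm⟩
  · intro s hs s' hs' he
    obtain ⟨g1, g2⟩ := Finset.mem_sigma.mp hs
    obtain ⟨g1', g2'⟩ := Finset.mem_sigma.mp hs'
    obtain ⟨q1, q2, q3⟩ := h1 _ g1
    obtain ⟨q1', q2', q3'⟩ := h1 _ g1'
    obtain ⟨m1, m2, m3⟩ := (mem_contF hG).mp g2
    obtain ⟨m1', m2', m3'⟩ := (mem_contF hG).mp g2'
    obtain ⟨e1, e2⟩ := append_inj q1 q1' m2 m2' m3 m3' he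
    have e3 := (h2 _ g1 _ g1').1 e1
    obtain ⟨⟨a1, a2⟩, a3⟩ := s
    obtain ⟨⟨b1, b2⟩, b3⟩ := s'
    dsimp only at e1 e2 e3
    rw [e1, e2, e3]
  · intro s hs s' hs' he
    obtain ⟨g1, g2⟩ := Finset.mem_sigma.mp hs
    obtain ⟨g1', g2'⟩ := Finset.mem_sigma.mp hs'
    obtain ⟨q1, q2, q3⟩ := h1 _ g1
    obtain ⟨q1', q2', q3'⟩ := h1 _ g1'
    obtain ⟨m1, m2, m3⟩ := (mem_contF hG).mp g2
    obtain ⟨m1', m2', m3'⟩ := (mem_contF hG).mp g2'
    obtain ⟨e1, e2⟩ := append_inj q2 q2' (m2.trans q3) (m2'.trans q3') m3 m3' he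
    have e3 := (h2 _ g1 _ g1').2 e1
    obtain ⟨⟨a1, a2⟩, a3⟩ := s
    obtain ⟨⟨b1, b2⟩, b3⟩ := s'
    dsimp only at e1 e2 e3
    rw [e1, e2, e3]

theorem Std.of_Mspan (hG : G.LA) {T : Stage G} {x : U K G}
    (hx : Std x) (h : x ∈ Mspan K T) : StdAt T x := by
  obtain ⟨T', h'⟩ := hx
  exact (h'.mono hG (Stage.le_sup_right T T')).of_Mspan hG (Stage.le_sup_left T T') h

theorem StdAt.of_vx (hG : G.LA) {T : Stage G} {v : V} (hv : v ∈ T.Vt) : StdAt T (vx K G v) := by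
  classical
  rw [q_eq_sum hG (fam_U K) (fun v _ => Set.mem_univ v) hv]
  refine std_of_fam (K := K) ((PsiF T).filter (fun β => β.1 = v)) (fun β => β) (fun β => β) ?_
    (fun _ _ _ _ h => h) (fun _ _ _ _ h => h)
  intro β hβ
  have := (mem_PsiF hG).mp (Finset.mem_filter.mp hβ).1
  exact ⟨this, this, rfl⟩

theorem StdAt.of_ed (hG : G.LA) {T : Stage G} {e : E} (he : e ∈ T.Ft) : StdAt T (ed K G e) := by
  classical
  rw [u_eq_sum hG (fam_U K) (fun v _ => Set.mem_univ v) he]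
  refine std_of_fam (K := K) ((PsiF T).filter (fun β => β.1 = G.r e)) (fun γ => (G.s e, e :: γ.2))
    (fun γ => γ) ?_ ?_ (fun _ _ _ _ h => h)
  · intro γ hγ
    obtain ⟨h1, h2⟩ := Finset.mem_filter.mp hγ
    rw [mem_PsiF hG] at h1
    have ht : tg G (G.s e, e :: γ.2) = tg G γ := by
      change G.tgt (G.r e) γ.2 = G.tgt γ.1 γ.2
      rw [h2]
    refine ⟨⟨T.hs e he, ⟨rfl, ?_⟩, ?_, ?_⟩, h1, ht⟩
    · rw [← h2]; exact h1.2.1
    · intro f hf
      rcases List.mem_cons.mp hf with rfl | hf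
      · exact he
      · exact h1.2.2.1 f hf
    · have h3 := h1.2.2.2
      change ¬ Full T (G.tgt (G.r e) γ.2)
      rw [← h2]; exact h3
  · intro γ hγ γ' hγ' h
    rw [Prod.mk.injEq, List.cons.injEq] at h
    exact Prod.ext ((Finset.mem_filter.mp hγ).2.trans (Finset.mem_filter.mp hγ').2.symm) h.2.2

theorem StdAt.of_aU {T : Stage G} {α : V × List E} (hα : α ∈ Psi T) : StdAt T (aU K T α) := by
  have h : mU K T α (tg G α, []) = aU K T α := by
    rw [mU, aU_nil, gapU_star, aU_gapU hα]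
  rw [← h]
  exact StdAt.of_mU hα (tg_mem_Psi hα) rfl

/-- a finite family of standard elements has a common stage -/
theorem exists_stage (hG : G.LA) {ι : Type*} (s : Finset ι) (f : ι → U K G)
    (hf : ∀ i ∈ s, Std (f i)) (T0 : Stage G) :
    ∃ T : Stage G, T0 ≤ T ∧ ∀ i ∈ s, StdAt T (f i) := by
  classical
  induction s using Finset.induction_on with
  | empty => exact ⟨T0, T0.le_rfl', by simp⟩
  | insert i s hi ih =>
    obtain ⟨T, h1, h2⟩ := ih fun j hj => hf j (Finset.mem_insert_of_mem hj)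
    obtain ⟨T', h3⟩ := hf i (Finset.mem_insert_self _ _)
    refine ⟨T.sup T', Stage.le_trans' h1 (Stage.le_sup_left T T'), fun j hj => ?_⟩
    rcases Finset.mem_insert.mp hj with rfl | hj
    · exact h3.mono hG (Stage.le_sup_right T T')
    · exact (h2 j hj).mono hG (Stage.le_sup_left T T')

theorem Std.zero : Std (0 : U K G) := ⟨⟨∅, ∅, by simp, by simp, by simp⟩, StdAt.zero _⟩

theorem Std.st {x : U K G} (h : Std x) : Std (star x) := by
  obtain ⟨T, h⟩ := h
  exact ⟨T, h.st⟩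

theorem Std.mul (hG : G.LA) {x y : U K G} (hx : Std x) (hy : Std y) : Std (x * y) := by
  obtain ⟨T, h⟩ := hx
  obtain ⟨T', h'⟩ := hy
  exact ⟨T.sup T', (h.mono hG (Stage.le_sup_left T T')).mul (h'.mono hG (Stage.le_sup_right T T'))⟩

theorem Std.add (hG : G.LA) {x y : U K G} (hx : Std x) (hy : Std y)
    (h1 : star x * y = 0) (h2 : x * star y = 0) : Std (x + y) := by
  obtain ⟨T, h⟩ := hx
  obtain ⟨T', h'⟩ := hy
  exact ⟨T.sup T', (h.mono hG (Stage.le_sup_left T T')).add (h'.mono hG (Stage.le_sup_right T T'))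
    h1 h2⟩

theorem Std.sum (hG : G.LA) {ι : Type*} (s : Finset ι) (f : ι → U K G)
    (hf : ∀ i ∈ s, Std (f i)) (h1 : ∀ i ∈ s, ∀ j ∈ s, i ≠ j → star (f i) * f j = 0)
    (h2 : ∀ i ∈ s, ∀ j ∈ s, i ≠ j → f i * star (f j) = 0) : Std (∑ i ∈ s, f i) := by
  classical
  induction s using Finset.induction_on with
  | empty => rw [Finset.sum_empty]; exact Std.zero
  | insert i s hi ih =>
    rw [Finset.sum_insert hi]
    refine Std.add hG (hf i (Finset.mem_insert_self _ _))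
      (ih (fun j hj => hf j (Finset.mem_insert_of_mem hj))
        (fun j hj l hl => h1 j (Finset.mem_insert_of_mem hj) l (Finset.mem_insert_of_mem hl))
        (fun j hj l hl => h2 j (Finset.mem_insert_of_mem hj) l (Finset.mem_insert_of_mem hl)))
      ?_ ?_
    · rw [Finset.mul_sum]
      exact Finset.sum_eq_zero fun j hj => h1 i (Finset.mem_insert_self _ _) j
        (Finset.mem_insert_of_mem hj) (fun h => hi (h ▸ hj))
    · rw [star_sum, Finset.mul_sum]
      exact Finset.sum_eq_zero fun j hj => h2 i (Finset.mem_insert_self _ _) j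
        (Finset.mem_insert_of_mem hj) (fun h => hi (h ▸ hj))

theorem Std.of_vx (hG : G.LA) (v : V) : Std (vx K G v) :=
  ⟨⟨{v}, ∅, by simp, by simp, by simp⟩, StdAt.of_vx hG (by simp)⟩

theorem Std.of_ed (hG : G.LA) {e : E} (he : G.s e ≠ G.r e) : Std (ed K G e) := by
  classical
  exact ⟨⟨{G.s e, G.r e}, {e}, by simp, by simp, by simpa using he⟩,
    StdAt.of_ed hG (by simp)⟩

/-- standard elements are isometric on their support -/
theorem Std.mul_star_mul {x : U K G} (h : Std x) : x * star x * x = x := by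
  classical
  obtain ⟨T, P, h1, h2, rfl⟩ := h
  rw [std_mul_star P h1 h2, mU_sum_mul P P Prod.fst Prod.fst Prod.fst Prod.snd
    (fun i hi => ⟨(h1 i hi).1, (h1 i hi).1, rfl⟩) (fun j hj => (h1 j hj).1)]
  refine Finset.sum_congr rfl fun p hp => ?_
  rw [Finset.sum_eq_single p, if_pos rfl]
  · intro r hr hne
    rw [if_neg]
    intro h
    exact hne (Prod.ext h.symm ((h2 r hr p hp).1 h.symm))
  · intro h; exact absurd hp h

/-- a standard projection is a sum of diagonal matrix units -/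
theorem Pr.form {T : Stage G} {p : U K G} (hp : Pr p) (h : StdAt T p) :
    ∃ A : Finset (V × List E), (∀ α ∈ A, α ∈ Psi T) ∧ p = ∑ α ∈ A, mU K T α α := by
  classical
  obtain ⟨P, h1, h2, e⟩ := h
  refine ⟨P.image Prod.snd, ?_, ?_⟩
  · intro α hα
    obtain ⟨r, hr, rfl⟩ := Finset.mem_image.mp hα
    exact (h1 r hr).2.1
  · rw [Finset.sum_image (fun r hr r' hr' h => Prod.ext ((h2 r hr r' hr').2 h) h),
      ← std_star_mul P h1 h2, ← e, hp.2.1, hp.2.2]

theorem mul_sum_mU' {T : Stage G} [DecidableEq (V × List E)] (A B : Finset (V × List E))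
    (hA : ∀ α ∈ A, α ∈ Psi T) (hB : ∀ α ∈ B, α ∈ Psi T) :
    (∑ α ∈ A, mU K T α α) * (∑ α ∈ B, mU K T α α) = ∑ α ∈ A ∩ B, mU K T α α := by
  rw [mU_sum_mul A B (fun α => α) (fun α => α) (fun α => α) (fun α => α)
    (fun i hi => ⟨hA i hi, hA i hi, rfl⟩) hB]
  simp_rw [Finset.sum_ite_eq]
  rw [Finset.sum_ite_mem]

theorem Pr.sum_mU {T : Stage G} (A : Finset (V × List E)) (hA : ∀ α ∈ A, α ∈ Psi T) :
    Pr (∑ α ∈ A, mU K T α α) := by
  classical
  refine ⟨⟨T, std_of_fam A (fun α => α) (fun α => α) (fun i hi => ⟨hA i hi, hA i hi, rfl⟩)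
    (fun _ _ _ _ h => h) (fun _ _ _ _ h => h)⟩,
    star_sum_mU T A (fun α => α) (fun α => α), ?_⟩
  rw [mul_sum_mU' A A hA hA, Finset.inter_self]

/-- inclusion and equality of standard projections at the level of the index sets -/
theorem mul_sum_mU {T : Stage G} [DecidableEq V] [DecidableEq E] (A B : Finset (V × List E))
    (hA : ∀ α ∈ A, α ∈ Psi T) (hB : ∀ α ∈ B, α ∈ Psi T) :
    (∑ α ∈ A, mU K T α α) * (∑ α ∈ B, mU K T α α) = ∑ α ∈ A ∩ B, mU K T α α :=
  mul_sum_mU' A B hA hB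

theorem sum_mU_inj {T : Stage G} (A B : Finset (V × List E))
    (hA : ∀ α ∈ A, α ∈ Psi T) (hB : ∀ α ∈ B, α ∈ Psi T)
    (h : (∑ α ∈ A, mU K T α α) = ∑ α ∈ B, mU K T α α) : A = B := by
  classical
  have key : ∀ A B : Finset (V × List E), (∀ α ∈ A, α ∈ Psi T) → (∀ α ∈ B, α ∈ Psi T) →
      (∑ α ∈ A, mU K T α α) = ∑ α ∈ B, mU K T α α → A ⊆ B := by
    intro A B hA hB h α hα
    have h1 := mul_sum_mU' (K := K) {α} A (by simpa using hA α hα) hA
    have h2 := mul_sum_mU' (K := K) {α} B (by simpa using hA α hα) hB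
    rw [h, h2] at h1
    by_contra h3
    rw [Finset.singleton_inter_of_notMem h3, Finset.singleton_inter_of_mem hα,
      Finset.sum_empty, Finset.sum_singleton] at h1
    exact mU_ne_zero (hA α hα) (hA α hα) rfl h1.symm
  exact Finset.Subset.antisymm (key A B hA hB h) (key B A hB hA h.symm)

/-- form of a standard element with given initial projection -/
theorem StdAt.form {T : Stage G} {x : U K G} (hx : StdAt T x) (B : Finset (V × List E))
    (hB : ∀ α ∈ B, α ∈ Psi T) (h : star x * x = ∑ γ ∈ B, mU K T γ γ) :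
    ∃ ν : V × List E → V × List E, (∀ γ ∈ B, ν γ ∈ Psi T ∧ tg G (ν γ) = tg G γ) ∧
      (∀ γ ∈ B, ∀ γ' ∈ B, ν γ = ν γ' → γ = γ') ∧ x = ∑ γ ∈ B, mU K T (ν γ) γ := by
  classical
  obtain ⟨P, h1, h2, rfl⟩ := hx
  have hinj : ∀ r ∈ P, ∀ r' ∈ P, r.2 = r'.2 → r = r' :=
    fun r hr r' hr' h => Prod.ext ((h2 r hr r' hr').2 h) h
  have hBP : B = P.image Prod.snd := by
    apply sum_mU_inj B (P.image Prod.snd) hB
      (fun α hα => by
        obtain ⟨r, hr, rfl⟩ := Finset.mem_image.mp hα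
        exact (h1 r hr).2.1) (K := K)
    rw [Finset.sum_image (fun r hr r' hr' h => hinj r hr r' hr' h), ← h, std_star_mul P h1 h2]
  have hex : ∀ γ ∈ B, ∃ r ∈ P, r.2 = γ := by
    intro γ hγ
    rw [hBP] at hγ
    exact Finset.mem_image.mp hγ
  choose! g hg1 hg2 using hex
  refine ⟨fun γ => (g γ).1, ?_, ?_, ?_⟩
  · intro γ hγ
    have h3 := h1 _ (hg1 γ hγ)
    rw [hg2 γ hγ] at h3
    exact ⟨h3.1, h3.2.2⟩
  · intro γ hγ γ' hγ' he
    rw [← hg2 γ hγ, ← hg2 γ' hγ']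
    exact (h2 _ (hg1 γ hγ) _ (hg1 γ' hγ')).1 he
  · have hg : ∀ r ∈ P, g r.2 = r := by
      intro r hr
      have hr2 : r.2 ∈ B := by rw [hBP]; exact Finset.mem_image_of_mem _ hr
      exact hinj _ (hg1 _ hr2) _ hr (hg2 _ hr2)
    rw [hBP, Finset.sum_image (fun r hr r' hr' h => hinj r hr r' hr' h)]
    refine Finset.sum_congr rfl fun r hr => ?_
    change mU K T r.1 r.2 = mU K T (g r.2).1 r.2
    rw [hg r hr]

theorem Pr.mem {p : U K G} (h : Pr p) : p ∈ L K G := h.1.mem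

theorem Pr.zero : Pr (0 : U K G) := ⟨Std.zero, star_zero _, zero_mul _⟩

theorem Pr.of_vx (hG : G.LA) (v : V) : Pr (vx K G v) := ⟨Std.of_vx hG v, star_vx v, vx_vx v⟩

theorem prOf_mU_aux {T : Stage G} {α : V × List E} (hα : α ∈ Psi T) : Pr (mU K T α α) := by
  have := Pr.sum_mU (K := K) {α} (by simpa using hα)
  rwa [Finset.sum_singleton] at this

theorem Pr.of_gapU (hG : G.LA) (T : Stage G) (w : V) : Pr (gapU K T w) := by
  classical
  by_cases hw : w ∈ T.Vt
  · by_cases hf : Full T w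
    · have h : gapU K T w = 0 := gapB_full (fam_U K) T (Set.mem_univ w) hf
      rw [h]; exact Pr.zero
    · have h : mU K T (w, []) (w, []) = gapU K T w := by
        rw [mU, aU_nil, gapU_star, gapU_idem]
      rw [← h]
      exact prOf_mU_aux (vx_mem_Psi hw hf)
  · have h : gapU K T w = vx K G w := by
      unfold gapU gapB
      rw [Finset.sum_eq_zero, sub_zero]
      intro e he
      obtain ⟨h1, h2⟩ := Finset.mem_filter.mp he
      exact absurd (h2 ▸ T.hs e h1) hw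
    rw [h]
    exact Pr.of_vx hG w

theorem Pr.of_mU {T : Stage G} {α : V × List E} (hα : α ∈ Psi T) : Pr (mU K T α α) :=
  prOf_mU_aux hα

theorem Pr.add (hG : G.LA) {p q : U K G} (hp : Pr p) (hq : Pr q) (h : p * q = 0) :
    Pr (p + q) := by
  have h' : q * p = 0 := by
    have := congrArg star h
    rwa [star_mul, star_zero, hp.2.1, hq.2.1] at this
  refine ⟨Std.add hG hp.1 hq.1 (by rw [hp.2.1, h]) (by rw [hq.2.1, h]), ?_, ?_⟩
  · rw [star_add, hp.2.1, hq.2.1]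
  · rw [add_mul, mul_add, mul_add, hp.2.2, hq.2.2, h, h', add_zero, zero_add]

theorem Pr.sub (hG : G.LA) {p q : U K G} (hp : Pr p) (hq : Pr q) (h : p * q = q) :
    Pr (p - q) := by
  classical
  obtain ⟨T, hT⟩ := hp.1
  obtain ⟨T', hT'⟩ := hq.1
  obtain ⟨A, hA, eA⟩ := hp.form (hT.mono hG (Stage.le_sup_left T T'))
  obtain ⟨B, hB, eB⟩ := hq.form (hT'.mono hG (Stage.le_sup_right T T'))
  have h1 : A ∩ B = B := by
    apply sum_mU_inj (A ∩ B) B (fun α hα => hB α (Finset.mem_inter.mp hα).2) hB (K := K)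
    rw [← mul_sum_mU' A B hA hB, ← eA, ← eB, h]
  have h2 : B ⊆ A := fun α hα => by
    rw [← h1] at hα
    exact (Finset.mem_inter.mp hα).1
  have h3 : p - q = ∑ α ∈ A \ B, mU K (T.sup T') α α := by
    rw [eA, eB, ← Finset.sum_sdiff h2, add_sub_cancel_right]
  rw [h3]
  exact Pr.sum_mU _ fun α hα => hA α (Finset.mem_sdiff.mp hα).1

theorem Pr.sum (hG : G.LA) {ι : Type*} (s : Finset ι) (f : ι → U K G)
    (hf : ∀ i ∈ s, Pr (f i)) (h1 : ∀ i ∈ s, ∀ j ∈ s, i ≠ j → f i * f j = 0) :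
    Pr (∑ i ∈ s, f i) := by
  classical
  induction s using Finset.induction_on with
  | empty => rw [Finset.sum_empty]; exact Pr.zero
  | insert i s hi ih =>
    rw [Finset.sum_insert hi]
    refine Pr.add hG (hf i (Finset.mem_insert_self _ _))
      (ih (fun j hj => hf j (Finset.mem_insert_of_mem hj))
        (fun j hj l hl => h1 j (Finset.mem_insert_of_mem hj) l (Finset.mem_insert_of_mem hl))) ?_
    rw [Finset.mul_sum]
    exact Finset.sum_eq_zero fun j hj => h1 i (Finset.mem_insert_self _ _) j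
      (Finset.mem_insert_of_mem hj) (fun h => hi (h ▸ hj))

theorem Pr.left (hG : G.LA) {x : U K G} (h : Std x) : Pr (x * star x) := by
  refine ⟨Std.mul hG h h.st, by rw [star_mul, star_star], ?_⟩
  rw [← mul_assoc, h.mul_star_mul]

theorem Pr.right (hG : G.LA) {x : U K G} (h : Std x) : Pr (star x * x) := by
  refine ⟨Std.mul hG h.st h, by rw [star_mul, star_star], ?_⟩
  rw [mul_assoc, ← mul_assoc x, h.mul_star_mul]

/-- if `p q = 0` for projections then `q p = 0` -/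
theorem Pr.comm_zero {p q : U K G} (hp : Pr p) (hq : Pr q) (h : p * q = 0) : q * p = 0 := by
  have := congrArg star h
  rwa [star_mul, star_zero, hp.2.1, hq.2.1] at this

/-- the sum of the vertices of a finite set -/
theorem Pr.sum_vx (hG : G.LA) (s : Finset V) : Pr (∑ v ∈ s, vx K G v) :=
  Pr.sum hG s _ (fun v _ => Pr.of_vx hG v) (fun _ _ _ _ h => vx_vx_of_ne h)

/-- every element of the algebra is in the corner of a finite set of vertices -/
theorem exists_unit {x : U K G} (hx : x ∈ L K G) :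
    ∃ s : Finset V, ∀ t : Finset V, s ⊆ t →
      (∑ v ∈ t, vx K G v) * x = x ∧ x * (∑ v ∈ t, vx K G v) = x := by
  classical
  have hl : ∀ (v : V) (t : Finset V), v ∈ t → (∑ w ∈ t, vx K G w) * vx K G v = vx K G v := by
    intro v t hv
    rw [Finset.sum_mul, Finset.sum_eq_single v, vx_vx]
    · intro w _ hne; exact vx_vx_of_ne hne
    · intro h; exact absurd hv h
  have hr : ∀ (v : V) (t : Finset V), v ∈ t → vx K G v * (∑ w ∈ t, vx K G w) = vx K G v := by
    intro v t hv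
    rw [Finset.mul_sum, Finset.sum_eq_single v, vx_vx]
    · intro w _ hne; exact vx_vx_of_ne hne.symm
    · intro h; exact absurd hv h
  refine L_ind (p := fun x => ∃ s : Finset V, ∀ t : Finset V, s ⊆ t →
      (∑ v ∈ t, vx K G v) * x = x ∧ x * (∑ v ∈ t, vx K G v) = x) ?_ ?_ ?_ ?_ ?_ ?_ ?_ hx
  · intro v
    exact ⟨{v}, fun t ht => ⟨hl v t (ht (by simp)), hr v t (ht (by simp))⟩⟩
  · intro e
    refine ⟨{G.s e, G.r e}, fun t ht => ⟨?_, ?_⟩⟩
    · have h := hl (G.s e) t (ht (by simp))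
      have h2 := congrArg (fun z => z * ed K G e) h
      simp only [mul_assoc, vx_ed] at h2
      exact h2
    · have h := hr (G.r e) t (ht (by simp))
      have h2 := congrArg (fun z => ed K G e * z) h
      simp only [← mul_assoc, ed_vx] at h2
      exact h2
  · intro e
    refine ⟨{G.s e, G.r e}, fun t ht => ⟨?_, ?_⟩⟩
    · have h := hl (G.r e) t (ht (by simp))
      have h2 := congrArg (fun z => z * gh K G e) h
      simp only [mul_assoc, vx_gh] at h2
      exact h2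
    · have h := hr (G.s e) t (ht (by simp))
      have h2 := congrArg (fun z => gh K G e * z) h
      simp only [← mul_assoc, gh_vx] at h2
      exact h2
  · exact ⟨∅, fun t _ => ⟨mul_zero _, zero_mul _⟩⟩
  · rintro x - y - ⟨s1, h1⟩ ⟨s2, h2⟩
    refine ⟨s1 ∪ s2, fun t ht => ?_⟩
    obtain ⟨a1, a2⟩ := h1 t (Finset.union_subset_left ht)
    obtain ⟨b1, b2⟩ := h2 t (Finset.union_subset_right ht)
    exact ⟨by rw [mul_add, a1, b1], by rw [add_mul, a2, b2]⟩
  · rintro x - y - ⟨s1, h1⟩ ⟨s2, h2⟩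
    refine ⟨s1 ∪ s2, fun t ht => ?_⟩
    obtain ⟨a1, a2⟩ := h1 t (Finset.union_subset_left ht)
    obtain ⟨b1, b2⟩ := h2 t (Finset.union_subset_right ht)
    exact ⟨by rw [← mul_assoc, a1], by rw [mul_assoc, b2]⟩
  · rintro c x - ⟨s1, h1⟩
    refine ⟨s1, fun t ht => ?_⟩
    obtain ⟨a1, a2⟩ := h1 t ht
    exact ⟨by rw [mul_smul_comm, a1], by rw [smul_mul_assoc, a2]⟩

end Pool.Agent.Helper32.LV
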