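import Pool.Agent.Helper32.LV.StepA

/-! The back-and-forth step: isometries. PIECE 13. -/

set_option autoImplicit false
set_option linter.unusedSectionVars false

universe k a b a' b'

namespace Pool.Agent.Helper32.LV

variable {V : Type a} {E : Type b} {K : Type k} [Field K] [StarRing K] {G : Gr V E}
  {V' : Type a'} {E' : Type b'} {G' : Gr V' E'} {φ : RI K G G'} {c : CP φ}

/-- the gap of a stage is in `alg0 H` for vertices in `H` -/
theorem gapU_mem_alg0' {H : Set V} (T : Stage G) {w : V}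
    (hw : w ∈ H) : gapU K T w ∈ alg0 K G H := by
  classical
  unfold gapU gapB
  refine (alg0 K G H).sub_mem (vx_mem_alg0 hw) ((alg0 K G H).sum_mem fun e he => ?_)
  rw [Finset.mem_filter] at he
  have hs : G.s e ∈ H := by rw [he.2]; exact hw
  have hl : G.s e ≠ G.r e := T.nl e he.1
  exact (alg0 K G H).mul_mem (ed_mem_alg0 hs hl) (alg0_star (ed_mem_alg0 hs hl))

/-- the end point of a path starting in a hereditary set -/
theorem tgt_mem_her {H : Set V} (her : ∀ e, G.s e ∈ H → G.r e ∈ H) (l : List E) :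
    ∀ v, v ∈ H → G.IsPath v l → G.tgt v l ∈ H := by
  induction l with
  | nil => intro v hv _; exact hv
  | cons e l ih =>
    intro v hv hp
    have h1 : G.s e = v := hp.1
    exact ih _ (her e (by rw [h1]; exact hv)) hp.2

theorem aU_mem_alg0_aux {H : Set V} (her : ∀ e, G.s e ∈ H → G.r e ∈ H) (T : Stage G)
    (l : List E) : ∀ v, v ∈ H → (v, l) ∈ Psi T → aU K T (v, l) ∈ alg0 K G H := by
  induction l with
  | nil => intro v hv _; rw [aU_nil]; exact gapU_mem_alg0' T hv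
  | cons e l ih =>
    intro v hv hp
    obtain ⟨h1, h2, h3⟩ := Psi_cons.mp hp
    subst h1
    have hl : G.s e ≠ G.r e := T.nl e h2
    have h4 : aU K T (G.s e, e :: l) = ed K G e * aU K T (G.r e, l) :=
      aB_cons (fam_U K) T (Set.mem_univ _) hl
    rw [h4]
    exact (alg0 K G H).mul_mem (ed_mem_alg0 hv hl) (ih _ (her e hv) h3)

/-- the element of an index starting in the hereditary set `H` -/
theorem aU_mem_alg0_of {H : Set V} (her : ∀ e, G.s e ∈ H → G.r e ∈ H) {T : Stage G}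
    {α : V × List E} (hα : α ∈ Psi T) (hH : α.1 ∈ H) : aU K T α ∈ alg0 K G H :=
  aU_mem_alg0_aux her T α.2 α.1 hH hα

theorem tg_mem_her {H : Set V} (her : ∀ e, G.s e ∈ H → G.r e ∈ H) {T : Stage G}
    {α : V × List E} (hα : α ∈ Psi T) (hH : α.1 ∈ H) : tg G α ∈ H :=
  tgt_mem_her her α.2 α.1 hH hα.2.1

theorem Eqv_mU {T : Stage G} {α β : V × List E} (hα : α ∈ Psi T) (hβ : β ∈ Psi T)
    (h : tg G α = tg G β) : Eqv K G (mU K T α α) (mU K T β β) :=
  ⟨mU K T α β, mU_mem T α β, mU K T β α, mU_mem T β α,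
    mU_mul_same hα hβ h α, mU_mul_same hβ hα h.symm β⟩

theorem mU_tg {T : Stage G} (w : V) : mU K T (w, []) (w, []) = gapU K T w := by
  unfold mU
  rw [aU_nil, gapU_star, gapU_idem]

theorem CP.uniq_fst (c : CP φ) {x x' : U K G} {y : U K G'} (h : (x, y) ∈ c.Θ)
    (h' : (x', y) ∈ c.Θ) : x = x' := by
  have h1 := c.Θ.sub_mem h h'
  have h2 : (x, y) - (x', y) = (x - x', (0 : U K G')) := by
    refine Prod.ext rfl ?_
    change y - y = 0
    rw [sub_self]
  rw [h2] at h1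
  exact sub_eq_zero.mp (c.inj' _ h1)

theorem CP.mul_mem' (c : CP φ) {x x' : U K G} {y y' : U K G'} (h : (x, y) ∈ c.Θ)
    (h' : (x', y') ∈ c.Θ) : (x * x', y * y') ∈ c.Θ := c.Θ.mul_mem h h'

theorem CP.star_mem' (c : CP φ) {x : U K G} {y : U K G'} (h : (x, y) ∈ c.Θ) :
    (star x, star y) ∈ c.Θ := c.st _ h

/-- the isometries of the closed part -/
theorem SP.closed {s : FS c} {T' : Stage G'} {A : SA s T'} (D : SP A) {γ : V' × List E'}
    (hγ : γ ∈ Psi T') (hH : γ.1 ∈ c.H') : ∃ x, Std x ∧ (x, aU K T' γ) ∈ c.Θ ∧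
      (x * star x, mU K T' γ γ) ∈ c.Θ ∧ star x * x = D.P (tg G' γ, []) := by
  obtain ⟨x, hx⟩ := (c.ran _).mp (aU_mem_alg0_of (K := K) c.her' hγ hH)
  refine ⟨x, (c.std _ _ hx).mpr ⟨T', StdAt.of_aU hγ⟩, hx, c.mul_mem' hx (c.star_mem' hx), ?_⟩
  have h1 := c.mul_mem' (c.star_mem' hx) hx
  rw [aU_star_aU_self hγ, ← mU_tg] at h1
  have h2 := D.PH (tg G' γ, []) (tg_mem_Psi hγ) (tg_mem_her c.her' hγ hH)
  exact c.uniq_fst h1 h2

/-- PIECE 13. `ρ w γ` standard with `ρ ρ* = p w γ`, `ρ* ρ = P (tg γ, [])` by `rr_std`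
(for `w ∈ H`: the element with `(ρ w γ, aU γ) ∈ c.Θ`); `σ (ν α γ) = aU α * ρ (tg α) γ`, for the
other `δ` a standard `σ δ` with `σ σ* = P δ`, `σ* σ = P (tg δ, [])` (for `δ.1 ∈ H'` the element
with `(σ δ, aU δ) ∈ c.Θ`). -/
theorem stepE (hG : G.LA) (hG' : G'.LA) {s : FS c} {T' : Stage G'} {A : SA s T'} (D : SP A) :
    ∃ s' : FS c.symm, s'.T = T' ∧ ∀ z ∈ s.Lam, z.swap ∈ s'.Lam := by
  classical
  -- the isometries over the vertices
  have h1 : ∀ (w : V) (γ : V' × List E'), ∃ x : U K G, w ∈ s.T.Vt → ¬ Full s.T w → γ ∈ A.B w →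
      Std x ∧ x * star x = D.p w γ ∧ star x * x = D.P (tg G' γ, []) ∧
        (w ∈ c.H → (x, aU K T' γ) ∈ c.Θ) := by
    intro w γ
    by_cases hw : w ∈ s.T.Vt ∧ ¬ Full s.T w ∧ γ ∈ A.B w
    · obtain ⟨hw1, hw2, hw3⟩ := hw
      have hwP : (w, []) ∈ Psi s.T := vx_mem_Psi hw1 hw2
      have hγ : γ ∈ Psi T' := A.hB (w, []) hwP γ hw3
      by_cases hH : w ∈ c.H
      · have hγ1 : γ.1 ∈ c.H' := by
          have h := A.nu_H (α := (w, [])) hwP hH hw3
          rwa [A.nu_vx hw1 hw2 hH hw3] at h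
        obtain ⟨x, hx1, hx2, hx3, hx4⟩ := D.closed hγ hγ1
        refine ⟨x, fun _ _ _ => ⟨hx1, ?_, hx4, fun _ => hx2⟩⟩
        exact c.uniq_fst hx3 (D.pH w hw1 hw2 hH γ hw3)
      · obtain ⟨x, hx1, hx2, hx3⟩ := rr_std hG (D.pPr w hw1 hw2 γ hw3)
          (D.PPr (tg G' γ, []) (tg_mem_Psi hγ)) (Pr.of_mU hγ).2.2
          (Eqv_mU hγ (tg_mem_Psi hγ) rfl) (Pr.of_mU (tg_mem_Psi hγ)).2.2
          (D.pR w hw1 hw2 γ hw3) (D.PR (tg G' γ, []) (tg_mem_Psi hγ))
        exact ⟨x, fun _ _ _ => ⟨hx1, hx2, hx3, fun h => absurd h hH⟩⟩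
    · exact ⟨0, fun a b c => absurd ⟨a, b, c⟩ hw⟩
  choose ρ hρ using h1
  -- the isometries
  have h2 : ∀ δ : V' × List E', ∃ x : U K G, (δ ∈ Psi T' → Std x ∧ x * star x = D.P δ ∧
      star x * x = D.P (tg G' δ, []) ∧ (δ.1 ∈ c.H' → (x, aU K T' δ) ∈ c.Θ)) ∧
      (∀ α ∈ Psi s.T, ∀ γ ∈ A.B (tg G α), A.ν α γ = δ → x = aU K s.T α * ρ (tg G α) γ) := by
    intro δ
    by_cases hex : ∃ α ∈ Psi s.T, ∃ γ ∈ A.B (tg G α), A.ν α γ = δ
    · obtain ⟨α, hα, γ, hγ, rfl⟩ := hex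
      have ht := tgt_mem hα
      have hf := tgt_not_full hα
      obtain ⟨hr1, hr2, hr3, hr4⟩ := hρ (tg G α) γ ht hf hγ
      have hγP : γ ∈ Psi T' := A.hB α hα γ hγ
      obtain ⟨hνP, hνt⟩ := A.hν α hα γ hγ
      have hgp : gapU K s.T (tg G α) * D.p (tg G α) γ = D.p (tg G α) γ := by
        rw [← D.pS _ ht hf, Finset.sum_mul]
        rw [Finset.sum_eq_single γ]
        · exact (D.pPr _ ht hf γ hγ).2.2
        · intro γ' hγ' hne
          exact D.pO _ ht hf γ' hγ' γ hγ hne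
        · intro h; exact absurd hγ h
      have hgr : gapU K s.T (tg G α) * ρ (tg G α) γ = ρ (tg G α) γ := by
        have h3 := hr1.mul_star_mul
        rw [hr2] at h3
        calc gapU K s.T (tg G α) * ρ (tg G α) γ
            = gapU K s.T (tg G α) * (D.p (tg G α) γ * ρ (tg G α) γ) := by rw [h3]
          _ = (gapU K s.T (tg G α) * D.p (tg G α) γ) * ρ (tg G α) γ := by rw [mul_assoc]
          _ = ρ (tg G α) γ := by rw [hgp, h3]
      refine ⟨aU K s.T α * ρ (tg G α) γ, fun _ => ⟨?_, ?_, ?_, ?_⟩, ?_⟩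
      · exact Std.mul hG ⟨s.T, StdAt.of_aU hα⟩ hr1
      · rw [star_mul, D.Pν α hα γ hγ, ← hr2]
        noncomm_ring
      · rw [star_mul, hνt]
        calc star (ρ (tg G α) γ) * star (aU K s.T α) * (aU K s.T α * ρ (tg G α) γ)
            = star (ρ (tg G α) γ) * ((star (aU K s.T α) * aU K s.T α) * ρ (tg G α) γ) := by
              noncomm_ring
          _ = star (ρ (tg G α) γ) * ρ (tg G α) γ := by rw [aU_star_aU_self hα, hgr]
          _ = _ := hr3
      · intro hH'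
        have hαH : α.1 ∈ c.H := by
          by_contra hn
          exact A.nu_notH hα hn hγ hH'
        have h5 := s.h1 α hα hαH
        have h6 := hr4 (tg_mem_her c.her hα hαH)
        have h7 := c.mul_mem' h5 h6
        have h8 : s.τ α * aU K T' γ = aU K T' (A.ν α γ) := by
          rw [A.eq α hα, Finset.sum_mul, Finset.sum_eq_single γ]
          · rw [mU, mul_assoc, aU_star_aU_self hγP, ← hνt, aU_gapU hνP]
          · intro γ' hγ' hne
            rw [mU, mul_assoc, aU_star_aU_ne (A.hB α hα γ' hγ') hγP hne, mul_zero]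
          · intro h; exact absurd hγ h
        rwa [h8] at h7
      · intro β hβ ε hε he
        obtain ⟨rfl, rfl⟩ := A.inj β hβ α hα ε hε γ hγ he
        rfl
    · by_cases hδ : δ ∈ Psi T'
      · by_cases hH : δ.1 ∈ c.H'
        · obtain ⟨x, hx1, hx2, hx3, hx4⟩ := D.closed hδ hH
          refine ⟨x, fun _ => ⟨hx1, c.uniq_fst hx3 (D.PH δ hδ hH), hx4, fun _ => hx2⟩, ?_⟩
          intro α hα γ hγ he
          exact absurd ⟨α, hα, γ, hγ, he⟩ hex
        · obtain ⟨x, hx1, hx2, hx3⟩ := rr_std hG (D.PPr δ hδ)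
            (D.PPr (tg G' δ, []) (tg_mem_Psi hδ)) (Pr.of_mU hδ).2.2
            (Eqv_mU hδ (tg_mem_Psi hδ) rfl) (Pr.of_mU (tg_mem_Psi hδ)).2.2
            (D.PR δ hδ) (D.PR (tg G' δ, []) (tg_mem_Psi hδ))
          refine ⟨x, fun _ => ⟨hx1, hx2, hx3, fun h => absurd h hH⟩, ?_⟩
          intro α hα γ hγ he
          exact absurd ⟨α, hα, γ, hγ, he⟩ hex
      · refine ⟨0, fun h => absurd h hδ, ?_⟩
        intro α hα γ hγ he
        exact absurd ⟨α, hα, γ, hγ, he⟩ hex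
  choose σ hσ using h2
  have hl : ∀ δ ∈ Psi T', D.P δ * σ δ = σ δ := by
    intro δ hδ
    obtain ⟨h3, h4, h5, h6⟩ := (hσ δ).1 hδ
    rw [← h4]; exact h3.mul_star_mul
  refine ⟨{ T := T'
            τ := σ
            std := fun δ hδ => ((hσ δ).1 hδ).1
            orth := ?_
            eqn := ?_
            rr := ?_
            h1 := ?_
            h2 := ?_ }, rfl, ?_⟩
  · intro δ hδ ε hε hne
    have h3 : star (σ δ) = star (σ δ) * D.P δ := by
      have h4 := congrArg star (hl δ hδ)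
      rw [star_mul, (D.PPr δ hδ).2.1] at h4
      exact h4.symm
    rw [h3, ← hl ε hε, mul_assoc, ← mul_assoc (D.P δ), D.PO δ hδ ε hε hne, zero_mul, mul_zero]
  · intro δ hδ ε hε he
    rw [((hσ δ).1 hδ).2.2.1, ((hσ ε).1 hε).2.2.1, he]
  · intro δ hδ
    rw [((hσ δ).1 hδ).2.1]
    exact (D.PR δ hδ).symm (D.PPr δ hδ).mem
  · intro δ hδ hH
    exact ((hσ δ).1 hδ).2.2.2 hH
  · intro δ hδ hH h hh
    rw [← hl δ hδ, ← mul_assoc, D.PN δ hδ hH h hh, zero_mul]
  · intro z hz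
    unfold FS.Lam at hz
    refine Submodule.span_induction (p := fun z _ => z.swap ∈ FS.Lam _) ?_ ?_ ?_ ?_ hz
    · rintro _ ⟨α, hα, β, hβ, ht, rfl⟩
      have htα := tgt_mem hα
      have hfα := tgt_not_full hα
      have h3 : s.τ α * star (s.τ β) =
          ∑ γ ∈ A.B (tg G α), mU K T' (A.ν α γ) (A.ν β γ) := by
        rw [A.eq α hα, A.eq β hβ, star_sum, Finset.sum_mul]
        refine Finset.sum_congr rfl fun γ hγ => ?_
        rw [Finset.mul_sum, ← ht, Finset.sum_eq_single γ]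
        · rw [mU_star]
          exact mU_mul_same (A.hν α hα γ hγ).1 (A.hB α hα γ hγ) (A.hν α hα γ hγ).2 _
        · intro γ' hγ' hne
          rw [mU_star]
          exact mU_mul_ne (A.hB α hα γ hγ) (A.hB α hα γ' hγ') hne.symm
        · intro h; exact absurd hγ h
      have h4 : mU K s.T α β =
          ∑ γ ∈ A.B (tg G α), σ (A.ν α γ) * star (σ (A.ν β γ)) := by
        have h5 : ∀ γ ∈ A.B (tg G α), σ (A.ν α γ) * star (σ (A.ν β γ)) =
            aU K s.T α * D.p (tg G α) γ * star (aU K s.T β) := by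
          intro γ hγ
          rw [(hσ (A.ν α γ)).2 α hα γ hγ rfl, (hσ (A.ν β γ)).2 β hβ γ (ht ▸ hγ) rfl, ← ht,
            star_mul, ← (hρ (tg G α) γ htα hfα hγ).2.1]
          noncomm_ring
        rw [Finset.sum_congr rfl h5, ← Finset.sum_mul, ← Finset.mul_sum, D.pS _ htα hfα,
          aU_gapU hα]
        rfl
      have h6 : ((mU K s.T α β, s.τ α * star (s.τ β)) : U K G × U K G').swap =
          ∑ γ ∈ A.B (tg G α), ((mU K T' (A.ν α γ) (A.ν β γ),
            σ (A.ν α γ) * star (σ (A.ν β γ))) : U K G' × U K G) := by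
        rw [Prod.swap_prod_mk, h3, h4]
        refine Prod.ext ?_ ?_
        · rw [Prod.fst_sum]
        · rw [Prod.snd_sum]
      change ((mU K s.T α β, s.τ α * star (s.τ β)) : U K G × U K G').swap ∈ _
      rw [h6]
      refine Submodule.sum_mem _ fun γ hγ => Submodule.subset_span ?_
      refine ⟨A.ν α γ, (A.hν α hα γ hγ).1, A.ν β γ, (A.hν β hβ γ (ht ▸ hγ)).1, ?_, rfl⟩
      rw [(A.hν α hα γ hγ).2, (A.hν β hβ γ (ht ▸ hγ)).2]
    · exact Submodule.zero_mem _
    · intro x y _ _ hx hy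
      exact Submodule.add_mem _ hx hy
    · intro r x _ hx
      exact Submodule.smul_mem _ r hx

end Pool.Agent.Helper32.LV
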