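import Pool.Agent.Helper32.LV.StepP
import Pool.Agent.Helper32.LV.StepE

/-! The back-and-forth step. -/

set_option autoImplicit false
set_option linter.unusedSectionVars false

universe k a b a' b'

namespace Pool.Agent.Helper32.LV

variable {V : Type a} {E : Type b} {K : Type k} [Field K] [StarRing K] {G : Gr V E}
  {V' : Type a'} {E' : Type b'} {G' : Gr V' E'} {φ : RI K G G'} {c : CP φ}

theorem step (hG : G.LA) (hG' : G'.LA) (s : FS c) (T0 : Stage G') :
    ∃ s' : FS c.symm, T0 ≤ s'.T ∧ ∀ z ∈ s.Lam, z.swap ∈ s'.Lam := by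
  obtain ⟨T', h0, ⟨A⟩⟩ := stepA hG hG' s T0
  obtain ⟨D⟩ := stepP hG hG' A
  obtain ⟨s', h1, h2⟩ := stepE hG hG' D
  exact ⟨s', h1 ▸ h0, h2⟩

end Pool.Agent.Helper32.LV
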