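import Pool.Agent.Helper32.LV.StepD

/-! The back-and-forth step: normal form of the images. PIECE 11. -/

set_option autoImplicit false
set_option linter.unusedSectionVars false

universe k a b a' b'

namespace Pool.Agent.Helper32.LV

variable {V : Type a} {E : Type b} {K : Type k} [Field K] [StarRing K] {G : Gr V E}
  {V' : Type a'} {E' : Type b'} {G' : Gr V' E'} {φ : RI K G G'} {c : CP φ}

/-- coordinates of a sum of matrix units on the right -/
private theorem sumMU_mul_diag {T : Stage G} (B : Finset (V × List E))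
    (ν : V × List E → V × List E) (hB : ∀ γ ∈ B, γ ∈ Psi T)
    (hν : ∀ γ ∈ B, ν γ ∈ Psi T ∧ tg G (ν γ) = tg G γ) {δ : V × List E} (hδ : δ ∈ B) :
    (∑ γ ∈ B, mU K T (ν γ) γ) * mU K T δ δ = mU K T (ν δ) δ := by
  classical
  rw [Finset.sum_mul, Finset.sum_eq_single δ]
  · exact mU_mul_same (hν δ hδ).1 (hB δ hδ) (hν δ hδ).2 δ
  · intro γ hγ hne
    exact mU_mul_ne (hB γ hγ) (hB δ hδ) hne
  · intro h; exact absurd hδ h

/-- action of the vertices on the matrix units -/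
private theorem vx_mul_mU_same (T : Stage G) (α β : V × List E) :
    vx K G α.1 * mU K T α β = mU K T α β := by
  have h1 : vx K G α.1 * aU K T α = aU K T α := q_aB (fam_U K) T (Set.mem_univ _)
  rw [mU, ← mul_assoc, h1]

private theorem vx_mul_mU_ne (T : Stage G) {v : V} {α : V × List E} (β : V × List E)
    (h : v ≠ α.1) : vx K G v * mU K T α β = 0 := by
  rw [← vx_mul_mU_same T α β, ← mul_assoc, vx_vx_of_ne h, zero_mul]

private theorem sum_vx_mul_vx {v : V} {t : Finset V} (hv : v ∈ t) :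
    (∑ w ∈ t, vx K G w) * vx K G v = vx K G v := by
  classical
  rw [Finset.sum_mul, Finset.sum_eq_single v, vx_vx]
  · intro w _ hne; exact vx_vx_of_ne hne
  · intro h; exact absurd hv h

/-- the elements of `alg0 H` are fixed by the sum of a finite set of vertices of `H` -/
private theorem alg0_unit {H : Set V} (her : ∀ e, G.s e ∈ H → G.r e ∈ H) {x : U K G}
    (hx : x ∈ alg0 K G H) : ∃ s : Finset V, (∀ v ∈ s, v ∈ H) ∧
      ∀ t : Finset V, s ⊆ t → (∑ v ∈ t, vx K G v) * x = x := by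
  classical
  unfold alg0 at hx
  induction hx using NonUnitalAlgebra.adjoin_induction with
  | mem x hx =>
    rcases hx with ⟨v, hv, rfl⟩ | ⟨e, hs, hl, rfl | rfl⟩
    · exact ⟨{v}, by simpa using hv, fun t ht => sum_vx_mul_vx (ht (by simp))⟩
    · refine ⟨{G.s e}, by simpa using hs, fun t ht => ?_⟩
      rw [← vx_ed, ← mul_assoc, sum_vx_mul_vx (ht (by simp))]
    · refine ⟨{G.r e}, by simpa using her e hs, fun t ht => ?_⟩
      rw [← vx_gh, ← mul_assoc, sum_vx_mul_vx (ht (by simp))]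
  | zero => exact ⟨∅, by simp, fun t _ => mul_zero _⟩
  | add x y _ _ h1 h2 =>
    obtain ⟨s1, a1, h1⟩ := h1
    obtain ⟨s2, a2, h2⟩ := h2
    refine ⟨s1 ∪ s2, ?_, fun t ht => ?_⟩
    · intro v hv
      rcases Finset.mem_union.mp hv with h | h
      · exact a1 v h
      · exact a2 v h
    · rw [mul_add, h1 t (Finset.union_subset_left ht), h2 t (Finset.union_subset_right ht)]
  | mul x y _ _ h1 h2 =>
    obtain ⟨s1, a1, h1⟩ := h1
    exact ⟨s1, a1, fun t ht => by rw [← mul_assoc, h1 t ht]⟩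
  | smul c x _ h1 =>
    obtain ⟨s1, a1, h1⟩ := h1
    exact ⟨s1, a1, fun t ht => by rw [mul_smul_comm, h1 t ht]⟩

/-- PIECE 11. `exists_stage` for the `τ α` (finitely many), `StdAt.form`; `inj` from
`star (τ α) * τ β = 0` and `mU_indep`. -/
theorem stepA (hG : G.LA) (hG' : G'.LA) (s : FS c) (T0 : Stage G') :
    ∃ T' : Stage G', T0 ≤ T' ∧ Nonempty (SA s T') := by
  classical
  obtain ⟨T', hT, hst⟩ := exists_stage hG' (PsiF s.T) s.τ
    (fun α hα => s.std α ((mem_PsiF hG).mp hα)) T0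
  have hst' : ∀ α ∈ Psi s.T, StdAt T' (s.τ α) := fun α hα => hst α ((mem_PsiF hG).mpr hα)
  refine ⟨T', hT, ?_⟩
  have hBex : ∀ w : V, ∃ B : Finset (V' × List E'), ∀ α ∈ Psi s.T, tg G α = w →
      (∀ γ ∈ B, γ ∈ Psi T') ∧ star (s.τ α) * s.τ α = ∑ γ ∈ B, mU K T' γ γ := by
    intro w
    by_cases h : ∃ α ∈ Psi s.T, tg G α = w
    · obtain ⟨α, hα, hw⟩ := h
      obtain ⟨B, h1, h2⟩ := (Pr.right hG' (s.std α hα)).form ((hst' α hα).st.mul (hst' α hα))
      refine ⟨B, fun β hβ hw' => ⟨h1, ?_⟩⟩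
      rw [← h2]
      exact s.eqn β hβ α hα (hw'.trans hw.symm)
    · exact ⟨∅, fun α hα hw => absurd ⟨α, hα, hw⟩ h⟩
  choose B hB using hBex
  have hB1 : ∀ α ∈ Psi s.T, ∀ γ ∈ B (tg G α), γ ∈ Psi T' := fun α hα => (hB _ α hα rfl).1
  have hB2 : ∀ α ∈ Psi s.T, star (s.τ α) * s.τ α = ∑ γ ∈ B (tg G α), mU K T' γ γ :=
    fun α hα => (hB _ α hα rfl).2
  have hνex : ∀ α : V × List E, ∃ ν : V' × List E' → V' × List E', α ∈ Psi s.T →
      (∀ γ ∈ B (tg G α), ν γ ∈ Psi T' ∧ tg G' (ν γ) = tg G' γ) ∧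
      (∀ γ ∈ B (tg G α), ∀ γ' ∈ B (tg G α), ν γ = ν γ' → γ = γ') ∧
      s.τ α = ∑ γ ∈ B (tg G α), mU K T' (ν γ) γ := by
    intro α
    by_cases hα : α ∈ Psi s.T
    · obtain ⟨ν, h⟩ := (hst' α hα).form (B (tg G α)) (hB1 α hα) (hB2 α hα)
      exact ⟨ν, fun _ => h⟩
    · exact ⟨id, fun h => absurd h hα⟩
  choose ν hν using hνex
  refine ⟨{ B := B, ν := ν, hB := hB1, hν := fun α hα => (hν α hα).1, inj := ?_,
            eq := fun α hα => (hν α hα).2.2, ini := hB2 }⟩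
  intro α hα β hβ γ hγ δ hδ h
  by_cases hαβ : α = β
  · subst hαβ
    exact ⟨rfl, (hν α hα).2.1 γ hγ δ hδ h⟩
  · exfalso
    have h0 := s.orth α hα β hβ hαβ
    have e1 : s.τ α * mU K T' γ γ = mU K T' (ν α γ) γ := by
      rw [(hν α hα).2.2]
      exact sumMU_mul_diag _ _ (hB1 α hα) (hν α hα).1 hγ
    have e2 : s.τ β * mU K T' δ δ = mU K T' (ν β δ) δ := by
      rw [(hν β hβ).2.2]
      exact sumMU_mul_diag _ _ (hB1 β hβ) (hν β hβ).1 hδ
    have g1 := (hν α hα).1 γ hγ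
    have g2 := (hν β hβ).1 δ hδ
    have e3 : mU K T' γ δ = 0 := by
      have h1 : star (s.τ α * mU K T' γ γ) * (s.τ β * mU K T' δ δ) = 0 := by
        rw [star_mul, mul_assoc, ← mul_assoc (star (s.τ α)), h0, zero_mul, mul_zero]
      rw [e1, e2, mU_star, ← h, mU_mul_same (hB1 α hα γ hγ) g1.1 g1.2.symm] at h1
      exact h1
    refine mU_ne_zero (hB1 α hα γ hγ) (hB1 β hβ δ hδ) ?_ e3
    rw [← g1.2, ← g2.2, h]

private theorem SA.tau_mul {s : FS c} {T' : Stage G'} (A : SA s T') {α : V × List E}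
    (hα : α ∈ Psi s.T) {γ : V' × List E'} (hγ : γ ∈ A.B (tg G α)) :
    s.τ α * mU K T' γ γ = mU K T' (A.ν α γ) γ := by
  rw [A.eq α hα]
  exact sumMU_mul_diag _ _ (A.hB α hα) (A.hν α hα) hγ

/-- over the closed part the bijection of a vertex is the identity, because `τ (w, [])` is the
image of the gap projection under `c`, hence a projection -/
theorem SA.nu_vx {s : FS c} {T' : Stage G'} (A : SA s T') {w : V} (hw : w ∈ s.T.Vt)
    (hf : ¬ Full s.T w) (hH : w ∈ c.H) {γ : V' × List E'} (hγ : γ ∈ A.B w) :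
    A.ν (w, []) γ = γ := by
  classical
  have hα : ((w, []) : V × List E) ∈ Psi s.T := vx_mem_Psi hw hf
  have hγ' : γ ∈ A.B (tg G (w, [])) := hγ
  have h1 := s.h1 (w, []) hα hH
  rw [aU_nil] at h1
  have hstar : star (s.τ (w, [])) = s.τ (w, []) := by
    have h3 := c.Θ.sub_mem (c.st _ h1) h1
    have h4 : star (gapU K s.T w, s.τ (w, [])) - (gapU K s.T w, s.τ (w, [])) =
        ((0 : U K G), star (s.τ (w, [])) - s.τ (w, [])) := by
      refine Prod.ext ?_ rfl
      change star (gapU K s.T w) - gapU K s.T w = 0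
      rw [gapU_star, sub_self]
    rw [h4] at h3
    exact sub_eq_zero.mp (c.inj _ h3)
  have hidem : s.τ (w, []) * s.τ (w, []) = s.τ (w, []) := by
    have h3 := c.Θ.sub_mem (c.Θ.mul_mem h1 h1) h1
    have h4 : (gapU K s.T w, s.τ (w, [])) * (gapU K s.T w, s.τ (w, [])) -
        (gapU K s.T w, s.τ (w, [])) =
        ((0 : U K G), s.τ (w, []) * s.τ (w, []) - s.τ (w, [])) := by
      refine Prod.ext ?_ rfl
      change gapU K s.T w * gapU K s.T w - gapU K s.T w = 0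
      rw [gapU_idem, sub_self]
    rw [h4] at h3
    exact sub_eq_zero.mp (c.inj _ h3)
  have hγP : γ ∈ Psi T' := A.hB _ hα γ hγ'
  have hνP := A.hν _ hα γ hγ'
  have e1 := A.tau_mul hα hγ'
  have e2 : s.τ (w, []) * mU K T' γ γ = mU K T' γ γ := by
    have h5 := A.ini _ hα
    rw [hstar, hidem] at h5
    rw [h5]
    exact sumMU_mul_diag _ (fun x => x) (A.hB _ hα) (fun δ hδ => ⟨A.hB _ hα δ hδ, rfl⟩) hγ'
  have e3 : mU K T' (A.ν (w, []) γ) γ = mU K T' γ γ := e1.symm.trans e2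
  by_contra hne
  have e4 : mU K T' γ γ * mU K T' (A.ν (w, []) γ) γ = 0 :=
    mU_mul_ne hγP hνP.1 (fun h => hne h.symm)
  rw [e3, mU_mul_same hγP hγP rfl] at e4
  exact mU_ne_zero hγP hγP rfl e4

/-- for `α` starting in `H` the new indices start in `H'` -/
theorem SA.nu_H {s : FS c} {T' : Stage G'} (A : SA s T') {α : V × List E} (hα : α ∈ Psi s.T)
    (hH : α.1 ∈ c.H) {γ : V' × List E'} (hγ : γ ∈ A.B (tg G α)) :
    (A.ν α γ).1 ∈ c.H' := by
  classical
  have hmem : s.τ α ∈ alg0 K G' c.H' := (c.ran _).mpr ⟨_, s.h1 α hα hH⟩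
  obtain ⟨t, hT, h0⟩ := alg0_unit c.her' hmem
  have h1 := h0 t (Finset.Subset.refl _)
  by_contra hne
  have hνP := A.hν α hα γ hγ
  have e1 := A.tau_mul hα hγ
  have e2 : (∑ v ∈ t, vx K G' v) * (s.τ α * mU K T' γ γ) = s.τ α * mU K T' γ γ := by
    rw [← mul_assoc, h1]
  rw [e1, Finset.sum_mul, Finset.sum_eq_zero] at e2
  · exact mU_ne_zero hνP.1 (A.hB α hα γ hγ) hνP.2 e2.symm
  · intro v hv
    refine vx_mul_mU_ne T' γ ?_
    intro h
    exact hne (h ▸ hT v hv)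

/-- for `α` starting outside `H` the new indices start outside `H'` -/
theorem SA.nu_notH {s : FS c} {T' : Stage G'} (A : SA s T') {α : V × List E} (hα : α ∈ Psi s.T)
    (hH : α.1 ∉ c.H) {γ : V' × List E'} (hγ : γ ∈ A.B (tg G α)) :
    (A.ν α γ).1 ∉ c.H' := by
  intro hmem
  have h1 := s.h2 α hα hH _ hmem
  have hνP := A.hν α hα γ hγ
  have e1 := A.tau_mul hα hγ
  have e2 : vx K G' (A.ν α γ).1 * (s.τ α * mU K T' γ γ) = 0 := by
    rw [← mul_assoc, h1, zero_mul]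
  rw [e1, vx_mul_mU_same] at e2
  exact mU_ne_zero hνP.1 (A.hB α hα γ hγ) hνP.2 e2

end Pool.Agent.Helper32.LV
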