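import Pool.Agent.Helper32.LV.RRf

/-! The back-and-forth step: data.

Given a finite isomorphism `s : FS c` (stage `T` of `G`, images `τ α`) and a stage of `G'`, the
step constructs a finite isomorphism in the other direction on a larger stage `T'` of `G'` which
extends the inverse of `s`. -/

set_option autoImplicit false
set_option linter.unusedSectionVars false

universe k a b a' b'

namespace Pool.Agent.Helper32.LV

variable {V : Type a} {E : Type b} {K : Type k} [Field K] [StarRing K] {G : Gr V E}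
  {V' : Type a'} {E' : Type b'} {G' : Gr V' E'} {φ : RI K G G'} {c : CP φ}

/-- The images `τ α` in normal form at a stage `T'`: with `B w` the index set of the initial
projection over `w`, `τ α = ∑ γ ∈ B (tg α), mU (ν α γ) γ`. -/
structure SA (s : FS c) (T' : Stage G') where
  B : V → Finset (V' × List E')
  ν : V × List E → V' × List E' → V' × List E'
  hB : ∀ α ∈ Psi s.T, ∀ γ ∈ B (tg G α), γ ∈ Psi T'
  hν : ∀ α ∈ Psi s.T, ∀ γ ∈ B (tg G α), ν α γ ∈ Psi T' ∧ tg G' (ν α γ) = tg G' γ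
  inj : ∀ α ∈ Psi s.T, ∀ β ∈ Psi s.T, ∀ γ ∈ B (tg G α), ∀ δ ∈ B (tg G β),
    ν α γ = ν β δ → α = β ∧ γ = δ
  eq : ∀ α ∈ Psi s.T, s.τ α = ∑ γ ∈ B (tg G α), mU K T' (ν α γ) γ
  ini : ∀ α ∈ Psi s.T, star (s.τ α) * s.τ α = ∑ γ ∈ B (tg G α), mU K T' γ γ

/-- Projections in `U K G` corresponding to the diagonal matrix units of the stage `T'`. -/
structure SP {s : FS c} {T' : Stage G'} (A : SA s T') where
  /-- decomposition of the gap projection at `w` -/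
  p : V → V' × List E' → U K G
  /-- partner of the diagonal matrix unit -/
  P : V' × List E' → U K G
  pPr : ∀ w ∈ s.T.Vt, ¬ Full s.T w → ∀ γ ∈ A.B w, Pr (p w γ)
  pO : ∀ w ∈ s.T.Vt, ¬ Full s.T w → ∀ γ ∈ A.B w, ∀ δ ∈ A.B w, γ ≠ δ → p w γ * p w δ = 0
  pS : ∀ w ∈ s.T.Vt, ¬ Full s.T w → ∑ γ ∈ A.B w, p w γ = gapU K s.T w
  pR : ∀ w ∈ s.T.Vt, ¬ Full s.T w → ∀ γ ∈ A.B w, RR φ (p w γ) (mU K T' γ γ)
  pH : ∀ w ∈ s.T.Vt, ¬ Full s.T w → w ∈ c.H → ∀ γ ∈ A.B w, (p w γ, mU K T' γ γ) ∈ c.Θ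
  PPr : ∀ γ ∈ Psi T', Pr (P γ)
  PO : ∀ γ ∈ Psi T', ∀ δ ∈ Psi T', γ ≠ δ → P γ * P δ = 0
  PR : ∀ γ ∈ Psi T', RR φ (P γ) (mU K T' γ γ)
  PH : ∀ γ ∈ Psi T', γ.1 ∈ c.H' → (P γ, mU K T' γ γ) ∈ c.Θ
  PN : ∀ γ ∈ Psi T', γ.1 ∉ c.H' → ∀ h ∈ c.H, vx K G h * P γ = 0
  Pν : ∀ α ∈ Psi s.T, ∀ γ ∈ A.B (tg G α),
    P (A.ν α γ) = aU K s.T α * p (tg G α) γ * star (aU K s.T α)

end Pool.Agent.Helper32.LV
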