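import Pool.Agent.Helper32.LV.StepA

/-! The back-and-forth step: projections. PIECE 12. -/

set_option autoImplicit false
set_option linter.unusedSectionVars false

universe k a b a' b'

namespace Pool.Agent.Helper32.LV

variable {V : Type a} {E : Type b} {K : Type k} [Field K] [StarRing K] {G : Gr V E}
  {V' : Type a'} {E' : Type b'} {G' : Gr V' E'} {φ : RI K G G'} {c : CP φ}

/-- the first coordinate is determined by the second -/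
theorem CP.uniq1 (c : CP φ) {x x' : U K G} {y : U K G'} (h : (x, y) ∈ c.Θ) (h' : (x', y) ∈ c.Θ) :
    x = x' := by
  have h1 := c.Θ.sub_mem h h'
  have h2 : (x - x', (0 : U K G')) ∈ c.Θ := by simpa using h1
  exact sub_eq_zero.mp (c.inj' _ h2)

/-- the second coordinate is determined by the first -/
theorem CP.uniq2 (c : CP φ) {x : U K G} {y y' : U K G'} (h : (x, y) ∈ c.Θ) (h' : (x, y') ∈ c.Θ) :
    y = y' := by
  have h1 := c.Θ.sub_mem h h'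
  have h2 : ((0 : U K G), y - y') ∈ c.Θ := by simpa using h1
  exact sub_eq_zero.mp (c.inj _ h2)

/-- partners of projections under a closed isomorphism are projections -/
theorem CP.pr1 (c : CP φ) {x : U K G} {y : U K G'} (h : (x, y) ∈ c.Θ) (hy : Pr y) : Pr x := by
  refine ⟨(c.std x y h).mpr hy.1, ?_, ?_⟩
  · have h1 : (star x, star y) ∈ c.Θ := c.st _ h
    rw [hy.2.1] at h1
    exact c.uniq1 h1 h
  · have h1 : (x * x, y * y) ∈ c.Θ := c.Θ.mul_mem h h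
    rw [hy.2.2] at h1
    exact c.uniq1 h1 h

theorem path_mem_alg0 {H : Set V} (her : ∀ e, G.s e ∈ H → G.r e ∈ H) (l : List E) (v : V)
    (hv : v ∈ H) (hp : G.IsPath v l) (hl : ∀ e ∈ l, G.s e ≠ G.r e) :
    vx K G v * (l.map (ed K G)).prod ∈ alg0 K G H ∧ G.tgt v l ∈ H := by
  induction l generalizing v with
  | nil => exact ⟨by simpa using vx_mem_alg0 hv, hv⟩
  | cons e l ih =>
    obtain ⟨h1, h2⟩ := hp
    have hs : G.s e ∈ H := by rw [h1]; exact hv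
    have hne : G.s e ≠ G.r e := hl e List.mem_cons_self
    obtain ⟨k1, k2⟩ := ih (G.r e) (her e hs) h2 (fun f hf => hl f (List.mem_cons_of_mem _ hf))
    refine ⟨?_, k2⟩
    have e1 : vx K G v * ((e :: l).map (ed K G)).prod =
        ed K G e * (vx K G (G.r e) * (l.map (ed K G)).prod) := by
      rw [List.map_cons, List.prod_cons, ← h1, ← mul_assoc, vx_ed, ← mul_assoc, ed_vx]
    rw [e1]
    exact (alg0 K G H).mul_mem (ed_mem_alg0 hs hne) k1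

/-- the elements of the indices that start in a hereditary set -/
theorem aU_mem_alg0' {H : Set V} (her : ∀ e, G.s e ∈ H → G.r e ∈ H) {T : Stage G}
    {α : V × List E} (hα : α ∈ Psi T) (hH : α.1 ∈ H) :
    aU K T α ∈ alg0 K G H ∧ tg G α ∈ H := by
  classical
  obtain ⟨k1, k2⟩ := path_mem_alg0 (K := K) her α.2 α.1 hH hα.2.1 (Psi_nl hα)
  refine ⟨?_, k2⟩
  rw [aU, aB, pB, gapB]
  refine (alg0 K G H).mul_mem k1 ((alg0 K G H).sub_mem (vx_mem_alg0 k2)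
    ((alg0 K G H).sum_mem fun e he => ?_))
  obtain ⟨he1, he2⟩ := Finset.mem_filter.mp he
  have hs : G.s e ∈ H := by rw [he2]; exact k2
  have h1 := ed_mem_alg0 (K := K) hs (T.nl e he1)
  exact (alg0 K G H).mul_mem h1 (alg0_star h1)

theorem stepP_alg0_le_algz {H : Set V} {x : U K G} (hx : x ∈ alg0 K G H) : x ∈ algz K G H := by
  unfold alg0 at hx
  induction hx using NonUnitalAlgebra.adjoin_induction with
  | mem x hx =>
    rcases hx with ⟨v, hv, rfl⟩ | ⟨e, hs, -, h⟩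
    · exact NonUnitalAlgebra.subset_adjoin K (Or.inl ⟨v, hv, rfl⟩)
    · exact NonUnitalAlgebra.subset_adjoin K (Or.inr ⟨e, hs, h⟩)
  | zero => exact (algz K G H).zero_mem
  | add x y _ _ h1 h2 => exact (algz K G H).add_mem h1 h2
  | mul x y _ _ h1 h2 => exact (algz K G H).mul_mem h1 h2
  | smul c x _ h1 => exact (algz K G H).smul_mem _ h1

/-- the components of a decomposition of a projection -/
theorem part_mul {ι : Type*} {R : Type*} [Ring R] (s : Finset ι) (p : ι → R)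
    (h1 : ∀ i ∈ s, p i * p i = p i) (h2 : ∀ i ∈ s, ∀ j ∈ s, i ≠ j → p i * p j = 0) {i : ι}
    (hi : i ∈ s) : p i * ∑ j ∈ s, p j = p i ∧ (∑ j ∈ s, p j) * p i = p i := by
  classical
  constructor
  · rw [Finset.mul_sum, Finset.sum_eq_single i (fun j hj hji => h2 i hi j hj hji.symm)
      (fun h => absurd hi h)]
    exact h1 i hi
  · rw [Finset.sum_mul, Finset.sum_eq_single i (fun j hj hji => h2 j hj i hi hji)
      (fun h => absurd hi h)]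
    exact h1 i hi

section
variable {s : FS c} {T' : Stage G'} (A : SA s T')

/-- the elements `τ α` and the initial indices -/
theorem SA.tau_mul {α : V × List E} (hα : α ∈ Psi s.T) {γ : V' × List E'}
    (hγ : γ ∈ A.B (tg G α)) : s.τ α * mU K T' γ γ = mU K T' (A.ν α γ) γ := by
  classical
  rw [A.eq α hα, Finset.sum_mul, Finset.sum_eq_single γ]
  · exact mU_mul_same (A.hν α hα γ hγ).1 (A.hB α hα γ hγ) (A.hν α hα γ hγ).2 γ
  · intro δ hδ hne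
    exact mU_mul_ne (A.hB α hα δ hδ) (A.hB α hα γ hγ) hne
  · intro h; exact absurd hγ h

theorem SA.tau_mul_star {α : V × List E} (hα : α ∈ Psi s.T) {γ : V' × List E'}
    (hγ : γ ∈ A.B (tg G α)) :
    s.τ α * mU K T' γ γ * star (s.τ α) = mU K T' (A.ν α γ) (A.ν α γ) := by
  have h1 := A.tau_mul hα hγ
  have h2 : mU K T' γ γ * star (s.τ α) = mU K T' γ (A.ν α γ) := by
    have := congrArg star h1
    rwa [star_mul, mU_star, mU_star] at this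
  have hγ' := A.hB α hα γ hγ
  have h3 : mU K T' γ γ * mU K T' γ γ = mU K T' γ γ := mU_mul_same hγ' hγ' rfl γ
  calc s.τ α * mU K T' γ γ * star (s.τ α)
      = (s.τ α * mU K T' γ γ) * (mU K T' γ γ * star (s.τ α)) := by
        rw [← mul_assoc (s.τ α * mU K T' γ γ), mul_assoc (s.τ α) (mU K T' γ γ) (mU K T' γ γ), h3]
    _ = _ := by
        rw [h1, h2]
        exact mU_mul_same (A.hν α hα γ hγ).1 hγ' (A.hν α hα γ hγ).2 _

/-- the gap projections over the closed part -/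
theorem SA.gap_theta {w : V} (hw : w ∈ s.T.Vt) (hf : ¬ Full s.T w) (hH : w ∈ c.H) :
    (gapU K s.T w, ∑ γ ∈ A.B w, mU K T' γ γ) ∈ c.Θ := by
  have hα : (w, []) ∈ Psi s.T := vx_mem_Psi hw hf
  have h1 := s.h1 (w, []) hα hH
  rw [aU_nil] at h1
  have h2 := c.Θ.mul_mem (c.st _ h1) h1
  have h3 : (gapU K s.T w, star (s.τ (w, [])) * s.τ (w, [])) ∈ c.Θ := by
    have e1 : star (gapU K s.T w, s.τ (w, [])) * (gapU K s.T w, s.τ (w, [])) =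
        (gapU K s.T w, star (s.τ (w, [])) * s.τ (w, [])) := by
      refine Prod.ext ?_ rfl
      change star (gapU K s.T w) * gapU K s.T w = gapU K s.T w
      rw [gapU_star, gapU_idem]
    rwa [e1] at h2
  rw [A.ini (w, []) hα] at h3
  exact h3

/-- decomposition of the gap projections -/
theorem SA.exists_p (hG : G.LA) (hG' : G'.LA) (w : V) : ∃ p : V' × List E' → U K G,
    w ∈ s.T.Vt → ¬ Full s.T w →
      (∀ γ ∈ A.B w, Pr (p γ)) ∧ (∀ γ ∈ A.B w, ∀ δ ∈ A.B w, γ ≠ δ → p γ * p δ = 0) ∧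
      ∑ γ ∈ A.B w, p γ = gapU K s.T w ∧ (∀ γ ∈ A.B w, RR φ (p γ) (mU K T' γ γ)) ∧
      (w ∈ c.H → ∀ γ ∈ A.B w, (p γ, mU K T' γ γ) ∈ c.Θ) := by
  classical
  by_cases hw : w ∈ s.T.Vt
  swap
  · exact ⟨fun _ => 0, fun h => absurd h hw⟩
  by_cases hf : Full s.T w
  · exact ⟨fun _ => 0, fun _ h => absurd hf h⟩
  have hα : (w, []) ∈ Psi s.T := vx_mem_Psi hw hf
  have hB : ∀ γ ∈ A.B w, γ ∈ Psi T' := fun γ hγ => A.hB (w, []) hα γ hγ
  by_cases hH : w ∈ c.H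
  · have h1 : ∀ γ ∈ A.B w, ∃ x : U K G, (x, mU K T' γ γ) ∈ c.Θ := by
      intro γ hγ
      have h2 : γ.1 ∈ c.H' := by
        have h3 := A.nu_H hα hH (γ := γ) hγ
        rwa [A.nu_vx hw hf hH hγ] at h3
      have h4 := (aU_mem_alg0' (K := K) c.her' (hB γ hγ) h2).1
      exact (c.ran _).mp ((alg0 K G' c.H').mul_mem h4 (alg0_star h4))
    choose! x hx using h1
    have hPr : ∀ γ ∈ A.B w, Pr (x γ) := fun γ hγ => c.pr1 (hx γ hγ) (Pr.of_mU (hB γ hγ))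
    refine ⟨x, fun _ _ => ⟨hPr, ?_, ?_, ?_, fun _ => hx⟩⟩
    · intro γ hγ δ hδ hne
      have h2 := c.Θ.mul_mem (hx γ hγ) (hx δ hδ)
      have h3 : (x γ * x δ, mU K T' γ γ * mU K T' δ δ) ∈ c.Θ := h2
      rw [mU_mul_ne (hB γ hγ) (hB δ hδ) hne] at h3
      exact c.inj' _ h3
    · have h2 : (∑ γ ∈ A.B w, x γ, ∑ γ ∈ A.B w, mU K T' γ γ) ∈ c.Θ := by
        have h3 : ∑ γ ∈ A.B w, (x γ, mU K T' γ γ) ∈ c.Θ := c.Θ.sum_mem hx
        have h4 : ∑ γ ∈ A.B w, (x γ, mU K T' γ γ) =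
            (∑ γ ∈ A.B w, x γ, ∑ γ ∈ A.B w, mU K T' γ γ) := by
          refine Prod.ext ?_ ?_
          · rw [Prod.fst_sum]
          · rw [Prod.snd_sum]
        rwa [h4] at h3
      exact c.uniq1 h2 (A.gap_theta hw hf hH)
    · intro γ hγ
      exact c.rr _ _ (hx γ hγ) (hPr γ hγ)
  · have h1 := s.rr (w, []) hα
    have e1 : mU K s.T (w, []) (w, []) = gapU K s.T w := by
      rw [mU, aU_nil, gapU_star, gapU_idem]
    rw [e1] at h1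
    have h2 := Std.eqv (s.std (w, []) hα)
    have h2' := A.ini (w, []) hα
    have e2 : tg G (w, ([] : List E)) = w := rfl
    rw [e2] at h2'
    rw [h2'] at h2
    have hQ : ∀ γ ∈ A.B w, Pr (mU K T' γ γ) := fun γ hγ => Pr.of_mU (hB γ hγ)
    have hQ1 : ∀ γ ∈ A.B w, ∀ δ ∈ A.B w, γ ≠ δ → mU K T' γ γ * mU K T' δ δ = 0 :=
      fun γ hγ δ hδ hne => mU_mul_ne (hB γ hγ) (hB δ hδ) hne
    have hS := Pr.sum hG' (A.B w) (fun γ => mU K T' γ γ) hQ hQ1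
    have hg : Pr (gapU K s.T w) := Pr.of_gapU hG s.T w
    have h3 : RR φ (gapU K s.T w) (∑ γ ∈ A.B w, mU K T' γ γ) :=
      RR.congr h1 (Eqv.refl hg.2.2 hg.mem) h2 hg.mem hg.2.2 hS.2.2
    obtain ⟨p, p1, p2, p3, p4⟩ := rr_split hG hG' hg (A.B w) (fun γ => mU K T' γ γ) hQ hQ1 h3
    exact ⟨p, fun _ _ => ⟨p1, p2, p3, p4, fun h => absurd h hH⟩⟩

end

/-- PIECE 12. `p w γ` comes from `rr_split` (for `w ∉ H`; the gap projection at `w` is a partner of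
`star (τ α) * τ α` for `α = (w, [])`) or from `c.Θ` (for `w ∈ H`); `P (ν α γ)` is given by `Pν`,
`P δ` for the other `δ` from `c.Θ` if `δ.1 ∈ H'`, and from `rr_ext_fin` otherwise (with `P0`, `Q0`
the sums of the `P (ν α γ)`, `mU (ν α γ) (ν α γ)` over the `α` with `α.1 ∉ H`). -/
theorem stepP (hG : G.LA) (hG' : G'.LA) {s : FS c} {T' : Stage G'} (A : SA s T') :
    Nonempty (SP A) := by
  classical
  choose p hp using A.exists_p hG hG'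
  have pPr : ∀ w ∈ s.T.Vt, ¬ Full s.T w → ∀ γ ∈ A.B w, Pr (p w γ) :=
    fun w hw hf => (hp w hw hf).1
  have pO : ∀ w ∈ s.T.Vt, ¬ Full s.T w → ∀ γ ∈ A.B w, ∀ δ ∈ A.B w, γ ≠ δ →
      p w γ * p w δ = 0 := fun w hw hf => (hp w hw hf).2.1
  have pS : ∀ w ∈ s.T.Vt, ¬ Full s.T w → ∑ γ ∈ A.B w, p w γ = gapU K s.T w :=
    fun w hw hf => (hp w hw hf).2.2.1
  have pR : ∀ w ∈ s.T.Vt, ¬ Full s.T w → ∀ γ ∈ A.B w, RR φ (p w γ) (mU K T' γ γ) :=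
    fun w hw hf => (hp w hw hf).2.2.2.1
  have pH : ∀ w ∈ s.T.Vt, ¬ Full s.T w → w ∈ c.H → ∀ γ ∈ A.B w,
      (p w γ, mU K T' γ γ) ∈ c.Θ := fun w hw hf => (hp w hw hf).2.2.2.2
  -- the partners of the indices `ν α γ`
  obtain ⟨R, hR⟩ : ∃ R : V' × List E' → Prop,
      R = fun δ => ∃ r : (V × List E) × (V' × List E'), r.1 ∈ Psi s.T ∧ r.2 ∈ A.B (tg G r.1) ∧
        A.ν r.1 r.2 = δ := ⟨_, rfl⟩
  have hr : ∀ δ, R δ → ∃ r : (V × List E) × (V' × List E'), r.1 ∈ Psi s.T ∧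
      r.2 ∈ A.B (tg G r.1) ∧ A.ν r.1 r.2 = δ := by
    intro δ h
    rw [hR] at h
    exact h
  choose r hr1 hr2 hr3 using hr
  obtain ⟨Pa, hPa⟩ : ∃ Pa : V' × List E' → U K G, Pa = fun δ =>
      if hδ : R δ then aU K s.T (r δ hδ).1 * p (tg G (r δ hδ).1) (r δ hδ).2 *
        star (aU K s.T (r δ hδ).1) else 0 := ⟨_, rfl⟩
  have hPa' : ∀ δ (hδ : R δ), Pa δ = aU K s.T (r δ hδ).1 * p (tg G (r δ hδ).1) (r δ hδ).2 *
      star (aU K s.T (r δ hδ).1) := fun δ hδ => by rw [hPa]; exact dif_pos hδ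
  have gp : ∀ δ (hδ : R δ), gapU K s.T (tg G (r δ hδ).1) * p (tg G (r δ hδ).1) (r δ hδ).2 =
      p (tg G (r δ hδ).1) (r δ hδ).2 := by
    intro δ hδ
    have a1 := tgt_mem (hr1 δ hδ)
    have a2 := tgt_not_full (hr1 δ hδ)
    have := (part_mul (A.B (tg G (r δ hδ).1)) (p (tg G (r δ hδ).1))
      (fun i hi => (pPr _ a1 a2 i hi).2.2) (pO _ a1 a2) (hr2 δ hδ)).2
    rwa [pS _ a1 a2] at this
  have ap : ∀ δ (hδ : R δ), star (aU K s.T (r δ hδ).1) * aU K s.T (r δ hδ).1 *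
      p (tg G (r δ hδ).1) (r δ hδ).2 = p (tg G (r δ hδ).1) (r δ hδ).2 := by
    intro δ hδ
    rw [aU_star_aU_self (hr1 δ hδ)]
    exact gp δ hδ
  have prp : ∀ δ (hδ : R δ), Pr (p (tg G (r δ hδ).1) (r δ hδ).2) := fun δ hδ =>
    pPr _ (tgt_mem (hr1 δ hδ)) (tgt_not_full (hr1 δ hδ)) _ (hr2 δ hδ)
  have q1 : ∀ δ, R δ → Pr (Pa δ) := by
    intro δ hδ
    have h1 : Std (aU K s.T (r δ hδ).1) := ⟨s.T, StdAt.of_aU (hr1 δ hδ)⟩
    have h2 := prp δ hδ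
    refine ⟨?_, ?_, ?_⟩
    · rw [hPa' δ hδ]
      exact Std.mul hG (Std.mul hG h1 h2.1) h1.st
    · rw [hPa' δ hδ, star_mul, star_mul, star_star, h2.2.1, mul_assoc]
    · rw [hPa' δ hδ]
      calc aU K s.T (r δ hδ).1 * p (tg G (r δ hδ).1) (r δ hδ).2 * star (aU K s.T (r δ hδ).1) *
            (aU K s.T (r δ hδ).1 * p (tg G (r δ hδ).1) (r δ hδ).2 * star (aU K s.T (r δ hδ).1))
          = aU K s.T (r δ hδ).1 * (p (tg G (r δ hδ).1) (r δ hδ).2 * (star (aU K s.T (r δ hδ).1) *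
            aU K s.T (r δ hδ).1 * p (tg G (r δ hδ).1) (r δ hδ).2)) * star (aU K s.T (r δ hδ).1) := by
            noncomm_ring
        _ = _ := by rw [ap δ hδ, h2.2.2]
  have q2 : ∀ δ, R δ → ∀ δ', R δ' → δ ≠ δ' → Pa δ * Pa δ' = 0 := by
    intro δ hδ δ' hδ' hne
    rw [hPa' δ hδ, hPa' δ' hδ']
    rcases eq_or_ne (r δ hδ).1 (r δ' hδ').1 with h | h
    · have hne2 : (r δ hδ).2 ≠ (r δ' hδ').2 := by
        intro h2
        refine hne ?_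
        rw [← hr3 δ hδ, ← hr3 δ' hδ', h, h2]
      have a1 := tgt_mem (hr1 δ' hδ')
      have a2 := tgt_not_full (hr1 δ' hδ')
      have b1 := hr2 δ hδ
      rw [h] at b1
      have z := pO _ a1 a2 _ b1 _ (hr2 δ' hδ') hne2
      rw [h]
      calc aU K s.T (r δ' hδ').1 * p (tg G (r δ' hδ').1) (r δ hδ).2 * star (aU K s.T (r δ' hδ').1) *
            (aU K s.T (r δ' hδ').1 * p (tg G (r δ' hδ').1) (r δ' hδ').2 * star (aU K s.T (r δ' hδ').1))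
          = aU K s.T (r δ' hδ').1 * (p (tg G (r δ' hδ').1) (r δ hδ).2 * (star (aU K s.T (r δ' hδ').1) *
            aU K s.T (r δ' hδ').1 * p (tg G (r δ' hδ').1) (r δ' hδ').2)) * star (aU K s.T (r δ' hδ').1) := by
            noncomm_ring
        _ = _ := by rw [ap δ' hδ', z]; simp
    · have z := aU_star_aU_ne (K := K) (hr1 δ hδ) (hr1 δ' hδ') h
      calc aU K s.T (r δ hδ).1 * p (tg G (r δ hδ).1) (r δ hδ).2 * star (aU K s.T (r δ hδ).1) *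
            (aU K s.T (r δ' hδ').1 * p (tg G (r δ' hδ').1) (r δ' hδ').2 * star (aU K s.T (r δ' hδ').1))
          = aU K s.T (r δ hδ).1 * p (tg G (r δ hδ).1) (r δ hδ).2 * (star (aU K s.T (r δ hδ).1) *
            aU K s.T (r δ' hδ').1) * p (tg G (r δ' hδ').1) (r δ' hδ').2 * star (aU K s.T (r δ' hδ').1) := by
            noncomm_ring
        _ = 0 := by rw [z]; simp
  have hRPsi : ∀ δ, R δ → δ ∈ Psi T' := by
    intro δ hδ
    have := (A.hν _ (hr1 δ hδ) _ (hr2 δ hδ)).1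
    rwa [hr3 δ hδ] at this
  have q3 : ∀ δ, R δ → RR φ (Pa δ) (mU K T' δ δ) := by
    intro δ hδ
    have a1 := tgt_mem (hr1 δ hδ)
    have a2 := tgt_not_full (hr1 δ hδ)
    have h1 := pR _ a1 a2 _ (hr2 δ hδ)
    have h2 := prp δ hδ
    have maU := aU_mem (K := K) s.T (r δ hδ).1
    have hγ := A.hB _ (hr1 δ hδ) _ (hr2 δ hδ)
    have hν := A.hν _ (hr1 δ hδ) _ (hr2 δ hδ)
    rw [hr3 δ hδ] at hν
    refine RR.congr h1 ?_ ?_ (q1 δ hδ).mem (q1 δ hδ).2.2 (Pr.of_mU (hRPsi δ hδ)).2.2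
    · refine ⟨p (tg G (r δ hδ).1) (r δ hδ).2 * star (aU K s.T (r δ hδ).1),
        (L K G).mul_mem h2.mem (star_mem_L maU),
        aU K s.T (r δ hδ).1 * p (tg G (r δ hδ).1) (r δ hδ).2, (L K G).mul_mem maU h2.mem, ?_, ?_⟩
      · calc p (tg G (r δ hδ).1) (r δ hδ).2 * star (aU K s.T (r δ hδ).1) *
              (aU K s.T (r δ hδ).1 * p (tg G (r δ hδ).1) (r δ hδ).2)
            = p (tg G (r δ hδ).1) (r δ hδ).2 * (star (aU K s.T (r δ hδ).1) *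
              aU K s.T (r δ hδ).1 * p (tg G (r δ hδ).1) (r δ hδ).2) := by noncomm_ring
          _ = _ := by rw [ap δ hδ, h2.2.2]
      · rw [hPa' δ hδ]
        calc aU K s.T (r δ hδ).1 * p (tg G (r δ hδ).1) (r δ hδ).2 *
              (p (tg G (r δ hδ).1) (r δ hδ).2 * star (aU K s.T (r δ hδ).1))
            = aU K s.T (r δ hδ).1 * (p (tg G (r δ hδ).1) (r δ hδ).2 * p (tg G (r δ hδ).1) (r δ hδ).2) *
              star (aU K s.T (r δ hδ).1) := by noncomm_ring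
          _ = _ := by rw [h2.2.2]
    · refine ⟨mU K T' (r δ hδ).2 δ, mU_mem T' _ _, mU K T' δ (r δ hδ).2, mU_mem T' _ _, ?_, ?_⟩
      · exact mU_mul_same hγ hν.1 hν.2.symm _
      · exact mU_mul_same hν.1 hγ hν.2 _
  have hH1 : ∀ δ (hδ : R δ), δ.1 ∈ c.H' → (r δ hδ).1.1 ∈ c.H := by
    intro δ hδ hδH
    by_contra hcon
    have := A.nu_notH (hr1 δ hδ) hcon (hr2 δ hδ)
    rw [hr3 δ hδ] at this
    exact this hδH
  have hH2 : ∀ δ (hδ : R δ), δ.1 ∉ c.H' → (r δ hδ).1.1 ∉ c.H := by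
    intro δ hδ hδH hcon
    have := A.nu_H (hr1 δ hδ) hcon (hr2 δ hδ)
    rw [hr3 δ hδ] at this
    exact hδH this
  have q4 : ∀ δ, R δ → δ.1 ∈ c.H' → (Pa δ, mU K T' δ δ) ∈ c.Θ := by
    intro δ hδ hδH
    have h0 := hH1 δ hδ hδH
    have h1 := s.h1 _ (hr1 δ hδ) h0
    have h2 := (aU_mem_alg0' (K := K) c.her (hr1 δ hδ) h0).2
    have h3 := pH _ (tgt_mem (hr1 δ hδ)) (tgt_not_full (hr1 δ hδ)) h2 _ (hr2 δ hδ)
    have h4 := c.Θ.mul_mem (c.Θ.mul_mem h1 h3) (c.st _ h1)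
    have h5 := A.tau_mul_star (hr1 δ hδ) (hr2 δ hδ)
    rw [hr3 δ hδ] at h5
    rw [hPa' δ hδ, ← h5]
    exact h4
  have q5 : ∀ δ, R δ → δ.1 ∉ c.H' → ∀ h ∈ c.H, vx K G h * Pa δ = 0 := by
    intro δ hδ hδH h hh
    have h0 := hH2 δ hδ hδH
    have h1 : vx K G (r δ hδ).1.1 * aU K s.T (r δ hδ).1 = aU K s.T (r δ hδ).1 :=
      q_aB (fam_U K) s.T (Set.mem_univ _)
    have h2 : vx K G h * vx K G (r δ hδ).1.1 = 0 := vx_vx_of_ne (fun he => h0 (he ▸ hh))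
    rw [hPa' δ hδ, ← h1]
    calc vx K G h * (vx K G (r δ hδ).1.1 * aU K s.T (r δ hδ).1 * p (tg G (r δ hδ).1) (r δ hδ).2 *
          star (vx K G (r δ hδ).1.1 * aU K s.T (r δ hδ).1))
        = (vx K G h * vx K G (r δ hδ).1.1) * aU K s.T (r δ hδ).1 * p (tg G (r δ hδ).1) (r δ hδ).2 *
          star (vx K G (r δ hδ).1.1 * aU K s.T (r δ hδ).1) := by noncomm_ring
      _ = 0 := by rw [h2]; simp
  have q6 : ∀ α ∈ Psi s.T, ∀ γ ∈ A.B (tg G α), R (A.ν α γ) ∧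
      Pa (A.ν α γ) = aU K s.T α * p (tg G α) γ * star (aU K s.T α) := by
    intro α hα γ hγ
    have h1 : R (A.ν α γ) := by
      rw [hR]
      exact ⟨(α, γ), hα, hγ, rfl⟩
    refine ⟨h1, ?_⟩
    obtain ⟨e1, e2⟩ := A.inj _ (hr1 _ h1) α hα _ (hr2 _ h1) γ hγ (hr3 _ h1)
    rw [hPa' _ h1, e1, e2]
  -- the indices in the closed part which are not of the form `ν α γ`
  have hb : ∀ δ, δ ∈ Psi T' ∧ δ.1 ∈ c.H' → ∃ x : U K G, (x, mU K T' δ δ) ∈ c.Θ := by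
    rintro δ ⟨hδ, hδH⟩
    have h4 := (aU_mem_alg0' (K := K) c.her' hδ hδH).1
    exact (c.ran _).mp ((alg0 K G' c.H').mul_mem h4 (alg0_star h4))
  choose! Pb hPb using hb
  -- the other ones
  obtain ⟨S1, hS1⟩ : ∃ S1 : Finset (V' × List E'),
      S1 = (PsiF T').filter (fun δ => R δ ∧ δ.1 ∉ c.H') := ⟨_, rfl⟩
  obtain ⟨S2, hS2⟩ : ∃ S2 : Finset (V' × List E'),
      S2 = (PsiF T').filter (fun δ => ¬ R δ ∧ δ.1 ∉ c.H') := ⟨_, rfl⟩
  have mS1 : ∀ δ, δ ∈ S1 ↔ δ ∈ Psi T' ∧ R δ ∧ δ.1 ∉ c.H' := by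
    intro δ; rw [hS1, Finset.mem_filter, mem_PsiF hG']
  have mS2 : ∀ δ, δ ∈ S2 ↔ δ ∈ Psi T' ∧ ¬ R δ ∧ δ.1 ∉ c.H' := by
    intro δ; rw [hS2, Finset.mem_filter, mem_PsiF hG']
  have PrQ : ∀ δ ∈ Psi T', Pr (mU K T' δ δ) := fun δ hδ => Pr.of_mU hδ
  have OQ : ∀ δ ∈ Psi T', ∀ δ' ∈ Psi T', δ ≠ δ' → mU K T' δ δ * mU K T' δ' δ' = 0 :=
    fun δ hδ δ' hδ' hne => mU_mul_ne hδ hδ' hne
  have vQ : ∀ δ, δ.1 ∉ c.H' → ∀ h ∈ c.H', vx K G' h * mU K T' δ δ = 0 := by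
    intro δ hδ h hh
    have h1 : vx K G' δ.1 * aU K T' δ = aU K T' δ := q_aB (fam_U K) T' (Set.mem_univ _)
    have h2 : vx K G' h * vx K G' δ.1 = 0 := vx_vx_of_ne (fun he => hδ (he ▸ hh))
    rw [mU, ← mul_assoc, ← h1, ← mul_assoc, h2, zero_mul, zero_mul]
  have hP0 : Pr (∑ δ ∈ S1, Pa δ) := Pr.sum hG S1 Pa (fun δ hδ => q1 δ ((mS1 δ).mp hδ).2.1)
    (fun δ hδ δ' hδ' hne => q2 δ ((mS1 δ).mp hδ).2.1 δ' ((mS1 δ').mp hδ').2.1 hne)
  have hQ0 : Pr (∑ δ ∈ S1, mU K T' δ δ) := Pr.sum hG' S1 (fun δ => mU K T' δ δ)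
    (fun δ hδ => PrQ δ ((mS1 δ).mp hδ).1)
    (fun δ hδ δ' hδ' hne => OQ δ ((mS1 δ).mp hδ).1 δ' ((mS1 δ').mp hδ').1 hne)
  have hRR : RR φ (∑ δ ∈ S1, Pa δ) (∑ δ ∈ S1, mU K T' δ δ) :=
    RR.sum S1 Pa (fun δ => mU K T' δ δ) (fun δ hδ => q3 δ ((mS1 δ).mp hδ).2.1)
      (fun δ hδ => q1 δ ((mS1 δ).mp hδ).2.1) (fun δ hδ => PrQ δ ((mS1 δ).mp hδ).1)
      (fun δ hδ δ' hδ' hne => q2 δ ((mS1 δ).mp hδ).2.1 δ' ((mS1 δ').mp hδ').2.1 hne)
      (fun δ hδ δ' hδ' hne => OQ δ ((mS1 δ).mp hδ).1 δ' ((mS1 δ').mp hδ').1 hne) hG hG'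
  obtain ⟨Pc, c1, c2, c3, c4, c5⟩ := rr_ext_fin hG hG' c S2 (fun δ => mU K T' δ δ)
    (Q0 := ∑ δ ∈ S1, mU K T' δ δ) (P0 := ∑ δ ∈ S1, Pa δ)
    (fun δ hδ => PrQ δ ((mS2 δ).mp hδ).1) hQ0 hP0
    (fun δ hδ => vQ δ ((mS2 δ).mp hδ).2.2)
    (by
      intro h hh
      rw [Finset.mul_sum]
      exact Finset.sum_eq_zero fun δ hδ => vQ δ ((mS1 δ).mp hδ).2.2 h hh)
    (by
      intro h hh
      rw [Finset.mul_sum]
      exact Finset.sum_eq_zero fun δ hδ => q5 δ ((mS1 δ).mp hδ).2.1 ((mS1 δ).mp hδ).2.2 h hh)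
    (by
      intro δ hδ
      rw [Finset.sum_mul]
      refine Finset.sum_eq_zero fun δ' hδ' => OQ δ' ((mS1 δ').mp hδ').1 δ ((mS2 δ).mp hδ).1 ?_
      rintro rfl
      exact ((mS2 δ').mp hδ).2.1 ((mS1 δ').mp hδ').2.1)
    (fun δ hδ δ' hδ' hne => OQ δ ((mS2 δ).mp hδ).1 δ' ((mS2 δ').mp hδ').1 hne) hRR
  -- orthogonality with the last kind
  have c6 : ∀ δ, R δ → δ.1 ∉ c.H' → ∀ δ' ∈ S2, Pa δ * Pc δ' = 0 := by
    intro δ hδ hδH δ' hδ'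
    have hm : δ ∈ S1 := (mS1 δ).mpr ⟨hRPsi δ hδ, hδ, hδH⟩
    have h1 := (part_mul S1 Pa (fun i hi => (q1 i ((mS1 i).mp hi).2.1).2.2)
      (fun i hi j hj hne => q2 i ((mS1 i).mp hi).2.1 j ((mS1 j).mp hj).2.1 hne) hm).1
    rw [← h1, mul_assoc, c3 δ' hδ', mul_zero]
  -- elements with a partner in the closed part
  have cz : ∀ (x : U K G) (y : U K G'), (x, y) ∈ c.Θ → ∀ z : U K G,
      (∀ h ∈ c.H, vx K G h * z = 0) → x * z = 0 := by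
    intro x y hxy z hz
    exact algz_mul_zero (stepP_alg0_le_algz ((c.dom x).mpr ⟨y, hxy⟩)) hz c.her
  -- the family
  obtain ⟨P, hP⟩ : ∃ P : V' × List E' → U K G, P = fun δ =>
      if R δ then Pa δ else if δ.1 ∈ c.H' then Pb δ else Pc δ := ⟨_, rfl⟩
  have P1 : ∀ δ, R δ → P δ = Pa δ := by
    intro δ hδ; rw [hP]; exact if_pos hδ
  have P2 : ∀ δ, ¬ R δ → δ.1 ∈ c.H' → P δ = Pb δ := by
    intro δ hδ hδH; rw [hP]; simp only [if_neg hδ, if_pos hδH]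
  have P3 : ∀ δ, ¬ R δ → δ.1 ∉ c.H' → P δ = Pc δ := by
    intro δ hδ hδH; rw [hP]; simp only [if_neg hδ, if_neg hδH]
  have PH : ∀ δ ∈ Psi T', δ.1 ∈ c.H' → (P δ, mU K T' δ δ) ∈ c.Θ := by
    intro δ hδ hδH
    by_cases hRδ : R δ
    · rw [P1 δ hRδ]; exact q4 δ hRδ hδH
    · rw [P2 δ hRδ hδH]; exact hPb δ ⟨hδ, hδH⟩
  have PN : ∀ δ ∈ Psi T', δ.1 ∉ c.H' → ∀ h ∈ c.H, vx K G h * P δ = 0 := by
    intro δ hδ hδH
    by_cases hRδ : R δ
    · rw [P1 δ hRδ]; exact q5 δ hRδ hδH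
    · rw [P3 δ hRδ hδH]; exact c2 δ ((mS2 δ).mpr ⟨hδ, hRδ, hδH⟩)
  have PPr : ∀ δ ∈ Psi T', Pr (P δ) := by
    intro δ hδ
    by_cases hδH : δ.1 ∈ c.H'
    · exact c.pr1 (PH δ hδ hδH) (PrQ δ hδ)
    · by_cases hRδ : R δ
      · rw [P1 δ hRδ]; exact q1 δ hRδ
      · rw [P3 δ hRδ hδH]; exact c1 δ ((mS2 δ).mpr ⟨hδ, hRδ, hδH⟩)
  refine ⟨⟨p, P, pPr, pO, pS, pR, pH, PPr, ?_, ?_, PH, PN, ?_⟩⟩
  · intro δ hδ δ' hδ' hne
    by_cases hδH : δ.1 ∈ c.H'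
    · by_cases hδH' : δ'.1 ∈ c.H'
      · have h1 := c.Θ.mul_mem (PH δ hδ hδH) (PH δ' hδ' hδH')
        have h2 : (P δ * P δ', mU K T' δ δ * mU K T' δ' δ') ∈ c.Θ := h1
        rw [OQ δ hδ δ' hδ' hne] at h2
        exact c.inj' _ h2
      · exact cz _ _ (PH δ hδ hδH) _ (PN δ' hδ' hδH')
    · by_cases hδH' : δ'.1 ∈ c.H'
      · exact (PPr δ' hδ').comm_zero (PPr δ hδ) (cz _ _ (PH δ' hδ' hδH') _ (PN δ hδ hδH))
      · by_cases hRδ : R δ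
        · by_cases hRδ' : R δ'
          · rw [P1 δ hRδ, P1 δ' hRδ']; exact q2 δ hRδ δ' hRδ' hne
          · rw [P1 δ hRδ, P3 δ' hRδ' hδH']
            exact c6 δ hRδ hδH δ' ((mS2 δ').mpr ⟨hδ', hRδ', hδH'⟩)
        · have m1 : δ ∈ S2 := (mS2 δ).mpr ⟨hδ, hRδ, hδH⟩
          by_cases hRδ' : R δ'
          · have h1 := c6 δ' hRδ' hδH' δ m1
            have h2 := (q1 δ' hRδ').comm_zero (c1 δ m1) h1
            rw [P3 δ hRδ hδH, P1 δ' hRδ']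
            exact h2
          · rw [P3 δ hRδ hδH, P3 δ' hRδ' hδH']
            exact c4 δ m1 δ' ((mS2 δ').mpr ⟨hδ', hRδ', hδH'⟩) hne
  · intro δ hδ
    by_cases hRδ : R δ
    · rw [P1 δ hRδ]; exact q3 δ hRδ
    · by_cases hδH : δ.1 ∈ c.H'
      · exact c.rr _ _ (PH δ hδ hδH) (PPr δ hδ)
      · rw [P3 δ hRδ hδH]; exact c5 δ ((mS2 δ).mpr ⟨hδ, hRδ, hδH⟩)
  · intro α hα γ hγ
    obtain ⟨h1, h2⟩ := q6 α hα γ hγ
    rw [P1 _ h1, h2]

end Pool.Agent.Helper32.LV
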