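import Pool.Agent.Helper32.LV.Stage

/-! Leavitt path algebras: symmetry of closed isomorphisms. -/

set_option autoImplicit false
set_option linter.unusedSectionVars false

universe k a b a' b'

namespace Pool.Agent.Helper32.LV

variable {V : Type a} {E : Type b} {K : Type k} [Field K] [StarRing K] {G : Gr V E}
  {V' : Type a'} {E' : Type b'} {G' : Gr V' E'}

theorem list_prod_mem {l : List E} (hl : l ≠ []) : (l.map (ed K G)).prod ∈ L K G := by
  induction l with
  | nil => exact absurd rfl hl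
  | cons e l ih =>
    rw [List.map_cons, List.prod_cons]
    rcases eq_or_ne l [] with rfl | h
    · simpa using ed_mem e
    · exact (L K G).mul_mem (ed_mem e) (ih h)

theorem pU_mem (α : V × List E) : pB (vx K G) (ed K G) α ∈ L K G := by
  unfold pB
  rcases eq_or_ne α.2 [] with h | h
  · rw [h]; simpa using vx_mem _
  · exact (L K G).mul_mem (vx_mem _) (list_prod_mem h)

theorem gapU_mem (T : Stage G) (w : V) : gapU K T w ∈ L K G := by
  unfold gapU gapB
  refine (L K G).sub_mem (vx_mem _) ((L K G).sum_mem fun e _ => ?_)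
  exact (L K G).mul_mem (ed_mem e) (star_mem_L (ed_mem e))

theorem aU_mem (T : Stage G) (α : V × List E) : aU K T α ∈ L K G :=
  (L K G).mul_mem (pU_mem α) (gapU_mem T _)

theorem mU_mem (T : Stage G) (α β : V × List E) : mU K T α β ∈ L K G :=
  (L K G).mul_mem (aU_mem T α) (star_mem_L (aU_mem T β))

theorem Std.mem {x : U K G} (h : Std x) : x ∈ L K G := by
  obtain ⟨T, P, -, -, rfl⟩ := h
  exact (L K G).sum_mem fun p _ => mU_mem T _ _

theorem Eqv.symm {e f : U K G} (h : Eqv K G e f) : Eqv K G f e := by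
  obtain ⟨x, hx, y, hy, h1, h2⟩ := h
  exact ⟨y, hy, x, hx, h2, h1⟩

theorem Eqv.trans {e f g : U K G} (h : Eqv K G e f) (h' : Eqv K G f g) (he : e * e = e)
    (hg : g * g = g) : Eqv K G e g := by
  obtain ⟨x, hx, y, hy, h1, h2⟩ := h
  obtain ⟨z, hz, w, hw, h3, h4⟩ := h'
  refine ⟨x * z, (L K G).mul_mem hx hz, w * y, (L K G).mul_mem hw hy, ?_, ?_⟩
  · calc x * z * (w * y) = x * (z * w) * y := by noncomm_ring
      _ = (x * y) * (x * y) := by rw [h3, ← h2]; noncomm_ring
      _ = e := by rw [h1, he]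
  · calc w * y * (x * z) = w * (y * x) * z := by noncomm_ring
      _ = (w * z) * (w * z) := by rw [h2, ← h3]; noncomm_ring
      _ = g := by rw [h4, hg]

theorem Eqv.refl {e : U K G} (he : e * e = e) (hm : e ∈ L K G) : Eqv K G e e :=
  ⟨e, hm, e, hm, he, he⟩

theorem RR.symm {φ : RI K G G'} {p : U K G} {q : U K G'} (h : RR φ p q) (hp : p ∈ L K G) :
    RR φ.symm q p := by
  obtain ⟨x, hx, y, hy, h1, h2⟩ := h
  refine ⟨φ.g y, φ.g_mem y hy, φ.g x, φ.g_mem x hx, ?_, ?_⟩
  · rw [← φ.g_mul y hy x hx, h2]; rfl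
  · rw [← φ.g_mul x hx y hy, h1, φ.gf p hp]

/-- the swapped subalgebra -/
def swapSub {A B : Type*} [Ring A] [Algebra K A] [Ring B] [Algebra K B]
    (Θ : NonUnitalSubalgebra K (A × B)) : NonUnitalSubalgebra K (B × A) where
  carrier := {z | z.swap ∈ Θ}
  add_mem' := fun hx hy => Θ.add_mem hx hy
  zero_mem' := Θ.zero_mem
  mul_mem' := fun hx hy => Θ.mul_mem hx hy
  smul_mem' := fun c _ hx => Θ.smul_mem c hx

/-- the inverse of a closed isomorphism -/
noncomputable def CP.symm {φ : RI K G G'} (c : CP φ) : CP φ.symm where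
  H := c.H'
  H' := c.H
  Θ := swapSub c.Θ
  her := c.her'
  her' := c.her
  st z hz := c.st _ hz
  dom := c.ran
  ran := c.dom
  inj := c.inj'
  inj' := c.inj
  std x y h := (c.std y x h).symm
  rr p q h hp := by
    have h' : (q, p) ∈ c.Θ := h
    have hq : Std q := (c.std q p h').mpr hp.1
    have h1 : q * q - q = 0 := c.inj' _ (by
      have := c.Θ.sub_mem (c.Θ.mul_mem h' h') h'
      simpa [hp.2.2] using this)
    have h2 : star q - q = 0 := c.inj' _ (by
      have h3 := c.Θ.sub_mem (c.st _ h') h'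
      have h4 : star (q, p) - (q, p) = (star q - q, 0) := by
        refine Prod.ext rfl ?_
        change star p - p = 0
        rw [hp.2.1, sub_self]
      rwa [h4] at h3)
    have hPr : Pr q := ⟨hq, sub_eq_zero.mp h2, sub_eq_zero.mp h1⟩
    exact (c.rr q p h' hPr).symm hq.mem
  phi := c.phi'
  phi' := c.phi

end Pool.Agent.Helper32.LV
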