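import Pool.Agent.Helper32.LV.SeqCP
import Pool.Agent.Helper32.LV.Glue

/-! Closed isomorphisms defined everywhere. PIECE 18. -/

set_option autoImplicit false
set_option linter.unusedSectionVars false

universe k a b a' b'

namespace Pool.Agent.Helper32.LV

variable {V : Type a} {E : Type b} {K : Type k} [Field K] [StarRing K] {G : Gr V E}
  {V' : Type a'} {E' : Type b'} {G' : Gr V' E'} {φ : RI K G G'}

theorem extend (hG : G.LA) (hG' : G'.LA) (hC : G.CE) (hC' : G'.CE) (c : CP φ) (v : V) :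
    ∃ d : CP φ, CLe c d ∧ v ∈ d.H := by
  obtain ⟨d, hv, hd⟩ := exists_cp hG hG' hC hC' c v
  obtain ⟨e, he, h⟩ := glue hG hG' c d hd
  exact ⟨e, he, h hv⟩

theorem extend' (hG : G.LA) (hG' : G'.LA) (hC : G.CE) (hC' : G'.CE) (c : CP φ) (v : V') :
    ∃ d : CP φ, CLe c d ∧ v ∈ d.H' := by
  obtain ⟨d, hd, hv⟩ := extend hG' hG hC' hC c.symm v
  exact ⟨d.symm, ⟨hd.2.1, hd.1, fun z hz => hd.2.2 (show z.swap ∈ c.symm.Θ from hz)⟩, hv⟩

/-- directed unions of the generated subalgebras -/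
theorem zorn_adjoin_chain {A : Type*} [Ring A] [Algebra K A] {I : Type*} (S : Set I) (hne : S.Nonempty)
    (g : I → Set A) (hS : ∀ c ∈ S, ∀ d ∈ S, g c ⊆ g d ∨ g d ⊆ g c) (T : Set A)
    (hT : ∀ x ∈ T, ∃ c ∈ S, x ∈ g c) {x : A} (hx : x ∈ NonUnitalAlgebra.adjoin K T) :
    ∃ c ∈ S, x ∈ NonUnitalAlgebra.adjoin K (g c) := by
  have hdir : ∀ c ∈ S, ∀ d ∈ S, ∃ e ∈ S, g c ⊆ g e ∧ g d ⊆ g e := by
    intro c hc d hd
    rcases hS c hc d hd with h | h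
    · exact ⟨d, hd, h, subset_rfl⟩
    · exact ⟨c, hc, subset_rfl, h⟩
  induction hx using NonUnitalAlgebra.adjoin_induction with
  | mem x hx =>
    obtain ⟨c, hc, h⟩ := hT x hx
    exact ⟨c, hc, NonUnitalAlgebra.subset_adjoin K h⟩
  | zero =>
    obtain ⟨c, hc⟩ := hne
    exact ⟨c, hc, zero_mem _⟩
  | add x y hx hy h1 h2 =>
    obtain ⟨c, hc, h1⟩ := h1
    obtain ⟨d, hd, h2⟩ := h2
    obtain ⟨e, he, h3, h4⟩ := hdir c hc d hd
    exact ⟨e, he, add_mem (NonUnitalAlgebra.adjoin_mono h3 h1)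
      (NonUnitalAlgebra.adjoin_mono h4 h2)⟩
  | mul x y hx hy h1 h2 =>
    obtain ⟨c, hc, h1⟩ := h1
    obtain ⟨d, hd, h2⟩ := h2
    obtain ⟨e, he, h3, h4⟩ := hdir c hc d hd
    exact ⟨e, he, mul_mem (NonUnitalAlgebra.adjoin_mono h3 h1)
      (NonUnitalAlgebra.adjoin_mono h4 h2)⟩
  | smul r x hx h1 =>
    obtain ⟨c, hc, h1⟩ := h1
    exact ⟨c, hc, SMulMemClass.smul_mem r h1⟩

variable (K G)

/-- generators of `alg0` -/
def zgen0 (H : Set V) : Set (U K G) := {x | (∃ v ∈ H, x = vx K G v) ∨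
    (∃ e, G.s e ∈ H ∧ G.s e ≠ G.r e ∧ (x = ed K G e ∨ x = gh K G e))}

/-- generators of `algz` -/
def zgenz (H : Set V) : Set (U K G) := {x | (∃ v ∈ H, x = vx K G v) ∨
    (∃ e, G.s e ∈ H ∧ (x = ed K G e ∨ x = gh K G e))}

variable {K G}

theorem zorn_alg0_eq (H : Set V) : alg0 K G H = NonUnitalAlgebra.adjoin K (zgen0 K G H) := rfl

theorem zorn_algz_eq (H : Set V) : algz K G H = NonUnitalAlgebra.adjoin K (zgenz K G H) := rfl

theorem zorn_gen0_mono {H J : Set V} (h : H ⊆ J) : zgen0 K G H ⊆ zgen0 K G J := by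
  rintro x (⟨v, hv, rfl⟩ | ⟨e, he, h1, h2⟩)
  · exact Or.inl ⟨v, h hv, rfl⟩
  · exact Or.inr ⟨e, h he, h1, h2⟩

theorem zorn_genz_mono {H J : Set V} (h : H ⊆ J) : zgenz K G H ⊆ zgenz K G J := by
  rintro x (⟨v, hv, rfl⟩ | ⟨e, he, h2⟩)
  · exact Or.inl ⟨v, h hv, rfl⟩
  · exact Or.inr ⟨e, h he, h2⟩

theorem zorn_alg0_mono' {H J : Set V} (h : H ⊆ J) {x : U K G} (hx : x ∈ alg0 K G H) :
    x ∈ alg0 K G J := NonUnitalAlgebra.adjoin_mono (zorn_gen0_mono h) hx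

theorem zorn_algz_mono' {H J : Set V} (h : H ⊆ J) {x : U K G} (hx : x ∈ algz K G H) :
    x ∈ algz K G J := NonUnitalAlgebra.adjoin_mono (zorn_genz_mono h) hx

/-- unions of chains of vertex sets -/
theorem zorn_alg0_chain {I : Type*} (S : Set I) (hne : S.Nonempty) (H : I → Set V)
    (hS : ∀ c ∈ S, ∀ d ∈ S, H c ⊆ H d ∨ H d ⊆ H c) {x : U K G}
    (hx : x ∈ alg0 K G {v | ∃ c ∈ S, v ∈ H c}) : ∃ c ∈ S, x ∈ alg0 K G (H c) := by
  refine zorn_adjoin_chain S hne (fun c => zgen0 K G (H c)) ?_ _ ?_ hx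
  · intro c hc d hd
    exact (hS c hc d hd).imp zorn_gen0_mono zorn_gen0_mono
  · rintro y (⟨v, ⟨c, hc, hv⟩, rfl⟩ | ⟨e, ⟨c, hc, he⟩, h1, h2⟩)
    · exact ⟨c, hc, Or.inl ⟨v, hv, rfl⟩⟩
    · exact ⟨c, hc, Or.inr ⟨e, he, h1, h2⟩⟩

theorem zorn_algz_chain {I : Type*} (S : Set I) (hne : S.Nonempty) (H : I → Set V)
    (hS : ∀ c ∈ S, ∀ d ∈ S, H c ⊆ H d ∨ H d ⊆ H c) {x : U K G}
    (hx : x ∈ algz K G {v | ∃ c ∈ S, v ∈ H c}) : ∃ c ∈ S, x ∈ algz K G (H c) := by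
  refine zorn_adjoin_chain S hne (fun c => zgenz K G (H c)) ?_ _ ?_ hx
  · intro c hc d hd
    exact (hS c hc d hd).imp zorn_genz_mono zorn_genz_mono
  · rintro y (⟨v, ⟨c, hc, hv⟩, rfl⟩ | ⟨e, ⟨c, hc, he⟩, h2⟩)
    · exact ⟨c, hc, Or.inl ⟨v, hv, rfl⟩⟩
    · exact ⟨c, hc, Or.inr ⟨e, he, h2⟩⟩

theorem zorn_alg0_empty {x : U K G} : x ∈ alg0 K G (∅ : Set V) ↔ x = 0 := by
  constructor
  · intro hx
    have h1 : zgen0 K G (∅ : Set V) = ∅ := by
      ext y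
      constructor
      · rintro (⟨v, hv, -⟩ | ⟨e, he, -⟩)
        · exact hv
        · exact he.elim
      · intro h
        exact h.elim
    rw [zorn_alg0_eq, h1, NonUnitalAlgebra.adjoin_empty] at hx
    exact NonUnitalAlgebra.mem_bot.1 hx
  · rintro rfl
    exact zero_mem _

theorem zorn_algz_empty {x : U K G} : x ∈ algz K G (∅ : Set V) ↔ x = 0 := by
  constructor
  · intro hx
    have h1 : zgenz K G (∅ : Set V) = ∅ := by
      ext y
      constructor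
      · rintro (⟨v, hv, -⟩ | ⟨e, he, -⟩)
        · exact hv
        · exact he.elim
      · intro h
        exact h.elim
    rw [zorn_algz_eq, h1, NonUnitalAlgebra.adjoin_empty] at hx
    exact NonUnitalAlgebra.mem_bot.1 hx
  · rintro rfl
    exact zero_mem _

theorem RI.zorn_f_zero (φ : RI K G G') : φ.f 0 = 0 := by
  have h := φ.f_add 0 (zero_mem _) 0 (zero_mem _)
  rw [add_zero] at h
  exact left_eq_add.1 h

/-- the empty closed isomorphism -/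
theorem exists_empty (φ : RI K G G') : Nonempty (CP φ) := by
  have hbot : ∀ (x : U K G) (y : U K G'),
      (x, y) ∈ (⊥ : NonUnitalSubalgebra K (U K G × U K G')) ↔ x = 0 ∧ y = 0 := by
    intro x y
    rw [NonUnitalAlgebra.mem_bot, Prod.mk_eq_zero]
  refine ⟨{
    H := ∅
    H' := ∅
    Θ := ⊥
    her := fun e he => he.elim
    her' := fun e he => he.elim
    st := ?_
    dom := ?_
    ran := ?_
    inj := ?_
    inj' := ?_
    std := ?_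
    rr := ?_
    phi := ?_
    phi' := ?_ }⟩
  · intro z hz
    rw [NonUnitalAlgebra.mem_bot] at hz ⊢
    rw [hz]
    exact Prod.ext (star_zero _) (star_zero _)
  · intro x
    rw [zorn_alg0_empty]
    constructor
    · rintro rfl
      exact ⟨0, (hbot _ _).2 ⟨rfl, rfl⟩⟩
    · rintro ⟨y, hy⟩
      exact ((hbot _ _).1 hy).1
  · intro y
    rw [zorn_alg0_empty]
    constructor
    · rintro rfl
      exact ⟨0, (hbot _ _).2 ⟨rfl, rfl⟩⟩
    · rintro ⟨x, hx⟩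
      exact ((hbot _ _).1 hx).2
  · intro y hy
    exact ((hbot _ _).1 hy).2
  · intro x hx
    exact ((hbot _ _).1 hx).1
  · intro x y hxy
    obtain ⟨rfl, rfl⟩ := (hbot _ _).1 hxy
    exact ⟨fun _ => Std.zero, fun _ => Std.zero⟩
  · intro p q hpq _
    obtain ⟨rfl, rfl⟩ := (hbot _ _).1 hpq
    refine ⟨0, zero_mem _, 0, zero_mem _, ?_, zero_mul _⟩
    rw [φ.zorn_f_zero, zero_mul]
  · intro x hx
    rw [zorn_algz_empty.1 hx, φ.zorn_f_zero]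
    exact zero_mem _
  · intro y hy
    have h := φ.symm.zorn_f_zero
    rw [zorn_algz_empty.1 hy]
    change φ.g 0 ∈ _
    have h' : φ.g 0 = 0 := h
    rw [h']
    exact zero_mem _

/-- the union of a chain of closed isomorphisms -/
theorem chain_bound (S : Set (CP φ)) (hne : S.Nonempty)
    (hS : ∀ c ∈ S, ∀ d ∈ S, CLe c d ∨ CLe d c) : ∃ e : CP φ, ∀ c ∈ S, CLe c e := by
  have hH : ∀ c ∈ S, ∀ d ∈ S, c.H ⊆ d.H ∨ d.H ⊆ c.H := fun c hc d hd =>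
    (hS c hc d hd).imp (fun h => h.1) (fun h => h.1)
  have hH' : ∀ c ∈ S, ∀ d ∈ S, c.H' ⊆ d.H' ∨ d.H' ⊆ c.H' := fun c hc d hd =>
    (hS c hc d hd).imp (fun h => h.2.1) (fun h => h.2.1)
  have hdir : ∀ c ∈ S, ∀ d ∈ S, ∃ e ∈ S, c.Θ ≤ e.Θ ∧ d.Θ ≤ e.Θ := by
    intro c hc d hd
    rcases hS c hc d hd with h | h
    · exact ⟨d, hd, h.2.2, le_rfl⟩
    · exact ⟨c, hc, le_rfl, h.2.2⟩
  let Θ : NonUnitalSubalgebra K (U K G × U K G') :=
    { carrier := {z | ∃ c ∈ S, z ∈ c.Θ}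
      add_mem' := by
        rintro x y ⟨c, hc, hx⟩ ⟨d, hd, hy⟩
        obtain ⟨e, he, h1, h2⟩ := hdir c hc d hd
        exact ⟨e, he, add_mem (h1 hx) (h2 hy)⟩
      zero_mem' := by
        obtain ⟨c, hc⟩ := hne
        exact ⟨c, hc, zero_mem _⟩
      mul_mem' := by
        rintro x y ⟨c, hc, hx⟩ ⟨d, hd, hy⟩
        obtain ⟨e, he, h1, h2⟩ := hdir c hc d hd
        exact ⟨e, he, mul_mem (h1 hx) (h2 hy)⟩
      smul_mem' := by
        rintro r x ⟨c, hc, hx⟩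
        exact ⟨c, hc, SMulMemClass.smul_mem r hx⟩ }
  have hΘ : ∀ z, z ∈ Θ ↔ ∃ c ∈ S, z ∈ c.Θ := fun z => Iff.rfl
  refine ⟨{
    H := {v | ∃ c ∈ S, v ∈ c.H}
    H' := {v | ∃ c ∈ S, v ∈ c.H'}
    Θ := Θ
    her := ?_
    her' := ?_
    st := ?_
    dom := ?_
    ran := ?_
    inj := ?_
    inj' := ?_
    std := ?_
    rr := ?_
    phi := ?_
    phi' := ?_ }, ?_⟩
  · rintro e ⟨c, hc, he⟩
    exact ⟨c, hc, c.her e he⟩
  · rintro e ⟨c, hc, he⟩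
    exact ⟨c, hc, c.her' e he⟩
  · intro z hz
    obtain ⟨c, hc, h⟩ := (hΘ z).1 hz
    exact (hΘ _).2 ⟨c, hc, c.st z h⟩
  · intro x
    constructor
    · intro hx
      obtain ⟨c, hc, h⟩ := zorn_alg0_chain S hne (fun c => c.H) hH hx
      obtain ⟨y, hy⟩ := (c.dom x).1 h
      exact ⟨y, (hΘ _).2 ⟨c, hc, hy⟩⟩
    · rintro ⟨y, hy⟩
      obtain ⟨c, hc, h⟩ := (hΘ _).1 hy
      exact zorn_alg0_mono' (J := {v | ∃ c ∈ S, v ∈ c.H}) (fun v hv => ⟨c, hc, hv⟩)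
        ((c.dom x).2 ⟨y, h⟩)
  · intro y
    constructor
    · intro hy
      obtain ⟨c, hc, h⟩ := zorn_alg0_chain S hne (fun c => c.H') hH' hy
      obtain ⟨x, hx⟩ := (c.ran y).1 h
      exact ⟨x, (hΘ _).2 ⟨c, hc, hx⟩⟩
    · rintro ⟨x, hx⟩
      obtain ⟨c, hc, h⟩ := (hΘ _).1 hx
      exact zorn_alg0_mono' (J := {v | ∃ c ∈ S, v ∈ c.H'}) (fun v hv => ⟨c, hc, hv⟩)
        ((c.ran y).2 ⟨x, h⟩)
  · intro y hy
    obtain ⟨c, hc, h⟩ := (hΘ _).1 hy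
    exact c.inj y h
  · intro x hx
    obtain ⟨c, hc, h⟩ := (hΘ _).1 hx
    exact c.inj' x h
  · intro x y hxy
    obtain ⟨c, hc, h⟩ := (hΘ _).1 hxy
    exact c.std x y h
  · intro p q hpq
    obtain ⟨c, hc, h⟩ := (hΘ _).1 hpq
    exact c.rr p q h
  · intro x hx
    obtain ⟨c, hc, h⟩ := zorn_algz_chain S hne (fun c => c.H) hH hx
    exact zorn_algz_mono' (J := {v | ∃ c ∈ S, v ∈ c.H'}) (fun v hv => ⟨c, hc, hv⟩) (c.phi x h)
  · intro y hy
    obtain ⟨c, hc, h⟩ := zorn_algz_chain S hne (fun c => c.H') hH' hy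
    exact zorn_algz_mono' (J := {v | ∃ c ∈ S, v ∈ c.H}) (fun v hv => ⟨c, hc, hv⟩) (c.phi' y h)
  · intro c hc
    exact ⟨fun v hv => ⟨c, hc, hv⟩, fun v hv => ⟨c, hc, hv⟩, fun z hz => (hΘ z).2 ⟨c, hc, hz⟩⟩

/-- Zorn's lemma -/
theorem exists_full (hG : G.LA) (hG' : G'.LA) (hC : G.CE) (hC' : G'.CE) (φ : RI K G G') :
    ∃ c : CP φ, c.H = Set.univ ∧ c.H' = Set.univ := by
  obtain ⟨m, hm⟩ := exists_maximal_of_chains_bounded (r := fun c d : CP φ => CLe c d) (by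
      intro S hS
      rcases S.eq_empty_or_nonempty with rfl | hne
      · obtain ⟨e⟩ := exists_empty φ
        exact ⟨e, fun c hc => hc.elim⟩
      · refine chain_bound S hne ?_
        intro c hc d hd
        by_cases h : c = d
        · subst h
          exact Or.inl ⟨subset_rfl, subset_rfl, le_rfl⟩
        · exact hS hc hd h)
    (fun {a b c} h1 h2 => ⟨h1.1.trans h2.1, h1.2.1.trans h2.2.1, h1.2.2.trans h2.2.2⟩)
  refine ⟨m, Set.eq_univ_of_forall ?_, Set.eq_univ_of_forall ?_⟩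
  · intro v
    obtain ⟨d, hd, hv⟩ := extend hG hG' hC hC' m v
    exact (hm d hd).1 hv
  · intro v
    obtain ⟨d, hd, hv⟩ := extend' hG hG' hC hC' m v
    exact (hm d hd).2.1 hv

end Pool.Agent.Helper32.LV
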